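import Mathlib

/-!
# Residual Selmer groups over global function fields: the abstract part

`KD` collects what is used of Kummer theory with local conditions: a group `M` (the multiplicative
group of a field `K` containing the `p`-th roots of unity), a group `G` (its Galois group), the places
`P`, all of them of residue characteristic different from `p`.
Every `def S_... : Prop` is proved in a file of its own, as a theorem `s_... : S_...`.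
-/

set_option autoImplicit false
set_option linter.unusedSectionVars false

namespace Pool.Agent.NH7.GF

/-- the continuous homomorphisms to `ℤ/p` -/
structure Hm {p : ℕ} {G : Type} [Group G] [TopologicalSpace G] (x : G → ZMod p) : Prop where
  c : Continuous x
  m : ∀ g h, x (g * h) = x g + x h

section hm

variable {p : ℕ} {G : Type} [Group G] [TopologicalSpace G]

theorem Hm.zero : Hm (0 : G → ZMod p) := ⟨continuous_const, fun _ _ => (add_zero _).symm⟩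

theorem Hm.add {x y : G → ZMod p} (hx : Hm x) (hy : Hm y) : Hm (x + y) :=
  ⟨hx.c.add hy.c, fun g h => by
    simp only [Pi.add_apply]
    rw [hx.m, hy.m]
    ring⟩

theorem Hm.smul {x : G → ZMod p} (a : ZMod p) (hx : Hm x) : Hm (a • x) :=
  ⟨continuous_const.mul hx.c, fun g h => by
    simp only [Pi.smul_apply, smul_eq_mul]
    rw [hx.m]
    ring⟩

end hm

/-- Kummer theory with local conditions -/
structure KD (p : ℕ) [Fact p.Prime] (M : Type) [CommGroup M] (G : Type) [Group G]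
    [TopologicalSpace G] (P : Type) where
  od : P → M → ℤ
  kp : M → G → ZMod p
  D : P → Subgroup G
  I : P → Subgroup G
  fr : P → G
  od_mul : ∀ v a b, od v (a * b) = od v a + od v b
  od_fin : ∀ a, {v | od v a ≠ 0}.Finite
  kp_mul : ∀ a b g, kp (a * b) g = kp a g + kp b g
  kp_hm : ∀ a, Hm (kp a)
  kp_surj : ∀ x : G → ZMod p, Hm x → ∃ a, ∀ g, kp a g = x g
  I_le : ∀ v, I v ≤ D v
  fr_mem : ∀ v, fr v ∈ D v
  inr_zero : ∀ v a, (p : ℤ) ∣ od v a → ∀ g ∈ I v, kp a g = 0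
  dvd_of_inr : ∀ v a, (∀ g ∈ I v, kp a g = 0) → (p : ℤ) ∣ od v a
  fr_zero : ∀ (v : P) (x : G → ZMod p), Hm x → (∀ g ∈ I v, x g = 0) → x (fr v) = 0 →
    ∀ g ∈ D v, x g = 0

variable {p : ℕ} [hp : Fact p.Prime] {M : Type} [CommGroup M] {G : Type} [Group G]
  [TopologicalSpace G] {P : Type}

namespace KD

variable (d : KD p M G P)

theorem od_one (v : P) : d.od v 1 = 0 := by
  have h := d.od_mul v 1 1
  rw [mul_one] at h
  omega

theorem od_inv (v : P) (a : M) : d.od v a⁻¹ = - d.od v a := by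
  have h := d.od_mul v a⁻¹ a
  rw [inv_mul_cancel, od_one] at h
  omega

theorem od_pow (v : P) (a : M) (n : ℕ) : d.od v (a ^ n) = n * d.od v a := by
  induction n with
  | zero => rw [pow_zero, od_one]; simp
  | succ n ih => rw [pow_succ, d.od_mul, ih]; push_cast; ring

theorem od_zpow (v : P) (a : M) (n : ℤ) : d.od v (a ^ n) = n * d.od v a := by
  cases n with
  | ofNat n => simpa using d.od_pow v a n
  | negSucc n =>
    rw [zpow_negSucc, od_inv, od_pow]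
    simp only [Int.negSucc_eq]
    push_cast
    ring

theorem kp_one (g : G) : d.kp 1 g = 0 := by
  have h := d.kp_mul 1 1 g
  rw [mul_one] at h
  exact left_eq_add.1 h

theorem kp_inv (a : M) (g : G) : d.kp a⁻¹ g = - d.kp a g := by
  have h := d.kp_mul a⁻¹ a g
  rw [inv_mul_cancel, kp_one] at h
  exact eq_neg_of_add_eq_zero_left h.symm

theorem kp_pow (a : M) (n : ℕ) (g : G) : d.kp (a ^ n) g = n * d.kp a g := by
  induction n with
  | zero => rw [pow_zero, kp_one]; simp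
  | succ n ih => rw [pow_succ, d.kp_mul, ih]; push_cast; ring

theorem kp_zpow (a : M) (n : ℤ) (g : G) : d.kp (a ^ n) g = n * d.kp a g := by
  cases n with
  | ofNat n => simpa using d.kp_pow a n g
  | negSucc n =>
    rw [zpow_negSucc, kp_inv, kp_pow]
    push_cast
    ring

theorem kp_ppow (a : M) (g : G) : d.kp (a ^ p) g = 0 := by
  rw [kp_pow, CharP.cast_eq_zero, zero_mul]

/-- the elements with trivial characters at the places of `T` -/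
def H0 (T : Finset P) : Subgroup M where
  carrier := {a | ∀ v ∈ T, ∀ g ∈ d.D v, d.kp a g = 0}
  mul_mem' := fun {a b} ha hb v hv g hg => by
    rw [d.kp_mul, ha v hv g hg, hb v hv g hg, add_zero]
  one_mem' := fun v _ g _ => d.kp_one g
  inv_mem' := fun {a} ha v hv g hg => by
    rw [d.kp_inv, ha v hv g hg, neg_zero]

theorem mem_H0 {T : Finset P} {a : M} : a ∈ d.H0 T ↔ ∀ v ∈ T, ∀ g ∈ d.D v, d.kp a g = 0 := Iff.rfl

/-- the elements with the conditions of the Selmer group at the places of `T` -/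
def HL (T : Finset P) (lam : P → G → ZMod p) : Subgroup M where
  carrier := {a | ∀ v ∈ T, ∃ c : ZMod p, ∀ g ∈ d.D v, d.kp a g = c * lam v g}
  mul_mem' := fun {x y} hx hy v hv => by
    obtain ⟨a, ha⟩ := hx v hv
    obtain ⟨b, hb⟩ := hy v hv
    exact ⟨a + b, fun g hg => by rw [d.kp_mul, ha g hg, hb g hg]; ring⟩
  one_mem' := fun v _ => ⟨0, fun g _ => by rw [d.kp_one, zero_mul]⟩
  inv_mem' := fun {x} hx v hv => by
    obtain ⟨a, ha⟩ := hx v hv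
    exact ⟨-a, fun g hg => by rw [d.kp_inv, ha g hg]; ring⟩

theorem mem_HL {T : Finset P} {lam : P → G → ZMod p} {a : M} :
    a ∈ d.HL T lam ↔ ∀ v ∈ T, ∃ c : ZMod p, ∀ g ∈ d.D v, d.kp a g = c * lam v g := Iff.rfl

/-- the divisors which modulo `p` and outside `T` are divisors of elements of `H` -/
def Rel (T : Finset P) (H : Subgroup M) : AddSubgroup (P →₀ ℤ) where
  carrier := {n | ∃ a ∈ H, ∀ v ∉ T, (p : ℤ) ∣ n v + d.od v a}
  add_mem' := by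
    rintro a b ⟨x, hx, h1⟩ ⟨y, hy, h2⟩
    refine ⟨x * y, H.mul_mem hx hy, fun v hv => ?_⟩
    rw [d.od_mul, Finsupp.add_apply]
    have h := dvd_add (h1 v hv) (h2 v hv)
    rwa [show a v + b v + (d.od v x + d.od v y) = a v + d.od v x + (b v + d.od v y) by ring]
  zero_mem' := ⟨1, H.one_mem, fun v _ => by
    rw [d.od_one]; simp⟩
  neg_mem' := by
    rintro a ⟨x, hx, h1⟩
    refine ⟨x⁻¹, H.inv_mem hx, fun v hv => ?_⟩
    rw [d.od_inv, Finsupp.neg_apply, ← neg_add, dvd_neg]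
    exact h1 v hv

theorem mem_Rel {T : Finset P} {H : Subgroup M} {n : P →₀ ℤ} :
    n ∈ d.Rel T H ↔ ∃ a ∈ H, ∀ v ∉ T, (p : ℤ) ∣ n v + d.od v a := Iff.rfl

/-- the class group of `H` modulo `p` -/
abbrev Cq (T : Finset P) (H : Subgroup M) : Type := (P →₀ ℤ) ⧸ d.Rel T H

/-- the class of a place -/
noncomputable def cl (T : Finset P) (H : Subgroup M) (v : P) : d.Cq T H :=
  QuotientAddGroup.mk (Finsupp.single v 1)

/-- the Selmer group -/
def Sel (T : Finset P) (lam : P → G → ZMod p) : Submodule (ZMod p) (G → ZMod p) where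
  carrier := {x | ∃ a ∈ d.HL T lam, (∀ v ∉ T, (p : ℤ) ∣ d.od v a) ∧ ∀ g, x g = d.kp a g}
  add_mem' := by
    rintro x y ⟨a, h1, h2, h3⟩ ⟨b, k1, k2, k3⟩
    refine ⟨a * b, Subgroup.mul_mem _ h1 k1, fun v hv => ?_, fun g => ?_⟩
    · rw [d.od_mul]
      exact dvd_add (h2 v hv) (k2 v hv)
    · rw [Pi.add_apply, h3, k3, d.kp_mul]
  zero_mem' := ⟨1, Subgroup.one_mem _, fun v _ => by
    rw [d.od_one]; simp, fun g => by rw [d.kp_one]; rfl⟩
  smul_mem' := by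
    rintro c x ⟨a, h1, h2, h3⟩
    refine ⟨a ^ c.val, Subgroup.pow_mem _ h1 _, fun v hv => ?_, fun g => ?_⟩
    · rw [d.od_pow]
      exact (h2 v hv).mul_left _
    · rw [Pi.smul_apply, smul_eq_mul, h3, d.kp_pow, ZMod.natCast_zmod_val]

theorem mem_Sel {T : Finset P} {lam : P → G → ZMod p} {x : G → ZMod p} :
    x ∈ d.Sel T lam ↔ ∃ a ∈ d.HL T lam, (∀ v ∉ T, (p : ℤ) ∣ d.od v a) ∧ ∀ g, x g = d.kp a g :=
  Iff.rfl

/-- the class group outside `T` is trivial -/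
def Cls (T : Finset P) : Prop := ∀ n : P →₀ ℤ, ∃ a : M, ∀ v ∉ T, n v = d.od v a

/-- the global properties that are used -/
structure Gl : Prop where
  ne : Nonempty P
  cls : ∀ T : Finset P, ∃ T' : Finset P, T ⊆ T' ∧ d.Cls T'
  sun : ∀ T : Finset P, d.Cls T → ∃ B : Finset M, B.card ≤ p ^ T.card ∧
    ∀ a : M, (∀ v ∉ T, (p : ℤ) ∣ d.od v a) → ∃ b ∈ B, ∃ s : M, a = b * s ^ p
  loc : ∀ T : Finset P, Finite (M ⧸ d.H0 T) ∧ p ^ (2 * T.card) ≤ Nat.card (M ⧸ d.H0 T)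
  an : ∀ T : Finset P, T.Nonempty → ∀ A : Submodule (ZMod p) (G → ZMod p), Finite A →
    (∀ x ∈ A, Hm x) → (∀ x ∈ A, ∀ v ∉ T, ∀ g ∈ d.I v, x g = 0) →
    ∀ B : Submodule (ZMod p) (Module.Dual (ZMod p) A), ∀ H : Subgroup M, d.H0 T ≤ H →
    Finite (d.Cq T H) → ∀ V : Set (d.Cq T H),
    (Nat.card B : ℝ) / (Nat.card A : ℝ) + (V.ncard : ℝ) / (Nat.card (d.Cq T H) : ℝ) < 1 →
      {v : P | v ∉ T ∧ (¬ ∃ f ∈ B, ∀ x : A, (x : G → ZMod p) (d.fr v) = f x) ∧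
        d.cl T H v ∉ V}.Infinite
  cla : ∀ T : Finset P, T.Nonempty → ∀ H : Subgroup M, d.H0 T ≤ H → Finite (d.Cq T H) →
    ∀ c : d.Cq T H, {v : P | v ∉ T ∧ d.cl T H v = c}.Infinite

end KD

/-- N1. The class groups are finite. -/
def S_fin : Prop := ∀ (p : ℕ) [Fact p.Prime] (M : Type) [CommGroup M] (G : Type) [Group G]
  [TopologicalSpace G] (P : Type) (d : KD p M G P), d.Gl → ∀ (T : Finset P) (H : Subgroup M),
    d.H0 T ≤ H → Finite (d.Cq T H)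

/-- N2. Selmer groups are finite. -/
def S_sfin : Prop := ∀ (p : ℕ) [Fact p.Prime] (M : Type) [CommGroup M] (G : Type) [Group G]
  [TopologicalSpace G] (P : Type) (d : KD p M G P), d.Gl → ∀ (T : Finset P)
  (lam : P → G → ZMod p), Finite (d.Sel T lam)

/-- N3. Counting. -/
def S_ct : Prop := ∀ (p : ℕ) [Fact p.Prime] (M : Type) [CommGroup M] (G : Type) [Group G]
  [TopologicalSpace G] (P : Type) (d : KD p M G P), d.Gl → ∀ (T : Finset P), d.Cls T →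
  ∀ lam : P → G → ZMod p, Nat.card (d.Sel T lam) ≤ Nat.card (d.Cq T (d.HL T lam))

/-- N4. The choice of three places. -/
def S_pick : Prop := ∀ (p : ℕ) [Fact p.Prime] (M : Type) [CommGroup M] (G : Type) [Group G]
  [TopologicalSpace G] (P : Type) (d : KD p M G P), p ≠ 2 → d.Gl → ∀ (T : Finset P),
  T.Nonempty → d.Cls T → ∀ lam : P → G → ZMod p, p ^ 2 ≤ Nat.card (d.Sel T lam) →
    ∃ (v₁ v₂ v₃ : P) (κ : M), v₁ ∉ T ∧ v₂ ∉ T ∧ v₃ ∉ T ∧ v₁ ≠ v₂ ∧ v₁ ≠ v₃ ∧ v₂ ≠ v₃ ∧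
      κ ∈ d.H0 T ∧
      (∀ v ∉ T, (p : ℤ) ∣ (Finsupp.single v₁ 1 + Finsupp.single v₂ 1 + Finsupp.single v₃ 1 :
        P →₀ ℤ) v + d.od v κ) ∧
      (∀ a b : ℤ, a • d.cl T (d.HL T lam) v₁ + b • d.cl T (d.HL T lam) v₂ = 0 →
        (p : ℤ) ∣ a ∧ (p : ℤ) ∣ b) ∧
      (∀ a b : ZMod p, (∀ x ∈ d.Sel T lam, a * x (d.fr v₁) + b * x (d.fr v₂) = 0) →
        a = 0 ∧ b = 0)

/-- N5. The Selmer group drops. -/
def S_drop : Prop := ∀ (p : ℕ) [Fact p.Prime] (M : Type) [CommGroup M] (G : Type) [Group G]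
  [TopologicalSpace G] (P : Type) (d : KD p M G P) (T : Finset P) (lam : P → G → ZMod p),
  Finite (d.Sel T lam) → ∀ (v₁ v₂ v₃ : P) (κ : M), v₁ ∉ T → v₂ ∉ T → v₃ ∉ T → v₁ ≠ v₂ →
      v₁ ≠ v₃ → v₂ ≠ v₃ → κ ∈ d.H0 T →
      (∀ v ∉ T, (p : ℤ) ∣ (Finsupp.single v₁ 1 + Finsupp.single v₂ 1 + Finsupp.single v₃ 1 :
        P →₀ ℤ) v + d.od v κ) →
      (∀ a b : ℤ, a • d.cl T (d.HL T lam) v₁ + b • d.cl T (d.HL T lam) v₂ = 0 →
        (p : ℤ) ∣ a ∧ (p : ℤ) ∣ b) →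
      (∀ a b : ZMod p, (∀ x ∈ d.Sel T lam, a * x (d.fr v₁) + b * x (d.fr v₂) = 0) →
        a = 0 ∧ b = 0) →
  ∀ χ ∈ d.Sel T lam, ∀ (T' : Finset P) (lam' : P → G → ZMod p),
    (∀ v, v ∈ T' ↔ v ∈ T ∨ v = v₁ ∨ v = v₂ ∨ v = v₃) →
    (∀ v ∈ T, ∀ g ∈ d.D v, lam' v g = lam v g) →
    (∀ v ∈ T', v ∉ T → ∀ g ∈ d.D v, lam' v g = χ g + d.kp κ g) →
    Nat.card (d.Sel T' lam') * p ≤ Nat.card (d.Sel T lam) ∧
    (χ + d.kp κ) ∈ d.Sel T' lam' ∧
    ∀ v ∈ T', v ∉ T → ∃ g ∈ d.I v, χ g + d.kp κ g ≠ 0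

/-- N6. A first auxiliary element. -/
def S_aux : Prop := ∀ (p : ℕ) [Fact p.Prime] (M : Type) [CommGroup M] (G : Type) [Group G]
  [TopologicalSpace G] (P : Type) (d : KD p M G P), d.Gl → ∀ (T : Finset P), T.Nonempty →
    ∃ (v₁ v₂ : P) (κ : M), v₁ ∉ T ∧ v₂ ∉ T ∧ v₁ ≠ v₂ ∧ κ ∈ d.H0 T ∧
      ∀ v ∉ T, (p : ℤ) ∣ (Finsupp.single v₁ 1 + Finsupp.single v₂ 1 : P →₀ ℤ) v + d.od v κ

/-- N7. The induction. -/
def S_loop : Prop := ∀ (p : ℕ) [Fact p.Prime] (M : Type) [CommGroup M] (G : Type) [Group G]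
  [TopologicalSpace G] (P : Type) (d : KD p M G P), p ≠ 2 → d.Gl → ∀ (T₀ : Finset P),
  T₀.Nonempty → d.Cls T₀ → ∀ lam : P → G → ZMod p, ∀ χ₀ ∈ d.Sel T₀ lam,
    ∃ (T : Finset P) (χ : G → ZMod p), T₀ ⊆ T ∧ T₀ ≠ T ∧ Hm χ ∧
    (∀ v ∈ T₀, ∀ g ∈ d.D v, χ g = χ₀ g) ∧
    (∀ v ∈ T, v ∉ T₀ → ∃ g ∈ d.I v, χ g ≠ 0) ∧ (∀ v ∉ T, ∀ g ∈ d.I v, χ g = 0) ∧
    ∀ lam' : P → G → ZMod p, (∀ v ∈ T₀, ∀ g ∈ d.D v, lam' v g = lam v g) →
      (∀ v ∈ T, v ∉ T₀ → ∀ g ∈ d.D v, lam' v g = χ g) →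
      ∀ x ∈ d.Sel T lam', ∃ a : ZMod p, ∀ g, x g = a * χ g

/-- N8. The characters with trivial residual Selmer group. -/
def S_char : Prop := ∀ (p : ℕ) [Fact p.Prime] (M : Type) [CommGroup M] (G : Type) [Group G]
  [TopologicalSpace G] (P : Type) (d : KD p M G P), p ≠ 2 → d.Gl → ∀ (S B : Finset P)
  (χ₀ : G → ZMod p), Hm χ₀ → (∀ v ∈ S, ∃ g ∈ d.D v, χ₀ g ≠ 0) →
    ∃ χ : G → ZMod p, Hm χ ∧ (∀ v, v ∈ B ∨ v ∈ S → ∀ g ∈ d.D v, χ g = χ₀ g) ∧
      (∃ v, v ∉ B ∧ v ∉ S ∧ ∃ g ∈ d.I v, χ g ≠ 0) ∧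
      ∀ x : G → ZMod p, Hm x →
        (∀ v ∉ S, (∀ g ∈ d.I v, χ g = 0) → ∀ g ∈ d.I v, x g = 0) →
        (∀ v ∉ S, (∃ g ∈ d.I v, χ g ≠ 0) → ∃ a : ZMod p, ∀ g ∈ d.D v, x g = a * χ g) →
        (∀ v ∈ S, ∃ a : ZMod p, ∀ g ∈ d.D v, x g = a * χ g) →
        ∃ a : ZMod p, ∀ g, x g = a * χ g

end Pool.Agent.NH7.GF
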