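import Pool.Agent.NH7.GF.Stms

/-!
# Places with conditions on the Frobenius elements and on the classes
-/

set_option autoImplicit false
set_option linter.unusedSectionVars false

namespace Pool.Agent.NH7.GF

open Pool.Agent.H525R3.FFp

/-- the number of elements of the annihilator -/
theorem anp_card {p : ℕ} [Fact p.Prime] {V : Type} [AddCommGroup V] [Module (ZMod p) V] [Finite V]
    (B : Submodule (ZMod p) (Module.Dual (ZMod p) V)) :
    Nat.card B * Nat.card B.dualCoannihilator = Nat.card V := by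
  have hfd : FiniteDimensional (ZMod p) V := Module.Finite.of_finite
  have e := Subspace.finrank_add_finrank_dualCoannihilator_eq B
  rw [Module.natCard_eq_pow_finrank (K := ZMod p) (V := B),
    Module.natCard_eq_pow_finrank (K := ZMod p) (V := B.dualCoannihilator),
    Module.natCard_eq_pow_finrank (K := ZMod p) (V := V), ← pow_add, e]

/-- sums over a set covered by three sets -/
theorem anp_sum {ι : Type} (f : ι → ℝ) (hf : ∀ v, 0 ≤ f v) (hs : Summable f) (F : Finset ι)
    (X Y : Set ι) (hc : ∀ v, v ∈ F ∨ v ∈ X ∨ v ∈ Y) :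
    ∑' v, f v ≤ ∑ v ∈ F, f v + ∑' v : X, f v + ∑' v : Y, f v := by
  classical
  have hF : Summable ((F : Set ι).indicator f) := hs.indicator _
  have hX : Summable (X.indicator f) := hs.indicator _
  have hY : Summable (Y.indicator f) := hs.indicator _
  have e1 : ∑ v ∈ F, f v = ∑' v, (F : Set ι).indicator f v := by
    rw [← tsum_subtype (F : Set ι) f]
    exact (Finset.tsum_subtype' F f).symm
  have e2 : ∑' v : X, f v = ∑' v, X.indicator f v := tsum_subtype X f
  have e3 : ∑' v : Y, f v = ∑' v, Y.indicator f v := tsum_subtype Y f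
  rw [e1, e2, e3, ← hF.tsum_add hX, ← (hF.add hX).tsum_add hY]
  refine hs.tsum_le_tsum (fun v => ?_) ((hF.add hX).add hY)
  have a1 : 0 ≤ (F : Set ι).indicator f v := Set.indicator_nonneg (fun v _ => hf v) v
  have a2 : 0 ≤ X.indicator f v := Set.indicator_nonneg (fun v _ => hf v) v
  have a3 : 0 ≤ Y.indicator f v := Set.indicator_nonneg (fun v _ => hf v) v
  rcases hc v with h | h | h
  · have : (F : Set ι).indicator f v = f v := Set.indicator_of_mem (Finset.mem_coe.2 h) f
    linarith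
  · have : X.indicator f v = f v := Set.indicator_of_mem h f
    linarith
  · have : Y.indicator f v = f v := Set.indicator_of_mem h f
    linarith

/-- the contradiction at the pole -/
theorem anp_pole {q c K : ℝ} (hq : 0 < q) (hc : 0 < c)
    (h : ∀ u : ℝ, 0 < u → u < 1 / q → c * (1 / (1 - q * u)) ≤ K) : False := by
  set M : ℝ := max (K / c) 0 + 2 with hM
  have hM1 : 1 < M := by
    have := le_max_right (K / c) 0
    rw [hM]; linarith
  have hM0 : 0 < M := by linarith
  have h1 : 1 / M < 1 := by rw [div_lt_one hM0]; exact hM1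
  have h2 : 0 < 1 / M := by positivity
  have h3 := h ((1 - 1 / M) / q) (div_pos (by linarith) hq)
    (by rw [div_lt_div_iff_of_pos_right hq]; linarith)
  have h4 : 1 - q * ((1 - 1 / M) / q) = 1 / M := by
    field_simp
    ring
  rw [h4, one_div_one_div] at h3
  have h5 : K / c < M := by
    have := le_max_left (K / c) 0
    rw [hM]; linarith
  rw [div_lt_iff₀ hc] at h5
  linarith [mul_comm M c]

theorem s_an (h1 : S_pol) (h2 : S_cld) (h3 : S_dns) : S_an := by
  intro k K _ _ _ _ _ p _ ζ hζ h hp T hT A hA hAm hAI B H hH hfin V hlt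
  classical
  by_contra hnot
  rw [Set.not_infinite] at hnot
  obtain ⟨B1, hB1⟩ := h1 k K
  obtain ⟨B2, hB2⟩ := h2 k K p ζ hζ h hp T hT H hH hfin V
  set N : Submodule (ZMod p) (GK K → ZMod p) := B.dualCoannihilator.map A.subtype with hN
  have hNA : ∀ x ∈ N, x ∈ A := by
    rintro x ⟨y, -, rfl⟩
    exact y.2
  have hNfin : Finite N := by
    have : (N : Set (GK K → ZMod p)).Finite :=
      Set.Finite.subset (Set.toFinite (A : Set (GK K → ZMod p))) fun x hx => hNA x hx
    exact this.to_subtype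
  obtain ⟨B3, hB3⟩ := h3 k K p ζ hζ h T N hNfin (fun x hx => hAm x (hNA x hx))
    (fun x hx => hAI x (hNA x hx))
  -- the cardinality of N
  have hNcard : Nat.card N = Nat.card B.dualCoannihilator :=
    Nat.card_congr (Submodule.equivMapOfInjective A.subtype A.injective_subtype
      B.dualCoannihilator).toEquiv.symm
  have hcard : Nat.card B * Nat.card N = Nat.card A := by
    rw [hNcard]
    exact anp_card B
  have hA0 : 0 < (Nat.card A : ℝ) := by
    have : 0 < Nat.card A := Nat.card_pos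
    exact_mod_cast this
  have hN0 : 0 < (Nat.card N : ℝ) := by
    have : 0 < Nat.card N := Nat.card_pos
    exact_mod_cast this
  have hBN : (Nat.card B : ℝ) / (Nat.card A : ℝ) = 1 / (Nat.card N : ℝ) := by
    rw [div_eq_div_iff hA0.ne' hN0.ne', one_mul]
    exact_mod_cast hcard
  -- the size of k
  have hq1 : 1 < Nat.card k := Finite.one_lt_card
  have hq : (1 : ℝ) < (Nat.card k : ℝ) := by exact_mod_cast hq1
  have hq0 : (0 : ℝ) < (Nat.card k : ℝ) := by linarith
  set X : Set (FF.Place k K) := {v | v ∉ T ∧ ∀ x ∈ N, x ((kdF hζ h).fr v) = 0} with hX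
  set Y : Set (FF.Place k K) := {v | v ∉ T ∧ (kdF hζ h).cl T H v ∈ V} with hY
  set F : Finset (FF.Place k K) := T ∪ hnot.toFinset with hF
  have hcov : ∀ v : FF.Place k K, v ∈ F ∨ v ∈ X ∨ v ∈ Y := by
    intro v
    by_cases hvT : v ∈ T
    · exact Or.inl (Finset.mem_union_left _ hvT)
    by_cases hvY : (kdF hζ h).cl T H v ∈ V
    · exact Or.inr (Or.inr ⟨hvT, hvY⟩)
    by_cases hvX : ∃ f ∈ B, ∀ x : A, (x : GK K → ZMod p) ((kdF hζ h).fr v) = f x
    · refine Or.inr (Or.inl ⟨hvT, ?_⟩)
      obtain ⟨f, hfB, hf⟩ := hvX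
      rintro x ⟨y, hy, rfl⟩
      have := hf y
      rw [Submodule.subtype_apply, this]
      exact (Submodule.mem_dualCoannihilator _).1 hy f hfB
    · refine Or.inl (Finset.mem_union_right _ ?_)
      rw [Set.Finite.mem_toFinset]
      exact ⟨hvT, hvX, hvY⟩
  set c : ℝ := 1 - (1 / (Nat.card N : ℝ) +
    (V.ncard : ℝ) / (Nat.card ((kdF hζ h).Cq T H) : ℝ)) with hc
  have hc0 : 0 < c := by
    rw [hBN] at hlt
    linarith
  refine anp_pole (q := (Nat.card k : ℝ)) (c := c)
    (K := B1 + ∑ v ∈ F, (v.deg : ℝ) + B3 / (Nat.card N : ℝ) + B2) hq0 hc0 fun u hu0 hu1 => ?_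
  obtain ⟨hs, hb1⟩ := hB1 u hu0 hu1
  have hb2 := hB2 u hu0 hu1
  have hb3 := hB3 u hu0 hu1
  have hu2 : u ≤ 1 := by
    have : 1 / (Nat.card k : ℝ) ≤ 1 := by
      rw [div_le_one hq0]; exact hq.le
    linarith
  have hsum := anp_sum (fun v : FF.Place k K => (v.deg : ℝ) * u ^ v.deg)
    (fun v => by positivity) hs F X Y hcov
  have hFle : ∑ v ∈ F, (v.deg : ℝ) * u ^ v.deg ≤ ∑ v ∈ F, (v.deg : ℝ) := by
    refine Finset.sum_le_sum fun v _ => ?_
    have : u ^ v.deg ≤ 1 := pow_le_one₀ hu0.le hu2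
    exact mul_le_of_le_one_right (Nat.cast_nonneg _) this
  have hb3' : ∑' v : X, ((v.1.deg : ℝ) * u ^ v.1.deg) ≤
      (1 / (Nat.card N : ℝ)) * (1 / (1 - Nat.card k * u)) + B3 / (Nat.card N : ℝ) := by
    have e : (1 / (Nat.card N : ℝ)) * (1 / (1 - Nat.card k * u)) + B3 / (Nat.card N : ℝ) =
        (1 / (1 - Nat.card k * u) + B3) / (Nat.card N : ℝ) := by ring
    rw [e, le_div_iff₀ hN0, mul_comm]
    exact hb3
  have hb2' := (abs_le.1 hb2).2
  have hb1' := (abs_le.1 hb1).1
  have hkey : c * (1 / (1 - Nat.card k * u)) = 1 / (1 - Nat.card k * u) -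
      ((1 / (Nat.card N : ℝ)) * (1 / (1 - Nat.card k * u)) +
        (V.ncard : ℝ) / (Nat.card ((kdF hζ h).Cq T H) : ℝ) * (1 / (1 - Nat.card k * u))) := by
    rw [hc]; ring
  rw [hkey]
  change |(∑' v : Y, ((v.1.deg : ℝ) * u ^ v.1.deg)) - _| ≤ _ at hb2
  change (∑' v : Y, ((v.1.deg : ℝ) * u ^ v.1.deg)) - _ ≤ _ at hb2'
  linarith

end Pool.Agent.NH7.GF
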