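import Pool.Agent.NH7.GF.Abs

/-!
# A first auxiliary element (GF7-N6, helper49)
-/

set_option autoImplicit false

namespace Pool.Agent.NH7.GF

theorem s_aux (h1 : S_fin) : S_aux := by
  intro p _ M _ G _ _ P d hG T hT
  have hfin : Finite (d.Cq T (d.H0 T)) := h1 p M G P d hG T (d.H0 T) le_rfl
  obtain ⟨v₁, hv₁, -⟩ := (hG.cla T hT (d.H0 T) le_rfl hfin 0).nonempty
  have h2 := hG.cla T hT (d.H0 T) le_rfl hfin (-(d.cl T (d.H0 T) v₁))
  obtain ⟨v₂, ⟨hv₂, hcl⟩, hne⟩ := (h2.sdiff (Set.finite_singleton v₁)).nonempty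
  rw [Set.mem_singleton_iff] at hne
  have h3 : (QuotientAddGroup.mk (Finsupp.single v₁ 1 + Finsupp.single v₂ 1) :
      d.Cq T (d.H0 T)) = 0 := by
    rw [QuotientAddGroup.mk_add]
    have h4 : (QuotientAddGroup.mk (Finsupp.single v₂ 1) : d.Cq T (d.H0 T)) =
        -(QuotientAddGroup.mk (Finsupp.single v₁ 1)) := hcl
    rw [h4, add_neg_cancel]
  rw [QuotientAddGroup.eq_zero_iff, KD.mem_Rel] at h3
  obtain ⟨κ, hκ, h5⟩ := h3
  exact ⟨v₁, v₂, κ, hv₁, hv₂, fun h => hne h.symm, hκ, h5⟩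

end Pool.Agent.NH7.GF
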