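import Pool.Agent.NH7.GF.NvP

/-!
# E7: the sum over the elements with a nontrivial character of odd prime order is bounded
-/

set_option autoImplicit false
set_option linter.unusedSectionVars false

namespace Pool.Agent.NH7.GF

open Finset NvP

namespace BdP

/-- the derived series, in closed form -/
theorem hasSum_F {q δ : ℕ} (hδ : 1 ≤ δ) {s : ℕ → ℂ} {ω c : ℂ} {n₁ : ℕ}
    (hs : ∀ n, n₁ ≤ n → s n = if δ ∣ n then c * ω ^ (n / δ) * (q : ℂ) ^ n else 0)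
    (x : ℂ) (hx : ‖ω * ((q : ℂ) * x) ^ δ‖ < 1) :
    HasSum (fun n : ℕ => (n : ℂ) * s n * x ^ n)
      (c * ω ^ n₁ * ((q : ℂ) * x) ^ (δ * n₁) *
        (((δ * n₁ : ℕ) : ℂ) * (1 - ω * ((q : ℂ) * x) ^ δ)⁻¹ +
          (δ : ℂ) * (ω * ((q : ℂ) * x) ^ δ / (1 - ω * ((q : ℂ) * x) ^ δ) ^ 2)) +
        ∑ i ∈ range (δ * n₁), (i : ℂ) * s i * x ^ i) := by
  rw [← hasSum_nat_add_iff (f := fun n : ℕ => (n : ℂ) * s n * x ^ n) (δ * n₁)]
  have hinj : Function.Injective fun m : ℕ => δ * m := fun a b h =>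
    Nat.eq_of_mul_eq_mul_left (by omega) h
  rw [← hinj.hasSum_iff]
  · have h0 := (hasSum_geometric_of_norm_lt_one hx).mul_left ((δ * n₁ : ℕ) : ℂ)
    have h0' := (hasSum_coe_mul_geometric_of_norm_lt_one hx).mul_left (δ : ℂ)
    have h1 := (h0.add h0').mul_left (c * ω ^ n₁ * ((q : ℂ) * x) ^ (δ * n₁))
    have h2 : (fun n : ℕ => (n : ℂ) * s n * x ^ n) ∘ (fun n => n + δ * n₁) ∘
        (fun m : ℕ => δ * m) =
        fun m : ℕ => c * ω ^ n₁ * ((q : ℂ) * x) ^ (δ * n₁) *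
          (((δ * n₁ : ℕ) : ℂ) * (ω * ((q : ℂ) * x) ^ δ) ^ m +
            (δ : ℂ) * ((m : ℂ) * (ω * ((q : ℂ) * x) ^ δ) ^ m)) := by
      funext m
      simp only [Function.comp_apply]
      have h3 : n₁ ≤ δ * m + δ * n₁ := by nlinarith
      have h4 : δ ∣ δ * m + δ * n₁ := ⟨m + n₁, by ring⟩
      have h5 : (δ * m + δ * n₁) / δ = m + n₁ := by
        rw [← Nat.mul_add, Nat.mul_div_cancel_left _ (by omega)]
      rw [hs _ h3, if_pos h4, h5]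
      push_cast
      ring
    exact (h2 ▸ h1 : HasSum ((fun n : ℕ => (n : ℂ) * s n * x ^ n) ∘ (fun n => n + δ * n₁) ∘
      (fun m : ℕ => δ * m)) _)
  · intro l hl
    have h3 : n₁ ≤ l + δ * n₁ := by nlinarith
    have h4 : ¬ δ ∣ l + δ * n₁ := by
      intro h
      have h5 : δ ∣ l := (Nat.dvd_add_left (dvd_mul_right δ n₁)).1 h
      obtain ⟨m, hm⟩ := h5
      exact hl ⟨m, hm.symm⟩
    rw [hs _ h3, if_neg h4, mul_zero, zero_mul]

/-- the sum of the derived series -/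
noncomputable def H (q δ n₁ : ℕ) (s : ℕ → ℂ) (ω c : ℂ) (u : ℝ) : ℂ :=
  c * ω ^ n₁ * ((q : ℂ) * u) ^ (δ * n₁) *
    (((δ * n₁ : ℕ) : ℂ) * (1 - ω * ((q : ℂ) * u) ^ δ)⁻¹ +
      (δ : ℂ) * (ω * ((q : ℂ) * u) ^ δ / (1 - ω * ((q : ℂ) * u) ^ δ) ^ 2)) +
    ∑ i ∈ range (δ * n₁), (i : ℂ) * s i * (u : ℂ) ^ i

theorem H_cont {q δ : ℕ} (hq : 2 ≤ q) (hδ : 1 ≤ δ) {ω c : ℂ} (hω : ‖ω‖ = 1)
    (hc : c = 0 ∨ ω ≠ 1) (n₁ : ℕ) (s : ℕ → ℂ) :
    ContinuousOn (H q δ n₁ s ω c) (Set.Icc 0 (1 / (q : ℝ))) := by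
  have hof : Continuous (fun u : ℝ => (u : ℂ)) := Complex.continuous_ofReal
  have hqu : Continuous (fun u : ℝ => (q : ℂ) * (u : ℂ)) := continuous_const.mul hof
  have hsum : Continuous (fun u : ℝ => ∑ i ∈ range (δ * n₁), (i : ℂ) * s i * (u : ℂ) ^ i) :=
    continuous_finsetSum _ fun i _ => continuous_const.mul (hof.pow i)
  rcases hc with rfl | hω1
  · have : H q δ n₁ s ω 0 = fun u : ℝ => ∑ i ∈ range (δ * n₁), (i : ℂ) * s i * (u : ℂ) ^ i := by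
      funext u
      unfold H
      rw [zero_mul, zero_mul, zero_mul, zero_add]
    rw [this]
    exact hsum.continuousOn
  · unfold H
    have hden : ContinuousOn (fun u : ℝ => 1 - ω * ((q : ℂ) * (u : ℂ)) ^ δ)
        (Set.Icc 0 (1 / (q : ℝ))) :=
      (continuous_const.sub (continuous_const.mul (hqu.pow _))).continuousOn
    have hne : ∀ u ∈ Set.Icc 0 (1 / (q : ℝ)), 1 - ω * ((q : ℂ) * (u : ℂ)) ^ δ ≠ 0 :=
      fun u hu => den_ne hq hδ hω hω1 hu.1 hu.2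
    refine ContinuousOn.add (ContinuousOn.mul ?_ (ContinuousOn.add ?_ ?_)) hsum.continuousOn
    · exact (continuous_const.mul (hqu.pow _)).continuousOn
    · exact continuousOn_const.mul (hden.inv₀ hne)
    · refine continuousOn_const.mul (ContinuousOn.div ?_ (hden.pow 2) ?_)
      · exact (continuous_const.mul (hqu.pow _)).continuousOn
      · intro u hu
        exact pow_ne_zero 2 (hne u hu)

theorem norm_one_of {p : ℕ} (hp : 1 ≤ p) {z : ℂ} (h : z ^ p = 1) : ‖z‖ = 1 := by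
  have h2 : ‖z‖ ^ p = 1 := by rw [← norm_pow, h, norm_one]
  exact (pow_eq_one_iff_of_nonneg (norm_nonneg _) (by omega)).1 h2

end BdP

open BdP in
theorem s_bd (h1 : S_sm) (h2 : S_eul) (h3 : S_tl) (h6 : S_nv) : S_bd := by
  intro ι D q C δ n₀ hCnt p hp hp2 a ha hN
  have hpp : p.Prime := hp.out
  have hp1 : 1 ≤ p := hpp.one_le
  have hq2 := hCnt.hq
  have hδ := hCnt.hδ
  have hqR : (2 : ℝ) ≤ q := by exact_mod_cast hq2
  have hq0 : (0 : ℝ) < q := by linarith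
  have hn1 : ∀ v, ‖a v‖ = 1 := fun v => norm_one_of hp1 (ha v)
  obtain ⟨ε, hε, hεL⟩ := h6 ι D q C δ n₀ hCnt p hp2 a ha hN
  obtain ⟨B3, hB3⟩ := h3 ι D q C δ n₀ hCnt
  obtain ⟨ω, c, n₁, hω, hc, hs⟩ := hN 1 le_rfl (by have := hpp.two_le; omega)
  simp only [pow_one] at hs
  obtain ⟨M, hM⟩ := isCompact_Icc.exists_bound_of_continuousOn
    (H_cont hq2 hδ hω hc n₁ (D.S a))
  have hu0q : (0 : ℝ) < 1 / (2 * q) := by positivity
  have hlt : (1 : ℝ) / (2 * q) < 1 / q := one_div_lt_one_div_of_lt hq0 (by linarith)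
  set B0 : ℝ := ∑' v, (D.d v : ℝ) * (1 / (2 * q)) ^ D.d v with hB0
  refine ⟨max B0 (M / ε + B3), ?_⟩
  intro u hu hu1
  have hsm := h1 ι D q C δ n₀ hCnt u hu hu1
  have hnorm : ∀ v, ‖a v * (D.d v : ℂ) * (u : ℂ) ^ D.d v‖ = (D.d v : ℝ) * u ^ D.d v := by
    intro v
    rw [norm_mul, norm_mul, hn1, one_mul, Complex.norm_natCast, norm_pow, Complex.norm_real,
      Real.norm_of_nonneg hu.le]
  by_cases hcase : u ≤ 1 / (2 * q)
  · refine le_trans ?_ (le_max_left _ _)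
    calc ‖∑' v, a v * (D.d v : ℂ) * (u : ℂ) ^ D.d v‖
        ≤ ∑' v, ‖a v * (D.d v : ℂ) * (u : ℂ) ^ D.d v‖ :=
          norm_tsum_le_tsum_norm (by simpa only [hnorm] using hsm.1)
      _ = ∑' v, (D.d v : ℝ) * u ^ D.d v := tsum_congr hnorm
      _ ≤ B0 := by
          refine hsm.1.tsum_le_tsum (fun v => ?_) (h1 ι D q C δ n₀ hCnt _ hu0q hlt).1
          exact mul_le_mul_of_nonneg_left (pow_le_pow_left₀ hu.le hcase _) (by positivity)
  · have hcase := not_le.1 hcase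
    refine le_trans ?_ (le_max_right _ _)
    have hL := hεL u hcase hu1
    have hE := h2 ι D q C δ n₀ hCnt a hn1 u hu hu1
    have hF : ∑' n : ℕ, (n : ℂ) * D.S a n * (u : ℂ) ^ n = H q δ n₁ (D.S a) ω c u :=
      (hasSum_F hδ hs (u : ℂ) (y_lt hq2 hδ hω hu.le hu1)).tsum_eq
    have hFM : ‖∑' n : ℕ, (n : ℂ) * D.S a n * (u : ℂ) ^ n‖ ≤ M := by
      rw [hF]
      exact hM u (Set.mem_Icc.2 ⟨hu.le, hu1.le⟩)
    have hX : ‖∑' x : ι × ℕ, (D.d x.1 : ℂ) * a x.1 ^ (x.2 + 1) *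
        (u : ℂ) ^ ((x.2 + 1) * D.d x.1)‖ ≤ M / ε := by
      rw [le_div_iff₀ hε]
      rw [hE, norm_mul] at hFM
      exact (mul_le_mul_of_nonneg_left hL (norm_nonneg _)).trans hFM
    -- split off the first term
    have hnx : ∀ x : ι × ℕ, ‖(D.d x.1 : ℂ) * a x.1 ^ (x.2 + 1) *
        (u : ℂ) ^ ((x.2 + 1) * D.d x.1)‖ = (D.d x.1 : ℝ) * u ^ ((x.2 + 1) * D.d x.1) := by
      intro x
      rw [norm_mul, norm_mul, norm_pow, hn1, one_pow, mul_one, Complex.norm_natCast, norm_pow,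
        Complex.norm_real, Real.norm_of_nonneg hu.le]
    have hnx2 : ∀ x : ι × ℕ, ‖(D.d x.1 : ℂ) * a x.1 ^ (x.2 + 2) *
        (u : ℂ) ^ ((x.2 + 2) * D.d x.1)‖ = (D.d x.1 : ℝ) * u ^ ((x.2 + 2) * D.d x.1) := by
      intro x
      rw [norm_mul, norm_mul, norm_pow, hn1, one_pow, mul_one, Complex.norm_natCast, norm_pow,
        Complex.norm_real, Real.norm_of_nonneg hu.le]
    have hS1 : Summable fun x : ι × ℕ => (D.d x.1 : ℂ) * a x.1 ^ (x.2 + 1) *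
        (u : ℂ) ^ ((x.2 + 1) * D.d x.1) :=
      Summable.of_norm (by simpa only [hnx] using hsm.2.1)
    have hS2 : Summable fun x : ι × ℕ => (D.d x.1 : ℂ) * a x.1 ^ (x.2 + 2) *
        (u : ℂ) ^ ((x.2 + 2) * D.d x.1) :=
      Summable.of_norm (by simpa only [hnx2] using (hB3 u hu hu1).1)
    have hS0 : Summable fun v => a v * (D.d v : ℂ) * (u : ℂ) ^ D.d v :=
      Summable.of_norm (by simpa only [hnorm] using hsm.1)
    have hsplit : ∑' x : ι × ℕ, (D.d x.1 : ℂ) * a x.1 ^ (x.2 + 1) *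
        (u : ℂ) ^ ((x.2 + 1) * D.d x.1) =
        ∑' v, a v * (D.d v : ℂ) * (u : ℂ) ^ D.d v +
          ∑' x : ι × ℕ, (D.d x.1 : ℂ) * a x.1 ^ (x.2 + 2) * (u : ℂ) ^ ((x.2 + 2) * D.d x.1) := by
      rw [hS1.tsum_prod, hS2.tsum_prod, ← hS0.tsum_add hS2.prod]
      refine tsum_congr fun v => ?_
      rw [(hS1.prod_factor v).tsum_eq_zero_add]
      simp only [zero_add, pow_one, one_mul]
      congr 1
      ring
    have h8 : ∑' v, a v * (D.d v : ℂ) * (u : ℂ) ^ D.d v =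
        ∑' x : ι × ℕ, (D.d x.1 : ℂ) * a x.1 ^ (x.2 + 1) * (u : ℂ) ^ ((x.2 + 1) * D.d x.1) -
          ∑' x : ι × ℕ, (D.d x.1 : ℂ) * a x.1 ^ (x.2 + 2) *
            (u : ℂ) ^ ((x.2 + 2) * D.d x.1) := by
      rw [hsplit]
      ring
    rw [h8]
    refine (norm_sub_le _ _).trans (add_le_add hX ?_)
    calc ‖∑' x : ι × ℕ, (D.d x.1 : ℂ) * a x.1 ^ (x.2 + 2) * (u : ℂ) ^ ((x.2 + 2) * D.d x.1)‖
        ≤ ∑' x : ι × ℕ, ‖(D.d x.1 : ℂ) * a x.1 ^ (x.2 + 2) *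
            (u : ℂ) ^ ((x.2 + 2) * D.d x.1)‖ :=
          norm_tsum_le_tsum_norm (by simpa only [hnx2] using (hB3 u hu hu1).1)
      _ = ∑' x : ι × ℕ, (D.d x.1 : ℝ) * u ^ ((x.2 + 2) * D.d x.1) := tsum_congr hnx2
      _ ≤ B3 := (hB3 u hu hu1).2

end Pool.Agent.NH7.GF
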