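import Pool.Agent.NH7.GF.Abs

/-! N8: the characters with trivial residual Selmer group. -/

set_option autoImplicit false

namespace Pool.Agent.NH7.GF

namespace CharN8

variable {p : ℕ} [hp : Fact p.Prime] {M : Type} [CommGroup M] {G : Type} [Group G]
  [TopologicalSpace G] {P : Type}

/-- two unramified characters, the second one nonzero at the Frobenius element -/
lemma unr (d : KD p M G P) (v : P) (x y : G → ZMod p) (hx : Hm x) (hy : Hm y)
    (h1 : ∀ g ∈ d.I v, x g = 0) (h2 : ∀ g ∈ d.I v, y g = 0) (h3 : y (d.fr v) ≠ 0) :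
    ∃ c : ZMod p, ∀ g ∈ d.D v, x g = c * y g := by
  refine ⟨x (d.fr v) / y (d.fr v), fun g hg => ?_⟩
  have hz : Hm (x + (-(x (d.fr v) / y (d.fr v))) • y) := hx.add (hy.smul _)
  have h4 := d.fr_zero v _ hz (fun g hg => by
    rw [Pi.add_apply, Pi.smul_apply, h1 g hg, h2 g hg, smul_zero, add_zero]) (by
    rw [Pi.add_apply, Pi.smul_apply, smul_eq_mul, neg_mul, div_mul_cancel₀ _ h3, add_neg_cancel]) g hg
  rw [Pi.add_apply, Pi.smul_apply, smul_eq_mul, neg_mul] at h4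
  exact eq_of_sub_eq_zero (by rw [sub_eq_add_neg]; exact h4)

open Classical in
/-- the local conditions -/
noncomputable def lm (d : KD p M G P) (χ₀ : G → ZMod p) (v : P) : G → ZMod p :=
  if ∃ g ∈ d.D v, χ₀ g ≠ 0 then χ₀ else
    if h : ∃ y : G → ZMod p, Hm y ∧ (∀ g ∈ d.I v, y g = 0) ∧ y (d.fr v) ≠ 0 then
      h.choose else 0

lemma lm_pos (d : KD p M G P) {χ₀ : G → ZMod p} {v : P} (h : ∃ g ∈ d.D v, χ₀ g ≠ 0) :
    lm d χ₀ v = χ₀ := by
  rw [lm, if_pos h]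

/-- the unramified characters satisfy the local conditions -/
lemma lm_unr (d : KD p M G P) {χ₀ : G → ZMod p} (hχ : Hm χ₀) {v : P} {x : G → ZMod p}
    (hx : Hm x) (h1 : ∀ g ∈ d.I v, x g = 0) (h2 : ∀ g ∈ d.I v, χ₀ g = 0) :
    ∃ c : ZMod p, ∀ g ∈ d.D v, x g = c * lm d χ₀ v g := by
  by_cases h : ∃ g ∈ d.D v, χ₀ g ≠ 0
  · rw [lm_pos d h]
    refine unr d v x χ₀ hx hχ h1 h2 fun h3 => ?_
    obtain ⟨g, hg, h4⟩ := h
    exact h4 (d.fr_zero v χ₀ hχ h2 h3 g hg)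
  · rw [lm, if_neg h]
    split_ifs with h3
    · exact unr d v x h3.choose hx h3.choose_spec.1 h1 h3.choose_spec.2.1 h3.choose_spec.2.2
    · refine ⟨0, fun g hg => ?_⟩
      rw [zero_mul]
      refine d.fr_zero v x hx h1 ?_ g hg
      by_contra h4
      exact h3 ⟨x, hx, h1, h4⟩

end CharN8

open CharN8 in
theorem s_char (h7 : S_loop) : S_char := by
  classical
  intro p _ M _ G _ _ P d hp2 hG S B χ₀ hχ₀ hS
  obtain ⟨a0, ha0⟩ := d.kp_surj χ₀ hχ₀
  obtain ⟨v0⟩ := hG.ne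
  obtain ⟨T0, hT0, hC⟩ := hG.cls (S ∪ B ∪ (d.od_fin a0).toFinset ∪ {v0})
  have hST (v : P) (hv : v ∈ S) : v ∈ T0 := hT0 (by simp [hv])
  have hBT (v : P) (hv : v ∈ B) : v ∈ T0 := hT0 (by simp [hv])
  have hv0 : v0 ∈ T0 := hT0 (by simp)
  have hod (v : P) (hv : v ∉ T0) : d.od v a0 = 0 := by
    by_contra h
    exact hv (hT0 (by simp [h]))
  have hsel : χ₀ ∈ d.Sel T0 (lm d χ₀) := by
    refine ⟨a0, fun v _ => ?_, fun v hv => ?_, fun g => (ha0 g).symm⟩
    · by_cases h : ∃ g ∈ d.D v, χ₀ g ≠ 0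
      · exact ⟨1, fun g _ => by rw [lm_pos d h, one_mul, ha0]⟩
      · push Not at h
        exact ⟨0, fun g hg => by rw [zero_mul, ha0, h g hg]⟩
    · rw [hod v hv]
      exact dvd_zero _
  obtain ⟨T, χ, h1, h2, hχ, h3, h4, h5, h6⟩ := h7 p M G P d hp2 hG T0 ⟨v0, hv0⟩ hC (lm d χ₀)
    χ₀ hsel
  refine ⟨χ, hχ, ?_, ?_, ?_⟩
  · rintro v (hv | hv) g hg
    · exact h3 v (hBT v hv) g hg
    · exact h3 v (hST v hv) g hg
  · obtain ⟨v, hv, hv'⟩ := Finset.exists_of_ssubset (lt_of_le_of_ne h1 h2)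
    exact ⟨v, fun h => hv' (hBT v h), fun h => hv' (hST v h), h4 v hv hv'⟩
  · intro x hx k1 k2 k3
    obtain ⟨a, ha⟩ := d.kp_surj x hx
    refine h6 (fun v => if v ∈ T0 then lm d χ₀ v else χ) (fun v hv g _ => by rw [if_pos hv])
      (fun v _ hv g _ => by rw [if_neg hv]) x ⟨a, fun v hv => ?_, fun v hv => ?_,
        fun g => (ha g).symm⟩
    · show ∃ c : ZMod p, ∀ g ∈ d.D v, d.kp a g = c * (if v ∈ T0 then lm d χ₀ v else χ) g
      by_cases hvT : v ∈ T0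
      · rw [if_pos hvT]
        by_cases hvS : v ∈ S
        · obtain ⟨c, hc⟩ := k3 v hvS
          refine ⟨c, fun g hg => ?_⟩
          rw [ha, hc g hg, lm_pos d (hS v hvS), h3 v hvT g hg]
        · by_cases hr : ∀ g ∈ d.I v, χ g = 0
          · obtain ⟨c, hc⟩ := lm_unr d hχ₀ (v := v) hx (k1 v hvS hr) (fun g hg => by
              rw [← h3 v hvT g (d.I_le v hg)]
              exact hr g hg)
            exact ⟨c, fun g hg => by rw [ha, hc g hg]⟩
          · push Not at hr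
            obtain ⟨c, hc⟩ := k2 v hvS hr
            obtain ⟨g0, hg0, hn⟩ := hr
            have h8 : ∃ g ∈ d.D v, χ₀ g ≠ 0 :=
              ⟨g0, d.I_le v hg0, by rw [← h3 v hvT g0 (d.I_le v hg0)]; exact hn⟩
            refine ⟨c, fun g hg => ?_⟩
            rw [ha, hc g hg, lm_pos d h8, h3 v hvT g hg]
      · rw [if_neg hvT]
        obtain ⟨c, hc⟩ := k2 v (fun h => hvT (hST v h)) (h4 v hv hvT)
        exact ⟨c, fun g hg => by rw [ha, hc g hg]⟩
    · refine d.dvd_of_inr v a fun g hg => ?_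
      rw [ha]
      exact k1 v (fun h => hv (h1 (hST v h))) (h5 v hv) g hg

end Pool.Agent.NH7.GF
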