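import Pool.Agent.NH7.GF.Stms

/-!
# Places in a given class
-/

set_option autoImplicit false
set_option linter.unusedSectionVars false

namespace Pool.Agent.NH7.GF

open Pool.Agent.H525R3.FFp

theorem s_cla (h2 : S_cld) : S_cla := by
  intro k K _ _ _ _ _ p _ ζ hζ h hp T hT H hH hfin c
  obtain ⟨B, hB⟩ := h2 k K p ζ hζ h hp T hT H hH hfin {c}
  intro hF
  have hFS : Finite {v : FF.Place k K // v ∉ T ∧ (kdF hζ h).cl T H v ∈
      ({c} : Set ((kdF hζ h).Cq T H))} := hF.to_subtype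
  cases nonempty_fintype {v : FF.Place k K // v ∉ T ∧ (kdF hζ h).cl T H v ∈
      ({c} : Set ((kdF hζ h).Cq T H))}
  set S := {v : FF.Place k K // v ∉ T ∧ (kdF hζ h).cl T H v ∈
      ({c} : Set ((kdF hζ h).Cq T H))} with hS
  set M : ℝ := ∑ v : S, (v.1.deg : ℝ) with hM
  have hM0 : 0 ≤ M := Finset.sum_nonneg fun v _ => Nat.cast_nonneg _
  have hq : (1 : ℝ) ≤ (Nat.card k : ℝ) := by
    have : 0 < Nat.card k := Nat.card_pos
    exact_mod_cast this
  have hq0 : (0 : ℝ) < (Nat.card k : ℝ) := lt_of_lt_of_le one_pos hq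
  have hne : Nonempty ((kdF hζ h).Cq T H) := ⟨c⟩
  have hC : (0 : ℝ) < (Nat.card ((kdF hζ h).Cq T H) : ℝ) := by
    have : 0 < Nat.card ((kdF hζ h).Cq T H) := Nat.card_pos
    exact_mod_cast this
  set C : ℝ := (Nat.card ((kdF hζ h).Cq T H) : ℝ) with hCdef
  set R : ℝ := 1 + C * (M + |B| + 1) with hR
  have hR1 : 1 < R := by
    have : 0 < C * (M + |B| + 1) := mul_pos hC (by positivity)
    linarith
  have hR0 : 0 < R := by linarith
  have ht : 0 < 1 / R := by positivity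
  have ht1 : 1 / R < 1 := by
    rw [div_lt_one hR0]
    exact hR1
  have hu0 : 0 < (1 - 1 / R) / (Nat.card k : ℝ) := div_pos (by linarith) hq0
  have hu1 : (1 - 1 / R) / (Nat.card k : ℝ) < 1 / (Nat.card k : ℝ) :=
    div_lt_div_of_pos_right (by linarith) hq0
  have hu2 : (1 - 1 / R) / (Nat.card k : ℝ) ≤ 1 := by
    rw [div_le_one hq0]
    linarith
  have h3 := hB _ hu0 hu1
  have h4 : (1 : ℝ) / (1 - Nat.card k * ((1 - 1 / R) / (Nat.card k : ℝ))) = R := by
    rw [mul_div_cancel₀ _ hq0.ne']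
    rw [sub_sub_cancel, one_div_one_div]
  have h5 : ∑' v : S, (v.1.deg : ℝ) * ((1 - 1 / R) / (Nat.card k : ℝ)) ^ v.1.deg ≤ M := by
    rw [tsum_fintype]
    refine Finset.sum_le_sum fun v _ => ?_
    exact mul_le_of_le_one_right (Nat.cast_nonneg _) (pow_le_one₀ hu0.le hu2)
  rw [h4, Set.ncard_singleton, Nat.cast_one] at h3
  have h6 := (abs_le.1 h3).1
  have h7 : 1 / C * R ≤ M + |B| := by
    have := le_abs_self B
    have h8 : -B ≤ M - 1 / C * R := h6.trans (sub_le_sub_right h5 _)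
    linarith
  have h8 : R ≤ C * (M + |B|) := by
    have := mul_le_mul_of_nonneg_left h7 hC.le
    rwa [← mul_assoc, mul_one_div_cancel hC.ne', one_mul] at this
  have h9 : C * (M + |B| + 1) = C * (M + |B|) + C := by ring
  linarith

end Pool.Agent.NH7.GF
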