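import Pool.Agent.NH7.GF.Stms

/-!
# The sum over the places in given classes
-/

set_option autoImplicit false
set_option linter.unusedSectionVars false

namespace Pool.Agent.NH7.GF

open Pool.Agent.H525R3.FFp

namespace CldP

section abstract_part

variable {p : ℕ} [hp : Fact p.Prime] {M : Type} [CommGroup M] {G : Type} [Group G]
  [TopologicalSpace G] {P : Type} (d : KD p M G P) (T : Finset P) (H : Subgroup M)

lemma p_smul (c : d.Cq T H) : p • c = 0 := by
  induction c using QuotientAddGroup.induction_on with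
  | H n =>
    rw [← QuotientAddGroup.mk_nsmul, QuotientAddGroup.eq_zero_iff, KD.mem_Rel]
    refine ⟨1, H.one_mem, fun v _ => ?_⟩
    rw [d.od_one, add_zero, Finsupp.smul_apply, nsmul_eq_mul]
    exact dvd_mul_right _ _

lemma cl_zero {v : P} (hv : v ∈ T) : d.cl T H v = 0 := by
  unfold KD.cl
  rw [QuotientAddGroup.eq_zero_iff, KD.mem_Rel]
  refine ⟨1, H.one_mem, fun w hw => ?_⟩
  have h1 : v ≠ w := fun h => hw (h ▸ hv)
  classical
  rw [Finsupp.single_apply, if_neg h1, d.od_one]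
  simp

lemma rho_mk (ρ : AddChar (d.Cq T H) ℂ) (n : P →₀ ℤ) :
    ρ (QuotientAddGroup.mk n) = n.prod fun v m => ρ (d.cl T H v) ^ m := by
  classical
  induction n using Finsupp.induction_linear with
  | zero =>
    rw [Finsupp.prod_zero_index]
    exact AddChar.map_zero_eq_one ρ
  | add f g hf hg =>
    rw [QuotientAddGroup.mk_add, AddChar.map_add_eq_mul, hf, hg, Finsupp.prod_add_index]
    · intro v _
      rw [zpow_zero]
    · intro v _ a b
      refine zpow_add₀ ?_ a b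
      intro h0
      have h1 := AddChar.map_add_eq_mul ρ (d.cl T H v) (-(d.cl T H v))
      rw [add_neg_cancel, AddChar.map_zero_eq_one, h0, zero_mul] at h1
      exact one_ne_zero h1
  | single v m =>
    rw [Finsupp.prod_single_index (by rw [zpow_zero]), ← AddChar.map_zsmul_eq_zpow]
    congr 1
    unfold KD.cl
    rw [← QuotientAddGroup.mk_zsmul, Finsupp.smul_single, smul_eq_mul, mul_one]

lemma rho_pow (ρ : AddChar (d.Cq T H) ℂ) (c : d.Cq T H) : ρ c ^ p = 1 := by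
  rw [← AddChar.map_nsmul_eq_pow, p_smul, AddChar.map_zero_eq_one]

lemma rho_norm (ρ : AddChar (d.Cq T H) ℂ) (c : d.Cq T H) : ‖ρ c‖ = 1 := by
  have h1 : ‖ρ c‖ ^ p = 1 := by rw [← norm_pow, rho_pow, norm_one]
  exact (pow_eq_one_iff_of_nonneg (norm_nonneg _) hp.out.ne_zero).1 h1

lemma rho_ne {ρ : AddChar (d.Cq T H) ℂ} (h : ρ ≠ 1) : ∃ v, v ∉ T ∧ ρ (d.cl T H v) ≠ 1 := by
  by_contra hcon
  push Not at hcon
  apply h
  refine DFunLike.ext _ _ fun c => ?_
  induction c using QuotientAddGroup.induction_on with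
  | H n =>
    rw [rho_mk, AddChar.one_apply]
    refine Finset.prod_eq_one fun v _ => ?_
    have h1 : ρ (d.cl T H v) = 1 := by
      by_cases hv : v ∈ T
      · rw [cl_zero d T H hv, AddChar.map_zero_eq_one]
      · exact hcon v hv
    simp only [h1, one_zpow]

lemma rho_pow_ne {ρ : AddChar (d.Cq T H) ℂ} (h : ρ ≠ 1) {j : ℕ} (h1 : 1 ≤ j) (h2 : j < p) :
    ρ ^ j ≠ 1 := by
  intro h3
  apply h
  refine DFunLike.ext _ _ fun c => ?_
  have h4 : ρ c ^ j = 1 := by rw [← AddChar.pow_apply, h3, AddChar.one_apply]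
  have h5 : orderOf (ρ c) ∣ j := orderOf_dvd_of_pow_eq_one h4
  have h6 : orderOf (ρ c) ∣ p := orderOf_dvd_of_pow_eq_one (rho_pow d T H ρ c)
  have h7 : Nat.Coprime j p := (Nat.coprime_of_lt_prime (by omega) h2 hp.out).symm
  have h8 : orderOf (ρ c) ∣ 1 := by
    rw [← h7]
    exact Nat.dvd_gcd h5 h6
  rw [AddChar.one_apply]
  exact orderOf_eq_one_iff.1 (Nat.dvd_one.1 h8)

end abstract_part

/-- Fourier inversion on a finite abelian group -/
lemma fourier {C : Type} [AddCommGroup C] [Fintype C] [DecidableEq C] [Fintype (AddChar C ℂ)]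
    (V : Finset C) (c : C) :
    (if c ∈ V then (1 : ℂ) else 0) =
      (1 / (Fintype.card C : ℂ)) * ∑ ρ : AddChar C ℂ, (∑ x ∈ V, ρ (-x)) * ρ c := by
  have hC : (Fintype.card C : ℂ) ≠ 0 := by
    exact_mod_cast Fintype.card_ne_zero
  have h1 : ∑ ρ : AddChar C ℂ, (∑ x ∈ V, ρ (-x)) * ρ c =
      ∑ x ∈ V, if c = x then (Fintype.card C : ℂ) else 0 := by
    simp only [Finset.sum_mul]
    rw [Finset.sum_comm]
    refine Finset.sum_congr rfl fun x _ => ?_
    have h2 : ∑ ρ : AddChar C ℂ, ρ (-x + c) = if -x + c = 0 then (Fintype.card C : ℂ) else 0 := by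
      refine (Finset.sum_congr ?_ fun _ _ => rfl).trans
        ((AddChar.sum_apply_eq_ite (-x + c)).trans ?_)
      · ext ρ
        simp only [Finset.mem_univ]
      · by_cases h : -x + c = 0
        · rw [if_pos h]
        · rw [if_neg h]
    simp only [AddChar.map_add_eq_mul] at h2
    rw [h2]
    congr 1
    rw [neg_add_eq_zero]
    exact propext ⟨Eq.symm, Eq.symm⟩
  rw [h1, Finset.sum_ite_eq]
  split_ifs
  · field_simp
  · rw [mul_zero]

section sums

/-- the estimate of the sum over the classes in `V` -/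
lemma est {ι : Type} {C : Type} [AddCommGroup C] [Finite C] (V : Set C) (cl : ι → C) (f : ι → ℝ)
    (hf0 : ∀ v, 0 ≤ f v) (hf : Summable f) (hρ : ∀ (ρ : AddChar C ℂ) (c : C), ‖ρ c‖ = 1)
    (X B0 : ℝ) (hB0 : |∑' v, f v - X| ≤ B0) (B : AddChar C ℂ → ℝ)
    (hB : ∀ ρ : AddChar C ℂ, ρ ≠ 1 → ‖∑' v, ρ (cl v) * (f v : ℂ)‖ ≤ B ρ) [Fintype (AddChar C ℂ)] :
    |∑' v, Set.indicator {v | cl v ∈ V} f v - (V.ncard : ℝ) / (Nat.card C : ℝ) * X| ≤
      1 / (Nat.card C : ℝ) * ((V.ncard : ℝ) * (B0 + ∑ ρ : AddChar C ℂ, |B ρ|)) := by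
  classical
  have : Fintype C := Fintype.ofFinite C
  obtain ⟨W, hW⟩ : ∃ W : Finset C, W = V.toFinset := ⟨_, rfl⟩
  have hWm : ∀ c, c ∈ W ↔ c ∈ V := fun c => by rw [hW, Set.mem_toFinset]
  have hWc : V.ncard = W.card := by rw [hW, Set.ncard_eq_toFinset_card']
  have hcard : Nat.card C = Fintype.card C := Nat.card_eq_fintype_card
  have hsρ : ∀ ρ : AddChar C ℂ, Summable fun v => ρ (cl v) * (f v : ℂ) := by
    intro ρ
    refine Summable.of_norm_bounded hf fun v => ?_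
    rw [norm_mul, hρ, one_mul, Complex.norm_real, Real.norm_eq_abs, abs_of_nonneg (hf0 v)]
  have hco : ∀ ρ : AddChar C ℂ, ‖∑ x ∈ W, ρ (-x)‖ ≤ W.card := by
    intro ρ
    refine (norm_sum_le _ _).trans ?_
    simp only [hρ]
    rw [Finset.sum_const, nsmul_eq_mul, mul_one]
  have e1 : ((∑' v, Set.indicator {v | cl v ∈ V} f v : ℝ) : ℂ) =
      (1 / (Fintype.card C : ℂ)) * ∑ ρ : AddChar C ℂ, (∑ x ∈ W, ρ (-x)) *
        ∑' v, ρ (cl v) * (f v : ℂ) := by
    rw [Complex.ofReal_tsum]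
    have e2 : ∀ v, ((Set.indicator {v | cl v ∈ V} f v : ℝ) : ℂ) =
        ∑ ρ : AddChar C ℂ, (1 / (Fintype.card C : ℂ)) * ((∑ x ∈ W, ρ (-x)) *
          (ρ (cl v) * (f v : ℂ))) := by
      intro v
      have h1 := fourier W (cl v)
      have h2 : ((Set.indicator {v | cl v ∈ V} f v : ℝ) : ℂ) =
          (if cl v ∈ W then (1 : ℂ) else 0) * (f v : ℂ) := by
        by_cases h : cl v ∈ V
        · rw [Set.indicator_of_mem (show v ∈ {v | cl v ∈ V} from h), if_pos ((hWm _).2 h), one_mul]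
        · rw [Set.indicator_of_notMem (show v ∉ {v | cl v ∈ V} from h),
            if_neg (fun h' => h ((hWm _).1 h')), zero_mul, Complex.ofReal_zero]
      rw [h2, h1, Finset.mul_sum, Finset.sum_mul]
      exact Finset.sum_congr rfl fun ρ _ => by ring
    simp only [e2]
    rw [Summable.tsum_finsetSum]
    · rw [Finset.mul_sum]
      refine Finset.sum_congr rfl fun ρ _ => ?_
      rw [tsum_mul_left, tsum_mul_left]
    · intro ρ _
      exact ((hsρ ρ).mul_left _).mul_left _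
  have hCpos : (0 : ℝ) < (Nat.card C : ℝ) := by
    rw [hcard]
    exact_mod_cast Fintype.card_pos
  have e3 : ((∑' v, Set.indicator {v | cl v ∈ V} f v - (V.ncard : ℝ) / (Nat.card C : ℝ) * X : ℝ) : ℂ) =
      (1 / (Nat.card C : ℂ)) * ((W.card : ℂ) * ((∑' v, f v - X : ℝ) : ℂ) +
        ∑ ρ ∈ Finset.univ.erase (1 : AddChar C ℂ), (∑ x ∈ W, ρ (-x)) *
          ∑' v, ρ (cl v) * (f v : ℂ)) := by
    rw [Complex.ofReal_sub, e1, ← Finset.add_sum_erase Finset.univ _ (Finset.mem_univ (1 : AddChar C ℂ)),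
      hcard]
    simp only [AddChar.one_apply, one_mul, Finset.sum_const, nsmul_eq_mul, mul_one]
    rw [hWc]
    push_cast
    ring
  have e4 : |∑' v, Set.indicator {v | cl v ∈ V} f v - (V.ncard : ℝ) / (Nat.card C : ℝ) * X| =
      ‖((∑' v, Set.indicator {v | cl v ∈ V} f v - (V.ncard : ℝ) / (Nat.card C : ℝ) * X : ℝ) : ℂ)‖ := by
    rw [Complex.norm_real, Real.norm_eq_abs]
  rw [e4, e3, norm_mul, norm_div, norm_one, Complex.norm_natCast]
  refine mul_le_mul_of_nonneg_left ?_ (by positivity)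
  rw [hWc]
  refine (norm_add_le _ _).trans ?_
  rw [norm_mul, Complex.norm_natCast, Complex.norm_real, Real.norm_eq_abs, mul_add]
  refine add_le_add (mul_le_mul_of_nonneg_left hB0 (Nat.cast_nonneg _)) ?_
  refine (norm_sum_le _ _).trans ?_
  rw [Finset.mul_sum]
  calc ∑ ρ ∈ Finset.univ.erase (1 : AddChar C ℂ), ‖(∑ x ∈ W, ρ (-x)) * ∑' v, ρ (cl v) * (f v : ℂ)‖
      ≤ ∑ ρ ∈ Finset.univ.erase (1 : AddChar C ℂ), (W.card : ℝ) * |B ρ| := by
        refine Finset.sum_le_sum fun ρ hρ1 => ?_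
        rw [norm_mul]
        exact mul_le_mul (hco ρ) ((hB ρ (Finset.mem_erase.1 hρ1).1).trans (le_abs_self _))
          (norm_nonneg _) (Nat.cast_nonneg _)
    _ ≤ ∑ ρ : AddChar C ℂ, (W.card : ℝ) * |B ρ| :=
        Finset.sum_le_sum_of_subset_of_nonneg (Finset.erase_subset _ _)
          (fun _ _ _ => by positivity)

end sums

end CldP

/-- **Z3** -/
theorem s_cld (h1 : S_ray) (h2 : S_sm) (h3 : S_tr) (h4 : S_bd) (h6 : S_hz) : S_cld := by
  intro k K _ _ _ _ _ p _ ζ hζ h hp2 T hT H hH hfin V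
  classical
  obtain ⟨C, δ, n₀, hcnt, hntr⟩ := h1 k K T hT
  obtain ⟨B0, hB0⟩ := h3 _ (DgT k K T) _ C δ n₀ hcnt
  -- the ray group
  have hray : ∀ κ ∈ ray T 0, κ ∈ (kdF hζ h).H0 T := by
    intro κ hκ v hv g hg
    refine h6 k K p ζ hζ v (Av v) (h.ab v) κ ?_ ⟨1, v.reg_one, ?_⟩ g hg
    · rcases hκ v hv with h7 | h7
      · rw [h7, v.ord_one]
      · by_cases h8 : (κ : K) - 1 = 0
        · rw [sub_eq_zero.1 h8, v.ord_one]
        · have h9 := (v.ord_add_eq one_ne_zero h8 (by rw [v.ord_one]; exact_mod_cast h7)).2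
          rw [add_sub_cancel, v.ord_one] at h9
          exact h9
    · rw [v.red_one, one_pow]
      rcases hκ v hv with h7 | h7
      · rw [h7, v.red_one]
      · have h8 : v.Reg ((κ : K) - 1) := Or.inr (by
          have : (0 : ℤ) < v.ord ((κ : K) - 1) := by exact_mod_cast h7
          exact this.le)
        have h9 := v.red_add v.reg_one h8
        rw [add_sub_cancel, v.red_one, (v.red_eq_zero_iff h8).2 (Or.inr (by exact_mod_cast h7)),
          add_zero] at h9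
        exact h9
  -- the characters
  have hchar : ∀ ρ : AddChar ((kdF hζ h).Cq T H) ℂ, ρ ≠ 1 →
      (DgT k K T).Ntr (Nat.card k) δ fun v => ρ ((kdF hζ h).cl T H v.1) := by
    intro ρ hρ
    refine hntr (fun v => ρ ((kdF hζ h).cl T H v)) (fun v => CldP.rho_norm _ T H ρ _) ?_ ?_
    · intro κ hκ
      obtain ⟨n, hn⟩ : ∃ n : FF.Place k K →₀ ℤ, ∀ v, n v = v.ord (κ : K) :=
        ⟨Finsupp.ofSupportFinite (fun v => v.ord (κ : K)) (h.od_fin κ), fun v => rfl⟩
      have e1 : ∏ᶠ v : FF.Place k K, ρ ((kdF hζ h).cl T H v) ^ v.ord (κ : K) =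
          n.prod fun v m => ρ ((kdF hζ h).cl T H v) ^ m := by
        rw [Finsupp.prod, finprod_eq_finsetProd_of_mulSupport_subset (s := n.support)]
        · exact Finset.prod_congr rfl fun v _ => by rw [hn]
        · intro v hv
          rw [Finset.mem_coe, Finsupp.mem_support_iff, hn]
          intro h0
          rw [Function.mem_mulSupport, h0, zpow_zero] at hv
          exact hv rfl
      rw [e1, ← CldP.rho_mk]
      have e2 : (QuotientAddGroup.mk n : (kdF hζ h).Cq T H) = 0 := by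
        rw [QuotientAddGroup.eq_zero_iff, KD.mem_Rel]
        refine ⟨κ⁻¹, H.inv_mem (hH (hray κ hκ)), fun v _ => ?_⟩
        have e3 : (kdF hζ h).od v κ⁻¹ = - v.ord (κ : K) := (kdF hζ h).od_inv v κ
        rw [e3, hn, add_neg_cancel]
        exact dvd_zero _
      rw [e2, AddChar.map_zero_eq_one]
    · obtain ⟨v, hv1, hv2⟩ := CldP.rho_ne _ T H hρ
      exact ⟨v, hv1, hv2⟩
  have hbd : ∀ ρ : AddChar ((kdF hζ h).Cq T H) ℂ, ∃ B : ℝ, ρ ≠ 1 → ∀ u : ℝ, 0 < u →
      u < 1 / Nat.card k → ‖∑' v : {v : FF.Place k K // v ∉ T}, ρ ((kdF hζ h).cl T H v.1) *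
        (((DgT k K T).d v : ℝ) * u ^ (DgT k K T).d v : ℝ)‖ ≤ B := by
    intro ρ
    by_cases hρ : ρ = 1
    · exact ⟨0, fun h => absurd hρ h⟩
    · obtain ⟨B, hB⟩ := h4 _ (DgT k K T) _ C δ n₀ hcnt p hp2
        (fun v => ρ ((kdF hζ h).cl T H v.1)) (fun v => CldP.rho_pow _ T H ρ _) (fun j hj1 hj2 => by
          have h7 := hchar (ρ ^ j) (CldP.rho_pow_ne _ T H hρ hj1 hj2)
          simp only [AddChar.pow_apply] at h7
          exact h7)
      refine ⟨B, fun _ u hu1 hu2 => ?_⟩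
      refine le_of_eq_of_le ?_ (hB u hu1 hu2)
      congr 2
      funext v
      push_cast
      ring
  choose B hB using hbd
  refine ⟨1 / (Nat.card ((kdF hζ h).Cq T H) : ℝ) * ((V.ncard : ℝ) *
    (B0 + ∑ ρ : AddChar ((kdF hζ h).Cq T H) ℂ, |B ρ|)), fun u hu1 hu2 => ?_⟩
  have hest := CldP.est V (fun v : {v : FF.Place k K // v ∉ T} => (kdF hζ h).cl T H v.1)
    (fun v => ((DgT k K T).d v : ℝ) * u ^ (DgT k K T).d v) (fun v => by positivity)
    (h2 _ (DgT k K T) _ C δ n₀ hcnt u hu1 hu2).1 (CldP.rho_norm _ T H)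
    (1 / (1 - Nat.card k * u)) B0 (hB0 u hu1 hu2) B (fun ρ hρ => hB ρ hρ u hu1 hu2)
  refine le_of_eq_of_le ?_ hest
  congr 2
  -- the sums over the subtypes
  have e1 : ∑' v : {v : FF.Place k K // v ∉ T ∧ (kdF hζ h).cl T H v ∈ V},
      (v.1.deg : ℝ) * u ^ v.1.deg = ∑' v : FF.Place k K,
        Set.indicator {v | v ∉ T ∧ (kdF hζ h).cl T H v ∈ V} (fun v => (v.deg : ℝ) * u ^ v.deg) v :=
    tsum_subtype {v : FF.Place k K | v ∉ T ∧ (kdF hζ h).cl T H v ∈ V}
      (fun v => (v.deg : ℝ) * u ^ v.deg)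
  have e2 : ∑' v : {v : FF.Place k K // v ∉ T}, Set.indicator
      {v : {v : FF.Place k K // v ∉ T} | (kdF hζ h).cl T H v.1 ∈ V}
        (fun v => ((DgT k K T).d v : ℝ) * u ^ (DgT k K T).d v) v = ∑' v : FF.Place k K,
        Set.indicator {v | v ∉ T} (fun v => if (kdF hζ h).cl T H v ∈ V then
          (v.deg : ℝ) * u ^ v.deg else 0) v := by
    rw [← tsum_subtype {v : FF.Place k K | v ∉ T} (fun v => if (kdF hζ h).cl T H v ∈ V then
          (v.deg : ℝ) * u ^ v.deg else 0)]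
    rfl
  rw [e1, e2]
  refine tsum_congr fun v => ?_
  by_cases hv : v ∈ T
  · rw [Set.indicator_of_notMem (show v ∉ {v | v ∉ T ∧ (kdF hζ h).cl T H v ∈ V} from fun h => h.1 hv),
      Set.indicator_of_notMem (show v ∉ {v | v ∉ T} from fun h => h hv)]
  · rw [Set.indicator_of_mem (show v ∈ {v | v ∉ T} from hv)]
    by_cases hv2 : (kdF hζ h).cl T H v ∈ V
    · rw [Set.indicator_of_mem (show v ∈ {v | v ∉ T ∧ (kdF hζ h).cl T H v ∈ V} from ⟨hv, hv2⟩),
        if_pos hv2]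
    · rw [Set.indicator_of_notMem (show v ∉ {v | v ∉ T ∧ (kdF hζ h).cl T H v ∈ V} from
        fun h => hv2 h.2), if_neg hv2]

end Pool.Agent.NH7.GF
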