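import Pool.Agent.NH7.GF.Stms
import Pool.Agent.H107R3.ZT.Up
import Pool.Agent.H525R3.FFp.Riemann

/-!
# Finite sets of places generating the class group

By Riemann's theorem every divisor class has, up to a multiple of a fixed place, an effective divisor of
bounded degree, and there are finitely many of them.
-/

set_option autoImplicit false
set_option linter.unusedSectionVars false

namespace Pool.Agent.NH7.GF

open Pool.Agent.H525R3.FFp

theorem s_cls : S_cls := by
  intro k K _ _ _ _ _ T
  classical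
  obtain ⟨P0, -⟩ := exists_place (k := k) (K := K)
  have hd0 : 0 < P0.deg := deg_pos P0
  obtain ⟨γ, N, hγ, -⟩ := riemann (k := k) (K := K)
  obtain ⟨B, hB⟩ : ∃ B : ℕ, γ + P0.deg ≤ B := ⟨(γ + P0.deg).toNat, Int.self_le_toNat _⟩
  have hfin : {D : FF.Place k K →₀ ℤ | 0 ≤ D ∧ ddeg D ≤ B}.Finite := by
    refine (Set.Finite.biUnion (Set.finite_Iic B) fun m _ =>
      Pool.Agent.H107R3.ZT.SS_finite (k := k) (F := K) m).subset ?_
    rintro D ⟨h1, h2⟩
    have h3 := ddeg_nonneg h1
    refine Set.mem_biUnion (x := (ddeg D).toNat) ?_ ⟨h1, by omega⟩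
    rw [Set.mem_Iic]
    omega
  refine ⟨T ∪ {P0} ∪ hfin.toFinset.biUnion (fun D => D.support), ?_, fun n => ?_⟩
  · exact Finset.subset_union_left.trans Finset.subset_union_left
  · obtain ⟨m, hm⟩ : ∃ m : ℤ, m = (γ + P0.deg - ddeg n) / P0.deg := ⟨_, rfl⟩
    have hd0' : (0 : ℤ) < P0.deg := by exact_mod_cast hd0
    have h1 : m * P0.deg ≤ γ + P0.deg - ddeg n := by
      rw [hm]
      exact Int.ediv_mul_le _ hd0'.ne'
    have h2 : γ + P0.deg - ddeg n < (m + 1) * P0.deg := by
      rw [hm]
      exact Int.lt_ediv_add_one_mul_self _ hd0'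
    have h2' : γ < ddeg n + m * P0.deg := by linarith
    have hdeg : ddeg (n + Finsupp.single P0 m) = ddeg n + m * P0.deg := by
      rw [ddeg_add, ddeg_single]
    have hpos : 0 < ell (n + Finsupp.single P0 m) := by
      have h3 := hγ (n + Finsupp.single P0 m)
      rw [hdeg] at h3
      omega
    obtain ⟨f, hf, hf0⟩ := exists_ne_zero_of_ell_pos hpos
    rw [mem_LL' hf0] at hf
    refine ⟨(Units.mk0 f hf0)⁻¹, fun v hv => ?_⟩
    rw [Finset.mem_union, Finset.mem_union, Finset.mem_singleton, Finset.mem_biUnion] at hv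
    push Not at hv
    obtain ⟨⟨-, hv0⟩, hv1⟩ := hv
    have hE := hv1 (divisor k f + (n + Finsupp.single P0 m)) (by
      rw [Set.Finite.mem_toFinset]
      refine ⟨hf, ?_⟩
      rw [ddeg_add, ddeg_divisor, hdeg]
      omega)
    rw [Finsupp.notMem_support_iff, Finsupp.add_apply, Finsupp.add_apply, divisor_apply,
      Finsupp.single_eq_of_ne hv0, add_zero] at hE
    rw [Units.val_inv_eq_inv_val, Units.val_mk0, v.ord_inv]
    omega

end Pool.Agent.NH7.GF
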