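import Pool.Agent.NH7.GF.Stms
import Pool.Agent.Y536.PS.CONJ

/-!
# L2: the valuation rings of the separable closure above a place are conjugate
-/

set_option autoImplicit false

namespace Pool.Agent.NH7.GF

/-- **L2.** -/
theorem s_cnj : S_cnj := by
  intro k K _ _ _ v A A' hA hA'
  exact Pool.Agent.Y536.PS.conj K (SeparableClosure K) A A' (hA.trans hA'.symm)

end Pool.Agent.NH7.GF
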