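import Pool.Agent.NH7.GF.Abs

/-!
# Residual Selmer groups over global function fields, N3: counting
-/

set_option autoImplicit false
set_option linter.unusedSectionVars false

namespace Pool.Agent.NH7.GF

namespace CtP

section group

variable {A : Type} [Group A]

theorem relIndex_le (H T : Subgroup A) {β : Type} [Finite β] (f : A → β)
    (h : ∀ x ∈ T, ∀ y ∈ T, f x = f y → x⁻¹ * y ∈ H) :
    H.relIndex T ≤ Nat.card β ∧ Finite (T ⧸ H.subgroupOf T) := by
  have hinj : Function.Injective (fun q : T ⧸ H.subgroupOf T => f ((Quotient.out q : T) : A)) := by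
    intro q q' hq
    have h1 := h _ (Quotient.out q).2 _ (Quotient.out q').2 hq
    have h2 : (QuotientGroup.mk (Quotient.out q) : T ⧸ H.subgroupOf T) =
        QuotientGroup.mk (Quotient.out q') := by
      rw [QuotientGroup.eq, Subgroup.mem_subgroupOf]
      exact h1
    rwa [QuotientGroup.out_eq', QuotientGroup.out_eq'] at h2
  exact ⟨Nat.card_le_card_of_injective _ hinj, Finite.of_injective _ hinj⟩

theorem index_le (N : Subgroup A) {β : Type} [Finite β] (f : A → β)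
    (h : ∀ x y, f x = f y → x⁻¹ * y ∈ N) : N.index ≤ Nat.card β := by
  have hinj : Function.Injective (fun q : A ⧸ N => f (Quotient.out q)) := by
    intro q q' hq
    have h1 := h _ _ hq
    have h2 : (QuotientGroup.mk (Quotient.out q) : A ⧸ N) = QuotientGroup.mk (Quotient.out q') := by
      rw [QuotientGroup.eq]
      exact h1
    rwa [QuotientGroup.out_eq', QuotientGroup.out_eq'] at h2
  exact Nat.card_le_card_of_injective _ hinj

end group

variable {p : ℕ} [hp : Fact p.Prime] {M : Type} [CommGroup M] {G : Type} [Group G]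
  [TopologicalSpace G] {P : Type} (d : KD p M G P)

/-- the divisor -/
noncomputable def dv (a : M) : P →₀ ℤ :=
  Finsupp.ofSupportFinite (fun v => d.od v a) (d.od_fin a)

theorem dv_apply (a : M) (v : P) : dv d a v = d.od v a := rfl

/-- the elements whose divisor is divisible by `p` outside `T` -/
def WW (T : Finset P) : Subgroup M where
  carrier := {a | ∀ v ∉ T, (p : ℤ) ∣ d.od v a}
  mul_mem' := fun {a b} ha hb v hv => by
    rw [d.od_mul]
    exact dvd_add (ha v hv) (hb v hv)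
  one_mem' := fun v _ => by
    rw [d.od_one]
    exact dvd_zero _
  inv_mem' := fun {a} ha v hv => by
    rw [d.od_inv]
    exact (ha v hv).neg_right

/-- the `p`-th powers -/
def PP (p : ℕ) (M : Type) [CommGroup M] : Subgroup M := (powMonoidHom p : M →* M).range

theorem H0_le (T : Finset P) (lam : P → G → ZMod p) : d.H0 T ≤ d.HL T lam := by
  intro a ha v hv
  exact ⟨0, fun g hg => by rw [ha v hv g hg, zero_mul]⟩

theorem PP_le (T : Finset P) (lam : P → G → ZMod p) :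
    PP p M ≤ WW d T ⊓ d.HL T lam := by
  rintro _ ⟨s, rfl⟩
  refine ⟨fun v _ => ?_, fun v _ => ⟨0, fun g _ => ?_⟩⟩
  · change (p : ℤ) ∣ d.od v (s ^ p)
    rw [d.od_pow]
    exact dvd_mul_right _ _
  · change d.kp (s ^ p) g = _
    rw [d.kp_ppow, zero_mul]

/-- (ii) -/
theorem relIndex_H0 (T : Finset P) (lam : P → G → ZMod p) :
    (d.H0 T).relIndex (d.HL T lam) ≤ p ^ T.card := by
  classical
  have hex : ∀ κ : M, ∃ a : T → ZMod p, κ ∈ d.HL T lam →
      ∀ v : T, ∀ g ∈ d.D v, d.kp κ g = a v * lam v g := by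
    intro κ
    by_cases hκ : κ ∈ d.HL T lam
    · choose a ha using fun v : T => hκ v v.2
      exact ⟨a, fun _ => ha⟩
    · exact ⟨0, fun h => absurd h hκ⟩
  choose a ha using hex
  have : NeZero p := ⟨hp.out.ne_zero⟩
  have h1 := (relIndex_le (d.H0 T) (d.HL T lam) a fun x hx y hy hxy => by
    intro v hv g hg
    rw [d.kp_mul, d.kp_inv, ha x hx ⟨v, hv⟩ g hg, ha y hy ⟨v, hv⟩ g hg, hxy]
    ring).1
  refine h1.trans (le_of_eq ?_)
  rw [Nat.card_fun, Nat.card_zmod, Nat.card_eq_fintype_card, Fintype.card_coe]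

/-- (iii) -/
theorem relIndex_PP (T : Finset P) {N : ℕ} {B : Finset M} (hB : B.card ≤ N)
    (h : ∀ κ : M, (∀ v ∉ T, (p : ℤ) ∣ d.od v κ) → ∃ b ∈ B, ∃ s : M, κ = b * s ^ p) :
    (PP p M).relIndex (WW d T) ≤ N ∧ Finite (WW d T ⧸ (PP p M).subgroupOf (WW d T)) := by
  classical
  obtain ⟨b₀, hb₀, -⟩ := h 1 (fun v _ => by rw [d.od_one]; exact dvd_zero _)
  have hex : ∀ κ : M, ∃ b : B, κ ∈ WW d T → ∃ s : M, κ = b * s ^ p := by
    intro κ
    by_cases hκ : κ ∈ WW d T
    · obtain ⟨b, hb, s, hs⟩ := h κ hκ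
      exact ⟨⟨b, hb⟩, fun _ => ⟨s, hs⟩⟩
    · exact ⟨⟨b₀, hb₀⟩, fun h => absurd h hκ⟩
  choose f hf using hex
  obtain ⟨h1, h2⟩ := relIndex_le (PP p M) (WW d T) f fun x hx y hy hxy => by
    obtain ⟨s, hs⟩ := hf x hx
    obtain ⟨t, ht⟩ := hf y hy
    refine ⟨s⁻¹ * t, ?_⟩
    change (s⁻¹ * t) ^ p = x⁻¹ * y
    have e1 : x⁻¹ * y = ((f y : M) * s ^ p)⁻¹ * ((f y : M) * t ^ p) := by
      rw [← ht]
      congr 2
      rw [← hxy]
      exact hs
    rw [e1, mul_pow, inv_pow, mul_inv_rev]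
    group
  refine ⟨h1.trans ?_, h2⟩
  rw [Nat.card_eq_fintype_card, Fintype.card_coe]
  exact hB

/-- (i) -/
theorem card_Sel (T : Finset P) (lam : P → G → ZMod p)
    (hfin : Finite ((WW d T ⊓ d.HL T lam : Subgroup M) ⧸
      (PP p M).subgroupOf (WW d T ⊓ d.HL T lam))) :
    Nat.card (d.Sel T lam) ≤ (PP p M).relIndex (WW d T ⊓ d.HL T lam) := by
  classical
  have hmem : ∀ κ ∈ WW d T ⊓ d.HL T lam, d.kp κ ∈ d.Sel T lam := by
    rintro κ ⟨h1, h2⟩
    exact ⟨κ, h2, h1, fun _ => rfl⟩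
  let φ : ((WW d T ⊓ d.HL T lam : Subgroup M) ⧸
      (PP p M).subgroupOf (WW d T ⊓ d.HL T lam)) → d.Sel T lam :=
    fun q => ⟨d.kp ((Quotient.out q : (WW d T ⊓ d.HL T lam : Subgroup M)) : M),
      hmem _ (Quotient.out q).2⟩
  have hsurj : Function.Surjective φ := by
    rintro ⟨x, κ, hκ1, hκ2, hκ⟩
    have hκT : κ ∈ WW d T ⊓ d.HL T lam := ⟨hκ2, hκ1⟩
    refine ⟨QuotientGroup.mk ⟨κ, hκT⟩, ?_⟩
    apply Subtype.ext
    change d.kp _ = x
    obtain ⟨q, hq⟩ : ∃ q : (WW d T ⊓ d.HL T lam : Subgroup M), q = Quotient.out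
      (QuotientGroup.mk ⟨κ, hκT⟩ : ((WW d T ⊓ d.HL T lam : Subgroup M) ⧸
        (PP p M).subgroupOf (WW d T ⊓ d.HL T lam))) := ⟨_, rfl⟩
    rw [← hq]
    have h1 : (QuotientGroup.mk (⟨κ, hκT⟩ : (WW d T ⊓ d.HL T lam : Subgroup M)) :
        ((WW d T ⊓ d.HL T lam : Subgroup M) ⧸
        (PP p M).subgroupOf (WW d T ⊓ d.HL T lam))) = QuotientGroup.mk q := by
      rw [hq, QuotientGroup.out_eq']
    rw [QuotientGroup.eq, Subgroup.mem_subgroupOf] at h1
    obtain ⟨s, hs⟩ := h1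
    have h2 : (q : M) = κ * s ^ p := by
      have h3 : s ^ p = κ⁻¹ * (q : M) := hs
      rw [h3, mul_inv_cancel_left]
    funext g
    rw [h2, d.kp_mul, d.kp_ppow, add_zero]
    exact (hκ g).symm
  exact Nat.card_le_card_of_surjective φ hsurj

/-- (iv) -/
theorem index_sup (T : Finset P) (lam : P → G → ZMod p)
    [Finite (d.Cq T (d.HL T lam))] :
    (WW d T ⊔ d.HL T lam).index ≤ Nat.card (d.Cq T (d.HL T lam)) := by
  refine index_le _ (fun κ => (QuotientAddGroup.mk (dv d κ) : d.Cq T (d.HL T lam))) ?_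
  intro x y hxy
  have hxy' : (QuotientAddGroup.mk (dv d x) : d.Cq T (d.HL T lam)) =
      QuotientAddGroup.mk (dv d y) := hxy
  rw [QuotientAddGroup.eq] at hxy'
  obtain ⟨κ, hκ, h⟩ := hxy'
  have h1 : x⁻¹ * y = (x⁻¹ * y * κ) * κ⁻¹ := by group
  rw [h1]
  refine Subgroup.mul_mem_sup (fun v hv => ?_) ((d.HL T lam).inv_mem hκ)
  have h2 := h v hv
  rw [Finsupp.add_apply, Finsupp.neg_apply, dv_apply, dv_apply] at h2
  rw [d.od_mul, d.od_mul, d.od_inv]
  exact h2

end CtP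

open CtP in
theorem s_ct (h1 : S_fin) (_h2 : S_sfin) : S_ct := by
  classical
  intro p hp M _ G _ _ P d hG T hcl lam
  have hfin : Finite (d.Cq T (d.HL T lam)) := h1 p M G P d hG T (d.HL T lam) (H0_le d T lam)
  obtain ⟨B, hB1, hB2⟩ := hG.sun T hcl
  obtain ⟨hf0, hc0⟩ := hG.loc T
  obtain ⟨hP1, hP2⟩ := relIndex_PP d T hB1 hB2
  have hp0 : 0 < p := hp.out.pos
  set s := T.card with hs
  -- the indices
  have e1 := Subgroup.relIndex_mul_index (H0_le d T lam)
  have e2 := Subgroup.relIndex_mul_relIndex (PP p M) (WW d T ⊓ d.HL T lam) (WW d T)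
    (PP_le d T lam) inf_le_left
  rw [Subgroup.inf_relIndex_left] at e2
  have e3 : (d.HL T lam).relIndex (WW d T ⊔ d.HL T lam) = (d.HL T lam).relIndex (WW d T) :=
    Subgroup.relIndex_sup_right _ _
  have e4 := Subgroup.relIndex_mul_index (show d.HL T lam ≤ WW d T ⊔ d.HL T lam from le_sup_right)
  rw [e3] at e4
  have hPne : (PP p M).relIndex (WW d T) ≠ 0 := by
    have : Nat.card (WW d T ⧸ (PP p M).subgroupOf (WW d T)) ≠ 0 := Nat.card_pos.ne'
    exact this
  have hfinT : Finite ((WW d T ⊓ d.HL T lam : Subgroup M) ⧸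
      (PP p M).subgroupOf (WW d T ⊓ d.HL T lam)) := by
    apply Nat.finite_of_card_ne_zero
    intro h
    apply hPne
    have h' : (PP p M).relIndex (WW d T ⊓ d.HL T lam) = 0 := h
    rw [← e2, h', zero_mul]
  have hSel := card_Sel d T lam hfinT
  have hidx := index_sup d T lam
  have hH0 := relIndex_H0 d T lam
  have hc0' : p ^ (2 * s) ≤ (d.H0 T).index := hc0
  -- the arithmetic
  generalize (d.H0 T).relIndex (d.HL T lam) = x1 at e1 hH0
  generalize (d.HL T lam).index = x2 at e1 e4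
  generalize (d.H0 T).index = x3 at e1 hc0'
  generalize (PP p M).relIndex (WW d T ⊓ d.HL T lam) = x4 at e2 hSel
  generalize (d.HL T lam).relIndex (WW d T) = r at e2 e4
  generalize (PP p M).relIndex (WW d T) = x5 at e2 hP1
  generalize (WW d T ⊔ d.HL T lam).index = x6 at e4 hidx
  have a1 : p ^ s ≤ x2 := by
    have b1 : p ^ s * p ^ s ≤ p ^ s * x2 := by
      calc p ^ s * p ^ s = p ^ (2 * s) := by rw [two_mul, pow_add]
        _ ≤ x3 := hc0'
        _ = x1 * x2 := e1.symm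
        _ ≤ p ^ s * x2 := Nat.mul_le_mul_right _ hH0
    exact Nat.le_of_mul_le_mul_left b1 (pow_pos hp0 s)
  have hr : 0 < r := by
    rcases Nat.eq_zero_or_pos r with h | h
    · rw [h, zero_mul] at e4
      have := pow_pos hp0 s
      omega
    · exact h
  refine le_trans ?_ hidx
  refine Nat.le_of_mul_le_mul_left ?_ hr
  calc r * Nat.card (d.Sel T lam) ≤ r * x4 := Nat.mul_le_mul_left _ hSel
    _ = x5 := e2 ▸ (by ring)
    _ ≤ p ^ s := hP1
    _ ≤ x2 := a1
    _ = r * x6 := e4.symm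

end Pool.Agent.NH7.GF
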