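import Pool.Agent.NH7.GF.Stms

/-!
# The density of the places at which a space of Kummer characters vanishes
-/

set_option autoImplicit false

namespace Pool.Agent.NH7.GF

open Pool.Agent.H525R3.FFp

namespace Dns68

/-- counting: an injection of pairs -/
theorem sum_pairs {P Q : Type} (m : ℕ) (f : P → ℝ) (g : Q → ℝ) (hg : ∀ w, 0 ≤ g w)
    (hs : Summable g) (s : Finset P) (w : P → Fin m → Q) (hw : ∀ v ∈ s, Function.Injective (w v))
    (hd : ∀ v ∈ s, ∀ v' ∈ s, ∀ i i', w v i = w v' i' → v = v')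
    (hfg : ∀ v ∈ s, ∀ i, g (w v i) = f v) : (m : ℝ) * ∑ v ∈ s, f v ≤ ∑' x, g x := by
  classical
  have h1 : ∑ x ∈ (s ×ˢ (Finset.univ : Finset (Fin m))).image (fun x => w x.1 x.2), g x =
      (m : ℝ) * ∑ v ∈ s, f v := by
    rw [Finset.sum_image, Finset.sum_product, Finset.mul_sum]
    · refine Finset.sum_congr rfl fun v hv => ?_
      rw [Finset.sum_congr rfl fun i _ => hfg v hv i, Finset.sum_const, Finset.card_univ,
        Fintype.card_fin, nsmul_eq_mul]
    · rintro ⟨v, i⟩ h ⟨v', i'⟩ h' he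
      have hv := (Finset.mem_product.1 h).1
      have hv' := (Finset.mem_product.1 h').1
      have he' : w v i = w v' i' := he
      have h2 := hd v hv v' hv' i i' he'
      subst h2
      exact Prod.ext rfl (hw v hv he')
  rw [← h1]
  exact hs.sum_le_tsum _ fun x _ => hg x

end Dns68

open Dns68

/-- Z6. -/
theorem s_dns (h1 : S_kt) (h2 : S_pol) (h3 : S_frp) : S_dns := by
  classical
  intro k K _ _ _ _ _ p _ ζ hζ h T N hfin hHm hI
  have hpp : p.Prime := Fact.out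
  have hN1 : Module.Finite (ZMod p) N := Module.Finite.of_finite
  obtain ⟨m, hm⟩ : ∃ m, m = Module.finrank (ZMod p) N := ⟨_, rfl⟩
  have hNm : Nat.card N = p ^ m := by
    rw [Module.natCard_eq_pow_finrank (K := ZMod p) (V := N), Nat.card_zmod, hm]
  let b : Module.Basis (Fin m) (ZMod p) N := (Module.finBasis (ZMod p) N).reindex (finCongr hm.symm)
  have hex : ∀ i : Fin m, ∃ κ : Kˣ, ∀ σ, kp hζ κ σ = (b i : GK K → ZMod p) σ := fun i =>
    kp_surj hζ (hHm _ (b i).2).c (hHm _ (b i).2).m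
  choose κ hκ using hex
  have hind : ∀ e : Fin m → ℤ, (∃ s : Kˣ, ∏ i, κ i ^ e i = s ^ p) → ∀ i, (p : ℤ) ∣ e i := by
    rintro e ⟨s, hs⟩ i
    have h4 : ∑ i, (e i : ZMod p) • b i = 0 := by
      apply Subtype.ext
      funext σ
      have h5 : kp hζ (∏ i, κ i ^ e i) σ = 0 := by rw [hs, kp_ppow]
      rw [kp_prod] at h5
      simp only [kp_zpow, hκ] at h5
      rw [Submodule.coe_sum, Finset.sum_apply]
      simpa using h5
    have h5 := Fintype.linearIndependent_iff.1 b.linearIndependent _ h4 i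
    exact (ZMod.intCast_zmod_eq_zero_iff_dvd _ _).1 h5
  obtain ⟨K', _, _, _, _, _, hK⟩ := h1 m k K p ζ hζ κ hind
  obtain ⟨B, hB⟩ := h2 k K'
  obtain ⟨E, hE⟩ : ∃ E : Finset (FF.Place k K), ∀ v, v ∉ E → ∀ i, v.ord (κ i : K) = 0 := by
    refine ⟨Finset.univ.biUnion fun i => (h.od_fin (κ i)).toFinset, fun v hv i => ?_⟩
    by_contra h5
    exact hv (Finset.mem_biUnion.2 ⟨i, Finset.mem_univ i, (h.od_fin (κ i)).mem_toFinset.2 h5⟩)
  have hwex : ∀ v : {v : FF.Place k K // v ∉ T ∧ ∀ x ∈ N, x ((kdF hζ h).fr v) = 0}, v.1 ∉ E →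
      ∃ w : Fin (p ^ m) → FF.Place k K', Function.Injective w ∧
        ∀ i, FF.Over (w i) v.1 1 ∧ (w i).deg = v.1.deg := by
    intro v hv
    refine hK v.1 fun i => ⟨hE v.1 hv i, ?_⟩
    refine h3 k K p ζ hζ v.1 (Av v.1) (h.ab v.1) (frv v.1) (h.fb v.1) (κ i) (hE v.1 hv i) ?_
    rw [hκ]
    exact v.2.2 _ (b i).2
  refine ⟨(p ^ m : ℕ) * ∑ v ∈ E, (v.deg : ℝ) + B, fun u hu0 hu1 => ?_⟩
  obtain ⟨hsum, habs⟩ := hB u hu0 hu1
  have hk1 : (1 : ℝ) ≤ Nat.card k := by
    have : 0 < Nat.card k := Nat.card_pos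
    exact_mod_cast this
  have hu : u ≤ 1 := by
    refine hu1.le.trans ?_
    rw [div_le_one (by linarith)]
    exact hk1
  have hp0 : (0 : ℝ) < (p ^ m : ℕ) := by
    exact_mod_cast pow_pos hpp.pos m
  have hf0 : ∀ v : FF.Place k K, 0 ≤ (v.deg : ℝ) * u ^ v.deg := fun v => by positivity
  have hg0 : ∀ w : FF.Place k K', 0 ≤ (w.deg : ℝ) * u ^ w.deg := fun v => by positivity
  rw [hNm, mul_comm, ← le_div_iff₀ hp0]
  refine Real.tsum_le_of_sum_le (fun v => hf0 v.1) fun s => ?_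
  rw [le_div_iff₀ hp0, mul_comm]
  rw [← Finset.sum_filter_add_sum_filter_not s (fun v => v.1 ∈ E), mul_add]
  have g1 : ∑ v ∈ s.filter (fun v => v.1 ∈ E), (v.1.deg : ℝ) * u ^ v.1.deg ≤
      ∑ v ∈ E, (v.deg : ℝ) := by
    have e : ∑ v ∈ s.filter (fun v => v.1 ∈ E), (v.1.deg : ℝ) * u ^ v.1.deg =
        ∑ v ∈ (s.filter (fun v => v.1 ∈ E)).image Subtype.val, (v.deg : ℝ) * u ^ v.deg := by
      rw [Finset.sum_image fun a _ b _ hab => Subtype.ext hab]
    rw [e]
    calc ∑ v ∈ (s.filter (fun v => v.1 ∈ E)).image Subtype.val, (v.deg : ℝ) * u ^ v.deg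
        ≤ ∑ v ∈ E, (v.deg : ℝ) * u ^ v.deg := by
          refine Finset.sum_le_sum_of_subset_of_nonneg ?_ fun v _ _ => hf0 v
          intro v hv
          obtain ⟨x, hx, rfl⟩ := Finset.mem_image.1 hv
          exact (Finset.mem_filter.1 hx).2
      _ ≤ ∑ v ∈ E, (v.deg : ℝ) := by
          refine Finset.sum_le_sum fun v _ => ?_
          have h5 : u ^ v.deg ≤ 1 := pow_le_one₀ hu0.le hu
          have h6 : (0 : ℝ) ≤ v.deg := Nat.cast_nonneg _
          nlinarith
  have g2 : ((p ^ m : ℕ) : ℝ) * ∑ v ∈ s.filter (fun v => ¬ v.1 ∈ E), (v.1.deg : ℝ) * u ^ v.1.deg ≤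
      ∑' w : FF.Place k K', (w.deg : ℝ) * u ^ w.deg := by
    have hne : Nonempty (FF.Place k K') ∨ s.filter (fun v => ¬ v.1 ∈ E) = ∅ := by
      rcases (s.filter (fun v => ¬ v.1 ∈ E)).eq_empty_or_nonempty with h5 | ⟨v, hv⟩
      · exact Or.inr h5
      · obtain ⟨w, _⟩ := hwex v (Finset.mem_filter.1 hv).2
        exact Or.inl ⟨w ⟨0, pow_pos hpp.pos m⟩⟩
    rcases hne with hne | hne
    · obtain ⟨w0⟩ := hne
      refine sum_pairs (p ^ m) (fun v : {v : FF.Place k K // v ∉ T ∧ ∀ x ∈ N,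
        x ((kdF hζ h).fr v) = 0} => (v.1.deg : ℝ) * u ^ v.1.deg) _ hg0 hsum _
        (fun v => if hv : v.1 ∉ E then Classical.choose (hwex v hv) else fun _ => w0) ?_ ?_ ?_
      · intro v hv
        have hv' := (Finset.mem_filter.1 hv).2
        rw [dif_pos hv']
        exact (Classical.choose_spec (hwex v hv')).1
      · intro v hv v' hv' i i' he
        have a1 := (Finset.mem_filter.1 hv).2
        have a2 := (Finset.mem_filter.1 hv').2
        rw [dif_pos a1, dif_pos a2] at he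
        have b1 := ((Classical.choose_spec (hwex v a1)).2 i).1
        have b2 := ((Classical.choose_spec (hwex v' a2)).2 i').1
        rw [← he] at b2
        exact Subtype.ext (Pool.Agent.W343.BSD.over_unique_base b1 b2)
      · intro v hv i
        have hv' := (Finset.mem_filter.1 hv).2
        rw [dif_pos hv', ((Classical.choose_spec (hwex v hv')).2 i).2]
    · rw [hne, Finset.sum_empty, mul_zero]
      exact tsum_nonneg hg0
  have g3 := (abs_le.1 habs).2
  have g4 := mul_le_mul_of_nonneg_left g1 hp0.le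
  linarith

end Pool.Agent.NH7.GF
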