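import Pool.Agent.NH7.GF.Abs

/-!
# Residual Selmer groups over global function fields: the Selmer group drops (N5)
-/

set_option autoImplicit false
set_option linter.unusedSectionVars false
set_option linter.unusedVariables false

namespace Pool.Agent.NH7.GF

namespace DropAux

section

variable {p : ℕ} [hp : Fact p.Prime] {M : Type} [CommGroup M] {G : Type} [Group G]
  [TopologicalSpace G] {P : Type} (d : KD p M G P)

/-- the values at two Frobenius elements -/
noncomputable def L (T : Finset (P)) (lam : P → G → ZMod p) (v₁ v₂ : P) :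
    d.Sel T lam →ₗ[ZMod p] (ZMod p × ZMod p) where
  toFun x := ((x : G → ZMod p) (d.fr v₁), (x : G → ZMod p) (d.fr v₂))
  map_add' x y := rfl
  map_smul' a x := rfl

theorem surj {T : Finset (P)} {lam : P → G → ZMod p} {v₁ v₂ : P}
    (h : ∀ a b : ZMod p, (∀ x ∈ d.Sel T lam, a * x (d.fr v₁) + b * x (d.fr v₂) = 0) →
      a = 0 ∧ b = 0) :
    Function.Surjective (L d T lam v₁ v₂) := by
  rw [← LinearMap.range_eq_top]
  by_contra hne
  obtain ⟨f, hf0, hf⟩ := Submodule.exists_le_ker_of_lt_top _ (lt_top_iff_ne_top.2 hne)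
  have h1 : ∀ a b : ZMod p, f (a, b) = f (1, 0) * a + f (0, 1) * b := by
    intro a b
    have e : ((a, b) : ZMod p × ZMod p) = a • ((1, 0) : ZMod p × ZMod p) + b • (0, 1) := by
      simp
    rw [e, map_add, map_smul, map_smul, smul_eq_mul, smul_eq_mul]
    ring
  obtain ⟨h2, h3⟩ := h (f (1, 0)) (f (0, 1)) (fun x hx => by
    rw [← h1]
    exact hf ⟨⟨x, hx⟩, rfl⟩)
  apply hf0
  refine LinearMap.ext fun ⟨a, b⟩ => ?_
  rw [h1, h2, h3]
  simp

theorem card {T : Finset (P)} {lam : P → G → ZMod p} {v₁ v₂ : P}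
    (hfin : Finite (d.Sel T lam))
    (h : ∀ a b : ZMod p, (∀ x ∈ d.Sel T lam, a * x (d.fr v₁) + b * x (d.fr v₂) = 0) →
      a = 0 ∧ b = 0) :
    Nat.card (d.Sel T lam) = Nat.card (LinearMap.ker (L d T lam v₁ v₂)) * (p * p) := by
  rw [Submodule.card_eq_card_quotient_mul_card (LinearMap.ker (L d T lam v₁ v₂))]
  have e := Nat.card_congr ((L d T lam v₁ v₂).quotKerEquivOfSurjective (surj d h)).toEquiv
  rw [e, Nat.card_prod, Nat.card_zmod]

end

end DropAux

open DropAux in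
theorem s_drop : S_drop := by
  intro p _ M _ G _ _ P d T lam hfin v₁ v₂ v₃ κ n1 n2 n3 n12 n13 n23 hκ hdiv hcl hind χ hχ
    T' lam' hT' hlam hlam'
  classical
  obtain ⟨κ₀, hκ₀L, hκ₀d, hχe⟩ := hχ
  have hχk : χ = d.kp κ₀ := funext hχe
  subst hχk
  -- the orders of `κ`
  have od1 : (p : ℤ) ∣ 1 + d.od v₁ κ := by
    have h1 := hdiv v₁ n1
    simpa [Finsupp.single_apply, n12, n12.symm, n13, n13.symm] using h1
  have od2 : (p : ℤ) ∣ 1 + d.od v₂ κ := by
    have h1 := hdiv v₂ n2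
    simpa [Finsupp.single_apply, n12, n12.symm, n23, n23.symm] using h1
  have od3 : (p : ℤ) ∣ 1 + d.od v₃ κ := by
    have h1 := hdiv v₃ n3
    simpa [Finsupp.single_apply, n13, n13.symm, n23, n23.symm] using h1
  have od0 : ∀ v, v ∉ T' → (p : ℤ) ∣ d.od v κ := by
    intro v hv
    rw [hT'] at hv
    push Not at hv
    have h1 := hdiv v hv.1
    simpa [Finsupp.single_apply, hv.2.1, hv.2.1.symm, hv.2.2.1, hv.2.2.1.symm, hv.2.2.2,
      hv.2.2.2.symm] using h1
  have hnT : ∀ v, v ∉ T' → v ∉ T := fun v hv h1 => hv ((hT' v).2 (Or.inl h1))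
  have hnew : ∀ v ∈ T', v ∉ T → (p : ℤ) ∣ 1 + d.od v κ := by
    intro v hv hv'
    rcases (hT' v).1 hv with h1 | rfl | rfl | rfl
    · exact absurd h1 hv'
    · exact od1
    · exact od2
    · exact od3
  -- ramified at the new primes
  have hram : ∀ v ∈ T', v ∉ T → ∃ g ∈ d.I v, d.kp κ₀ g + d.kp κ g ≠ 0 := by
    intro v hv hv'
    by_contra hcon
    push Not at hcon
    have h1 : (p : ℤ) ∣ d.od v (κ₀ * κ) :=
      d.dvd_of_inr v _ fun g hg => by rw [d.kp_mul, hcon g hg]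
    rw [d.od_mul] at h1
    have h2 := dvd_sub (hnew v hv hv') ((dvd_add_right (hκ₀d v hv')).1 h1)
    rw [add_sub_cancel_right] at h2
    have h3 : (p : ℤ) ∣ ((1 : ℕ) : ℤ) := by exact_mod_cast h2
    exact (Fact.out : p.Prime).one_lt.ne' (Nat.dvd_one.1 (Int.natCast_dvd_natCast.1 h3))
  have hκL : κ ∈ d.HL T lam := fun v hv => ⟨0, fun g hg => by
    rw [hκ v hv g hg, zero_mul]⟩
  have hval : ∀ g, (d.kp κ₀ + d.kp κ) g = d.kp κ₀ g + d.kp κ g := fun g => rfl
  have htS : (d.kp κ₀ + d.kp κ) ∈ d.Sel T' lam' := by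
    refine ⟨κ₀ * κ, fun v hv => ?_, fun v hv => ?_, fun g => ?_⟩
    · by_cases hvT : v ∈ T
      · obtain ⟨a, ha⟩ := hκ₀L v hvT
        refine ⟨a, fun g hg => ?_⟩
        rw [d.kp_mul, ha g hg, hκ v hvT g hg, add_zero, hlam v hvT g hg]
      · refine ⟨1, fun g hg => ?_⟩
        rw [hlam' v hv hvT g hg, one_mul, d.kp_mul]
    · rw [d.od_mul]
      exact dvd_add (hκ₀d v (hnT v hv)) (od0 v hv)
    · rw [hval, d.kp_mul]
  refine ⟨?_, htS, hram⟩
  -- the relations in the class group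
  have hmk : ∀ a b c : ℤ, a • d.cl T (d.HL T lam) v₁ + b • d.cl T (d.HL T lam) v₂ +
      c • d.cl T (d.HL T lam) v₃ = QuotientAddGroup.mk
        (a • Finsupp.single v₁ 1 + b • Finsupp.single v₂ 1 + c • Finsupp.single v₃ 1) := by
    intro a b c
    rfl
  have hzero : ∀ (a b c : ℤ) (k : M), k ∈ d.HL T lam → (∀ v ∉ T', (p : ℤ) ∣ d.od v k) →
      (p : ℤ) ∣ a + d.od v₁ k → (p : ℤ) ∣ b + d.od v₂ k → (p : ℤ) ∣ c + d.od v₃ k →
      a • d.cl T (d.HL T lam) v₁ + b • d.cl T (d.HL T lam) v₂ +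
      c • d.cl T (d.HL T lam) v₃ = 0 := by
    intro a b c k hk h0 h1 h2 h3
    rw [hmk, QuotientAddGroup.eq_zero_iff]
    refine ⟨k, hk, fun v hv => ?_⟩
    by_cases e1 : v = v₁
    · subst e1
      simpa [Finsupp.single_apply, n12, n12.symm, n13, n13.symm] using h1
    by_cases e2 : v = v₂
    · subst e2
      simpa [Finsupp.single_apply, n12, n12.symm, n23, n23.symm] using h2
    by_cases e3 : v = v₃
    · subst e3
      simpa [Finsupp.single_apply, n13, n13.symm, n23, n23.symm] using h3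
    have h4 : v ∉ T' := by
      rw [hT']
      push Not
      exact ⟨hv, e1, e2, e3⟩
    have h5 := h0 v h4
    simpa [Finsupp.single_apply, e1, e2, e3, Ne.symm e1, Ne.symm e2, Ne.symm e3] using h5
  have hrel := hzero 1 1 1 κ hκL od0 od1 od2 od3
  rw [one_smul, one_smul, one_smul] at hrel
  -- the decomposition of the elements
  have hdec : ∀ x : d.Sel T' lam', ∃ (ρ : ZMod p) (y : LinearMap.ker (L d T lam v₁ v₂)),
      (x : G → ZMod p) = ((y : d.Sel T lam) : G → ZMod p) +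
        ρ • (d.kp κ₀ + d.kp κ) := by
    rintro ⟨x, hx⟩
    obtain ⟨k, hkL', hk0, hk⟩ := hx
    have hxk : x = d.kp k := funext hk
    subst hxk
    have hkL : k ∈ d.HL T lam := by
      intro v hv
      obtain ⟨a, ha⟩ := hkL' v ((hT' v).2 (Or.inl hv))
      exact ⟨a, fun g hg => by rw [ha g hg, hlam v hv g hg]⟩
    have h1 := hzero (-d.od v₁ k) (-d.od v₂ k) (-d.od v₃ k) k hkL hk0
      (by rw [neg_add_cancel]; exact dvd_zero _)
      (by rw [neg_add_cancel]; exact dvd_zero _) (by rw [neg_add_cancel]; exact dvd_zero _)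
    have h2 : (-d.od v₁ k + d.od v₃ k) • d.cl T (d.HL T lam) v₁ +
        (-d.od v₂ k + d.od v₃ k) • d.cl T (d.HL T lam) v₂ = 0 := by
      have e : (-d.od v₁ k + d.od v₃ k) • d.cl T (d.HL T lam) v₁ +
          (-d.od v₂ k + d.od v₃ k) • d.cl T (d.HL T lam) v₂ =
          ((-d.od v₁ k) • d.cl T (d.HL T lam) v₁ + (-d.od v₂ k) • d.cl T (d.HL T lam) v₂ +
            (-d.od v₃ k) • d.cl T (d.HL T lam) v₃) + d.od v₃ k • (d.cl T (d.HL T lam) v₁ +
            d.cl T (d.HL T lam) v₂ + d.cl T (d.HL T lam) v₃) := by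
        module
      rw [e, h1, hrel, smul_zero, add_zero]
    obtain ⟨r1, r2⟩ := hcl _ _ h2
    -- `ρ = - d.od v₃ k`
    set ρ : ℤ := -d.od v₃ k with hρ
    have hy : ∀ g, (d.kp k - (ρ : ZMod p) • (d.kp κ₀ + d.kp κ)) g =
        d.kp (k * (κ₀ * κ) ^ (-ρ)) g := by
      intro g
      change d.kp k g - (ρ : ZMod p) * (d.kp κ₀ g + d.kp κ g) = _
      rw [d.kp_mul, d.kp_zpow, d.kp_mul]
      push_cast
      ring
    have hod : ∀ v ∉ T, (p : ℤ) ∣ d.od v (k * (κ₀ * κ) ^ (-ρ)) := by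
      intro v hv'
      have e : d.od v (k * (κ₀ * κ) ^ (-ρ)) = d.od v k - ρ * d.od v κ₀ - ρ * d.od v κ := by
        rw [d.od_mul, d.od_zpow, d.od_mul]
        ring
      rw [e]
      by_cases hv : v ∈ T'
      · have h3 := hnew v hv hv'
        have h4 : (p : ℤ) ∣ d.od v k + ρ := by
          rcases (hT' v).1 hv with h1 | rfl | rfl | rfl
          · exact absurd h1 hv'
          · have := (dvd_neg (a := (p : ℤ))).2 r1
            have e : -(-d.od v k + d.od v₃ k) = d.od v k + ρ := by rw [hρ]; ring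
            rwa [e] at this
          · have := (dvd_neg (a := (p : ℤ))).2 r2
            have e : -(-d.od v k + d.od v₃ k) = d.od v k + ρ := by rw [hρ]; ring
            rwa [e] at this
          · rw [hρ, add_neg_cancel]
            exact dvd_zero _
        have e : d.od v k - ρ * d.od v κ₀ - ρ * d.od v κ =
            (d.od v k + ρ) - ρ * (1 + d.od v κ) - ρ * d.od v κ₀ := by
          ring
        rw [e]
        exact dvd_sub (dvd_sub h4 (h3.mul_left _)) ((hκ₀d v hv').mul_left _)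
      · exact dvd_sub (dvd_sub (hk0 v hv) ((hκ₀d v hv').mul_left _)) ((od0 v hv).mul_left _)
    have hyeq : (d.kp k - (ρ : ZMod p) • (d.kp κ₀ + d.kp κ)) =
        d.kp (k * (κ₀ * κ) ^ (-ρ)) := funext hy
    have hyHm : Hm (d.kp k - (ρ : ZMod p) • (d.kp κ₀ + d.kp κ)) := by
      rw [hyeq]
      exact d.kp_hm _
    have hyval : ∀ g, (d.kp k - (ρ : ZMod p) • (d.kp κ₀ + d.kp κ)) g =
        d.kp k g - (ρ : ZMod p) * (d.kp κ₀ g + d.kp κ g) := fun g => rfl
    have hyUnr : ∀ v ∈ T', v ∉ T → ∀ g ∈ d.I v,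
        (d.kp k - (ρ : ZMod p) • (d.kp κ₀ + d.kp κ)) g = 0 := by
      intro v hv hv' g hg
      rw [hy]
      exact d.inr_zero v _ (hod v hv') g hg
    have hySel : (d.kp k - (ρ : ZMod p) • (d.kp κ₀ + d.kp κ)) ∈ d.Sel T lam :=
      ⟨k * (κ₀ * κ) ^ (-ρ), Subgroup.mul_mem _ hkL
        (Subgroup.zpow_mem _ (Subgroup.mul_mem _ hκ₀L hκL) _), hod, hy⟩
    have hyfr : ∀ v ∈ T', v ∉ T →
        (d.kp k - (ρ : ZMod p) • (d.kp κ₀ + d.kp κ)) (d.fr v) = 0 := by
      intro v hv hv'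
      obtain ⟨a, ha⟩ := hkL' v hv
      obtain ⟨g0, hg0, hg1⟩ := hram v hv hv'
      have h3 := hyUnr v hv hv' g0 hg0
      rw [hyval, ha g0 (d.I_le _ hg0), hlam' v hv hv' g0 (d.I_le _ hg0), ← sub_mul] at h3
      have h4 : a - (ρ : ZMod p) = 0 := (mul_eq_zero.1 h3).resolve_right hg1
      rw [hyval, ha _ (d.fr_mem v), hlam' v hv hv' _ (d.fr_mem v), ← sub_mul, h4, zero_mul]
    have m1 : v₁ ∈ T' := (hT' v₁).2 (Or.inr (Or.inl rfl))
    have m2 : v₂ ∈ T' := (hT' v₂).2 (Or.inr (Or.inr (Or.inl rfl)))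
    refine ⟨(ρ : ZMod p), ⟨⟨_, hySel⟩, ?_⟩, ?_⟩
    · rw [LinearMap.mem_ker]
      exact Prod.ext (hyfr v₁ m1 n1) (hyfr v₂ m2 n2)
    · exact (sub_add_cancel _ _).symm
  choose ρ y hρy using hdec
  have hinj : Function.Injective (fun x : d.Sel T' lam' => (ρ x, y x)) := by
    intro x x' hxx
    obtain ⟨e1, e2⟩ := Prod.ext_iff.1 hxx
    apply Subtype.ext
    rw [hρy x, hρy x']
    have e1' : ρ x = ρ x' := e1
    have e2' : y x = y x' := e2
    rw [e1', e2']
  have h1 := Nat.card_le_card_of_injective _ hinj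
  rw [Nat.card_prod, Nat.card_zmod] at h1
  rw [card d hfin hind]
  calc Nat.card (d.Sel T' lam') * p ≤
      (p * Nat.card (LinearMap.ker (L d T lam v₁ v₂))) * p := Nat.mul_le_mul_right _ h1
    _ = _ := by ring

end Pool.Agent.NH7.GF
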