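import Mathlib

/-!
# Lifting automorphisms to inertia groups

`L` is a Galois extension of `F`, `A` a valuation ring of `L`, and `g0` an endomorphism of the ring
`L` which acts trivially on `F ∩ A` modulo the maximal ideal of `A`. Then there is an automorphism `h`
of `L` over `F` such that `g0 ∘ h` acts trivially on `A` modulo the maximal ideal (`lift_inertia`).
-/

set_option autoImplicit false
set_option linter.unusedSectionVars false

namespace Pool.Agent.NH7.GF.LiftI

open MvPolynomial

section v1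

variable {F L : Type} [Field F] [Field L] [Algebra F L]

/-- the elements of `A` are quotients of elements which lie in all valuation rings that contain
`F ∩ A` -/
theorem quot (A : ValuationSubring L) {x : L} (hx : x ∈ A) (hal : IsAlgebraic F x) :
    ∃ u v : L, x * u + v = 0 ∧ A.valuation (u - 1) < 1 ∧
      ∀ V : ValuationSubring L, (∀ r : F, algebraMap F L r ∈ A → algebraMap F L r ∈ V) →
        u ∈ V ∧ v ∈ V := by
  by_cases hx0 : x = 0
  · refine ⟨1, 0, by rw [hx0]; ring, by rw [sub_self, map_zero]; exact zero_lt_one,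
      fun V _ => ⟨V.one_mem, V.zero_mem⟩⟩
  obtain ⟨f, hf0, hf⟩ := hal
  set n := f.natDegree with hn
  obtain ⟨j, hj, hmax⟩ := Finset.exists_max_image (Finset.range (n + 1))
    (fun i => toLex (A.valuation (algebraMap F L (f.coeff i)), i)) ⟨0, by simp⟩
  rw [Finset.mem_range] at hj
  have hle : ∀ i, A.valuation (algebraMap F L (f.coeff i)) ≤
      A.valuation (algebraMap F L (f.coeff j)) := by
    intro i
    by_cases hi : i < n + 1
    · have h1 := hmax i (Finset.mem_range.2 hi)
      rw [Prod.Lex.le_iff] at h1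
      rcases h1 with h1 | h1
      · exact h1.le
      · exact h1.1.le
    · rw [Polynomial.coeff_eq_zero_of_natDegree_lt (by omega), map_zero, map_zero]
      exact zero_le
  have hlt : ∀ i, j < i → A.valuation (algebraMap F L (f.coeff i)) <
      A.valuation (algebraMap F L (f.coeff j)) ∨ f.coeff i = 0 := by
    intro i hji
    by_cases hi : i < n + 1
    · have h1 := hmax i (Finset.mem_range.2 hi)
      rw [Prod.Lex.le_iff] at h1
      rcases h1 with h1 | h1
      · exact Or.inl h1
      · exact absurd h1.2 (not_le.2 hji)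
    · exact Or.inr (Polynomial.coeff_eq_zero_of_natDegree_lt (by omega))
  have hj0 : f.coeff j ≠ 0 := by
    intro h0
    have h1 := hle n
    rw [h0, map_zero, map_zero, le_zero_iff, map_eq_zero, map_eq_zero] at h1
    exact hf0 (Polynomial.leadingCoeff_eq_zero.1 h1)
  set c := f.coeff j with hc
  have hcL : algebraMap F L c ≠ 0 := (map_ne_zero_iff _ (algebraMap F L).injective).2 hj0
  have hcv : A.valuation (algebraMap F L c) ≠ 0 := (A.valuation.ne_zero_iff).2 hcL
  -- the normalized coefficients
  set d : ℕ → F := fun i => f.coeff i / c with hd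
  have hdA : ∀ i, algebraMap F L (d i) ∈ A := by
    intro i
    rw [← A.valuation_le_one_iff, hd]
    simp only
    rw [map_div₀, map_div₀]
    exact div_le_one_of_le₀ (hle i) zero_le
  have hdj : d j = 1 := div_self hj0
  have hdlt : ∀ i, j < i → A.valuation (algebraMap F L (d i)) < 1 := by
    intro i hi
    rw [hd]
    simp only
    rw [map_div₀, map_div₀]
    rcases hlt i hi with h1 | h1
    · exact (div_lt_one₀ (zero_lt_iff.2 hcv)).2 h1
    · rw [h1, map_zero, map_zero, zero_div]
      exact zero_lt_one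
  have hsum : ∑ i ∈ Finset.range (n + 1), algebraMap F L (d i) * x ^ i = 0 := by
    have h1 : ∑ i ∈ Finset.range (n + 1), algebraMap F L (f.coeff i) * x ^ i = 0 := by
      rw [← hf, Polynomial.aeval_eq_sum_range]
      exact Finset.sum_congr rfl fun i _ => by rw [Algebra.smul_def]
    have h2 : ∑ i ∈ Finset.range (n + 1), algebraMap F L (d i) * x ^ i =
        (algebraMap F L c)⁻¹ * ∑ i ∈ Finset.range (n + 1), algebraMap F L (f.coeff i) * x ^ i := by
      rw [Finset.mul_sum]
      refine Finset.sum_congr rfl fun i _ => ?_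
      rw [hd]
      simp only
      rw [map_div₀]
      ring
    rw [h2, h1, mul_zero]
  set u : L := ∑ i ∈ Finset.range (n + 1 - j), algebraMap F L (d (j + i)) * x ^ i with hu
  set v : L := ∑ i ∈ Finset.range j, algebraMap F L (d i) * x⁻¹ ^ (j - 1 - i) with hv
  have hrel : x * u + v = 0 := by
    have h3 : x ^ j * (x * u + v) = x * ∑ i ∈ Finset.range (n + 1), algebraMap F L (d i) * x ^ i := by
      have e1 : n + 1 = j + (n + 1 - j) := by omega
      rw [e1, Finset.sum_range_add, mul_add, mul_add]
      have e2 : x ^ j * (x * u) = x * ∑ i ∈ Finset.range (n + 1 - j),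
          algebraMap F L (d (j + i)) * x ^ (j + i) := by
        rw [hu, Finset.mul_sum, Finset.mul_sum, Finset.mul_sum]
        refine Finset.sum_congr rfl fun i _ => ?_
        rw [pow_add]
        ring
      have e3 : x ^ j * v = x * ∑ i ∈ Finset.range j, algebraMap F L (d i) * x ^ i := by
        rw [hv, Finset.mul_sum, Finset.mul_sum]
        refine Finset.sum_congr rfl fun i hi => ?_
        rw [Finset.mem_range] at hi
        have e4 : x ^ j = x * x ^ i * x ^ (j - 1 - i) := by
          rw [← pow_succ', ← pow_add]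
          congr 1
          omega
        have e5 : x ^ (j - 1 - i) * x⁻¹ ^ (j - 1 - i) = 1 := by
          rw [← mul_pow, mul_inv_cancel₀ hx0, one_pow]
        rw [e4]
        linear_combination (x * x ^ i * algebraMap F L (d i)) * e5
      rw [e2, e3]
      ring
    rw [hsum, mul_zero] at h3
    exact (mul_eq_zero.1 h3).resolve_left (pow_ne_zero _ hx0)
  refine ⟨u, v, hrel, ?_, fun V hV => ?_⟩
  · have e1 : n + 1 - j = (n - j) + 1 := by omega
    have e2 : u - 1 = ∑ i ∈ Finset.range (n - j), algebraMap F L (d (j + (i + 1))) * x ^ (i + 1) := by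
      rw [hu, e1, Finset.sum_range_succ', add_zero, hdj, map_one, pow_zero, mul_one,
        add_sub_cancel_right]
    rw [e2]
    refine A.valuation.map_sum_lt one_ne_zero fun i _ => ?_
    rw [map_mul, map_pow]
    have h1 := hdlt (j + (i + 1)) (by omega)
    have h2 : A.valuation x ≤ 1 := (A.valuation_le_one_iff x).2 hx
    calc A.valuation (algebraMap F L (d (j + (i + 1)))) * A.valuation x ^ (i + 1) ≤
        A.valuation (algebraMap F L (d (j + (i + 1)))) * 1 :=
          mul_le_mul_right (pow_le_one' h2 _) _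
      _ < 1 := by rwa [mul_one]
  · have hdV : ∀ i, algebraMap F L (d i) ∈ V := fun i => hV _ (hdA i)
    rcases V.mem_or_inv_mem x with h | h
    · have h1 : u ∈ V := sum_mem fun i _ => V.mul_mem _ _ (hdV _) (pow_mem h _)
      refine ⟨h1, ?_⟩
      have e : v = -(x * u) := by linear_combination hrel
      rw [e]
      exact V.neg_mem _ (V.mul_mem _ _ h h1)
    · have h1 : v ∈ V := sum_mem fun i _ => V.mul_mem _ _ (hdV _) (pow_mem h _)
      refine ⟨?_, h1⟩
      have e : u = -(x⁻¹ * v) := by
        field_simp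
        linear_combination hrel
      rw [e]
      exact V.neg_mem _ (V.mul_mem _ _ h h1)

end v1

section lift

variable {F L : Type} [Field F] [Field L] [Algebra F L] (A : ValuationSubring L) (g0 : L →+* L)

/-- the elements whose conjugates lie in `A` and in the preimage of `A` -/
def Cr (F : Type) {L : Type} [Field F] [Field L] [Algebra F L] (A : ValuationSubring L)
    (g0 : L →+* L) : Subring L where
  carrier := {x | ∀ h : L ≃ₐ[F] L, h x ∈ A ∧ g0 (h x) ∈ A}
  mul_mem' := by
    intro a b ha hb h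
    rw [map_mul, map_mul]
    exact ⟨A.mul_mem _ _ (ha h).1 (hb h).1, A.mul_mem _ _ (ha h).2 (hb h).2⟩
  one_mem' := by
    intro h
    rw [map_one, map_one]
    exact ⟨A.one_mem, A.one_mem⟩
  add_mem' := by
    intro a b ha hb h
    rw [map_add, map_add]
    exact ⟨A.add_mem _ _ (ha h).1 (hb h).1, A.add_mem _ _ (ha h).2 (hb h).2⟩
  zero_mem' := by
    intro h
    rw [map_zero, map_zero]
    exact ⟨A.zero_mem, A.zero_mem⟩
  neg_mem' := by
    intro a ha h
    rw [map_neg, map_neg]
    exact ⟨A.neg_mem _ (ha h).1, A.neg_mem _ (ha h).2⟩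

/-- the first reduction -/
noncomputable def f1 : Cr F A g0 →+* IsLocalRing.ResidueField A :=
  (IsLocalRing.residue A).comp
    { toFun := fun x => ⟨x, (x.2 1).1⟩
      map_one' := rfl
      map_zero' := rfl
      map_add' := fun _ _ => rfl
      map_mul' := fun _ _ => rfl }

/-- the second reduction -/
noncomputable def f2 : Cr F A g0 →+* IsLocalRing.ResidueField A :=
  (IsLocalRing.residue A).comp
    { toFun := fun x => ⟨g0 x, (x.2 1).2⟩
      map_one' := Subtype.ext (map_one g0)
      map_zero' := Subtype.ext (map_zero g0)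
      map_add' := fun _ _ => Subtype.ext (map_add g0 _ _)
      map_mul' := fun _ _ => Subtype.ext (map_mul g0 _ _) }

theorem f_iff (x y : Cr F A g0) : f2 A g0 x = f1 A g0 y ↔ A.valuation (g0 x - y) < 1 := by
  have h1 : f2 A g0 x - f1 A g0 y = IsLocalRing.residue A (⟨g0 x, (x.2 1).2⟩ - ⟨y, (y.2 1).1⟩) := by
    rw [map_sub]
    rfl
  rw [← sub_eq_zero, h1, IsLocalRing.residue_eq_zero_iff, A.valuation_lt_one_iff]
  rfl

/-- the action of the automorphisms -/
def act (h : L ≃ₐ[F] L) : Cr F A g0 →+* Cr F A g0 where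
  toFun x := ⟨h x, fun h' => by
    have := x.2 (h' * h)
    exact this⟩
  map_one' := Subtype.ext (map_one h)
  map_zero' := Subtype.ext (map_zero h)
  map_add' _ _ := Subtype.ext (map_add h _ _)
  map_mul' _ _ := Subtype.ext (map_mul h _ _)

theorem act_coe (h : L ≃ₐ[F] L) (x : Cr F A g0) : ((act A g0 h x : Cr F A g0) : L) = h x := rfl

theorem act_act (h h' : L ≃ₐ[F] L) (x : Cr F A g0) :
    act A g0 h (act A g0 h' x) = act A g0 (h * h') x := rfl

theorem act_one (x : Cr F A g0) : act A g0 (1 : L ≃ₐ[F] L) x = x := rfl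

theorem act_comp (h h' : L ≃ₐ[F] L) : (act A g0 h).comp (act A g0 h') = act A g0 (h * h') := rfl

theorem act_one' : act A g0 (1 : L ≃ₐ[F] L) = RingHom.id _ := rfl

variable {A g0}

/-- finitely many elements -/
theorem fin_step [IsGalois F L] (h0 : ∀ x : F, algebraMap F L x ∈ A →
    A.valuation (g0 (algebraMap F L x) - algebraMap F L x) < 1) (X : Finset (Cr F A g0)) :
    ∃ h : L ≃ₐ[F] L, ∀ x ∈ X, f2 A g0 x = f1 A g0 (act A g0 h x) := by
  classical
  set y : MvPolynomial (Cr F A g0) (Cr F A g0) :=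
    ∑ x ∈ X, monomial (Finsupp.single x 1) x with hy
  have hmap : ∀ {S : Type} [CommRing S] (f : Cr F A g0 →+* S), MvPolynomial.map f y =
      ∑ x ∈ X, monomial (Finsupp.single x 1) (f x) := by
    intro S _ f
    rw [hy, map_sum]
    exact Finset.sum_congr rfl fun x _ => by rw [map_monomial]
  have hcoeff : ∀ {S : Type} [CommRing S] (f : Cr F A g0 → S), ∀ x ∈ X,
      coeff (Finsupp.single x 1) (∑ x ∈ X, monomial (Finsupp.single x 1) (f x)) = f x := by
    intro S _ f x hx
    rw [coeff_sum, Finset.sum_eq_single x]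
    · rw [coeff_monomial, if_pos rfl]
    · intro z _ hzx
      rw [coeff_monomial, if_neg]
      intro h
      exact hzx (Finsupp.single_left_injective one_ne_zero h)
    · intro h
      exact absurd hx h
  -- the orbit is finite
  have hfin : (Set.range fun h : L ≃ₐ[F] L => MvPolynomial.map (act A g0 h) y).Finite := by
    have hT : {t : X → Cr F A g0 | ∀ x : X, t x ∈ {c : Cr F A g0 |
        (c : L) ∈ (minpoly F ((x : Cr F A g0) : L)).rootSet L}}.Finite := by
      refine Set.Finite.pi' fun x => ?_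
      exact ((minpoly F ((x : Cr F A g0) : L)).rootSet_finite L).preimage Subtype.val_injective.injOn
    refine Set.Finite.of_finite_image (f := fun w (x : X) =>
      coeff (Finsupp.single (x : Cr F A g0) 1) w) (hT.subset ?_) ?_
    · rintro _ ⟨_, ⟨h, rfl⟩, rfl⟩ x
      show ((coeff (Finsupp.single (x : Cr F A g0) 1) (MvPolynomial.map (act A g0 h) y) :
        Cr F A g0) : L) ∈ (minpoly F ((x : Cr F A g0) : L)).rootSet L
      rw [hmap, hcoeff _ x x.2, act_coe]
      have hint : IsIntegral F ((x : Cr F A g0) : L) := Algebra.IsIntegral.isIntegral _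
      rw [Polynomial.mem_rootSet_of_ne (minpoly.ne_zero hint), Polynomial.aeval_algEquiv]
      simp
    · rintro _ ⟨h, rfl⟩ _ ⟨h', rfl⟩ hh
      simp only at hh ⊢
      rw [hmap, hmap]
      refine Finset.sum_congr rfl fun x hx => ?_
      have h1 := congrFun hh ⟨x, hx⟩
      simp only at h1
      rw [hmap, hmap, hcoeff _ x hx, hcoeff _ x hx] at h1
      rw [h1]
  set O := hfin.toFinset with hO
  have hmemO : ∀ w, w ∈ O ↔ ∃ h : L ≃ₐ[F] L, MvPolynomial.map (act A g0 h) y = w := by
    intro w
    rw [hO, Set.Finite.mem_toFinset]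
    rfl
  have hyO : y ∈ O := (hmemO y).2 ⟨1, by rw [act_one', MvPolynomial.map_id]⟩
  set P : Polynomial (MvPolynomial (Cr F A g0) (Cr F A g0)) :=
    ∏ w ∈ O, (Polynomial.X - Polynomial.C w) with hP
  -- invariance
  have hinv : ∀ h : L ≃ₐ[F] L, Polynomial.map (MvPolynomial.map (act A g0 h)) P = P := by
    intro h
    rw [hP, Polynomial.map_prod]
    refine Finset.prod_nbij (fun w => MvPolynomial.map (act A g0 h) w) ?_ ?_ ?_ ?_
    · intro w hw
      obtain ⟨h', rfl⟩ := (hmemO w).1 hw
      exact (hmemO _).2 ⟨h * h', by rw [MvPolynomial.map_map, act_comp]⟩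
    · intro w _ w' _ hww
      have h1 := congrArg (MvPolynomial.map (act A g0 h⁻¹)) hww
      simp only [MvPolynomial.map_map, act_comp, inv_mul_cancel, act_one', MvPolynomial.map_id] at h1
      exact h1
    · intro w hw
      obtain ⟨h', rfl⟩ := (hmemO w).1 hw
      refine ⟨MvPolynomial.map (act A g0 (h⁻¹ * h')) y, (hmemO _).2 ⟨_, rfl⟩, ?_⟩
      simp only
      rw [MvPolynomial.map_map, act_comp, mul_inv_cancel_left]
    · intro w _
      rw [Polynomial.map_sub, Polynomial.map_X, Polynomial.map_C]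
  -- the two reductions of `P` agree
  have hred : Polynomial.map (MvPolynomial.map (f2 A g0)) P =
      Polynomial.map (MvPolynomial.map (f1 A g0)) P := by
    ext i m
    rw [Polynomial.coeff_map, Polynomial.coeff_map]
    show coeff m (MvPolynomial.map (f2 A g0) (P.coeff i)) =
      coeff m (MvPolynomial.map (f1 A g0) (P.coeff i))
    rw [coeff_map, coeff_map, f_iff]
    have hfix : ∀ h : L ≃ₐ[F] L, h ((coeff m (P.coeff i) : Cr F A g0) : L) =
        ((coeff m (P.coeff i) : Cr F A g0) : L) := by
      intro h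
      have h1 := congrArg (fun Q => coeff m (Polynomial.coeff Q i)) (hinv h)
      simp only [Polynomial.coeff_map] at h1
      have h2 : coeff m (MvPolynomial.map (act A g0 h) (P.coeff i)) = coeff m (P.coeff i) := h1
      rw [coeff_map] at h2
      exact congrArg Subtype.val h2
    obtain ⟨r, hr⟩ := (InfiniteGalois.mem_range_algebraMap_iff_fixed _).2 hfix
    rw [← hr]
    refine h0 r ?_
    rw [hr]
    exact ((coeff m (P.coeff i) : Cr F A g0).2 1).1
  have hz : Polynomial.eval (MvPolynomial.map (f2 A g0) y)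
      (Polynomial.map (MvPolynomial.map (f2 A g0)) P) = 0 := by
    rw [hP, Polynomial.map_prod, Polynomial.eval_prod]
    refine Finset.prod_eq_zero hyO ?_
    rw [Polynomial.map_sub, Polynomial.map_X, Polynomial.map_C, Polynomial.eval_sub,
      Polynomial.eval_X, Polynomial.eval_C]
    exact sub_self _
  rw [hred, hP, Polynomial.map_prod, Polynomial.eval_prod, Finset.prod_eq_zero_iff] at hz
  obtain ⟨w, hw, hw0⟩ := hz
  rw [Polynomial.map_sub, Polynomial.map_X, Polynomial.map_C, Polynomial.eval_sub,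
    Polynomial.eval_X, Polynomial.eval_C, sub_eq_zero] at hw0
  obtain ⟨h, rfl⟩ := (hmemO w).1 hw
  refine ⟨h, fun x hx => ?_⟩
  have h1 : MvPolynomial.map (f2 A g0) y =
      MvPolynomial.map (f1 A g0) (MvPolynomial.map (act A g0 h) y) := hw0
  rw [MvPolynomial.map_map, hmap, hmap] at h1
  have h2 := congrArg (coeff (Finsupp.single x 1)) h1
  rw [hcoeff _ x hx, hcoeff _ x hx] at h2
  exact h2

/-- all elements -/
theorem all_step [IsGalois F L] (h0 : ∀ x : F, algebraMap F L x ∈ A →
    A.valuation (g0 (algebraMap F L x) - algebraMap F L x) < 1) :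
    ∃ h : L ≃ₐ[F] L, ∀ x : Cr F A g0, f2 A g0 x = f1 A g0 (act A g0 h x) := by
  classical
  have hcl : ∀ x : Cr F A g0, IsClosed {h : L ≃ₐ[F] L | f2 A g0 x = f1 A g0 (act A g0 h x)} := by
    intro x
    rw [← isOpen_compl_iff, isOpen_iff_forall_mem_open]
    intro h hh
    refine ⟨(fun g => h⁻¹ * g) ⁻¹' (MulAction.stabilizer (L ≃ₐ[F] L) (x : L) : Set (L ≃ₐ[F] L)),
      ?_, (stabilizer_isOpen_of_isIntegral (K := F) (x : L)).preimage
        (continuous_const.mul continuous_id), ?_⟩
    · intro g hg hg'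
      apply hh
      have h1 : (h⁻¹ * g) (x : L) = x := hg
      have h2 : h x = g (x : L) := by
        have h3 := congrArg h h1
        rw [← AlgEquiv.mul_apply, mul_inv_cancel_left] at h3
        exact h3.symm
      have h4 : act A g0 h x = act A g0 g x := Subtype.ext h2
      show f2 A g0 x = f1 A g0 (act A g0 h x)
      rw [h4]
      exact hg'
    · show (h⁻¹ * h) ∈ MulAction.stabilizer (L ≃ₐ[F] L) (x : L)
      rw [inv_mul_cancel]
      exact one_mem _
  have h1 := isCompact_univ.inter_iInter_nonempty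
    (fun x : Cr F A g0 => {h : L ≃ₐ[F] L | f2 A g0 x = f1 A g0 (act A g0 h x)}) hcl (fun X => by
      obtain ⟨h, hh⟩ := fin_step h0 X
      exact ⟨h, Set.mem_univ _, Set.mem_iInter₂.2 fun x hx => hh x hx⟩)
  obtain ⟨h, -, hh⟩ := h1
  exact ⟨h, fun x => Set.mem_iInter.1 hh x⟩

/-- **Lifting to inertia groups** -/
theorem lift_inertia [IsGalois F L] (h0 : ∀ x : F, algebraMap F L x ∈ A →
    A.valuation (g0 (algebraMap F L x) - algebraMap F L x) < 1) :
    ∃ h : L ≃ₐ[F] L, (∀ x, g0 (h x) ∈ A ↔ x ∈ A) ∧
      ∀ x ∈ A, A.valuation (g0 (h x) - x) < 1 := by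
  obtain ⟨h, hh⟩ := all_step h0
  refine ⟨h⁻¹, ?_⟩
  have hC : ∀ c : Cr F A g0, A.valuation (g0 (h⁻¹ (c : L)) - c) < 1 := by
    intro c
    have h1 := (f_iff A g0 _ _).1 (hh (act A g0 h⁻¹ c))
    rw [act_act, mul_inv_cancel, act_one, act_coe] at h1
    exact h1
  have hR : ∀ r : F, algebraMap F L r ∈ A → g0 (algebraMap F L r) ∈ A := by
    intro r hr
    have e : g0 (algebraMap F L r) = (g0 (algebraMap F L r) - algebraMap F L r) + algebraMap F L r := by
      ring
    rw [e]
    exact A.add_mem _ _ ((A.valuation_le_one_iff _).1 (h0 r hr).le) hr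
  have hA : ∀ x ∈ A, A.valuation (g0 (h⁻¹ x) - x) < 1 := by
    intro x hx
    obtain ⟨u, v, hrel, hu1, hV⟩ := quot (F := F) A hx (Algebra.IsAlgebraic.isAlgebraic x)
    have huv : u ∈ Cr F A g0 ∧ v ∈ Cr F A g0 := by
      have h1 : ∀ g : L ≃ₐ[F] L, (g u ∈ A ∧ g v ∈ A) ∧ (g0 (g u) ∈ A ∧ g0 (g v) ∈ A) := by
        intro g
        refine ⟨hV (A.comap (g : L →+* L)) fun r hr => ?_,
          hV (A.comap (g0.comp (g : L →+* L))) fun r hr => ?_⟩
        · show g (algebraMap F L r) ∈ A
          rw [g.commutes]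
          exact hr
        · show g0 (g (algebraMap F L r)) ∈ A
          rw [g.commutes]
          exact hR r hr
      exact ⟨fun g => ⟨(h1 g).1.1, (h1 g).2.1⟩, fun g => ⟨(h1 g).1.2, (h1 g).2.2⟩⟩
    have hgu := hC ⟨u, huv.1⟩
    have hgv := hC ⟨v, huv.2⟩
    simp only at hgu hgv
    set X := g0 (h⁻¹ x) with hX
    set U := g0 (h⁻¹ u) with hU
    set V := g0 (h⁻¹ v) with hVd
    have hrel' : X * U + V = 0 := by
      have h1 := congrArg (fun z => g0 (h⁻¹ z)) hrel
      simp only [map_add, map_mul, map_zero] at h1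
      exact h1
    have hUv : A.valuation U = 1 := by
      have e : U = 1 + ((U - u) + (u - 1)) := by ring
      rw [e]
      exact A.valuation.map_one_add_of_lt (A.valuation.map_add_lt hgu hu1)
    have hxv : A.valuation x ≤ 1 := (A.valuation_le_one_iff x).2 hx
    have e : (X - x) * U = -(V - v) - x * (U - u) := by
      linear_combination hrel' - hrel
    have h1 : A.valuation ((X - x) * U) < 1 := by
      rw [e]
      refine A.valuation.map_sub_lt (by rw [Valuation.map_neg]; exact hgv) ?_
      rw [map_mul]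
      calc A.valuation x * A.valuation (U - u) ≤ 1 * A.valuation (U - u) :=
            mul_le_mul_left hxv _
        _ < 1 := by rwa [one_mul]
    rwa [map_mul, hUv, mul_one] at h1
  refine ⟨fun x => ⟨fun hgx => ?_, fun hx => ?_⟩, hA⟩
  · by_contra hx
    have hx0 : x ≠ 0 := by
      rintro rfl
      exact hx A.zero_mem
    have hxi : x⁻¹ ∈ A := (A.mem_or_inv_mem x).resolve_left hx
    have hxl : A.valuation x⁻¹ < 1 := by
      rcases lt_or_eq_of_le ((A.valuation_le_one_iff _).2 hxi) with h1 | h1
      · exact h1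
      · exfalso
        rw [map_inv₀, inv_eq_one] at h1
        exact hx ((A.valuation_le_one_iff _).1 h1.le)
    have h2 : A.valuation (g0 (h⁻¹ x⁻¹)) < 1 := by
      have e : g0 (h⁻¹ x⁻¹) = (g0 (h⁻¹ x⁻¹) - x⁻¹) + x⁻¹ := by ring
      rw [e]
      exact A.valuation.map_add_lt (hA _ hxi) hxl
    have h3 : A.valuation (g0 (h⁻¹ x)) ≤ 1 := (A.valuation_le_one_iff _).2 hgx
    have h4 : g0 (h⁻¹ x) * g0 (h⁻¹ x⁻¹) = 1 := by
      rw [← map_mul, ← map_mul, mul_inv_cancel₀ hx0, map_one, map_one]
    have h5 := congrArg A.valuation h4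
    rw [map_mul, map_one] at h5
    have h6 : A.valuation (g0 (h⁻¹ x)) * A.valuation (g0 (h⁻¹ x⁻¹)) < 1 :=
      calc A.valuation (g0 (h⁻¹ x)) * A.valuation (g0 (h⁻¹ x⁻¹)) ≤
            1 * A.valuation (g0 (h⁻¹ x⁻¹)) := mul_le_mul_left h3 _
        _ < 1 := by rwa [one_mul]
    exact absurd h5 h6.ne
  · have e : g0 (h⁻¹ x) = (g0 (h⁻¹ x) - x) + x := by ring
    rw [e]
    exact A.add_mem _ _ ((A.valuation_le_one_iff _).1 (hA x hx).le) hx

end lift

end Pool.Agent.NH7.GF.LiftI
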