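import Pool.Agent.NH7.GF.Stms
import Pool.Agent.NH7.GF.LiftI

/-!
# Unramified Kummer characters come from elements of order divisible by `p` (L5)
-/

set_option autoImplicit false
set_option linter.unusedSectionVars false

namespace Pool.Agent.NH7.GF

namespace DvdP

section

variable {k K : Type} [Field k] [Field K] [Algebra k K] {p : ℕ} [hp : Fact p.Prime] {v : FF.Place k K}
  {A : ValuationSubring (SeparableClosure K)}

theorem le_iff (hA : Ab v A) {x : K} (hx : x ≠ 0) :
    A.valuation (algebraMap K (SeparableClosure K) x) ≤ 1 ↔ 0 ≤ v.ord x := by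
  rw [A.valuation_le_one_iff, ← v.reg_iff hx, ← v.mem_O, ← hA]
  rfl

theorem ord_eq (hA : Ab v A) {x y : K} (hx : x ≠ 0) (hy : y ≠ 0)
    (h : A.valuation (algebraMap K (SeparableClosure K) x) =
      A.valuation (algebraMap K (SeparableClosure K) y)) : v.ord x = v.ord y := by
  have key : ∀ {x y : K}, x ≠ 0 → y ≠ 0 → A.valuation (algebraMap K (SeparableClosure K) x) =
      A.valuation (algebraMap K (SeparableClosure K) y) → v.ord y ≤ v.ord x := by
    intro x y hx hy h
    have hy' : A.valuation (algebraMap K (SeparableClosure K) y) ≠ 0 :=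
      (A.valuation.ne_zero_iff).2 ((map_ne_zero_iff _ (algebraMap K (SeparableClosure K)).injective).2 hy)
    have h1 : A.valuation (algebraMap K (SeparableClosure K) (x / y)) ≤ 1 := by
      rw [map_div₀, map_div₀, h, div_self hy']
    rw [le_iff hA (div_ne_zero hx hy), v.ord_div hx hy] at h1
    linarith
  exact le_antisymm (key hy hx h.symm) (key hx hy h)

variable {κ : Kˣ} {b : SeparableClosure K}

theorem term_pow (hb : b ^ p = algebraMap K (SeparableClosure K) κ) (c : K) (i : ℕ) :
    (algebraMap K (SeparableClosure K) c * b ^ i) ^ p =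
      algebraMap K (SeparableClosure K) (c ^ p * (κ : K) ^ i) := by
  rw [mul_pow, ← pow_mul, mul_comm i p, pow_mul, hb, map_mul, map_pow, map_pow]

theorem term_ord (c : K) (hc : c ≠ 0) (i : ℕ) :
    v.ord (c ^ p * (κ : K) ^ i) = p * v.ord c + i * v.ord (κ : K) := by
  rw [v.ord_mul (pow_ne_zero _ hc) (pow_ne_zero _ κ.ne_zero), v.ord_pow, v.ord_pow]

theorem term_ne (c : K) (hc : c ≠ 0) (i : ℕ) : c ^ p * (κ : K) ^ i ≠ 0 :=
  mul_ne_zero (pow_ne_zero _ hc) (pow_ne_zero _ κ.ne_zero)

include hp in
theorem dvd_cancel {n m : ℤ} (hn : ¬ (p : ℤ) ∣ n) (h : (p : ℤ) ∣ m * n) : (p : ℤ) ∣ m :=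
  (Nat.prime_iff_prime_int.1 hp.out).dvd_or_dvd h |>.resolve_right hn

theorem term_inj (hA : Ab v A) (hb : b ^ p = algebraMap K (SeparableClosure K) κ)
    (hn : ¬ (p : ℤ) ∣ v.ord (κ : K)) {c d : K} (hc : c ≠ 0) (hd : d ≠ 0) {i j : ℕ} (hi : i < p)
    (hj : j < p) (h : A.valuation (algebraMap K (SeparableClosure K) c * b ^ i) =
      A.valuation (algebraMap K (SeparableClosure K) d * b ^ j)) : i = j := by
  have h1 : A.valuation ((algebraMap K (SeparableClosure K) c * b ^ i) ^ p) =
      A.valuation ((algebraMap K (SeparableClosure K) d * b ^ j) ^ p) := by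
    rw [map_pow, map_pow, h]
  rw [term_pow hb, term_pow hb] at h1
  have h2 := ord_eq hA (term_ne c hc i) (term_ne d hd j) h1
  rw [term_ord c hc, term_ord d hd] at h2
  have h3 : (p : ℤ) ∣ ((i : ℤ) - j) * v.ord (κ : K) :=
    ⟨v.ord d - v.ord c, by linear_combination h2⟩
  have h4 := dvd_cancel hn h3
  have h5 : |(i : ℤ) - j| < p := by
    rw [abs_lt]
    constructor <;> omega
  have h6 := Int.eq_zero_of_abs_lt_dvd h4 h5
  omega

theorem term_ne_one (hA : Ab v A) (hb : b ^ p = algebraMap K (SeparableClosure K) κ)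
    (hn : ¬ (p : ℤ) ∣ v.ord (κ : K)) {c : K} (hc : c ≠ 0) {i : ℕ} (hi0 : 0 < i) (hi : i < p) :
    A.valuation (algebraMap K (SeparableClosure K) c * b ^ i) ≠ 1 := by
  intro h
  have h1 : A.valuation ((algebraMap K (SeparableClosure K) c * b ^ i) ^ p) =
      A.valuation (algebraMap K (SeparableClosure K) 1) := by
    rw [map_pow, h, one_pow, map_one, map_one]
  rw [term_pow hb] at h1
  have h2 := ord_eq hA (term_ne c hc i) one_ne_zero h1
  rw [term_ord c hc, v.ord_one] at h2
  have h3 : (p : ℤ) ∣ (i : ℤ) * v.ord (κ : K) := ⟨-v.ord c, by linear_combination h2⟩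
  have h4 := dvd_cancel hn h3
  have h5 := Nat.le_of_dvd hi0 (Int.natCast_dvd_natCast.1 h4)
  omega

theorem term_le (hA : Ab v A) (hb : b ^ p = algebraMap K (SeparableClosure K) κ)
    (hn : ¬ (p : ℤ) ∣ v.ord (κ : K)) (c : ℕ → K)
    (hx : ∑ i ∈ Finset.range p, algebraMap K (SeparableClosure K) (c i) * b ^ i ∈ A) :
    ∀ i ∈ Finset.range p, A.valuation (algebraMap K (SeparableClosure K) (c i) * b ^ i) ≤ 1 := by
  obtain ⟨i0, hi0, hmax⟩ := Finset.exists_max_image (Finset.range p)
    (fun i => A.valuation (algebraMap K (SeparableClosure K) (c i) * b ^ i))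
    ⟨0, Finset.mem_range.2 hp.out.pos⟩
  intro i hi
  refine (hmax i hi).trans ?_
  by_contra hcon
  push Not at hcon
  have hc0 : c i0 ≠ 0 := by
    intro h
    rw [h, map_zero, zero_mul, map_zero] at hcon
    exact not_lt.2 zero_le hcon
  have hlt : ∀ i ∈ (Finset.range p).erase i0,
      A.valuation (algebraMap K (SeparableClosure K) (c i) * b ^ i) <
        A.valuation (algebraMap K (SeparableClosure K) (c i0) * b ^ i0) := by
    intro i hi
    obtain ⟨hne, hi⟩ := Finset.mem_erase.1 hi
    refine lt_of_le_of_ne (hmax i hi) fun h => ?_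
    by_cases hci : c i = 0
    · rw [hci, map_zero, zero_mul, map_zero] at h
      rw [← h] at hcon
      exact not_lt.2 zero_le hcon
    · exact hne (term_inj hA hb hn hci hc0 (Finset.mem_range.1 hi) (Finset.mem_range.1 hi0) h)
  have hsum := A.valuation.map_sum_lt (ne_of_gt (zero_lt_one.trans hcon)) hlt
  have h1 := A.valuation.map_add_eq_of_lt_left hsum
  have h2 := Finset.add_sum_erase (Finset.range p)
    (fun i => algebraMap K (SeparableClosure K) (c i) * b ^ i) hi0
  rw [h2] at h1
  rw [← A.valuation_le_one_iff, h1] at hx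
  exact absurd hx (not_le.2 hcon)

/-- the elements of `K(b)` -/
theorem expand (hb : b ^ p = algebraMap K (SeparableClosure K) κ) {x : SeparableClosure K}
    (hx : x ∈ IntermediateField.adjoin K {b}) : ∃ c : ℕ → K,
    x = ∑ i ∈ Finset.range p, algebraMap K (SeparableClosure K) (c i) * b ^ i := by
  have hint : IsIntegral K b := Algebra.IsIntegral.isIntegral b
  have h1 : x ∈ Algebra.adjoin K {b} := by
    rw [← IntermediateField.adjoin_simple_toSubalgebra_of_isAlgebraic hint.isAlgebraic]
    exact hx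
  rw [Algebra.adjoin_singleton_eq_range_aeval] at h1
  obtain ⟨f, hf⟩ := h1
  have hf' : Polynomial.aeval b f = x := hf
  set q : Polynomial K := Polynomial.X ^ p - Polynomial.C (κ : K) with hq
  have hmon : q.Monic := Polynomial.monic_X_pow_sub_C _ hp.out.ne_zero
  have hqb : Polynomial.aeval b q = 0 := by
    rw [hq, map_sub, map_pow, Polynomial.aeval_X, Polynomial.aeval_C, hb, sub_self]
  have hdeg : (f %ₘ q).natDegree < p := by
    have h2 : q.natDegree = p := Polynomial.natDegree_X_pow_sub_C
    have h3 := Polynomial.natDegree_modByMonic_lt f hmon (by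
      intro h
      rw [h, Polynomial.natDegree_one] at h2
      exact hp.out.ne_zero h2.symm)
    rwa [h2] at h3
  refine ⟨fun i => (f %ₘ q).coeff i, ?_⟩
  have h4 : Polynomial.aeval b (f %ₘ q) = x := by
    have h5 := congrArg (Polynomial.aeval b) (Polynomial.modByMonic_add_div f q)
    rw [map_add, map_mul, hqb, zero_mul, add_zero] at h5
    rw [h5, hf']
  rw [← h4, Polynomial.aeval_eq_sum_range' hdeg]
  exact Finset.sum_congr rfl fun i _ => by rw [Algebra.smul_def]

end

end DvdP

open DvdP

theorem s_dvd : S_dvd := by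
  intro k K _ _ _ _ _ p hp ζ hζ v A hA κ hκ
  by_contra hn
  have hb := rt_pow hζ κ
  set b := rt p κ with hbd
  -- an automorphism which moves the root
  obtain ⟨g0, hg0⟩ : ∃ g0 : GK K, kp hζ κ g0 ≠ 0 := by
    by_contra hcon
    push Not at hcon
    have hfix : ∀ g : GK K, g b = b := fun g => (kp_zero_iff hζ hb).1 (hcon g)
    obtain ⟨s, hs⟩ := (InfiniteGalois.mem_range_algebraMap_iff_fixed b).2 hfix
    apply hn
    have h1 : s ^ p = (κ : K) := by
      apply (algebraMap K (SeparableClosure K)).injective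
      rw [map_pow, hs, hb]
    exact ⟨v.ord s, by rw [← h1, v.ord_pow]⟩
  have hζA : zz ζ ∈ A := by
    have h1 := (zz_prim hζ).pow_eq_one
    rcases A.mem_or_inv_mem (zz ζ) with h | h
    · exact h
    · have h0 : zz ζ ≠ 0 := (zz_prim hζ).ne_zero hp.out.ne_zero
      have h2 : zz ζ = (zz ζ)⁻¹ ^ (p - 1) := by
        have h3 : zz ζ ^ (p - 1) * zz ζ = 1 := by
          rw [← pow_succ, Nat.sub_add_cancel hp.out.one_le, h1]
        rw [inv_pow]
        exact eq_inv_of_mul_eq_one_right h3
      rw [h2]
      exact pow_mem h _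
  set j := (kp hζ κ g0).val with hj
  have hg0b : g0 b = zz ζ ^ j * b := kp_spec hζ g0 hb
  have hyp : ∀ x : IntermediateField.adjoin K {b}, algebraMap _ (SeparableClosure K) x ∈ A →
      A.valuation ((g0 : SeparableClosure K →+* SeparableClosure K)
        (algebraMap (IntermediateField.adjoin K {b}) (SeparableClosure K) x) -
          algebraMap (IntermediateField.adjoin K {b}) (SeparableClosure K) x) < 1 := by
    rintro ⟨x, hx⟩ hxA
    have hxA' : x ∈ A := hxA
    show A.valuation (g0 x - x) < 1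
    obtain ⟨c, hc⟩ := expand hb hx
    rw [hc] at hxA'
    have hle := term_le hA hb hn c hxA'
    have e : g0 x - x = ∑ i ∈ Finset.range p,
        (algebraMap K (SeparableClosure K) (c i) * b ^ i) * ((zz ζ ^ j) ^ i - 1) := by
      rw [hc, map_sum, ← Finset.sum_sub_distrib]
      refine Finset.sum_congr rfl fun i _ => ?_
      rw [map_mul, map_pow, hg0b, g0.commutes, mul_pow]
      ring
    rw [e]
    refine A.valuation.map_sum_lt one_ne_zero fun i hi => ?_
    by_cases hi0 : i = 0
    · rw [hi0, pow_zero, pow_zero, sub_self, mul_zero, map_zero]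
      exact zero_lt_one
    rw [map_mul]
    have h1 : A.valuation ((zz ζ ^ j) ^ i - 1) ≤ 1 := by
      rw [A.valuation_le_one_iff]
      exact sub_mem (pow_mem (pow_mem hζA _) _) A.one_mem
    have h2 : A.valuation (algebraMap K (SeparableClosure K) (c i) * b ^ i) < 1 := by
      by_cases hci : c i = 0
      · rw [hci, map_zero, zero_mul, map_zero]
        exact zero_lt_one
      · exact lt_of_le_of_ne (hle i hi)
          (term_ne_one hA hb hn hci (Nat.pos_of_ne_zero hi0) (Finset.mem_range.1 hi))
    calc _ ≤ A.valuation (algebraMap K (SeparableClosure K) (c i) * b ^ i) * 1 :=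
          mul_le_mul_right h1 _
      _ < 1 := by rwa [mul_one]
  obtain ⟨h, hh1, hh2⟩ := LiftI.lift_inertia (A := A)
    (g0 := (g0 : SeparableClosure K →+* SeparableClosure K)) hyp
  set g : GK K := g0 * (h.restrictScalars K) with hg
  have hgI : g ∈ Inr A := by
    rw [mem_Inr]
    exact ⟨hh1, hh2⟩
  have h1 := (kp_zero_iff hζ hb).1 (hκ g hgI)
  have h2 : h b = b := h.commutes ⟨b, IntermediateField.mem_adjoin_simple_self K b⟩
  apply hg0
  rw [kp_zero_iff hζ hb]
  have h3 : g b = g0 (h b) := rfl
  rw [h3, h2] at h1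
  exact h1

end Pool.Agent.NH7.GF
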