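import Pool.Agent.NH7.GF.An

/-!
# GF7-E0: finitely many effective divisors of degree `n` (helper58)
-/

set_option autoImplicit false

namespace Pool.Agent.NH7.GF

theorem s_ef : S_ef := by
  classical
  intro ι D m
  have hS := D.fin m
  let Dmax : ι →₀ ℕ := Finsupp.indicator hS.toFinset (fun _ _ => m)
  have h1 : {E : ι →₀ ℕ | (E.sum fun v n => n * D.d v) = m} ⊆ Set.Iic Dmax := by
    intro E hE
    rw [Set.mem_Iic]
    intro v
    by_cases hv : E v = 0
    · rw [hv]; exact Nat.zero_le _
    have hvs : v ∈ E.support := Finsupp.mem_support_iff.2 hv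
    have h2 : E v * D.d v ≤ m := by
      have h3 : E v * D.d v ≤ E.sum fun v n => n * D.d v :=
        Finset.single_le_sum (f := fun v => E v * D.d v) (fun _ _ => Nat.zero_le _) hvs
      have h4 : (E.sum fun v n => n * D.d v) = m := hE
      omega
    have hd := D.pos v
    have h3 : D.d v ≤ m := by nlinarith [Nat.pos_of_ne_zero hv]
    have h4 : E v ≤ m := by nlinarith
    have h5 : Dmax v = m := by
      simp only [Dmax]
      rw [Finsupp.indicator_of_mem]
      rw [Set.Finite.mem_toFinset]
      exact h3
    rw [h5]
    exact h4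
  exact ((Set.finite_Iic Dmax).subset h1)

end Pool.Agent.NH7.GF
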