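import Pool.Agent.NH7.GF.An

/-!
# GF7-E2: the logarithmic derivative of the Euler product
-/

set_option autoImplicit false
set_option linter.unusedSectionVars false

namespace Pool.Agent.NH7.GF

namespace EulP

variable {ι : Type} (D : Dg ι)

/-- the degree -/
noncomputable def deg (E : ι →₀ ℕ) : ℕ := E.sum fun v m => m * D.d v

/-- the value of `a` -/
noncomputable def av (a : ι → ℂ) (E : ι →₀ ℕ) : ℂ := E.prod fun v m => a v ^ m

theorem deg_add (E : ι →₀ ℕ) (v : ι) (k : ℕ) :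
    deg D (E + Finsupp.single v k) = deg D E + k * D.d v := by
  unfold deg
  rw [Finsupp.sum_add_index' (fun _ => zero_mul _) (fun _ _ _ => add_mul _ _ _),
    Finsupp.sum_single_index (zero_mul _)]

theorem av_add (a : ι → ℂ) (E : ι →₀ ℕ) (v : ι) (k : ℕ) :
    av a (E + Finsupp.single v k) = av a E * a v ^ k := by
  have e := Finsupp.prod_single_index (h := fun (v : ι) (m : ℕ) => a v ^ m) (a := v) (b := k) (pow_zero _)
  have e2 := Finsupp.prod_add_index' (h := fun (v : ι) (m : ℕ) => a v ^ m) (f := E)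
    (g := Finsupp.single v k) (fun _ => pow_zero _) (fun _ _ _ => pow_add _ _ _)
  unfold av
  rw [e2, e]

theorem norm_av (a : ι → ℂ) (ha : ∀ v, ‖a v‖ = 1) (E : ι →₀ ℕ) : ‖av a E‖ = 1 := by
  unfold av Finsupp.prod
  rw [norm_prod]
  exact Finset.prod_eq_one (fun v _ => by rw [norm_pow, ha, one_pow])

/-- the sum over all divisors by degrees -/
theorem tsum_deg (G : (ι →₀ ℕ) → ℂ) (hG : Summable G) :
    ∑' E, G E = ∑' n : ℕ, ∑' E : D.Ef n, G E.1 := by
  have h1 : Summable (fun c => G ((Equiv.sigmaFiberEquiv (deg D)) c)) :=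
    (Equiv.sigmaFiberEquiv (deg D)).summable_iff.mpr hG
  rw [← (Equiv.sigmaFiberEquiv (deg D)).tsum_eq G, h1.tsum_sigma]
  rfl

/-- the sum over all divisors of `u ^ deg` converges -/
theorem summable_deg (h0 : S_ef) (u : ℝ) (hu : 0 < u)
    (hs : Summable (fun n : ℕ => (Nat.card (D.Ef n) : ℝ) * u ^ n)) :
    Summable (fun E : ι →₀ ℕ => u ^ deg D E) := by
  have hfin : ∀ n, Finite (D.Ef n) := fun n => h0 ι D n
  have key : Summable (fun x : (Σ n : ℕ, D.Ef n) => u ^ x.1) := by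
    rw [summable_sigma_of_nonneg (fun x => pow_nonneg hu.le _)]
    refine ⟨fun n => ?_, ?_⟩
    · have := hfin n
      exact Summable.of_finite
    · have e1 : (fun n : ℕ => ∑' _ : D.Ef n, u ^ n) = fun n : ℕ => (Nat.card (D.Ef n) : ℝ) * u ^ n := by
        funext n
        have := Fintype.ofFinite (D.Ef n)
        rw [tsum_fintype, Finset.sum_const, Finset.card_univ, nsmul_eq_mul, Nat.card_eq_fintype_card]
      simp only
      rw [e1]
      exact hs
  have e2 : ((fun E : ι →₀ ℕ => u ^ deg D E) ∘ (Equiv.sigmaFiberEquiv (deg D))) =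
      fun x : (Σ n : ℕ, {E : ι →₀ ℕ // deg D E = n}) => u ^ x.1 := by
    funext x
    obtain ⟨n, E, hE⟩ := x
    rw [Function.comp_apply, Equiv.sigmaFiberEquiv_apply]
    simp only
    rw [hE]
  rw [← (Equiv.sigmaFiberEquiv (deg D)).summable_iff, e2]
  exact key

/-- the shift -/
noncomputable def sh (y : (ι × ℕ) × (ι →₀ ℕ)) : (ι × ℕ) × (ι →₀ ℕ) :=
  (y.1, y.2 + Finsupp.single y.1.1 (y.1.2 + 1))

theorem sh_inj : Function.Injective (sh (ι := ι)) := by
  rintro ⟨x, E⟩ ⟨x', E'⟩ h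
  simp only [sh, Prod.mk.injEq] at h
  obtain ⟨rfl, h2⟩ := h
  rw [add_left_inj] at h2
  rw [h2]

theorem sh_range (v : ι) (k : ℕ) (E : ι →₀ ℕ) (h : k < E v) : ((v, k), E) ∈ Set.range (sh (ι := ι)) := by
  refine ⟨((v, k), E - Finsupp.single v (k + 1)), ?_⟩
  simp only [sh, Prod.mk.injEq, true_and]
  apply tsub_add_cancel_of_le
  rw [Finsupp.single_le_iff]
  exact h

end EulP

open EulP

open Classical in
theorem s_eul (h0 : S_ef) (h1 : S_sm) : S_eul := by
  intro ι D q C δ n₀ hCnt a ha u hu huq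
  obtain ⟨hs1, hs2, hs3, hs4⟩ := h1 ι D q C δ n₀ hCnt u hu huq
  have hsum := summable_deg D h0 u hu hs4
  set F : (ι →₀ ℕ) → ℂ := fun E => av a E * (u : ℂ) ^ deg D E with hF
  have hFn : ∀ E, ‖F E‖ = u ^ deg D E := by
    intro E
    rw [hF]
    simp only
    rw [norm_mul, norm_av a ha, one_mul, norm_pow, Complex.norm_real, Real.norm_of_nonneg hu.le]
  have hFs : Summable (fun E => ‖F E‖) := hsum.congr (fun E => (hFn E).symm)
  set g : ι × ℕ → ℂ := fun x => (D.d x.1 : ℂ) * a x.1 ^ (x.2 + 1) * (u : ℂ) ^ ((x.2 + 1) * D.d x.1) with hg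
  have hgn : ∀ x, ‖g x‖ = (D.d x.1 : ℝ) * u ^ ((x.2 + 1) * D.d x.1) := by
    intro x
    rw [hg]
    simp only
    rw [norm_mul, norm_mul, norm_pow, ha, one_pow, mul_one, norm_pow, Complex.norm_real,
      Real.norm_of_nonneg hu.le, Complex.norm_natCast]
  have hgs : Summable (fun x => ‖g x‖) := hs2.congr (fun x => (hgn x).symm)
  -- the function on the triples
  set h : (ι × ℕ) × (ι →₀ ℕ) → ℂ := fun y => if y.1.2 < y.2 y.1.1 then (D.d y.1.1 : ℂ) * F y.2 else 0 with hh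
  have hsh : ∀ y : (ι × ℕ) × (ι →₀ ℕ), h (sh y) = g y.1 * F y.2 := by
    rintro ⟨⟨v, k⟩, E⟩
    simp only [hh, sh, hF, hg]
    rw [if_pos (by rw [Finsupp.add_apply, Finsupp.single_eq_same]; omega), av_add, deg_add, pow_add]
    ring
  have hsupp : ∀ y ∉ Set.range (sh (ι := ι)), h y = 0 := by
    rintro ⟨⟨v, k⟩, E⟩ hy
    simp only [hh]
    rw [if_neg (fun hk => hy (sh_range v k E hk))]
  have hval : ∀ (v : ι) (k : ℕ) (E : ι →₀ ℕ), h ((v, k), E) = if k < E v then (D.d v : ℂ) * F E else 0 :=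
    fun _ _ _ => rfl
  have hFv : ∀ E, F E = av a E * (u : ℂ) ^ deg D E := fun _ => rfl
  have hgv : ∀ x, g x = (D.d x.1 : ℂ) * a x.1 ^ (x.2 + 1) * (u : ℂ) ^ ((x.2 + 1) * D.d x.1) := fun _ => rfl
  clear_value h F g
  have hprods : Summable (fun y : (ι × ℕ) × (ι →₀ ℕ) => g y.1 * F y.2) :=
    (summable_mul_of_summable_norm hgs hFs)
  have hhs : Summable h := by
    rw [← (sh_inj (ι := ι)).summable_iff hsupp]
    exact hprods.congr (fun y => (hsh y).symm)
  have hR : (∑' x, g x) * (∑' E, F E) = ∑' y, h y := by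
    rw [tsum_mul_tsum_of_summable_norm hgs hFs]
    rw [← (sh_inj (ι := ι)).tsum_eq (f := h) (fun y hy => by
      by_contra hcon
      exact hy (hsupp y hcon))]
    exact tsum_congr (fun y => (hsh y).symm)
  have hinner : ∀ E : ι →₀ ℕ, ∑' x : ι × ℕ, h (x, E) = (deg D E : ℂ) * F E := by
    intro E
    have hsE : Summable (fun x : ι × ℕ => h (x, E)) :=
      hhs.comp_injective (i := fun x : ι × ℕ => (x, E)) (fun x y hxy => (Prod.mk.inj hxy).1)
    rw [hsE.tsum_prod]
    have e1 : ∀ v : ι, ∑' k : ℕ, h ((v, k), E) = (E v : ℂ) * ((D.d v : ℂ) * F E) := by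
      intro v
      rw [tsum_eq_sum (s := Finset.range (E v))]
      · rw [Finset.sum_congr rfl (fun k hk => by
          rw [hval, if_pos (Finset.mem_range.mp hk)] : ∀ k ∈ Finset.range (E v), h ((v, k), E) = (D.d v : ℂ) * F E)]
        rw [Finset.sum_const, Finset.card_range, nsmul_eq_mul]
      · intro k hk
        rw [hval, if_neg (fun hcon => hk (Finset.mem_range.mpr hcon))]
    rw [tsum_congr e1, tsum_eq_sum (s := E.support)]
    · unfold deg Finsupp.sum
      push_cast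
      rw [Finset.sum_mul]
      exact Finset.sum_congr rfl (fun v _ => by ring)
    · intro v hv
      rw [Finsupp.notMem_support_iff.mp hv]
      simp
  have hswap : ∑' y, h y = ∑' E, ∑' x, h (x, E) := by
    rw [← (Equiv.prodComm (ι →₀ ℕ) (ι × ℕ)).tsum_eq h]
    have : Summable (fun c : (ι →₀ ℕ) × (ι × ℕ) => h ((Equiv.prodComm (ι →₀ ℕ) (ι × ℕ)) c)) :=
      (Equiv.prodComm (ι →₀ ℕ) (ι × ℕ)).summable_iff.mpr hhs
    rw [this.tsum_prod]
    rfl
  have hdFs : Summable (fun E : ι →₀ ℕ => (deg D E : ℂ) * F E) := by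
    have h7 : Summable (fun c : (ι →₀ ℕ) × (ι × ℕ) => h (c.2, c.1)) :=
      (Equiv.prodComm (ι →₀ ℕ) (ι × ℕ)).summable_iff.mpr hhs
    exact h7.prod.congr (fun E => hinner E)
  have hL : ∑' n : ℕ, (n : ℂ) * D.S a n * (u : ℂ) ^ n = ∑' E, (deg D E : ℂ) * F E := by
    rw [tsum_deg D _ hdFs]
    refine tsum_congr (fun n => ?_)
    unfold Dg.S
    rw [mul_right_comm, ← tsum_mul_left]
    refine tsum_congr (fun E => ?_)
    have hE : deg D E.1 = n := E.2
    rw [hFv, hE]
    unfold av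
    ring
  have hF2 : ∑' n : ℕ, D.S a n * (u : ℂ) ^ n = ∑' E, F E := by
    rw [tsum_deg D _ hFs.of_norm]
    refine tsum_congr (fun n => ?_)
    unfold Dg.S
    rw [← tsum_mul_right]
    refine tsum_congr (fun E => ?_)
    have hE : deg D E.1 = n := E.2
    rw [hFv, hE]
    rfl
  rw [hL, hF2]
  change _ = (∑' x, g x) * _
  rw [hR, hswap]
  exact tsum_congr (fun E => (hinner E).symm)

end Pool.Agent.NH7.GF
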