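import Pool.Agent.NH7.GF.Abs

/-!
# N1: the class groups are finite
-/

set_option autoImplicit false

namespace Pool.Agent.NH7.GF

theorem s_fin : S_fin := by
  classical
  intro p hp M _ G _ _ P d hd T H hH
  obtain ⟨T', hT, hcls⟩ := hd.cls T
  obtain ⟨hfin, -⟩ := hd.loc T
  have hne : NeZero p := ⟨hp.out.ne_zero⟩
  have hsup : ∀ (a : M) (c : T' → ZMod p),
      (Function.support (fun v : P => (if h : v ∈ T' then ((c ⟨v, h⟩).val : ℤ) else 0)
        + d.od v a)).Finite := by
    intro a c
    refine ((T'.finite_toSet).union (d.od_fin a)).subset ?_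
    intro v hv
    by_cases h : v ∈ T'
    · exact Or.inl h
    · right
      intro h0
      apply hv
      simp only [h, dif_neg, not_false_eq_true, h0, add_zero]
  let F : (M ⧸ d.H0 T) × (T' → ZMod p) → d.Cq T H := fun q =>
    QuotientAddGroup.mk (Finsupp.ofSupportFinite _ (hsup q.1.out q.2))
  have hF : Function.Surjective F := by
    intro z
    obtain ⟨n, rfl⟩ := QuotientAddGroup.mk_surjective z
    obtain ⟨a, ha⟩ := hcls n
    refine ⟨(QuotientGroup.mk a, fun v => ((n v.1 - d.od v.1 a : ℤ) : ZMod p)), ?_⟩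
    have h1 : ((QuotientGroup.mk a : M ⧸ d.H0 T).out)⁻¹ * a ∈ d.H0 T :=
      QuotientGroup.eq.1 (Quotient.out_eq' (QuotientGroup.mk a : M ⧸ d.H0 T))
    set b := (QuotientGroup.mk a : M ⧸ d.H0 T).out with hb
    refine QuotientAddGroup.eq.2 ?_
    refine ⟨b * a⁻¹, ?_, fun v hv => ?_⟩
    · have := H.inv_mem (hH h1)
      rwa [mul_inv_rev, inv_inv, mul_comm] at this
    · rw [d.od_mul, d.od_inv, Finsupp.add_apply, Finsupp.neg_apply]
      change (p : ℤ) ∣ -((if h : v ∈ T' then (((n v - d.od v a : ℤ) : ZMod p).val : ℤ) else 0)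
        + d.od v b) + n v + (d.od v b + -d.od v a)
      by_cases h : v ∈ T'
      · rw [dif_pos h]
        have h2 : (((((n v - d.od v a : ℤ) : ZMod p).val : ℤ)) : ZMod p)
            = ((n v - d.od v a : ℤ) : ZMod p) := by
          rw [Int.cast_natCast, ZMod.natCast_zmod_val]
        have h3 := (ZMod.intCast_eq_intCast_iff_dvd_sub _ _ _).1 h2
        convert h3 using 1
        ring
      · rw [dif_neg h, ha v h]
        exact ⟨0, by ring⟩
  exact Finite.of_surjective F hF

end Pool.Agent.NH7.GF
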