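import Pool.Agent.NH7.GF.FrbA
import Mathlib.FieldTheory.Finite.Basic

/-!
# Frobenius elements
-/

set_option autoImplicit false
set_option linter.unusedSectionVars false

namespace Pool.Agent.NH7.GF.Frb

open scoped Pointwise
open Pool.Agent.H525R3.FFp

variable {K : Type} [Field K] (A : ValuationSubring (SeparableClosure K))

/-- the valuation ring of `K` below `A` -/
noncomputable abbrev OK : ValuationSubring K := A.comap (algebraMap K (SeparableClosure K))

noncomputable instance algOK : Algebra (OK A) (BB A) :=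
  RingHom.toAlgebra
    { toFun := fun a => ⟨algebraMap K (SeparableClosure K) (a : K), fun g => by
        rw [AlgEquiv.commutes]
        exact a.2⟩
      map_one' := Subtype.ext (map_one _)
      map_mul' := fun a b => Subtype.ext (map_mul _ _ _)
      map_zero' := Subtype.ext (map_zero _)
      map_add' := fun a b => Subtype.ext (map_add _ _ _) }

theorem algOK_coe (a : OK A) : ((algebraMap (OK A) (BB A) a : BB A) : SeparableClosure K) =
    algebraMap K (SeparableClosure K) a := rfl

instance commOK : SMulCommClass (GK K) (OK A) (BB A) := by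
  refine ⟨fun g a b => Subtype.ext ?_⟩
  rw [coe_smul, Algebra.smul_def, Algebra.smul_def]
  show g (algebraMap K (SeparableClosure K) a * b) =
    algebraMap K (SeparableClosure K) a * g b
  rw [map_mul, AlgEquiv.commutes]

instance invOK : Algebra.IsInvariant (OK A) (BB A) (GK K) := by
  refine ⟨fun b hb => ?_⟩
  have h1 : (b : SeparableClosure K) ∈ (⊥ : IntermediateField K (SeparableClosure K)) := by
    rw [← InfiniteGalois.fixedField_fixingSubgroup ⊥]
    intro g
    exact congrArg (fun z : BB A => (z : SeparableClosure K)) (hb g)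
  obtain ⟨c, hc⟩ := IntermediateField.mem_bot.1 h1
  refine ⟨⟨c, ?_⟩, Subtype.ext ?_⟩
  · show algebraMap K (SeparableClosure K) c ∈ A
    rw [hc]
    exact BB_mem A b
  · exact hc

theorem mem_max (a : OK A) : a ∈ IsLocalRing.maximalIdeal (OK A) ↔
    algebraMap (OK A) (BB A) a ∈ QQ A := by
  rw [IsLocalRing.mem_maximalIdeal, mem_nonunits_iff, mem_QQ, algOK_coe]
  constructor
  · intro h
    by_contra hcon
    apply h
    have h0 : (a : K) ≠ 0 := by
      intro h0
      apply hcon
      rw [h0, map_zero, map_zero]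
      exact zero_lt_one
    have h1 : (a : K)⁻¹ ∈ OK A := by
      show algebraMap K (SeparableClosure K) (a : K)⁻¹ ∈ A
      rw [← A.valuation_le_one_iff, map_inv₀, map_inv₀]
      exact inv_le_one_of_one_le₀ (not_lt.1 hcon)
    refine ⟨⟨a, ⟨(a : K)⁻¹, h1⟩, Subtype.ext ?_, Subtype.ext ?_⟩, rfl⟩
    · exact mul_inv_cancel₀ h0
    · exact inv_mul_cancel₀ h0
  · rintro h ⟨u, rfl⟩
    have h1 : A.valuation (algebraMap K (SeparableClosure K) ((u⁻¹ : (OK A)ˣ) : OK A)) ≤ 1 :=
      (A.valuation_le_one_iff _).2 ((u⁻¹ : (OK A)ˣ) : OK A).2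
    have h2 : A.valuation (algebraMap K (SeparableClosure K) (u : OK A)) *
        A.valuation (algebraMap K (SeparableClosure K) ((u⁻¹ : (OK A)ˣ) : OK A)) = 1 := by
      rw [← map_mul, ← map_mul]
      have h3 : ((u : OK A) : K) * (((u⁻¹ : (OK A)ˣ) : OK A) : K) = 1 := by
        have h4 := u.mul_inv
        exact congrArg (fun z : OK A => (z : K)) h4
      rw [h3, map_one, map_one]
    have h5 : A.valuation (algebraMap K (SeparableClosure K) (u : OK A)) *
        A.valuation (algebraMap K (SeparableClosure K) ((u⁻¹ : (OK A)ˣ) : OK A)) < 1 :=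
      lt_of_le_of_lt (mul_le_of_le_one_right' h1) h
    rw [h2] at h5
    exact lt_irrefl _ h5

instance liesOK : (QQ A).LiesOver (IsLocalRing.maximalIdeal (OK A)) := by
  refine ⟨?_⟩
  ext a
  rw [Ideal.under_def, Ideal.mem_comap]
  exact mem_max A a

theorem intOK : Algebra.IsIntegral (OK A) (BB A) := by
  let _ : TopologicalSpace (BB A) := ⊥
  have : DiscreteTopology (BB A) := ⟨rfl⟩
  have hcont : ContinuousSMul (GK K) (BB A) := cont_BB A
  exact Algebra.IsInvariant.isIntegral_of_profinite (G := GK K)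

theorem maxQQ : (QQ A).IsMaximal := by
  have hint := intOK A
  refine Ideal.isMaximal_of_isIntegral_of_isMaximal_comap (R := OK A) _ ?_
  have h : Ideal.comap (algebraMap (OK A) (BB A)) (QQ A) = IsLocalRing.maximalIdeal (OK A) :=
    (liesOK A).over.symm
  rw [h]
  infer_instance

/-- there are Frobenius elements -/
theorem frob_exists (hfin : Finite (IsLocalRing.ResidueField (OK A))) : ∃ φ ∈ Dec A, ∀ x ∈ A,
    A.valuation (φ x - x ^ Nat.card (IsLocalRing.ResidueField (OK A))) < 1 := by
  let _ : TopologicalSpace (BB A) := ⊥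
  have : DiscreteTopology (BB A) := ⟨rfl⟩
  have hcont : ContinuousSMul (GK K) (BB A) := cont_BB A
  have hint := intOK A
  have hmax := maxQQ A
  let _ : Field (OK A ⧸ IsLocalRing.maximalIdeal (OK A)) := Ideal.Quotient.field _
  let _ : Field (BB A ⧸ QQ A) := Ideal.Quotient.field _
  have hfin' : Finite (OK A ⧸ IsLocalRing.maximalIdeal (OK A)) := hfin
  have hft : Fintype (OK A ⧸ IsLocalRing.maximalIdeal (OK A)) := Fintype.ofFinite _
  have hcard : Fintype.card (OK A ⧸ IsLocalRing.maximalIdeal (OK A)) =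
      Nat.card (IsLocalRing.ResidueField (OK A)) := Nat.card_eq_fintype_card.symm
  have hint2 : Algebra.IsIntegral (OK A ⧸ IsLocalRing.maximalIdeal (OK A)) (BB A ⧸ QQ A) :=
    Ideal.Quotient.algebra_isIntegral_of_liesOver _ _
  have halg : Algebra.IsAlgebraic (OK A ⧸ IsLocalRing.maximalIdeal (OK A)) (BB A ⧸ QQ A) :=
    inferInstance
  obtain ⟨g, hg⟩ := Ideal.Quotient.stabilizerHom_surjective_of_profinite (G := GK K)
    (IsLocalRing.maximalIdeal (OK A)) (QQ A) (FiniteField.frobeniusAlgEquivOfAlgebraic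
      (OK A ⧸ IsLocalRing.maximalIdeal (OK A)) (BB A ⧸ QQ A))
  have hg' : ∀ b : BB A, g.1 • b - b ^ Nat.card (IsLocalRing.ResidueField (OK A)) ∈ QQ A := by
    intro b
    have h1 := DFunLike.congr_fun hg (Ideal.Quotient.mk (QQ A) b)
    rw [Ideal.Quotient.stabilizerHom_apply, FiniteField.coe_frobeniusAlgEquivOfAlgebraic,
      hcard] at h1
    rw [← Ideal.Quotient.mk_eq_mk_iff_sub_mem, map_pow]
    exact h1
  obtain ⟨g1, hg1, hg1'⟩ : ∃ g1 : GK K, g1 • QQ A = QQ A ∧
      ∀ b : BB A, g1 • b - b ^ Nat.card (IsLocalRing.ResidueField (OK A)) ∈ QQ A :=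
    ⟨g.1, g.2, hg'⟩
  have hD : g1 ∈ Dec A := by
    apply mem_Dec_of
    intro b
    conv_rhs => rw [← hg1]
    exact Ideal.smul_mem_pointwise_smul_iff.symm
  exact ⟨g1, hD, val_of_BB A hD _ hg1'⟩

/-! ### the second part -/

/-- the elements fixed by `U` -/
def SS (U : Subgroup (GK K)) : Subring (BB A) where
  carrier := {b | ∀ u ∈ U, u • b = b}
  mul_mem' := fun {x y} hx hy g hg => by rw [smul_mul', hx g hg, hy g hg]
  one_mem' := fun g _ => smul_one g
  add_mem' := fun {x y} hx hy g hg => by rw [smul_add, hx g hg, hy g hg]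
  zero_mem' := fun g _ => smul_zero g
  neg_mem' := fun {x} hx g hg => by rw [smul_neg, hx g hg]

theorem mem_SS {U : Subgroup (GK K)} {b : BB A} : b ∈ SS A U ↔ ∀ u ∈ U, u • b = b := Iff.rfl

theorem lift (U : Subgroup (GK K)) (hU : IsClosed (U : Set (GK K))) {g : GK K} (hg : g ∈ Dec A)
    (h : ∀ b ∈ SS A U, g • b - b ∈ QQ A) : ∃ u ∈ U, ∃ τ ∈ Inr A, g = u * τ := by
  have hcomm : SMulCommClass U (SS A U) (BB A) := by
    refine ⟨fun u a b => ?_⟩
    rw [Subgroup.smul_def, Subgroup.smul_def, Algebra.smul_def, Algebra.smul_def, smul_mul']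
    congr 1
    exact a.2 u.1 u.2
  have hinv : Algebra.IsInvariant (SS A U) (BB A) U := by
    refine ⟨fun b hb => ⟨⟨b, fun u hu => ?_⟩, rfl⟩⟩
    exact hb ⟨u, hu⟩
  have hcpt : CompactSpace U := isCompact_iff_compactSpace.1 hU.isCompact
  let _ : TopologicalSpace (BB A) := ⊥
  have : DiscreteTopology (BB A) := ⟨rfl⟩
  have hcont : ContinuousSMul (GK K) (BB A) := cont_BB A
  have hcontU : ContinuousSMul U (BB A) := inferInstance
  set P : Ideal (SS A U) := (QQ A).under (SS A U) with hP
  have hgQ : g • QQ A = QQ A := by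
    ext x
    rw [Ideal.mem_pointwise_smul_iff_inv_smul_mem, smul_mem_QQ A hg, smul_inv_smul]
  have hmap : QQ A = (QQ A).map (MulSemiringAction.toRingEquiv (GK K) (BB A) g :
      BB A →+* BB A) := by
    conv_lhs => rw [← hgQ]
    rw [Ideal.pointwise_smul_def]
    rfl
  let σ : (BB A ⧸ QQ A) ≃ₐ[SS A U ⧸ P] (BB A ⧸ QQ A) :=
    AlgEquiv.ofRingEquiv (f := Ideal.quotientEquiv (QQ A) (QQ A)
      (MulSemiringAction.toRingEquiv (GK K) (BB A) g) hmap) (by
      intro a
      obtain ⟨a, rfl⟩ := Ideal.Quotient.mk_surjective a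
      show Ideal.Quotient.mk (QQ A) (g • (a : BB A)) =
        Ideal.Quotient.mk (QQ A) (a : BB A)
      rw [Ideal.Quotient.mk_eq_mk_iff_sub_mem]
      exact h a a.2)
  obtain ⟨k, hk⟩ := Ideal.Quotient.stabilizerHom_surjective_of_profinite
    (G := U) P (QQ A) σ
  have hk' : ∀ x : BB A, g • x - k.1.1 • x ∈ QQ A := by
    intro x
    have h1 := DFunLike.congr_fun hk (Ideal.Quotient.mk (QQ A) x)
    rw [Ideal.Quotient.stabilizerHom_apply] at h1
    rw [← Ideal.Quotient.mk_eq_mk_iff_sub_mem]
    exact h1.symm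
  obtain ⟨k1, hkU, hkQ, hk'⟩ : ∃ k1 : GK K, k1 ∈ U ∧ k1 • QQ A = QQ A ∧
      ∀ x : BB A, g • x - k1 • x ∈ QQ A := ⟨k.1.1, k.1.2, k.2, hk'⟩
  have hkD : k1 ∈ Dec A := by
    apply mem_Dec_of
    intro b
    conv_rhs => rw [← hkQ]
    exact Ideal.smul_mem_pointwise_smul_iff.symm
  have hτD : k1⁻¹ * g ∈ Dec A := (Dec A).mul_mem ((Dec A).inv_mem hkD) hg
  refine ⟨k1, hkU, k1⁻¹ * g, ⟨hτD, fun x hx => ?_⟩, by group⟩
  have h1 := val_of_BB A hτD 1 (fun b => by
    have h1 := hk' b
    rw [← hkQ, Ideal.mem_pointwise_smul_iff_inv_smul_mem, smul_sub, inv_smul_smul,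
      ← mul_smul, mem_QQ] at h1
    rw [pow_one]
    exact h1) x hx
  rwa [pow_one] at h1

/-- roots of `X ^ q - X` in a domain over the field of `q` elements -/
theorem range_of_pow {F L : Type} [Field F] [Finite F] [CommRing L] [IsDomain L] [Algebra F L]
    (y : L) (hy : y ^ Nat.card F = y) : ∃ c : F, algebraMap F L c = y := by
  classical
  have hft : Fintype F := Fintype.ofFinite F
  rw [Nat.card_eq_fintype_card] at hy
  have hinj : Function.Injective (algebraMap F L) := (algebraMap F L).injective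
  have hne : (Polynomial.X ^ Fintype.card F - Polynomial.X : Polynomial L) ≠ 0 := by
    intro h0
    have h1 := congrArg (fun P : Polynomial L => P.coeff 1) h0
    have h2 : Fintype.card F ≠ 1 := (Fintype.one_lt_card (α := F)).ne'
    simp only [Polynomial.coeff_sub, Polynomial.coeff_X_pow, Polynomial.coeff_X_one,
      Polynomial.coeff_zero, if_neg h2.symm, zero_sub, neg_eq_zero] at h1
    exact one_ne_zero h1
  have hdeg : (Polynomial.X ^ Fintype.card F - Polynomial.X : Polynomial L).natDegree ≤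
      Fintype.card F := by
    refine (Polynomial.natDegree_sub_le _ _).trans ?_
    rw [Polynomial.natDegree_X_pow, Polynomial.natDegree_X]
    exact max_le le_rfl Fintype.one_lt_card.le
  have hroot : ∀ z : L, z ∈ (Polynomial.X ^ Fintype.card F - Polynomial.X :
      Polynomial L).roots.toFinset ↔ z ^ Fintype.card F = z := by
    intro z
    rw [Multiset.mem_toFinset, Polynomial.mem_roots hne, Polynomial.IsRoot.def,
      Polynomial.eval_sub, Polynomial.eval_pow, Polynomial.eval_X, sub_eq_zero]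
  have hsub : (Finset.univ : Finset F).image (algebraMap F L) ⊆
      (Polynomial.X ^ Fintype.card F - Polynomial.X : Polynomial L).roots.toFinset := by
    intro z hz
    obtain ⟨c, -, rfl⟩ := Finset.mem_image.1 hz
    rw [hroot, ← map_pow, FiniteField.pow_card]
  have heq := Finset.eq_of_subset_of_card_le hsub (by
    rw [Finset.card_image_of_injective _ hinj, Finset.card_univ]
    exact (Multiset.toFinset_card_le _).trans ((Polynomial.card_roots' _).trans hdeg))
  have hy' := (hroot y).2 hy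
  rw [← heq] at hy'
  obtain ⟨c, -, hc⟩ := Finset.mem_image.1 hy'
  exact ⟨c, hc⟩

theorem second (hfin : Finite (IsLocalRing.ResidueField (OK A))) {φ : GK K}
    (hφ : ∀ x ∈ A, A.valuation (φ x - x ^ Nat.card (IsLocalRing.ResidueField (OK A))) < 1)
    (U : Subgroup (GK K)) (hU : IsClosed (U : Set (GK K))) (hφU : φ ∈ U) {g : GK K}
    (hg : g ∈ Dec A) : ∃ u ∈ U, ∃ τ ∈ Inr A, g = u * τ := by
  refine lift A U hU hg fun b hb => ?_
  have h1 : φ • b = b := hb φ hφU
  have h2 : b - b ^ Nat.card (IsLocalRing.ResidueField (OK A)) ∈ QQ A := by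
    have h3 := hφ b (BB_mem A b)
    have h4 : φ (b : SeparableClosure K) = b :=
      congrArg (fun z : BB A => (z : SeparableClosure K)) h1
    rw [h4] at h3
    exact h3
  rw [← Ideal.Quotient.mk_eq_mk_iff_sub_mem, map_pow] at h2
  let _ : Field (OK A ⧸ IsLocalRing.maximalIdeal (OK A)) := Ideal.Quotient.field _
  have hfin' : Finite (OK A ⧸ IsLocalRing.maximalIdeal (OK A)) := hfin
  obtain ⟨c, hc⟩ := range_of_pow (F := OK A ⧸ IsLocalRing.maximalIdeal (OK A))
    (L := BB A ⧸ QQ A) _ h2.symm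
  obtain ⟨c, rfl⟩ := Ideal.Quotient.mk_surjective c
  have h5 : algebraMap (OK A) (BB A) c - b ∈ QQ A := by
    rw [← Ideal.Quotient.mk_eq_mk_iff_sub_mem]
    exact hc
  have h6 : g • (algebraMap (OK A) (BB A) c) = algebraMap (OK A) (BB A) c := by
    apply Subtype.ext
    rw [coe_smul, algOK_coe, AlgEquiv.commutes]
  have h7 := (smul_mem_QQ A hg _).1 h5
  rw [smul_sub, h6] at h7
  have h8 := (QQ A).sub_mem h5 h7
  have e : algebraMap (OK A) (BB A) c - b - (algebraMap (OK A) (BB A) c - g • b) = g • b - b := by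
    ring
  rwa [e] at h8

end Pool.Agent.NH7.GF.Frb

namespace Pool.Agent.NH7.GF

open Pool.Agent.H525R3.FFp

theorem s_frb : S_frb := by
  intro k K _ _ _ _ _ v A h
  have hfin : Finite v.RF := Module.finite_of_finite k
  have hO : (Frb.OK A) = v.O := h
  have hfin' : Finite (IsLocalRing.ResidueField (Frb.OK A)) := by
    rw [hO]
    exact hfin
  have hcard : Nat.card (IsLocalRing.ResidueField (Frb.OK A)) = Nat.card v.RF := by
    rw [hO]
    rfl
  refine ⟨?_, ?_⟩
  · obtain ⟨φ, h1, h2⟩ := Frb.frob_exists A hfin'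
    rw [hcard] at h2
    exact ⟨φ, h1, h2⟩
  · intro φ hφ p _ x hx hI hφ0 g hg
    have hx1 : x 1 = 0 := by
      have h1 := hx.m 1 1
      rw [mul_one] at h1
      simpa using h1
    obtain ⟨U, hU⟩ : ∃ U : Subgroup (GK K), ∀ g, g ∈ U ↔ x g = 0 :=
      ⟨{ carrier := {g | x g = 0}
         mul_mem' := fun {a b} ha hb => by
          show x (a * b) = 0
          rw [hx.m, show x a = 0 from ha, show x b = 0 from hb, add_zero]
         one_mem' := hx1
         inv_mem' := fun {a} ha => by
          show x a⁻¹ = 0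
          have h1 := hx.m a a⁻¹
          rw [mul_inv_cancel, hx1, show x a = 0 from ha, zero_add] at h1
          exact h1.symm }, fun _ => Iff.rfl⟩
    have hcl : IsClosed (U : Set (GK K)) := by
      have h1 : (U : Set (GK K)) = x ⁻¹' {0} := by
        ext g
        exact hU g
      rw [h1]
      exact (isClosed_discrete _).preimage hx.c
    have hφ2 := hφ.2
    rw [← hcard] at hφ2
    obtain ⟨u, hu, τ, hτ, rfl⟩ := Frb.second A hfin' hφ2 U hcl ((hU φ).2 hφ0) hg
    rw [hx.m, (hU u).1 hu, hI τ hτ, add_zero]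

end Pool.Agent.NH7.GF
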