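import Pool.Agent.NH7.GF.Stms

/-!
# L7: units whose Kummer character vanishes at a Frobenius element
-/

set_option autoImplicit false

namespace Pool.Agent.NH7.GF

namespace frp

open Polynomial in
/-- the elements with `x ^ q = x` of a field containing the field with `q` elements -/
theorem mem_range_of_pow {F L : Type*} [Field F] [Finite F] [Field L] (g : F →+* L) {β : L}
    (h : β ^ Nat.card F = β) : ∃ a, g a = β := by
  classical
  have := Fintype.ofFinite F
  rw [Nat.card_eq_fintype_card] at h
  obtain ⟨P, hPd⟩ : ∃ P : L[X], P = X ^ Fintype.card F - X := ⟨_, rfl⟩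
  have hP : P ≠ 0 := by
    rw [hPd]
    exact FiniteField.X_pow_card_sub_X_ne_zero L Fintype.one_lt_card
  have hdeg : P.natDegree = Fintype.card F := by
    rw [hPd]
    exact FiniteField.X_pow_card_sub_X_natDegree_eq L Fintype.one_lt_card
  have hmem : ∀ x : L, x ^ Fintype.card F = x → x ∈ P.roots.toFinset := by
    intro x hx
    rw [Multiset.mem_toFinset, mem_roots hP, IsRoot, hPd, eval_sub, eval_pow, eval_X, hx, sub_self]
  have hsub : Finset.univ.image g ⊆ P.roots.toFinset := by
    intro x hx
    obtain ⟨a, -, rfl⟩ := Finset.mem_image.1 hx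
    apply hmem
    rw [← map_pow, FiniteField.pow_card]
  have hcard : (Finset.univ.image g).card = Fintype.card F := by
    rw [Finset.card_image_of_injective _ g.injective, Finset.card_univ]
  have hle : P.roots.toFinset.card ≤ Fintype.card F :=
    (Multiset.toFinset_card_le _).trans ((card_roots' P).trans hdeg.le)
  have heq := Finset.eq_of_subset_of_card_le hsub (by rw [hcard]; exact hle)
  have hβ := hmem β h
  rw [← heq] at hβ
  obtain ⟨a, -, ha⟩ := Finset.mem_image.1 hβ
  exact ⟨a, ha⟩

section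

variable {k K : Type} [Field k] [Field K] [Algebra k K] {v : FF.Place k K}
  {A : ValuationSubring (SeparableClosure K)}

theorem reg_iff_mem (hA : Ab v A) (x : K) : v.Reg x ↔ algebraMap K (SeparableClosure K) x ∈ A := by
  rw [← v.mem_O, ← hA]
  rfl

/-- the map of the valuation rings -/
noncomputable def ff (hA : Ab v A) : v.O →+* A :=
  ((algebraMap K (SeparableClosure K)).comp v.O.subtype).codRestrict A
    fun x => (reg_iff_mem hA (x : K)).1 x.2

theorem ff_coe (hA : Ab v A) (x : v.O) :
    ((ff hA x : A) : SeparableClosure K) = algebraMap K (SeparableClosure K) (x : K) := rfl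

theorem ff_local (hA : Ab v A) : IsLocalHom ((IsLocalRing.residue A).comp (ff hA)) := by
  constructor
  intro x hx
  rw [RingHom.comp_apply, isUnit_iff_ne_zero, IsLocalRing.residue_ne_zero_iff_isUnit] at hx
  obtain ⟨w, hw⟩ := hx.exists_right_inv
  have h1 : algebraMap K (SeparableClosure K) (x : K) * (w : SeparableClosure K) = 1 := by
    have := congrArg (fun z : A => (z : SeparableClosure K)) hw
    exact this
  have hx0 : (x : K) ≠ 0 := by
    intro h
    rw [h, map_zero, zero_mul] at h1
    exact zero_ne_one h1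
  have h2 : algebraMap K (SeparableClosure K) ((x : K)⁻¹) ∈ A := by
    rw [map_inv₀, inv_eq_of_mul_eq_one_right h1]
    exact w.2
  rw [← reg_iff_mem hA] at h2
  exact IsUnit.of_mul_eq_one (⟨(x : K)⁻¹, h2⟩ : v.O) (Subtype.ext (mul_inv_cancel₀ hx0))

/-- the map of the residue fields -/
noncomputable def gg (hA : Ab v A) : v.RF →+* IsLocalRing.ResidueField A :=
  have := ff_local hA
  (IsLocalRing.ResidueField.lift ((IsLocalRing.residue A).comp (ff hA)) :
    IsLocalRing.ResidueField v.O →+* IsLocalRing.ResidueField A)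

theorem gg_resHom (hA : Ab v A) (x : v.O) : gg hA (v.resHom x) = IsLocalRing.residue A (ff hA x) := by
  have := ff_local hA
  exact IsLocalRing.ResidueField.lift_residue_apply _ x

end

end frp

theorem s_frp : S_frp := by
  intro k K _ _ _ _ _ p _ ζ hζ v A hA φ hφ κ hκ h0
  have hfin : Finite v.RF := Module.finite_of_finite k
  have hκr : v.Reg (κ : K) := Or.inr hκ.ge
  have hκA := (frp.reg_iff_mem hA _).1 hκr
  have hb := rt_pow hζ κ
  have hb0 := rt_ne hζ κ
  obtain ⟨b, hbd⟩ : ∃ b : SeparableClosure K, b = rt p κ := ⟨_, rfl⟩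
  rw [← hbd] at hb hb0
  have hp0 : p ≠ 0 := (Fact.out : p.Prime).ne_zero
  have hbA : b ∈ A := by
    rcases A.mem_or_inv_mem b with h | h
    · exact h
    · have e : b = b ^ p * (b⁻¹) ^ (p - 1) := by
        obtain ⟨m, rfl⟩ : ∃ m, p = m + 1 := ⟨p - 1, by omega⟩
        rw [Nat.add_sub_cancel, pow_succ, inv_pow, mul_comm (b ^ m) b, mul_assoc,
          mul_inv_cancel₀ (pow_ne_zero _ hb0), mul_one]
      rw [e, hb]
      exact A.mul_mem _ _ hκA (pow_mem h _)
  have hfix : φ b = b := (kp_zero_iff hζ hb).1 h0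
  have h1 := hφ.2 b hbA
  rw [hfix] at h1
  obtain ⟨B, hB⟩ : ∃ B : A, B = ⟨b, hbA⟩ := ⟨_, rfl⟩
  have h2 : IsLocalRing.residue A (B - B ^ Nat.card v.RF) = 0 := by
    rw [IsLocalRing.residue_eq_zero_iff, A.valuation_lt_one_iff, hB]
    exact h1
  rw [map_sub, map_pow, sub_eq_zero] at h2
  obtain ⟨a, ha⟩ := frp.mem_range_of_pow (frp.gg hA) h2.symm
  obtain ⟨y, hy, hya⟩ := v.red_surjective a
  refine ⟨y, hy, ?_⟩
  apply (frp.gg hA).injective
  rw [map_pow, hya, ha, v.red_of_reg hκr, frp.gg_resHom, ← map_pow]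
  congr 1
  apply Subtype.ext
  rw [frp.ff_coe, hB]
  exact hb.symm

end Pool.Agent.NH7.GF
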