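import Mathlib

/-!
# Sums over sets with a degree function: statements

`ι` is a set with degrees (the places of a function field outside a finite set), `Ef n` are the
effective divisors of degree `n`. Every `def S_... : Prop` is proved in a file of its own, as a theorem
`s_... : S_...`.
-/

set_option autoImplicit false
set_option linter.unusedSectionVars false

namespace Pool.Agent.NH7.GF

/-- a set with positive degrees, finitely many elements of every degree -/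
structure Dg (ι : Type) where
  d : ι → ℕ
  pos : ∀ v, 1 ≤ d v
  fin : ∀ n, {v | d v ≤ n}.Finite

namespace Dg

variable {ι : Type} (D : Dg ι)

/-- the effective divisors of degree `n` -/
abbrev Ef (n : ℕ) : Type := {E : ι →₀ ℕ // (E.sum fun v m => m * D.d v) = n}

/-- the sum of the values of `a` on the effective divisors of degree `n` -/
noncomputable def S (a : ι → ℂ) (n : ℕ) : ℂ := ∑' E : D.Ef n, E.1.prod fun v m => a v ^ m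

/-- the number of effective divisors of degree `n` is `C q ^ n` if `δ ∣ n` and zero otherwise, for
large `n` -/
structure Cnt (q : ℕ) (C : ℝ) (δ n₀ : ℕ) : Prop where
  hq : 2 ≤ q
  hC : 0 < C
  hδ : 1 ≤ δ
  h1 : ∀ n, n₀ ≤ n → δ ∣ n → (Nat.card (D.Ef n) : ℝ) = C * (q : ℝ) ^ n
  h0 : ∀ n, n₀ ≤ n → ¬ δ ∣ n → Nat.card (D.Ef n) = 0

/-- the sums of the values of `a` are of the form of a nontrivial character -/
def Ntr (q δ : ℕ) (a : ι → ℂ) : Prop := ∃ (ω c : ℂ) (n₁ : ℕ), ‖ω‖ = 1 ∧ (c = 0 ∨ ω ≠ 1) ∧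
  ∀ n, n₁ ≤ n → D.S a n = if δ ∣ n then c * ω ^ (n / δ) * (q : ℂ) ^ n else 0

end Dg

/-- E0. There are finitely many effective divisors of degree `n`. -/
def S_ef : Prop := ∀ (ι : Type) (D : Dg ι) (n : ℕ), Finite (D.Ef n)

/-- E1. Summability. -/
def S_sm : Prop := ∀ (ι : Type) (D : Dg ι) (q : ℕ) (C : ℝ) (δ n₀ : ℕ), D.Cnt q C δ n₀ →
  ∀ u : ℝ, 0 < u → u < 1 / q →
    Summable (fun v => (D.d v : ℝ) * u ^ D.d v) ∧
    Summable (fun x : ι × ℕ => (D.d x.1 : ℝ) * u ^ ((x.2 + 1) * D.d x.1)) ∧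
    Summable (fun n : ℕ => (n : ℝ) * (Nat.card (D.Ef n) : ℝ) * u ^ n) ∧
    Summable (fun n : ℕ => (Nat.card (D.Ef n) : ℝ) * u ^ n)

/-- E2. The logarithmic derivative of the Euler product. -/
def S_eul : Prop := ∀ (ι : Type) (D : Dg ι) (q : ℕ) (C : ℝ) (δ n₀ : ℕ), D.Cnt q C δ n₀ →
  ∀ a : ι → ℂ, (∀ v, ‖a v‖ = 1) → ∀ u : ℝ, 0 < u → u < 1 / q →
    ∑' n : ℕ, (n : ℂ) * D.S a n * (u : ℂ) ^ n =
      (∑' x : ι × ℕ, (D.d x.1 : ℂ) * a x.1 ^ (x.2 + 1) * (u : ℂ) ^ ((x.2 + 1) * D.d x.1)) *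
        ∑' n : ℕ, D.S a n * (u : ℂ) ^ n

/-- E3. The terms of higher order are bounded. -/
def S_tl : Prop := ∀ (ι : Type) (D : Dg ι) (q : ℕ) (C : ℝ) (δ n₀ : ℕ), D.Cnt q C δ n₀ →
  ∃ B : ℝ, ∀ u : ℝ, 0 < u → u < 1 / q →
    Summable (fun x : ι × ℕ => (D.d x.1 : ℝ) * u ^ ((x.2 + 2) * D.d x.1)) ∧
    ∑' x : ι × ℕ, (D.d x.1 : ℝ) * u ^ ((x.2 + 2) * D.d x.1) ≤ B

/-- E4. The sum without a character. -/
def S_tr : Prop := ∀ (ι : Type) (D : Dg ι) (q : ℕ) (C : ℝ) (δ n₀ : ℕ), D.Cnt q C δ n₀ →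
  ∃ B : ℝ, ∀ u : ℝ, 0 < u → u < 1 / q →
    |∑' v, (D.d v : ℝ) * u ^ D.d v - 1 / (1 - q * u)| ≤ B

/-- E5. The product over the powers of a character of order `p` is at least one. -/
def S_ge : Prop := ∀ (ι : Type) (D : Dg ι) (q : ℕ) (C : ℝ) (δ n₀ : ℕ), D.Cnt q C δ n₀ →
  ∀ (p : ℕ) [Fact p.Prime] (a : ι → ℂ), (∀ v, a v ^ p = 1) → ∀ u : ℝ, 0 < u → u < 1 / q →
    1 ≤ ∏ j ∈ Finset.range p, ‖∑' n : ℕ, D.S (fun v => a v ^ j) n * (u : ℂ) ^ n‖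

/-- E6. The sums of a nontrivial character of odd prime order are bounded away from zero. -/
def S_nv : Prop := ∀ (ι : Type) (D : Dg ι) (q : ℕ) (C : ℝ) (δ n₀ : ℕ), D.Cnt q C δ n₀ →
  ∀ (p : ℕ) [Fact p.Prime], p ≠ 2 → ∀ a : ι → ℂ, (∀ v, a v ^ p = 1) →
  (∀ j, 1 ≤ j → j < p → D.Ntr q δ fun v => a v ^ j) →
    ∃ ε : ℝ, 0 < ε ∧ ∀ u : ℝ, 1 / (2 * q) < u → u < 1 / q → ε ≤ ‖∑' n : ℕ, D.S a n * (u : ℂ) ^ n‖

/-- E7. The sum over the elements with a nontrivial character of odd prime order is bounded. -/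
def S_bd : Prop := ∀ (ι : Type) (D : Dg ι) (q : ℕ) (C : ℝ) (δ n₀ : ℕ), D.Cnt q C δ n₀ →
  ∀ (p : ℕ) [Fact p.Prime], p ≠ 2 → ∀ a : ι → ℂ, (∀ v, a v ^ p = 1) →
  (∀ j, 1 ≤ j → j < p → D.Ntr q δ fun v => a v ^ j) →
    ∃ B : ℝ, ∀ u : ℝ, 0 < u → u < 1 / q → ‖∑' v, a v * (D.d v : ℂ) * (u : ℂ) ^ D.d v‖ ≤ B

end Pool.Agent.NH7.GF
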