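import Mathlib
import Pool.Agent.NH7.GF.An

/-!
# The product over the powers of a character of prime order is at least one
-/

set_option autoImplicit false
set_option linter.unusedSectionVars false

namespace Pool.Agent.NH7.GF

namespace GeP

open Filter Topology

/-! ### roots of unity -/

theorem prod_roots {p : ℕ} (hp : p.Prime) {z : ℂ} (hz : z ^ p = 1) (x : ℂ) :
    (∏ j ∈ Finset.range p, (1 - z ^ j * x) = (1 - x) ^ p) ∨
      (∏ j ∈ Finset.range p, (1 - z ^ j * x) = 1 - x ^ p) := by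
  classical
  by_cases h1 : z = 1
  · left
    subst h1
    simp
  · right
    have hmem : z ∈ Polynomial.nthRootsFinset p (1 : ℂ) := by
      rw [Polynomial.mem_nthRootsFinset hp.pos]
      exact hz
    have hprim : IsPrimitiveRoot z p := isPrimitiveRoot_of_mem_nthRootsFinset hp hmem h1
    have himg : (Finset.range p).image (fun j => z ^ j) = Polynomial.nthRootsFinset p (1 : ℂ) := by
      apply Finset.eq_of_subset_of_card_le
      · intro y hy
        rw [Finset.mem_image] at hy
        obtain ⟨j, _, rfl⟩ := hy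
        rw [Polynomial.mem_nthRootsFinset hp.pos, ← pow_mul, mul_comm, pow_mul, hz, one_pow]
      · rw [hprim.card_nthRootsFinset, Finset.card_image_of_injOn hprim.injOn_pow,
          Finset.card_range]
    have h2 := hprim.pow_sub_pow_eq_prod_sub_mul (1 : ℂ) x hp.pos
    rw [one_pow, ← himg, Finset.prod_image hprim.injOn_pow] at h2
    exact h2.symm

theorem norm_prod_le {p : ℕ} (hp : p.Prime) {z : ℂ} (hz : z ^ p = 1) {x : ℝ} (h0 : 0 ≤ x)
    (h1 : x ≤ 1) : ‖∏ j ∈ Finset.range p, (1 - z ^ j * (x : ℂ))‖ ≤ 1 := by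
  rcases prod_roots hp hz (x : ℂ) with h | h
  · rw [h, norm_pow]
    have : (1 - (x : ℂ)) = ((1 - x : ℝ) : ℂ) := by push_cast; ring
    rw [this, Complex.norm_real, Real.norm_of_nonneg (by linarith)]
    exact pow_le_one₀ (by linarith) (by linarith)
  · rw [h]
    have hx : x ^ p ≤ 1 := pow_le_one₀ h0 h1
    have hx0 : 0 ≤ x ^ p := pow_nonneg h0 p
    have : (1 - (x : ℂ) ^ p) = ((1 - x ^ p : ℝ) : ℂ) := by push_cast; ring
    rw [this, Complex.norm_real, Real.norm_of_nonneg (by linarith)]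
    linarith

/-! ### the terms -/

variable {ι : Type} (D : Dg ι) (b : ι → ℂ) (u : ℝ)

/-- the degree of a divisor -/
def deg (E : ι →₀ ℕ) : ℕ := E.sum fun v m => m * D.d v

/-- the term of a divisor -/
noncomputable def g (E : ι →₀ ℕ) : ℂ := (E.prod fun v m => b v ^ m) * (u : ℂ) ^ deg D E

theorem deg_add (E : ι →₀ ℕ) (v : ι) : deg D (E + Finsupp.single v 1) = deg D E + D.d v := by
  unfold deg
  rw [Finsupp.sum_add_index' (fun a => by simp) (fun a m n => by ring),
    Finsupp.sum_single_index (by simp)]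
  simp

theorem g_add (E : ι →₀ ℕ) (v : ι) :
    g D b u (E + Finsupp.single v 1) = (b v * (u : ℂ) ^ D.d v) * g D b u E := by
  unfold g
  rw [deg_add, Finsupp.prod_add_index' (fun a => by simp) (fun a m n => by rw [pow_add]),
    Finsupp.prod_single_index (by simp)]
  ring

theorem g_zero : g D b u 0 = 1 := by
  unfold g deg
  simp

theorem norm_prod_eq (hb : ∀ v, ‖b v‖ = 1) (E : ι →₀ ℕ) : ‖E.prod fun v m => b v ^ m‖ = 1 := by
  unfold Finsupp.prod
  rw [norm_prod]
  refine Finset.prod_eq_one ?_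
  intro v _
  rw [norm_pow, hb, one_pow]

theorem norm_g (hb : ∀ v, ‖b v‖ = 1) (hu : 0 ≤ u) (E : ι →₀ ℕ) : ‖g D b u E‖ = u ^ deg D E := by
  unfold g
  rw [norm_mul, norm_prod_eq b hb, one_mul, norm_pow, Complex.norm_real, Real.norm_of_nonneg hu]

theorem summable_pow (h0 : S_ef) (hu : 0 ≤ u)
    (hs : Summable (fun n : ℕ => (Nat.card (D.Ef n) : ℝ) * u ^ n)) :
    Summable (fun E : ι →₀ ℕ => u ^ deg D E) := by
  rw [← (Equiv.sigmaFiberEquiv (deg D)).summable_iff]
  refine (summable_sigma_of_nonneg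
    (f := (fun E : ι →₀ ℕ => u ^ deg D E) ∘ (Equiv.sigmaFiberEquiv (deg D)))
    (fun x => pow_nonneg hu _)).mpr ?_
  constructor
  · intro n
    have : Finite {E : ι →₀ ℕ // deg D E = n} := h0 ι D n
    exact Summable.of_finite
  · refine hs.congr ?_
    intro n
    have : ∀ y : {E : ι →₀ ℕ // deg D E = n},
        ((fun E : ι →₀ ℕ => u ^ deg D E) ∘ (Equiv.sigmaFiberEquiv (deg D))) ⟨n, y⟩ = u ^ n := by
      intro y
      simp only [Function.comp, Equiv.sigmaFiberEquiv, Equiv.coe_fn_mk]
      rw [y.2]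
    rw [tsum_congr this, tsum_const, nsmul_eq_mul]
    rfl

theorem summable_g (h0 : S_ef) (hb : ∀ v, ‖b v‖ = 1) (hu : 0 ≤ u)
    (hs : Summable (fun n : ℕ => (Nat.card (D.Ef n) : ℝ) * u ^ n)) :
    Summable (g D b u) := by
  refine Summable.of_norm ?_
  refine (summable_pow D u h0 hu hs).congr ?_
  intro E
  rw [norm_g D b u hb hu]

theorem tsum_g (h0 : S_ef) (hb : ∀ v, ‖b v‖ = 1) (hu : 0 ≤ u)
    (hs : Summable (fun n : ℕ => (Nat.card (D.Ef n) : ℝ) * u ^ n)) :
    ∑' E, g D b u E = ∑' n : ℕ, D.S b n * (u : ℂ) ^ n := by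
  have hsum := summable_g D b u h0 hb hu hs
  rw [← (Equiv.sigmaFiberEquiv (deg D)).tsum_eq]
  rw [← (Equiv.sigmaFiberEquiv (deg D)).summable_iff] at hsum
  refine (Summable.tsum_sigma hsum).trans ?_
  refine tsum_congr ?_
  intro n
  unfold Dg.S
  rw [← tsum_mul_right]
  refine tsum_congr ?_
  intro y
  have h3 : deg D (y : ι →₀ ℕ) = n := y.2
  change g D b u (y : ι →₀ ℕ) = ((y : ι →₀ ℕ).prod fun v m => b v ^ m) * (u : ℂ) ^ n
  unfold g
  rw [h3]

/-! ### removing elements -/

open Classical in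
/-- the sum over the divisors outside a finite set -/
noncomputable def R (F : Finset ι) : ℂ := ∑' E, if ∀ v ∈ F, E v = 0 then g D b u E else 0

theorem sum_ite (hg : Summable (g D b u)) (P : (ι →₀ ℕ) → Prop) [DecidablePred P] :
    Summable (fun E => if P E then g D b u E else 0) := by
  refine Summable.of_norm_bounded (g := fun E => ‖g D b u E‖) hg.norm ?_
  intro E
  split_ifs
  · exact le_rfl
  · simp

open Classical in
theorem R_insert (hg : Summable (g D b u)) (F : Finset ι) (v : ι) (hv : v ∉ F) :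
    R D b u (insert v F) = (1 - b v * (u : ℂ) ^ D.d v) * R D b u F := by
  set h : (ι →₀ ℕ) → ℂ := fun E => if ∀ w ∈ F, E w = 0 then g D b u E else 0 with hh
  have hs : Summable h := sum_ite D b u hg _
  have hadd : ∀ E : ι →₀ ℕ, h (E + Finsupp.single v 1) = (b v * (u : ℂ) ^ D.d v) * h E := by
    intro E
    have hiff : (∀ w ∈ F, (E + Finsupp.single v 1 : ι →₀ ℕ) w = 0) ↔ (∀ w ∈ F, E w = 0) := by
      refine forall₂_congr ?_
      intro w hw
      have hne : v ≠ w := fun h' => hv (h' ▸ hw)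
      rw [Finsupp.add_apply, Finsupp.single_eq_of_ne hne.symm, add_zero]
    simp only [hh]
    by_cases hc : ∀ w ∈ F, E w = 0
    · rw [if_pos (hiff.mpr hc), if_pos hc, g_add]
    · rw [if_neg (fun h' => hc (hiff.mp h')), if_neg hc, mul_zero]
  have h1s : Summable (fun E => if E v = 0 then h E else 0) := by
    refine Summable.of_norm_bounded (g := fun E => ‖h E‖) hs.norm ?_
    intro E
    split_ifs
    · exact le_rfl
    · simp
  have h2s : Summable (fun E => if E v = 0 then 0 else h E) := by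
    refine Summable.of_norm_bounded (g := fun E => ‖h E‖) hs.norm ?_
    intro E
    split_ifs
    · simp
    · exact le_rfl
  have hsplit : ∑' E, h E = (∑' E : ι →₀ ℕ, if E v = 0 then h E else 0)
      + ∑' E : ι →₀ ℕ, if E v = 0 then 0 else h E := by
    rw [← h1s.tsum_add h2s]
    refine tsum_congr ?_
    intro E
    split_ifs <;> simp
  have hinj : Function.Injective (fun E : ι →₀ ℕ => E + Finsupp.single v 1) :=
    fun a c hac => add_right_cancel hac
  have h2 : (∑' E : ι →₀ ℕ, if E v = 0 then 0 else h E) = (b v * (u : ℂ) ^ D.d v) * ∑' E, h E := by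
    have hsup : Function.support (fun E : ι →₀ ℕ => if E v = 0 then 0 else h E)
        ⊆ Set.range (fun E : ι →₀ ℕ => E + Finsupp.single v 1) := by
      intro E hE
      have hEv : E v ≠ 0 := by
        intro h0
        apply hE
        simp [h0]
      refine ⟨E - Finsupp.single v 1, ?_⟩
      ext w
      by_cases hw : w = v
      · subst hw
        simp only [Finsupp.add_apply, Finsupp.tsub_apply, Finsupp.single_eq_same]
        omega
      · simp [Finsupp.single_eq_of_ne hw]
    rw [← hinj.tsum_eq hsup, ← tsum_mul_left]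
    refine tsum_congr ?_
    intro E
    rw [if_neg (by simp), hadd]
  have h3 : R D b u (insert v F) = ∑' E : ι →₀ ℕ, if E v = 0 then h E else 0 := by
    unfold R
    refine tsum_congr ?_
    intro E
    simp only [hh, Finset.forall_mem_insert]
    by_cases hc : E v = 0
    · by_cases hc' : ∀ w ∈ F, E w = 0
      · rw [if_pos ⟨hc, hc'⟩, if_pos hc, if_pos hc']
      · rw [if_neg (fun h' => hc' h'.2), if_pos hc, if_neg hc']
    · rw [if_neg (fun h' => hc h'.1), if_neg hc]
  have h4 : R D b u F = ∑' E, h E := rfl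
  rw [h3, h4]
  linear_combination -hsplit - h2

theorem R_empty : R D b u ∅ = ∑' E, g D b u E := by
  unfold R
  refine tsum_congr ?_
  intro E
  simp

open Classical in
theorem R_prod (hg : Summable (g D b u)) (F : Finset ι) :
    R D b u F = (∏ v ∈ F, (1 - b v * (u : ℂ) ^ D.d v)) * ∑' E, g D b u E := by
  induction F using Finset.induction_on with
  | empty => rw [R_empty, Finset.prod_empty, one_mul]
  | insert v F hv ih => rw [R_insert D b u hg F v hv, ih, Finset.prod_insert hv, mul_assoc]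

open Classical in
theorem R_tendsto (hg : Summable (g D b u)) : Tendsto (R D b u) atTop (𝓝 1) := by
  have hlim : (∑' E : ι →₀ ℕ, if E = 0 then (1 : ℂ) else 0) = 1 := tsum_ite_eq 0 (fun _ => (1 : ℂ))
  rw [← hlim]
  unfold R
  refine tendsto_tsum_of_dominated_convergence hg.norm ?_ ?_
  · intro E
    by_cases hE : E = 0
    · subst hE
      simp [g_zero]
    · rw [if_neg hE]
      obtain ⟨v, hv⟩ : ∃ v, E v ≠ 0 := by
        by_contra hcon
        push Not at hcon
        exact hE (Finsupp.ext hcon)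
      refine tendsto_const_nhds.congr' ?_
      filter_upwards [eventually_ge_atTop ({v} : Finset ι)] with F hF
      rw [if_neg]
      intro hcon
      exact hv (hcon v (hF (Finset.mem_singleton_self v)))
  · refine Eventually.of_forall ?_
    intro F E
    split_ifs
    · exact le_rfl
    · simp

end GeP

open GeP Filter Topology in
theorem s_ge (h0 : S_ef) (h1 : S_sm) : S_ge := by
  intro ι D q C δ n₀ hC p hp a ha u hu0 hu1
  obtain ⟨_, _, _, hs⟩ := h1 ι D q C δ n₀ hC u hu0 hu1
  have hpp : p.Prime := hp.out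
  have hq : (2 : ℝ) ≤ q := by exact_mod_cast hC.hq
  have hu1' : u ≤ 1 := by
    have : 1 / (q : ℝ) ≤ 1 := by rw [div_le_one (by linarith)]; linarith
    linarith
  have hna : ∀ v, ‖a v‖ = 1 := by
    intro v
    exact Complex.norm_eq_one_of_pow_eq_one (ha v) hpp.ne_zero
  have hnb : ∀ (j : ℕ) v, ‖a v ^ j‖ = 1 := by
    intro j v
    rw [norm_pow, hna, one_pow]
  have hg : ∀ j : ℕ, Summable (g D (fun v => a v ^ j) u) := fun j =>
    summable_g D _ u h0 (hnb j) hu0.le hs
  set P : ℝ := ∏ j ∈ Finset.range p, ‖∑' n : ℕ, D.S (fun v => a v ^ j) n * (u : ℂ) ^ n‖ with hP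
  have hP' : P = ∏ j ∈ Finset.range p, ‖∑' E, g D (fun v => a v ^ j) u E‖ := by
    rw [hP]
    refine Finset.prod_congr rfl ?_
    intro j _
    rw [tsum_g D _ u h0 (hnb j) hu0.le hs]
  have hP0 : 0 ≤ P := Finset.prod_nonneg fun _ _ => norm_nonneg _
  have hlim : Tendsto (fun F : Finset ι => ∏ j ∈ Finset.range p, ‖R D (fun v => a v ^ j) u F‖)
      atTop (𝓝 1) := by
    have h2 : Tendsto (fun F : Finset ι => ∏ j ∈ Finset.range p, ‖R D (fun v => a v ^ j) u F‖)
        atTop (𝓝 (∏ _j ∈ Finset.range p, ‖(1 : ℂ)‖)) := by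
      refine tendsto_finsetProd _ ?_
      intro j _
      exact (R_tendsto D _ u (hg j)).norm
    simpa using h2
  refine le_of_tendsto hlim ?_
  refine Eventually.of_forall ?_
  intro F
  have h3 : ∏ j ∈ Finset.range p, ‖R D (fun v => a v ^ j) u F‖
      = (∏ v ∈ F, ‖∏ j ∈ Finset.range p, (1 - a v ^ j * ((u ^ D.d v : ℝ) : ℂ))‖) * P := by
    rw [hP']
    have h4 : ∀ j ∈ Finset.range p, ‖R D (fun v => a v ^ j) u F‖
        = (∏ v ∈ F, ‖1 - a v ^ j * ((u ^ D.d v : ℝ) : ℂ)‖) * ‖∑' E, g D (fun v => a v ^ j) u E‖ := by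
      intro j _
      rw [R_prod D _ u (hg j), norm_mul, norm_prod]
      push_cast
      rfl
    rw [Finset.prod_congr rfl h4, Finset.prod_mul_distrib, Finset.prod_comm]
    congr 1
    refine Finset.prod_congr rfl ?_
    intro v _
    rw [norm_prod]
  rw [h3]
  have h5 : ∏ v ∈ F, ‖∏ j ∈ Finset.range p, (1 - a v ^ j * ((u ^ D.d v : ℝ) : ℂ))‖ ≤ 1 := by
    refine Finset.prod_le_one (fun _ _ => norm_nonneg _) ?_
    intro v _
    exact norm_prod_le hpp (ha v) (pow_nonneg hu0.le _) (pow_le_one₀ hu0.le hu1')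
  calc (∏ v ∈ F, ‖∏ j ∈ Finset.range p, (1 - a v ^ j * ((u ^ D.d v : ℝ) : ℂ))‖) * P
      ≤ 1 * P := mul_le_mul_of_nonneg_right h5 hP0
    _ = P := one_mul P

end Pool.Agent.NH7.GF
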