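import Pool.Agent.NH7.GF.Stms

/-!
# Units whose residue is a `p`-th power have trivial Kummer characters on the decomposition group
-/

set_option autoImplicit false
set_option linter.unusedSectionVars false

namespace Pool.Agent.NH7.GF

namespace HzA

section val

variable {L : Type} [Field L] (A : ValuationSubring L)

theorem val_one_of_pow {x : L} {n : ℕ} (hn : n ≠ 0) (h : A.valuation (x ^ n) = 1) :
    A.valuation x = 1 := by
  rw [map_pow] at h
  rcases lt_trichotomy (A.valuation x) 1 with h1 | h1 | h1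
  · exact absurd h (pow_lt_one₀ zero_le h1 hn).ne
  · exact h1
  · exact absurd h (one_lt_pow₀ h1 hn).ne'

theorem val_pow_sub_one {x : L} (h : A.valuation (x - 1) < 1) (hx : A.valuation x = 1) (n : ℕ) :
    A.valuation (x ^ n - 1) < 1 := by
  induction n with
  | zero =>
    rw [pow_zero, sub_self, map_zero]
    exact zero_lt_one
  | succ n ih =>
    have e : x ^ (n + 1) - 1 = x * (x ^ n - 1) + (x - 1) := by ring
    rw [e]
    refine A.valuation.map_add_lt ?_ h
    rw [map_mul, hx, one_mul]
    exact ih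

/-- a root of unity different from one and congruent to one -/
theorem val_p {x : L} {p : ℕ} (hp : p ≠ 0) (h : A.valuation (x - 1) < 1) (hx : x ^ p = 1)
    (h1 : x ≠ 1) : A.valuation (p : L) < 1 := by
  have h2 : A.valuation x = 1 := val_one_of_pow A hp (by rw [hx, map_one])
  have h3 : ∑ i ∈ Finset.range p, x ^ i = 0 := by
    have h4 : (∑ i ∈ Finset.range p, x ^ i) * (x - 1) = x ^ p - 1 := geom_sum_mul x p
    rw [hx, sub_self] at h4
    exact (mul_eq_zero.1 h4).resolve_right (sub_ne_zero.2 h1)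
  have h5 : (p : L) = ∑ i ∈ Finset.range p, (1 - x ^ i) := by
    rw [Finset.sum_sub_distrib, h3, sub_zero]
    simp
  rw [h5]
  refine A.valuation.map_sum_lt one_ne_zero fun i _ => ?_
  rw [Valuation.map_sub_swap]
  exact val_pow_sub_one A h h2 i

end val

section place

variable {k K : Type} [Field k] [Field K] [Algebra k K] {v : FF.Place k K}
  {A : ValuationSubring (SeparableClosure K)}

theorem mem_iff (hA : Ab v A) {f : K} : algebraMap K (SeparableClosure K) f ∈ A ↔ v.Reg f := by
  have h : f ∈ A.comap (algebraMap K (SeparableClosure K)) ↔ f ∈ v.O := by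
    rw [show A.comap (algebraMap K (SeparableClosure K)) = v.O from hA]
  exact h

theorem val_le (hA : Ab v A) {f : K} (hf : v.Reg f) :
    A.valuation (algebraMap K (SeparableClosure K) f) ≤ 1 :=
  (A.valuation_le_one_iff _).2 ((mem_iff hA).2 hf)

theorem val_lt (hA : Ab v A) {f : K} (hf : f = 0 ∨ 0 < v.ord f) :
    A.valuation (algebraMap K (SeparableClosure K) f) < 1 := by
  by_cases h0 : f = 0
  · rw [h0, map_zero, map_zero]
    exact zero_lt_one
  have h1 : 0 < v.ord f := hf.resolve_left h0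
  have h2 : ¬ v.Reg f⁻¹ := by
    rw [v.reg_iff (inv_ne_zero h0), v.ord_inv]
    omega
  rw [← mem_iff hA, ← A.valuation_le_one_iff, map_inv₀, map_inv₀] at h2
  by_contra hcon
  push Not at hcon
  exact h2 (inv_le_one_of_one_le₀ hcon)

theorem val_eq (hA : Ab v A) {f : K} (h0 : f ≠ 0) (hf : v.ord f = 0) :
    A.valuation (algebraMap K (SeparableClosure K) f) = 1 := by
  refine le_antisymm (val_le hA (Or.inr hf.ge)) ?_
  have h1 := val_le hA (f := f⁻¹) (Or.inr (by rw [v.ord_inv, hf]; simp))
  rw [map_inv₀, map_inv₀] at h1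
  by_contra hcon
  push Not at hcon
  have h3 : A.valuation (algebraMap K (SeparableClosure K) f) ≠ 0 :=
    (A.valuation.ne_zero_iff).2 ((map_ne_zero_iff _
      (algebraMap K (SeparableClosure K)).injective).2 h0)
  exact absurd h1 (not_le.2 ((one_lt_inv₀ (zero_lt_iff.2 h3)).2 hcon))

end place

end HzA

open HzA in
/-- Units whose residue is a `p`-th power. -/
theorem s_hz : S_hz := by
  intro k K _ _ _ p hp ζ hζ v A hA κ hκ hy g hg
  obtain ⟨y, hyr, hy⟩ := hy
  have hp0 : p ≠ 0 := hp.out.ne_zero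
  have hκr : v.Reg (κ : K) := Or.inr hκ.ge
  -- `y` is a unit
  have hred : v.red (κ : K) ≠ 0 := v.red_ne_zero κ.ne_zero hκ
  have hyred : v.red y ≠ 0 := by
    intro h
    rw [hy, h, zero_pow hp0] at hred
    exact hred rfl
  have hy1 : ¬ (y = 0 ∨ 0 < v.ord y) := fun h => hyred ((v.red_eq_zero_iff hyr).2 h)
  push Not at hy1
  obtain ⟨hy0, hy2⟩ := hy1
  have hyo : v.ord y = 0 := le_antisymm hy2 ((v.reg_iff hy0).1 hyr)
  -- `κ - y ^ p` is in the maximal ideal
  have hypr : v.Reg (y ^ p) := Or.inr (by rw [v.ord_pow, hyo, mul_zero])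
  have hdiff : v.red ((κ : K) - y ^ p) = 0 := by
    rw [v.red_sub hκr hypr, v.red_pow hyr, hy, sub_self]
  have hdr : v.Reg ((κ : K) - y ^ p) := by
    rw [sub_eq_add_neg]
    exact v.reg_add hκr (v.reg_neg hypr)
  have hlt := val_lt hA ((v.red_eq_zero_iff hdr).1 hdiff)
  -- the constant `p`
  have hpk : (p : k) ≠ 0 := by
    intro h
    apply p_ne hζ
    rw [← map_natCast (algebraMap k K), h, map_zero]
  have hpo : v.ord (p : K) = 0 := by
    rw [← map_natCast (algebraMap k K)]
    exact v.ord_const hpk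
  have hpv : A.valuation ((p : ℕ) : SeparableClosure K) = 1 := by
    have h := val_eq hA (p_ne hζ) hpo
    rwa [map_natCast] at h
  -- the root
  set b := rt p κ with hb
  have hbp : b ^ p = algebraMap K (SeparableClosure K) κ := rt_pow hζ κ
  have hbv : A.valuation b = 1 := val_one_of_pow A hp0 (by
    rw [hbp]
    exact val_eq hA κ.ne_zero hκ)
  set Y := algebraMap K (SeparableClosure K) y with hY
  have hprod := (zz_prim hζ).pow_sub_pow_eq_prod_sub_mul b Y hp.out.pos
  have hbY : b ^ p - Y ^ p = algebraMap K (SeparableClosure K) ((κ : K) - y ^ p) := by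
    rw [hbp, hY, map_sub, map_pow]
  rw [← hbY, hprod, map_prod] at hlt
  have hex : ∃ μ ∈ Polynomial.nthRootsFinset p (1 : SeparableClosure K),
      A.valuation (b - μ * Y) < 1 := by
    by_contra hcon
    push Not at hcon
    exact absurd hlt (not_lt.2 (Finset.one_le_prod' hcon))
  obtain ⟨μ, hμ, hμ1⟩ := hex
  rw [Polynomial.mem_nthRootsFinset hp.out.pos] at hμ
  have : NeZero p := ⟨hp0⟩
  obtain ⟨i, -, hi⟩ := (zz_prim hζ).eq_pow_of_pow_eq_one hμ
  have hgμ : g (b - μ * Y) = g b - μ * Y := by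
    rw [map_sub, map_mul, ← hi, map_pow, g.commutes, hY, g.commutes]
  have h1 := val_of_Dec hg hμ1
  rw [hgμ] at h1
  have h2 : A.valuation (g b - b) < 1 := by
    have e : g b - b = (g b - μ * Y) - (b - μ * Y) := by ring
    rw [e]
    exact A.valuation.map_sub_lt h1 hμ1
  have h3 : g b = zz ζ ^ (kp hζ κ g).val * b := kp_rt hζ κ g
  have h4 : A.valuation (zz ζ ^ (kp hζ κ g).val - 1) < 1 := by
    have e : g b - b = (zz ζ ^ (kp hζ κ g).val - 1) * b := by
      rw [h3]
      ring
    rw [e, map_mul, hbv, mul_one] at h2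
    exact h2
  by_contra hcon
  have h5 : zz ζ ^ (kp hζ κ g).val ≠ 1 := by
    intro h
    apply hcon
    apply pw_inj (zz_prim hζ)
    rw [h, ZMod.val_zero, pow_zero]
  have h6 := val_p A hp0 h4 (by rw [← pow_mul, mul_comm, pow_mul, (zz_prim hζ).pow_eq_one,
    one_pow]) h5
  exact absurd hpv h6.ne

end Pool.Agent.NH7.GF
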