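import Pool.Agent.NH7.GF.Stms

/-!
# L4: Kummer characters of elements of order divisible by `p` are unramified
-/

set_option autoImplicit false

namespace Pool.Agent.NH7.GF

namespace Inz

variable {k K : Type} [Field k] [Field K] [Algebra k K]

theorem mem_iff {v : FF.Place k K} {A : ValuationSubring (SeparableClosure K)} (h : Ab v A)
    (x : K) : algebraMap K (SeparableClosure K) x ∈ A ↔ v.Reg x := by
  have h1 : x ∈ A.comap (algebraMap K (SeparableClosure K)) ↔ x ∈ v.O := by rw [h]
  rwa [ValuationSubring.mem_comap] at h1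

/-- elements of order zero are units above -/
theorem val_one {v : FF.Place k K} {A : ValuationSubring (SeparableClosure K)} (h : Ab v A)
    {x : K} (hx : x ≠ 0) (h0 : v.ord x = 0) :
    A.valuation (algebraMap K (SeparableClosure K) x) = 1 := by
  have h1 : A.valuation (algebraMap K (SeparableClosure K) x) ≤ 1 :=
    (A.valuation_le_one_iff _).2 ((mem_iff h x).2 (Or.inr h0.ge))
  have h2 : A.valuation (algebraMap K (SeparableClosure K) x⁻¹) ≤ 1 :=
    (A.valuation_le_one_iff _).2 ((mem_iff h x⁻¹).2 (Or.inr (by rw [v.ord_inv, h0, neg_zero])))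
  rw [map_inv₀, map_inv₀] at h2
  have hx' : algebraMap K (SeparableClosure K) x ≠ 0 :=
    (map_ne_zero_iff _ (algebraMap K (SeparableClosure K)).injective).2 hx
  have h3 : A.valuation (algebraMap K (SeparableClosure K) x) ≠ 0 :=
    (A.valuation.ne_zero_iff).2 hx'
  exact le_antisymm h1 ((inv_le_one₀ (zero_lt_iff.2 h3)).1 h2)

end Inz

open Inz in
theorem s_inz : S_inz := by
  intro k K _ _ _ p hp ζ hζ v A hA κ hκ g hg
  have hp0 : p ≠ 0 := hp.out.ne_zero
  obtain ⟨m, hm⟩ := hκ
  obtain ⟨t, ht0, ht⟩ := v.surj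
  set al := algebraMap K (SeparableClosure K) with hal
  set b := rt p κ with hb
  have hbp : b ^ p = al κ := rt_pow hζ κ
  have hg1 := (mem_Inr.1 hg).2
  by_contra hne
  set w : SeparableClosure K := zz ζ ^ (kp hζ κ g).val with hw
  have hval0 : (kp hζ κ g).val ≠ 0 := by
    rwa [Ne, ZMod.val_eq_zero]
  have hwp : IsPrimitiveRoot w p := by
    apply (zz_prim hζ).pow_of_coprime
    rw [Nat.coprime_comm, Nat.Prime.coprime_iff_not_dvd hp.out]
    exact Nat.not_dvd_of_pos_of_lt (Nat.pos_of_ne_zero hval0) (ZMod.val_lt _)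
  -- the unit
  set b' : SeparableClosure K := b * al (t ^ (-m)) with hb'
  have hb'p : b' ^ p = al (κ * (t ^ (-m)) ^ p) := by
    rw [hb', mul_pow, hbp, map_mul, map_pow]
  have hu0 : (κ : K) * (t ^ (-m)) ^ p ≠ 0 :=
    mul_ne_zero κ.ne_zero (pow_ne_zero _ (zpow_ne_zero _ ht0))
  have hu : v.ord ((κ : K) * (t ^ (-m)) ^ p) = 0 := by
    rw [v.ord_mul κ.ne_zero (pow_ne_zero _ (zpow_ne_zero _ ht0)), v.ord_pow, v.ord_zpow, ht, hm]
    ring
  have hV : A.valuation b' = 1 := by
    have h1 : A.valuation b' ^ p = 1 := by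
      rw [← map_pow, hb'p]
      exact val_one hA hu0 hu
    exact (pow_eq_one_iff_of_nonneg zero_le hp0).1 h1
  have hmem : b' ∈ A := (A.valuation_le_one_iff _).1 hV.le
  have hgb : g b' = w * b' := by
    rw [hb', map_mul, hal, g.commutes, kp_rt hζ]
    ring
  have h1 := hg1 b' hmem
  rw [hgb] at h1
  have e : w * b' - b' = (w - 1) * b' := by ring
  rw [e, map_mul, hV, mul_one] at h1
  -- roots of unity are units
  have hVw : A.valuation w = 1 := by
    have h2 : A.valuation w ^ p = 1 := by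
      rw [← map_pow, hwp.pow_eq_one, map_one]
    exact (pow_eq_one_iff_of_nonneg zero_le hp0).1 h2
  have hwA : w ∈ A := (A.valuation_le_one_iff _).1 hVw.le
  obtain ⟨n, hn⟩ : ∃ n, p = n + 1 + 1 := ⟨p - 2, by have := hp.out.two_le; omega⟩
  have hprod : ∏ i ∈ Finset.range (n + 1), (1 - w ^ (i + 1)) = ((p : ℕ) : SeparableClosure K) := by
    have h3 := (hn ▸ hwp : IsPrimitiveRoot w (n + 1 + 1)).prod_one_sub_pow_eq_order
    rw [h3, hn]
    push_cast
    ring
  rw [Finset.prod_range_succ'] at hprod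
  have hrest : (∏ i ∈ Finset.range n, (1 - w ^ (i + 1 + 1))) ∈ A := by
    apply prod_mem
    intro i _
    exact sub_mem (one_mem _) (pow_mem hwA _)
  have h4 : A.valuation ((p : ℕ) : SeparableClosure K) < 1 := by
    rw [← hprod, map_mul, mul_comm]
    refine lt_of_le_of_lt (mul_le_of_le_one_right' ((A.valuation_le_one_iff _).2 hrest)) ?_
    rw [zero_add, pow_one, Valuation.map_sub_swap]
    exact h1
  have hpk : (p : k) ≠ 0 := by
    intro h0
    apply p_ne hζ
    rw [← map_natCast (algebraMap k K), h0, map_zero]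
  have h5 : A.valuation (al ((p : ℕ) : K)) = 1 := by
    apply val_one hA (p_ne hζ)
    rw [← map_natCast (algebraMap k K)]
    exact v.ord_const hpk
  rw [hal, map_natCast] at h5
  rw [h5] at h4
  exact lt_irrefl _ h4

end Pool.Agent.NH7.GF
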