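import Pool.Agent.NH7.GF.Stms
import Pool.Agent.W343.BSD.Galois

/-!
# Project GF, Z4: adjoining a `p`-th root
-/

set_option autoImplicit false
set_option linter.unusedSectionVars false

open Polynomial FF

namespace Pool.Agent.NH7.GF

open Pool.Agent.H525R3.FFp
open Pool.Agent.W343.BSD

namespace KsP

/-- the image of a primitive root of unity in the residue field is a primitive root of unity -/
theorem prim_red {k L : Type} [Field k] [Field L] [Algebra k L] (w : Place k L) {p : ℕ}
    (hp : p.Prime) {ζ : L} (hζ : IsPrimitiveRoot ζ p) :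
    w.Reg ζ ∧ IsPrimitiveRoot (w.red ζ) p := by
  have hz0 : ζ ≠ 0 := hζ.ne_zero hp.ne_zero
  have hord : w.ord ζ = 0 := by
    have h1 := w.ord_pow ζ p
    rw [hζ.pow_eq_one, w.ord_one] at h1
    rcases mul_eq_zero.1 h1.symm with h2 | h2
    · exact absurd h2 (by exact_mod_cast hp.ne_zero)
    · exact h2
  have hreg : w.Reg ζ := Or.inr hord.ge
  refine ⟨hreg, ?_⟩
  have h1 : w.red ζ ^ p = 1 := by rw [← w.red_pow hreg, hζ.pow_eq_one, w.red_one]
  have h2 : w.red ζ ≠ 1 := by
    intro h2
    have h3 : (∑ i ∈ Finset.range p, (⟨ζ, hreg⟩ : w.O) ^ i) = 0 := by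
      apply Subtype.ext
      have h4 := hζ.geom_sum_eq_zero hp.one_lt
      push_cast
      exact h4
    have h5 := congrArg w.resHom h3
    rw [map_sum, map_zero] at h5
    have h6 : w.resHom ⟨ζ, hreg⟩ = 1 := by rw [← w.red_of_reg hreg, h2]
    simp only [map_pow, h6, one_pow, Finset.sum_const, Finset.card_range, nsmul_eq_mul,
      mul_one] at h5
    have h7 : ((p : ℕ) : k) = 0 := by
      have h8 : algebraMap k w.RF ((p : ℕ) : k) = 0 := by rw [map_natCast]; exact h5
      exact (map_eq_zero _).1 h8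
    have : NeZero p := ⟨hp.ne_zero⟩
    have h9 := hζ.neZero'
    apply h9.1
    rw [← map_natCast (algebraMap k L), h7, map_zero]
  have : Fact p.Prime := ⟨hp⟩
  rw [← orderOf_eq_prime h1 h2]
  exact IsPrimitiveRoot.orderOf _

section

variable {k K L : Type} [Field k] [Field K] [Algebra k K] [Field L] [Algebra k L] [Algebra K L]
  [IsScalarTower k K L]

variable (K) in
theorem isFF_fin [hFF : IsFF k K] [FiniteDimensional K L] : IsFF k L := by
  have := hFF.ess
  refine ⟨Algebra.EssFiniteType.comp k K _, ?_⟩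
  have h1 := _root_.trdeg_add_eq (R := k) (S := K) (A := L)
  rw [hFF.trdeg, _root_.trdeg_eq_zero (R := K) (A := L), add_zero] at h1
  exact h1.symm

theorem fib [Finite k] [IsFF k K] [IsFF k L] {p : ℕ} [Fact p.Prime] {ζ : K}
    (hζ : IsPrimitiveRoot ζ p) {a : K} (ha0 : a ≠ 0) (H : Irreducible (X ^ p - C a))
    [IsSplittingField K L (X ^ p - C a)]
    (v : Place k K) (hv : v.ord a = 0) {y : K} (hy : v.Reg y) (hred : v.red a = v.red y ^ p) :
    ∃ w : Fin p → Place k L, Function.Injective w ∧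
        ∀ i, Over (w i) v 1 ∧ (w i).deg = v.deg := by
  have hp : p.Prime := Fact.out
  have hnz : NeZero p := ⟨hp.ne_zero⟩
  have hpr : (primitiveRoots p K).Nonempty := ⟨ζ, (mem_primitiveRoots hp.pos).2 hζ⟩
  have hfd : FiniteDimensional K L := Polynomial.IsSplittingField.finiteDimensional L (X ^ p - C a)
  have hgal : IsGalois K L := isGalois_of_isSplittingField_X_pow_sub_C hpr H L
  have hrk : Module.finrank K L = p := finrank_of_isSplittingField_X_pow_sub_C hpr H L
  obtain ⟨b, hb⟩ : ∃ b : L, b ^ p = algebraMap K L a := ⟨_, rootOfSplitsXPowSubC_pow a L⟩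
  have hb0 : b ≠ 0 := by
    rintro rfl
    rw [zero_pow hp.ne_zero] at hb
    exact ha0 ((map_eq_zero _).1 hb.symm)
  -- the automorphisms
  obtain ⟨s, hs⟩ : ∃ s : ℕ → (L ≃ₐ[K] L), ∀ m, s m b = algebraMap K L ζ ^ m * b := by
    refine ⟨fun m => (autEquivZmod H L hζ).symm (Multiplicative.ofAdd (m : ZMod p)), fun m => ?_⟩
    rw [autEquivZmod_symm_apply_natCast H L hb hζ m, Algebra.smul_def, map_pow]
  obtain ⟨S, e, f, hS⟩ := exists_galoisFiber (L := L) v
  obtain ⟨w, hw⟩ := hS.nonempty
  have hO : Over w v e := hS.isOver w hw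
  -- residues
  set Z := algebraMap K L ζ with hZ
  have hZp : IsPrimitiveRoot Z p := hζ.map_of_injective (algebraMap K L).injective
  obtain ⟨hZr, hz⟩ := prim_red w hp hZp
  set Y := algebraMap K L y with hY
  have hYr : w.Reg Y := hO.reg.2 hy
  have har : v.Reg a := Or.inr hv.ge
  have hbr : w.Reg b := by
    right
    have h1 := w.ord_pow b p
    rw [hb, hO.2, hv, mul_zero] at h1
    rcases mul_eq_zero.1 h1.symm with h2 | h2
    · exact absurd h2 (by exact_mod_cast hp.ne_zero)
    · exact h2.ge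
  have h1 : w.red b ^ p = w.red Y ^ p := by
    rw [← w.red_pow hbr, hb, ← hO.resMap_red har, hred, map_pow, hO.resMap_red hy]
  have hbn : w.red b ≠ 0 := by
    intro h0
    rw [h0, zero_pow hp.ne_zero] at h1
    have h2 : w.red b ^ p ≠ 0 := by
      rw [← w.red_pow hbr, hb]
      refine w.red_ne_zero (by rwa [Ne, map_eq_zero]) ?_
      rw [hO.2, hv, mul_zero]
    apply h2
    rw [h0, zero_pow hp.ne_zero]
  have hYn : w.red Y ≠ 0 := by
    intro h0
    rw [h0, zero_pow hp.ne_zero] at h1
    exact hbn (pow_eq_zero_iff hp.ne_zero |>.1 h1)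
  obtain ⟨i₀, -, hi₀⟩ := hz.eq_pow_of_pow_eq_one (ξ := w.red b / w.red Y) (by
    rw [div_pow, h1, div_self (pow_ne_zero _ hYn)])
  have hbY : w.red b = w.red Z ^ i₀ * w.red Y := by
    rw [hi₀, div_mul_cancel₀ _ hYn]
  have hregp : ∀ (m : ℕ), w.Reg (Z ^ m) := by
    intro m
    induction m with
    | zero => rw [pow_zero]; exact w.reg_one
    | succ m ih => rw [pow_succ]; exact w.reg_mul ih hZr
  -- the condition
  have key : ∀ m i : ℕ, (b - Z ^ i * Y = 0 ∨ 0 < (cj (s m) w).ord (b - Z ^ i * Y)) ↔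
      w.red Z ^ (m + i₀) = w.red Z ^ i := by
    intro m i
    have e1 : s m (b - Z ^ i * Y) = Z ^ m * b - Z ^ i * Y := by
      rw [map_sub, hs, map_mul, map_pow, AlgEquiv.commutes, AlgEquiv.commutes]
    have e2 : b - Z ^ i * Y = 0 ↔ s m (b - Z ^ i * Y) = 0 := (map_eq_zero _).symm
    have e3 : w.Reg (Z ^ m * b - Z ^ i * Y) := by
      rw [sub_eq_add_neg]
      exact w.reg_add (w.reg_mul (hregp m) hbr) (w.reg_neg (w.reg_mul (hregp i) hYr))
    rw [cj_ord, e2, e1, ← w.red_eq_zero_iff e3, w.red_sub (w.reg_mul (hregp m) hbr)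
      (w.reg_mul (hregp i) hYr), w.red_mul (hregp m) hbr, w.red_mul (hregp i) hYr, hbY,
      w.red_pow hZr, w.red_pow hZr, sub_eq_zero, ← mul_assoc, ← pow_add]
    exact mul_left_inj' hYn
  have hinj : Function.Injective (fun i : Fin p => cj (s i) w) := by
    intro i j hij
    have h2 := (key i (i + i₀)).2 rfl
    have h2' : cj (s i) w = cj (s j) w := hij
    rw [h2', key] at h2
    rw [pow_add, pow_add] at h2
    have h3 : w.red Z ≠ 0 := hz.ne_zero hp.ne_zero
    have h4 := mul_right_cancel₀ (pow_ne_zero i₀ h3) h2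
    exact (Fin.ext (hz.pow_inj j.2 i.2 h4)).symm
  have hcard : p ≤ S.card := by
    classical
    have h2 : (Finset.univ.image (fun i : Fin p => cj (s i) w)) ⊆ S := by
      intro u hu
      obtain ⟨i, -, rfl⟩ := Finset.mem_image.1 hu
      exact hS.mem _ e (over_cj hO _)
    have h3 := Finset.card_le_card h2
    rwa [Finset.card_image_of_injective _ hinj, Finset.card_univ, Fintype.card_fin] at h3
  have hmul := hS.mul
  rw [hrk] at hmul
  have hef : e * f = 1 := by
    have h2 : 0 < e * f := by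
      rcases Nat.eq_zero_or_pos (e * f) with h | h
      · rw [h, mul_zero] at hmul
        exact absurd hmul.symm hp.ne_zero
      · exact h
    have h3 : p * (e * f) ≤ p * 1 := by
      rw [mul_one]
      calc p * (e * f) ≤ S.card * (e * f) := Nat.mul_le_mul_right _ hcard
        _ = p := hmul
    have h4 := Nat.le_of_mul_le_mul_left h3 hp.pos
    omega
  have he : e = 1 := Nat.eq_one_of_mul_eq_one_right hef
  have hf : f = 1 := Nat.eq_one_of_mul_eq_one_left hef
  subst he hf
  refine ⟨fun i : Fin p => cj (s i) w, hinj, fun i => ⟨over_cj hO _, ?_⟩⟩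
  have h2 := hS.deg _ (hS.mem _ 1 (over_cj hO (s i)))
  rwa [mul_one] at h2

end

end KsP

open KsP in
theorem s_ks : S_ks := by
  intro k K _ _ _ _ hFF p _ ζ hζ κ hκ
  have hp : p.Prime := Fact.out
  have hnz : NeZero p := ⟨hp.ne_zero⟩
  have hirr : Irreducible (X ^ p - C (κ : K)) := by
    apply X_pow_sub_C_irreducible_of_prime hp
    intro b hb
    have hb0 : b ≠ 0 := by
      rintro rfl
      rw [zero_pow hp.ne_zero] at hb
      exact κ.ne_zero hb.symm
    exact hκ ⟨Units.mk0 b hb0, Units.ext (by rw [Units.val_pow_eq_pow_val, Units.val_mk0, hb])⟩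
  have hpr : (primitiveRoots p K).Nonempty := ⟨ζ, (mem_primitiveRoots hp.pos).2 hζ⟩
  have hfin : FiniteDimensional K (X ^ p - C (κ : K)).SplittingField :=
    Polynomial.IsSplittingField.finiteDimensional _ (X ^ p - C (κ : K))
  have hFF' : FF.IsFF k (X ^ p - C (κ : K)).SplittingField := isFF_fin K
  refine ⟨(X ^ p - C (κ : K)).SplittingField, inferInstance, inferInstance, inferInstance,
    inferInstance, hFF', finrank_of_isSplittingField_X_pow_sub_C hpr hirr _,
    ⟨_, rootOfSplitsXPowSubC_pow (κ : K) _⟩, fun v hv ⟨y, hy, hred⟩ =>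
      fib hζ κ.ne_zero hirr v hv hy hred⟩

end Pool.Agent.NH7.GF
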