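import Pool.Agent.NH7.GF.Stms

/-!
# Adjoining several `p`-th roots (Z5)
-/

set_option autoImplicit false
set_option linter.unusedSectionVars false

namespace Pool.Agent.NH7.GF

open Pool.Agent.H525R3.FFp

namespace KtP

open Polynomial IntermediateField

theorem kummer_sub {K L : Type*} [Field K] [Field L] [Algebra K L] (p : ℕ) [hp : Fact p.Prime]
    (ζ : K) (hζ : IsPrimitiveRoot ζ p) (c : Kˣ) (hc : ¬ ∃ s : Kˣ, c = s ^ p)
    (hf : Module.finrank K L = p) (b : L) (hb : b ^ p = algebraMap K L c) (a : Kˣ) (s : L)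
    (hs : s ^ p = algebraMap K L a) : ∃ (n : ℕ) (t : Kˣ), a * c ^ n = t ^ p := by
  have hp0 : 0 < p := hp.out.pos
  have hfd : FiniteDimensional K L := Module.finite_of_finrank_pos (by rw [hf]; exact hp0)
  have hirr : Irreducible (X ^ p - C (c : K)) := by
    apply X_pow_sub_C_irreducible_of_prime hp.out
    intro x hx
    have hx0 : x ≠ 0 := by
      rintro rfl
      rw [zero_pow hp0.ne'] at hx
      exact c.ne_zero hx.symm
    exact hc ⟨Units.mk0 x hx0, Units.ext (by simp [hx])⟩
  have hmin : minpoly K b = X ^ p - C (c : K) := by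
    symm
    apply minpoly.eq_of_irreducible_of_monic hirr
    · simp [hb]
    · exact monic_X_pow_sub_C _ hp0.ne'
  have htop : K⟮b⟯ = ⊤ := by
    rw [Field.primitive_element_iff_minpoly_natDegree_eq, hmin, natDegree_X_pow_sub_C, hf]
  have hprim : (primitiveRoots (Module.finrank K L) K).Nonempty := by
    rw [hf]; exact ⟨ζ, (mem_primitiveRoots hp0).2 hζ⟩
  have hsp := isSplittingField_X_pow_sub_C_of_root_adjoin_eq_top hprim
    (a := (c : K)) (α := b) (by rw [hf]; exact hb) htop
  rw [hf] at hsp hprim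
  have hgal : IsGalois K L := isGalois_of_isSplittingField_X_pow_sub_C hprim hirr L
  have hcard : Nat.card (L ≃ₐ[K] L) = p := by rw [IsGalois.card_aut_eq_finrank, hf]
  have hnt : Nontrivial (L ≃ₐ[K] L) := by
    have : Finite (L ≃ₐ[K] L) := inferInstance
    rw [← Finite.one_lt_card_iff_nontrivial, hcard]; exact hp.out.one_lt
  obtain ⟨σ, hσ⟩ := exists_ne (1 : L ≃ₐ[K] L)
  have hz : Subgroup.zpowers σ = ⊤ := zpowers_eq_top_of_prime_card hcard hσ
  have hζ' : IsPrimitiveRoot (algebraMap K L ζ) p := hζ.map_of_injective (algebraMap K L).injective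
  have hb0 : b ≠ 0 := by
    rintro rfl
    rw [zero_pow hp0.ne'] at hb
    exact c.ne_zero ((algebraMap K L).injective (by rw [← hb, map_zero]))
  have hs0 : s ≠ 0 := by
    rintro rfl
    rw [zero_pow hp0.ne'] at hs
    exact a.ne_zero ((algebraMap K L).injective (by rw [← hs, map_zero]))
  have key : ∀ x : L, x ≠ 0 → ∀ y : K, x ^ p = algebraMap K L y →
      ∃ i < p, σ x = algebraMap K L ζ ^ i * x := by
    intro x hx y hy
    have h1 : (σ x / x) ^ p = 1 := by
      rw [div_pow, ← map_pow, hy, AlgEquiv.commutes, div_self]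
      rw [← hy]; exact pow_ne_zero _ hx
    obtain ⟨i, hi, hi2⟩ := hζ'.eq_pow_of_pow_eq_one h1
    refine ⟨i, hi, ?_⟩
    rw [hi2, div_mul_cancel₀ _ hx]
  obtain ⟨i, hi, hσb⟩ := key b hb0 _ hb
  obtain ⟨j, hj, hσs⟩ := key s hs0 _ hs
  have hi0 : i ≠ 0 := by
    rintro rfl
    apply hσ
    have h2 : ∀ x : L, σ x = x := by
      have h3 : (⊤ : IntermediateField K L) ≤ IntermediateField.fixedField (Subgroup.zpowers σ) := by
        rw [← htop, IntermediateField.adjoin_simple_le_iff]
        rw [IntermediateField.mem_fixedField_iff]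
        intro f hf2
        obtain ⟨z, rfl⟩ := Subgroup.mem_zpowers_iff.1 hf2
        have h4 : σ ∈ MulAction.stabilizer (L ≃ₐ[K] L) b := by
          rw [MulAction.mem_stabilizer_iff]
          change σ b = b
          rw [hσb]; simp
        have h5 := zpow_mem h4 z
        rw [MulAction.mem_stabilizer_iff] at h5
        exact h5
      intro x
      have h6 := h3 (IntermediateField.mem_top (x := x))
      rw [IntermediateField.mem_fixedField_iff] at h6
      exact h6 σ (Subgroup.mem_zpowers σ)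
    exact AlgEquiv.ext h2
  have hcop : ((i : ℕ) : ZMod p) ≠ 0 := by
    rw [Ne, ZMod.natCast_eq_zero_iff]
    exact Nat.not_dvd_of_pos_of_lt (Nat.pos_of_ne_zero hi0) hi
  set n : ℕ := (-(j : ZMod p) / (i : ZMod p)).val with hn
  have hdiv : p ∣ j + i * n := by
    rw [← ZMod.natCast_eq_zero_iff]
    push_cast
    rw [hn, ZMod.natCast_zmod_val]
    field_simp
    ring
  set t : L := s * b ^ n with ht
  have hσt : σ t = t := by
    rw [ht, map_mul, map_pow, hσb, hσs]
    obtain ⟨q, hq⟩ := hdiv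
    calc algebraMap K L ζ ^ j * s * (algebraMap K L ζ ^ i * b) ^ n
        = algebraMap K L ζ ^ (j + i * n) * (s * b ^ n) := by ring
      _ = s * b ^ n := by rw [hq, pow_mul, hζ'.pow_eq_one, one_pow, one_mul]
  have hfix : ∀ g : L ≃ₐ[K] L, g t = t := by
    intro g
    have hg : g ∈ Subgroup.zpowers σ := by rw [hz]; trivial
    obtain ⟨z, rfl⟩ := Subgroup.mem_zpowers_iff.1 hg
    have h4 : σ ∈ MulAction.stabilizer (L ≃ₐ[K] L) t := by
      rw [MulAction.mem_stabilizer_iff]
      exact hσt
    have h5 := zpow_mem h4 z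
    rw [MulAction.mem_stabilizer_iff] at h5
    exact h5
  obtain ⟨t0, ht0⟩ := (IsGalois.mem_range_algebraMap_iff_fixed t).2 hfix
  have h7 : t0 ^ p = (a : K) * (c : K) ^ n := by
    apply (algebraMap K L).injective
    rw [map_pow, ht0, ht, mul_pow, hs, map_mul, map_pow, ← pow_mul, mul_comm n p, pow_mul, hb]
  have h8 : t0 ≠ 0 := by
    rintro rfl
    rw [zero_pow hp0.ne'] at h7
    exact (mul_ne_zero a.ne_zero (pow_ne_zero _ c.ne_zero)) h7.symm
  exact ⟨n, Units.mk0 t0 h8, Units.ext (by simp [h7])⟩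

theorem ovb {k K L : Type} [Field k] [Field K] [Algebra k K] [Field L] [Algebra k L] [Algebra K L]
    [IsScalarTower k K L] {w : FF.Place k L} {v v' : FF.Place k K} {e e' : ℕ}
    (h : FF.Over w v e) (h' : FF.Over w v' e') : v = v' := by
  apply FF.Place.eq_of_le
  intro f hf hv
  have h1 := h.2 f
  have h2 := h'.2 f
  rw [h1] at h2
  have h3 : 0 ≤ (e : ℤ) * v.ord f := mul_nonneg (Int.natCast_nonneg _) hv
  rw [h2] at h3
  have h4 : (0 : ℤ) < e' := by exact_mod_cast h'.1
  exact nonneg_of_mul_nonneg_right h3 h4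

end KtP

/-- Z5. Adjoining several `p`-th roots. -/
theorem s_kt (h : S_ks) : S_kt := by
  intro m
  induction m with
  | zero =>
    intro k K _ _ _ _ _ p _ ζ _ κ _
    refine ⟨K, inferInstance, inferInstance, inferInstance, inferInstance, inferInstance, ?_⟩
    intro v _
    refine ⟨fun _ => v, ?_, ?_⟩
    · intro a b _
      have : Subsingleton (Fin (p ^ 0)) := by rw [pow_zero]; infer_instance
      exact Subsingleton.elim a b
    · intro _
      exact ⟨⟨one_pos, fun f => by simp⟩, rfl⟩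
  | succ m ih =>
    intro k K _ _ _ _ _ p hp ζ hζ κ hκ
    have hn : ¬ ∃ s : Kˣ, κ 0 = s ^ p := by
      rintro ⟨s, hs⟩
      have h1 := hκ (Pi.single 0 1) ⟨s, by
        rw [← hs, Fin.prod_univ_succ]
        simp⟩ 0
      simp only [Pi.single_eq_same] at h1
      have h2 : (p : ℤ) ≤ 1 := Int.le_of_dvd one_pos h1
      have h3 := hp.out.two_le
      omega
    obtain ⟨K1, iF1, iA1, iKA1, iT1, hFF1, hfr, ⟨b, hb⟩, hpl⟩ := h k K p ζ hζ (κ 0) hn
    set κ' : Fin m → K1ˣ := fun i => Units.map (algebraMap K K1 : K →* K1) (κ i.succ) with hκ'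
    have hζ' : IsPrimitiveRoot (algebraMap K K1 ζ) p :=
      hζ.map_of_injective (algebraMap K K1).injective
    have hκ1 : ∀ e : Fin m → ℤ, (∃ s : K1ˣ, ∏ i, κ' i ^ e i = s ^ p) → ∀ i, (p : ℤ) ∣ e i := by
      rintro e ⟨s, hs⟩ i
      have h1 : Units.map (algebraMap K K1 : K →* K1) (∏ i : Fin m, κ i.succ ^ e i) = s ^ p := by
        rw [← hs, map_prod]
        simp only [map_zpow, hκ']
      obtain ⟨n, t, hnt⟩ := KtP.kummer_sub p ζ hζ (κ 0) hn hfr b hb
        (∏ i : Fin m, κ i.succ ^ e i) (s : K1) (by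
          have := congrArg (fun u : K1ˣ => (u : K1)) h1
          simpa using this.symm)
      have h2 := hκ (Fin.cons (n : ℤ) e) ⟨t, by
        rw [← hnt, Fin.prod_univ_succ]
        simp only [Fin.cons_zero, Fin.cons_succ, zpow_natCast]
        rw [mul_comm]⟩ i.succ
      simpa using h2
    obtain ⟨K', iF, iA, iKA, iT, hFF, hpl'⟩ := ih k K1 p (algebraMap K K1 ζ) hζ' κ' hκ1
    let iKK : Algebra K K' := ((algebraMap K1 K').comp (algebraMap K K1)).toAlgebra
    have hcomp : ∀ x : K, algebraMap K K' x = algebraMap K1 K' (algebraMap K K1 x) := fun x => rfl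
    have iTT : IsScalarTower k K K' := by
      apply IsScalarTower.of_algebraMap_eq
      intro x
      rw [hcomp, ← IsScalarTower.algebraMap_apply k K K1, ← IsScalarTower.algebraMap_apply k K1 K']
    refine ⟨K', iF, iA, iKK, iTT, hFF, ?_⟩
    intro v hv
    obtain ⟨w, hwi, hw⟩ := hpl v (hv 0).1 (hv 0).2
    have h3 : ∀ i : Fin p, ∃ W : Fin (p ^ m) → FF.Place k K', Function.Injective W ∧
        ∀ j, FF.Over (W j) (w i) 1 ∧ (W j).deg = (w i).deg := by
      intro i
      apply hpl' (w i)
      intro j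
      obtain ⟨ho, y, hy, hy2⟩ := hv j.succ
      have hov := (hw i).1
      have e1 : ((κ' j : K1ˣ) : K1) = algebraMap K K1 (κ j.succ : K) := rfl
      refine ⟨?_, algebraMap K K1 y, hov.reg.2 hy, ?_⟩
      · rw [e1, hov.2, ho]; simp
      · have hr : v.Reg (κ j.succ : K) := Or.inr ho.ge
        rw [e1, ← hov.resMap_red hr, hy2, map_pow, hov.resMap_red hy]
    choose W hWi hW using h3
    have hov2 : ∀ i j, FF.Over (W i j) v 1 := by
      intro i j
      refine ⟨one_pos, fun f => ?_⟩
      rw [hcomp, ((hW i j).1).2, ((hw i).1).2]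
      simp
    let eq : Fin (p ^ (m + 1)) ≃ Fin (p ^ m) × Fin p :=
      (finCongr (pow_succ p m)).trans finProdFinEquiv.symm
    refine ⟨fun x => W (eq x).2 (eq x).1, ?_, ?_⟩
    · intro x x' hxx
      apply eq.injective
      have h4 : w (eq x).2 = w (eq x').2 := by
        have h5 := (hW (eq x).2 (eq x).1).1
        have h6 := (hW (eq x').2 (eq x').1).1
        simp only at hxx
        rw [← hxx] at h6
        exact KtP.ovb h5 h6
      have h7 := hwi h4
      simp only at hxx
      rw [← h7] at hxx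
      exact Prod.ext (hWi _ hxx) h7
    · intro x
      exact ⟨hov2 _ _, ((hW _ _).2).trans (hw _).2⟩

end Pool.Agent.NH7.GF
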