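import Pool.Agent.NH7.GF.Stms
import Pool.Agent.H133R3.ZT.WA

/-!
# G3. The group of local classes
-/

set_option autoImplicit false
set_option linter.unusedSectionVars false

namespace Pool.Agent.NH7.GF

open Pool.Agent.H525R3.FFp

namespace LocP

section place

variable {k K : Type} [Field k] [Field K] [Algebra k K] (v : FF.Place k K)

/-- a uniformizer -/
noncomputable def tu : Kˣ := Units.mk0 v.surj.choose v.surj.choose_spec.1

theorem ord_tu : v.ord ((tu v : Kˣ) : K) = 1 := v.surj.choose_spec.2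

theorem ord_umul (a b : Kˣ) : v.ord ((a * b : Kˣ) : K) = v.ord (a : K) + v.ord (b : K) := by
  rw [Units.val_mul]
  exact v.ord_mul a.ne_zero b.ne_zero

theorem ord_uinv (a : Kˣ) : v.ord ((a⁻¹ : Kˣ) : K) = -v.ord (a : K) := by
  rw [Units.val_inv_eq_inv_val]
  exact v.ord_inv _

theorem ord_uzpow (a : Kˣ) (n : ℤ) : v.ord ((a ^ n : Kˣ) : K) = n * v.ord (a : K) := by
  rw [Units.val_zpow_eq_zpow_val]
  exact v.ord_zpow _ _

/-- the unit part -/
noncomputable def up (κ : Kˣ) : Kˣ := κ * tu v ^ (-v.ord (κ : K))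

theorem ord_up (κ : Kˣ) : v.ord ((up v κ : Kˣ) : K) = 0 := by
  unfold up
  rw [ord_umul, ord_uzpow, ord_tu]
  ring

theorem up_mul (a b : Kˣ) : up v (a * b) = up v a * up v b := by
  unfold up
  rw [ord_umul, neg_add, zpow_add]
  exact mul_mul_mul_comm _ _ _ _

theorem up_of_ord {κ : Kˣ} (h : v.ord (κ : K) = 0) : up v κ = κ := by
  unfold up
  rw [h, neg_zero, zpow_zero, mul_one]

theorem up_tu : up v (tu v) = 1 := by
  unfold up
  rw [ord_tu, zpow_neg_one, mul_inv_cancel]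

theorem reg_of {f : K} (h : v.ord f = 0) : v.Reg f := Or.inr h.ge

/-- the residue of the unit part -/
noncomputable def rho : Kˣ →* v.RFˣ where
  toFun κ := Units.mk0 (v.red ((up v κ : Kˣ) : K)) (v.red_ne_zero (Units.ne_zero _) (ord_up v κ))
  map_one' := by
    apply Units.ext
    rw [Units.val_mk0, up_of_ord v (by rw [Units.val_one, v.ord_one]), Units.val_one, v.red_one,
      Units.val_one]
  map_mul' a b := by
    apply Units.ext
    rw [Units.val_mk0, up_mul, Units.val_mul, v.red_mul (reg_of v (ord_up v a))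
      (reg_of v (ord_up v b)), Units.val_mul, Units.val_mk0, Units.val_mk0]

theorem rho_val (κ : Kˣ) : ((rho v κ : v.RFˣ) : v.RF) = v.red ((up v κ : Kˣ) : K) := rfl

theorem rho_tu : rho v (tu v) = 1 := by
  apply Units.ext
  rw [rho_val, up_tu, Units.val_one, v.red_one, Units.val_one]

/-- the two local invariants -/
theorem exists_local (n : ℤ) (c : v.RFˣ) : ∃ a : Kˣ, v.ord (a : K) = n ∧ rho v a = c := by
  obtain ⟨f, hf, hfc⟩ := v.red_surjective (c : v.RF)
  have h1 : ¬ (f = 0 ∨ 0 < v.ord f) := by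
    rw [← v.red_eq_zero_iff hf, hfc]
    exact c.ne_zero
  push Not at h1
  have h2 : v.ord f = 0 := le_antisymm h1.2 ((v.reg_iff h1.1).1 hf)
  refine ⟨tu v ^ n * Units.mk0 f h1.1, ?_, ?_⟩
  · rw [ord_umul, ord_uzpow, ord_tu, Units.val_mk0, h2]
    ring
  · rw [map_mul, map_zpow, rho_tu, one_zpow, one_mul]
    apply Units.ext
    rw [rho_val, up_of_ord v (by rw [Units.val_mk0, h2]), Units.val_mk0, hfc]

/-- weak approximation for the local invariants -/
theorem exists_global (T : Finset (FF.Place k K)) (n : FF.Place k K → ℤ)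
    (c : ∀ w : FF.Place k K, w.RFˣ) : ∃ κ : Kˣ, ∀ w ∈ T, w.ord (κ : K) = n w ∧ rho w κ = c w := by
  classical
  choose a ha1 ha2 using fun w : FF.Place k K => exists_local w (n w) (c w)
  obtain ⟨f, hf⟩ := Pool.Agent.H133R3.ZT.taskWA k K T (fun w => ((a w : Kˣ) : K))
    (1 + ∑ w ∈ T, |n w|)
  have key : ∀ w ∈ T, f ≠ 0 ∧ ∀ κ : Kˣ, (κ : K) = f → w.ord (κ : K) = n w ∧ rho w κ = c w := by
    intro w hw
    have hn : n w < 1 + ∑ w ∈ T, |n w| := by
      have h1 : |n w| ≤ ∑ w ∈ T, |n w| :=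
        Finset.single_le_sum (f := fun w => |n w|) (fun _ _ => abs_nonneg _) hw
      have h2 := le_abs_self (n w)
      omega
    by_cases he : f = (a w : K)
    · refine ⟨by rw [he]; exact (a w).ne_zero, fun κ hκ => ?_⟩
      have e : κ = a w := Units.ext (hκ.trans he)
      rw [e]
      exact ⟨ha1 w, ha2 w⟩
    · have h0 : f - (a w : K) ≠ 0 := sub_ne_zero.2 he
      have h1 := (hf w hw).resolve_left he
      have h2 := w.ord_add_eq (f := (a w : K)) (g := f - (a w : K)) (a w).ne_zero h0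
        (by rw [ha1]; omega)
      have h3 : (a w : K) + (f - (a w : K)) = f := by ring
      rw [h3] at h2
      refine ⟨h2.1, fun κ hκ => ?_⟩
      have h4 : w.ord (κ : K) = n w := by rw [hκ, h2.2, ha1]
      refine ⟨h4, ?_⟩
      -- the quotient is close to one
      have h5 : w.ord ((κ * (a w)⁻¹ : Kˣ) : K) = 0 := by
        rw [ord_umul, ord_uinv, h4, ha1]
        ring
      have h6 : w.red ((κ * (a w)⁻¹ : Kˣ) : K) = 1 := by
        have h7 : ((κ * (a w)⁻¹ : Kˣ) : K) - 1 = (f - (a w : K)) * ((a w)⁻¹ : Kˣ) := by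
          rw [Units.val_mul, hκ, sub_mul, Units.mul_inv]
        have h8 : 0 < w.ord (((κ * (a w)⁻¹ : Kˣ) : K) - 1) := by
          rw [h7, w.ord_mul h0 (Units.ne_zero _), ord_uinv, ha1]
          omega
        have h9 := (w.red_eq_zero_iff (f := ((κ * (a w)⁻¹ : Kˣ) : K) - 1) (Or.inr h8.le)).2
          (Or.inr h8)
        rw [w.red_sub (reg_of w h5) w.reg_one, w.red_one, sub_eq_zero] at h9
        exact h9
      have h10 : rho w (κ * (a w)⁻¹) = 1 := by
        apply Units.ext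
        rw [rho_val, up_of_ord w h5, h6, Units.val_one]
      rw [map_mul, map_inv, mul_inv_eq_one, ha2] at h10
      exact h10
  rcases T.eq_empty_or_nonempty with rfl | ⟨w0, hw0⟩
  · exact ⟨1, fun w hw => absurd hw (Finset.notMem_empty w)⟩
  · exact ⟨Units.mk0 f (key w0 hw0).1, fun w hw => (key w hw).2 _ (Units.val_mk0 _)⟩

end place

section kummer

variable {k K : Type} [Field k] [Field K] [Algebra k K] (v : FF.Place k K)
  {p : ℕ} [hp : Fact p.Prime] {ζ : K} (hζ : IsPrimitiveRoot ζ p)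

include hζ in
theorem red_ne_one (h0 : v.ord ζ = 0) : v.red ζ ≠ 1 := by
  intro h1
  have hr : v.Reg ζ := reg_of v h0
  have e1 : ∑ i ∈ Finset.range p, (⟨ζ, hr⟩ : v.O) ^ i = 0 := by
    apply Subtype.ext
    have := hζ.geom_sum_eq_zero hp.out.one_lt
    push_cast
    exact this
  have e2 := congrArg v.resHom e1
  rw [map_sum, map_zero] at e2
  have e3 : v.resHom ⟨ζ, hr⟩ = 1 := by rw [← v.red_of_reg hr, h1]
  simp only [map_pow, e3, one_pow, Finset.sum_const, Finset.card_range, nsmul_eq_mul, mul_one] at e2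
  have e4 : algebraMap k v.RF (p : k) = 0 := by rw [map_natCast, e2]
  have e5 : (p : k) = 0 := (map_eq_zero_iff _ (algebraMap k v.RF).injective).1 e4
  apply p_ne hζ
  have e6 := congrArg (algebraMap k K) e5
  rwa [map_natCast, map_zero] at e6

include hζ in
theorem exists_np [Finite v.RF] : ∃ c : v.RFˣ, ¬ ∃ y : v.RFˣ, c = y ^ p := by
  by_contra hcon
  push Not at hcon
  have hs : Function.Surjective fun y : v.RFˣ => y ^ p := fun c => by
    obtain ⟨y, hy⟩ := hcon c
    exact ⟨y, hy.symm⟩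
  have hi : Function.Injective fun y : v.RFˣ => y ^ p := Finite.injective_iff_surjective.2 hs
  have hp0 : ζ ≠ 0 := hζ.ne_zero hp.out.ne_zero
  have h0 : v.ord ζ = 0 := by
    have h1 := v.ord_pow ζ p
    rw [hζ.pow_eq_one, v.ord_one] at h1
    rcases mul_eq_zero.1 h1.symm with h2 | h2
    · exact absurd (by exact_mod_cast h2) hp.out.ne_zero
    · exact h2
  have h1 : rho v (Units.mk0 ζ hp0) = 1 := by
    apply hi
    show rho v (Units.mk0 ζ hp0) ^ p = 1 ^ p
    rw [← map_pow, one_pow]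
    have e : Units.mk0 ζ hp0 ^ p = 1 := by
      apply Units.ext
      rw [Units.val_pow_eq_pow_val, Units.val_mk0, hζ.pow_eq_one, Units.val_one]
    rw [e, map_one]
  have h2 := congrArg (fun u : v.RFˣ => (u : v.RF)) h1
  simp only [rho_val, Units.val_one] at h2
  rw [up_of_ord v (by rw [Units.val_mk0, h0]), Units.val_mk0] at h2
  exact red_ne_one v hζ h0 h2

/-- a power of a non-`p`-th power -/
theorem dvd_of_pow {G : Type} [CommGroup G] {c : G} (hc : ¬ ∃ y : G, c = y ^ p) {n : ℤ}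
    (h : ∃ y : G, c ^ n = y ^ p) : (p : ℤ) ∣ n := by
  by_contra hn
  obtain ⟨y, hy⟩ := h
  have h1 : IsCoprime (p : ℤ) n := ((Nat.prime_iff_prime_int.1 hp.out).coprime_iff_not_dvd).2 hn
  obtain ⟨a, b, hab⟩ := h1
  apply hc
  refine ⟨c ^ a * y ^ b, ?_⟩
  have e : c = c ^ (a * p + b * n) := by rw [hab, zpow_one]
  rw [zpow_add, mul_comm b n, zpow_mul, zpow_mul, hy] at e
  rw [mul_pow, ← zpow_natCast (c ^ a), ← zpow_natCast (y ^ b)]
  rw [← zpow_natCast y p, ← zpow_mul y, mul_comm (p : ℤ) b, zpow_mul] at e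
  exact e

end kummer

section main

variable {k K : Type} [Field k] [Finite k] [Field K] [Algebra k K] [FF.IsFF k K]
  {p : ℕ} [hp : Fact p.Prime] {ζ : K} (hζ : IsPrimitiveRoot ζ p) (h : Lf k hζ)

theorem kp_up (v : FF.Place k K) {κ : Kˣ} (hd : (p : ℤ) ∣ v.ord (κ : K)) (g : GK K) :
    kp hζ κ g = kp hζ (up v κ) g := by
  obtain ⟨m, hm⟩ := hd
  have e : up v κ = κ * (tu v ^ (-m)) ^ p := by
    unfold up
    rw [hm, ← zpow_natCast, ← zpow_mul]
    congr 2
    ring
  rw [e, kp_mul_left, kp_ppow, add_zero]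

include h in
theorem mem_H0_iff (h6 : S_hz) (h7 : S_frp) (T : Finset (FF.Place k K)) (κ : Kˣ) :
    κ ∈ (kdF hζ h).H0 T ↔ ∀ v ∈ T, (p : ℤ) ∣ v.ord (κ : K) ∧ ∃ y : v.RFˣ, rho v κ = y ^ p := by
  rw [KD.mem_H0]
  refine forall₂_congr fun v hv => ?_
  constructor
  · intro hk
    have hk' : ∀ g ∈ Dec (Av v), kp hζ κ g = 0 := hk
    have h1 : (p : ℤ) ∣ v.ord (κ : K) := h.dvd_of_inr v κ fun g hg => hk' g (Inr_le _ hg)
    refine ⟨h1, ?_⟩
    have h2 : kp hζ (up v κ) (frv v) = 0 := by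
      rw [← kp_up hζ v h1]
      exact hk' _ (h.fb v).1
    obtain ⟨y, hy, hy2⟩ := h7 k K p ζ hζ v (Av v) (h.ab v) (frv v) (h.fb v) (up v κ) (ord_up v κ) h2
    have h3 : v.red y ≠ 0 := by
      intro h0
      rw [h0, zero_pow hp.out.ne_zero] at hy2
      exact v.red_ne_zero (Units.ne_zero _) (ord_up v κ) hy2
    refine ⟨Units.mk0 _ h3, ?_⟩
    apply Units.ext
    rw [rho_val, hy2, Units.val_pow_eq_pow_val, Units.val_mk0]
  · rintro ⟨h1, y, hy⟩ g hg
    show kp hζ κ g = 0
    rw [kp_up hζ v h1]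
    obtain ⟨Y, hY, hY2⟩ := v.red_surjective (y : v.RF)
    refine h6 k K p ζ hζ v (Av v) (h.ab v) (up v κ) (ord_up v κ) ⟨Y, hY, ?_⟩ g hg
    rw [← rho_val, hy, Units.val_pow_eq_pow_val, hY2]

/-- the two local invariants modulo `p` -/
noncomputable def Ph (p : ℕ) (v : FF.Place k K) : Kˣ →* Multiplicative (ZMod p) × v.RFˣ where
  toFun κ := (Multiplicative.ofAdd ((v.ord (κ : K) : ℤ) : ZMod p), rho v κ)
  map_one' := by
    rw [map_one, Units.val_one, v.ord_one, Int.cast_zero]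
    rfl
  map_mul' a b := by
    rw [map_mul, ord_umul, Int.cast_add]
    rfl

end main

end LocP

open LocP

/-- G3. The group of local classes. -/
theorem s_loc (h6 : S_hz) (h7 : S_frp) : S_loc := by
  classical
  intro k K _ _ _ _ _ p hp ζ hζ h T
  haveI hfin : ∀ v : FF.Place k K, Finite v.RF := fun v => Module.finite_of_finite k
  have hiff := mem_H0_iff hζ h h6 h7 T
  have hF : Finite (Kˣ ⧸ (kdF hζ h).H0 T) := by
    let Φ : Kˣ →* ((v : T) → Multiplicative (ZMod p) × v.1.RFˣ) :=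
      Pi.monoidHom fun v : T => Ph p v.1
    haveI : Finite (Multiplicative (ZMod p)) := inferInstanceAs (Finite (ZMod p))
    haveI : Finite ((v : T) → Multiplicative (ZMod p) × v.1.RFˣ) := Pi.finite
    have h1 : Φ.ker ≤ (kdF hζ h).H0 T := by
      intro κ hκ
      rw [hiff]
      intro v hv
      have h2 : Ph p v κ = 1 := congrFun (MonoidHom.mem_ker.1 hκ) ⟨v, hv⟩
      have h3 : ((v.ord (κ : K) : ℤ) : ZMod p) = 0 := congrArg (fun z => Multiplicative.toAdd z.1) h2
      have h4 : rho v κ = 1 := congrArg Prod.snd h2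
      exact ⟨(ZMod.intCast_zmod_eq_zero_iff_dvd _ _).1 h3, 1, by rw [h4, one_pow]⟩
    haveI : Φ.ker.FiniteIndex := Subgroup.finiteIndex_ker Φ
    haveI : ((kdF hζ h).H0 T).FiniteIndex := Subgroup.finiteIndex_of_le h1
    infer_instance
  refine ⟨hF, ?_⟩
  choose c hc using fun v : FF.Place k K => exists_np v hζ
  have hex : ∀ f : T → ZMod p × ZMod p, ∃ κ : Kˣ, ∀ (v : FF.Place k K) (hv : v ∈ T),
      v.ord (κ : K) = ((f ⟨v, hv⟩).1.val : ℤ) ∧ rho v κ = c v ^ ((f ⟨v, hv⟩).2.val : ℤ) := by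
    intro f
    obtain ⟨κ, hκ⟩ := exists_global T
      (fun v => if hv : v ∈ T then ((f ⟨v, hv⟩).1.val : ℤ) else 0)
      (fun v => if hv : v ∈ T then c v ^ ((f ⟨v, hv⟩).2.val : ℤ) else 1)
    refine ⟨κ, fun v hv => ?_⟩
    have h1 := hκ v hv
    rw [dif_pos hv, dif_pos hv] at h1
    exact h1
  choose F hF2 using hex
  have hinj : Function.Injective fun f : T → ZMod p × ZMod p =>
      (QuotientGroup.mk (F f) : Kˣ ⧸ (kdF hζ h).H0 T) := by
    intro f f' hff
    have h1 := (hiff _).1 (QuotientGroup.eq.1 hff)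
    funext v
    have h2 := h1 v.1 v.2
    obtain ⟨h3, h4⟩ := hF2 f v.1 v.2
    obtain ⟨h5, h6'⟩ := hF2 f' v.1 v.2
    rw [ord_umul, ord_uinv, h3, h5, map_mul, map_inv, h4, h6', ← zpow_neg, ← zpow_add] at h2
    have h7' := dvd_of_pow (hc v.1) h2.2
    have e1 : (f v).1 = (f' v).1 := by
      have h8 := (ZMod.intCast_zmod_eq_zero_iff_dvd _ p).2 h2.1
      push_cast at h8
      rw [ZMod.natCast_zmod_val, ZMod.natCast_zmod_val, neg_add_eq_zero] at h8
      exact h8
    have e2 : (f v).2 = (f' v).2 := by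
      have h8 := (ZMod.intCast_zmod_eq_zero_iff_dvd _ p).2 h7'
      push_cast at h8
      rw [ZMod.natCast_zmod_val, ZMod.natCast_zmod_val, neg_add_eq_zero] at h8
      exact h8
    exact Prod.ext e1 e2
  have hcard := Nat.card_le_card_of_injective _ hinj
  have e : Nat.card (T → ZMod p × ZMod p) = p ^ (2 * T.card) := by
    rw [Nat.card_fun, Nat.card_prod, Nat.card_zmod, Nat.card_eq_fintype_card, Fintype.card_coe,
      pow_mul, sq]
  rwa [e] at hcard

end Pool.Agent.NH7.GF
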