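import Pool.Agent.NH7.GF.Abs

/-!
# Residual Selmer groups over global function fields: N7, the induction (helper51; port of
`NH7/BK/LoopP.lean`)
-/

set_option autoImplicit false
set_option linter.unusedSectionVars false

namespace Pool.Agent.NH7.GF

namespace Loop

section loop

variable {p : ℕ} [hp : Fact p.Prime] {M : Type} [CommGroup M] {G : Type} [Group G]
  [TopologicalSpace G] {P : Type} {d : KD p M G P}

theorem HL_congr {S : Finset P} {lam lam' : P → G → ZMod p}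
    (h : ∀ v ∈ S, ∀ g ∈ d.D v, lam v g = lam' v g) : d.HL S lam = d.HL S lam' := by
  ext κ
  rw [KD.mem_HL, KD.mem_HL]
  constructor
  · intro h1 v hv
    obtain ⟨a, ha⟩ := h1 v hv
    exact ⟨a, fun g hg => by rw [ha g hg, h v hv g hg]⟩
  · intro h1 v hv
    obtain ⟨a, ha⟩ := h1 v hv
    exact ⟨a, fun g hg => by rw [ha g hg, h v hv g hg]⟩

theorem Sel_congr {S : Finset P} {lam lam' : P → G → ZMod p}
    (h : ∀ v ∈ S, ∀ g ∈ d.D v, lam v g = lam' v g) : d.Sel S lam = d.Sel S lam' := by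
  ext x
  rw [KD.mem_Sel, KD.mem_Sel, HL_congr h]

open Classical in
/-- the local conditions of a state of the induction -/
noncomputable def lamf (S₀ : Finset P) (lam : P → G → ZMod p) (χ : G → ZMod p)
    (v : P) : G → ZMod p := if v ∈ S₀ then lam v else χ

theorem lamf_mem {S₀ : Finset P} {lam : P → G → ZMod p} {χ : G → ZMod p} {v : P}
    (h : v ∈ S₀) : lamf S₀ lam χ v = lam v := if_pos h

theorem lamf_not {S₀ : Finset P} {lam : P → G → ZMod p} {χ : G → ZMod p} {v : P}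
    (h : v ∉ S₀) : lamf S₀ lam χ v = χ := if_neg h

/-- a state of the induction -/
structure LState (d : KD p M G P) (S₀ : Finset P) (lam : P → G → ZMod p) (χ₀ : G → ZMod p)
    (S : Finset P) (χ : G → ZMod p) : Prop where
  sub : S₀ ⊆ S
  ne : S₀ ≠ S
  mem : χ ∈ d.Sel S (lamf S₀ lam χ)
  eq : ∀ v ∈ S₀, ∀ g ∈ d.D v, χ g = χ₀ g
  ram : ∀ v ∈ S, v ∉ S₀ → ∃ g ∈ d.I v, χ g ≠ 0

theorem loop_start (h3 : S_aux) (hd : d.Gl) {S₀ : Finset P} (hS0 : S₀.Nonempty)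
    {lam : P → G → ZMod p} {χ₀ : G → ZMod p} (hχ : χ₀ ∈ d.Sel S₀ lam) :
    ∃ (S : Finset P) (χ : G → ZMod p), LState d S₀ lam χ₀ S χ := by
  classical
  obtain ⟨v₁, v₂, κ, hv1, hv2, h12, hκ, hod⟩ := h3 p M G P d hd S₀ hS0
  rw [KD.mem_Sel] at hχ
  obtain ⟨κ₀, hκ₀, hod₀, hχ₀⟩ := hχ
  have hκS : ∀ v ∈ S₀, ∀ g ∈ d.D v, d.kp κ g = 0 := fun v hv => hκ v hv
  have hS' : ∀ v, v ∈ insert v₁ (insert v₂ S₀) ↔ v = v₁ ∨ v = v₂ ∨ v ∈ S₀ := by
    intro v
    rw [Finset.mem_insert, Finset.mem_insert]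
  refine ⟨insert v₁ (insert v₂ S₀), χ₀ + d.kp κ, ?_, ?_, ?_, ?_, ?_⟩
  · intro v hv
    exact (hS' v).2 (Or.inr (Or.inr hv))
  · intro h
    apply hv1
    rw [h]
    exact (hS' v₁).2 (Or.inl rfl)
  · rw [KD.mem_Sel]
    refine ⟨κ₀ * κ, ?_, fun v hv => ?_, fun g => ?_⟩
    · rw [KD.mem_HL]
      intro v hv
      by_cases hv0 : v ∈ S₀
      · obtain ⟨a, ha⟩ := d.mem_HL.1 hκ₀ v hv0
        refine ⟨a, fun g hg => ?_⟩
        rw [lamf_mem hv0, d.kp_mul, ha g hg, hκS v hv0 g hg, add_zero]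
      · refine ⟨1, fun g _ => ?_⟩
        rw [lamf_not hv0, one_mul, Pi.add_apply, d.kp_mul, hχ₀]
    · rw [hS'] at hv
      push Not at hv
      obtain ⟨h1, h2, h0⟩ := hv
      rw [d.od_mul]
      refine dvd_add (hod₀ v h0) ?_
      have := hod v h0
      rwa [Finsupp.add_apply, Finsupp.single_eq_of_ne h1,
        Finsupp.single_eq_of_ne h2, add_zero, zero_add] at this
    · rw [Pi.add_apply, d.kp_mul, hχ₀]
  · intro v hv g hg
    rw [Pi.add_apply, hκS v hv g hg, add_zero]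
  · intro v hv hv0
    by_contra hcon
    push Not at hcon
    have h5 : ∀ g ∈ d.I v, d.kp (κ₀ * κ) g = 0 := by
      intro g hg
      have := hcon g hg
      rwa [Pi.add_apply, hχ₀, ← d.kp_mul] at this
    have h6 := d.dvd_of_inr v _ h5
    rw [d.od_mul] at h6
    have h6' := (Int.dvd_add_right (hod₀ v hv0)).1 h6
    have h7 := (Int.dvd_add_left h6').1 (hod v hv0)
    have h8 : (Finsupp.single v₁ 1 + Finsupp.single v₂ 1 : P →₀ ℤ) v = 1 := by
      rcases (hS' v).1 hv with h | h | h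
      · rw [h, Finsupp.add_apply, Finsupp.single_eq_same, Finsupp.single_eq_of_ne h12, add_zero]
      · rw [h, Finsupp.add_apply, Finsupp.single_eq_same, Finsupp.single_eq_of_ne h12.symm, zero_add]
      · exact absurd h hv0
    rw [h8] at h7
    have h9 := Int.le_of_dvd one_pos h7
    have := hp.out.two_le
    omega

theorem loop_step (h1 : S_pick) (h2 : S_drop) (h4 : S_sfin) (hd : d.Gl) {S₀ : Finset P}
    (hp2 : p ≠ 2) (hS0 : S₀.Nonempty) (hcl : d.Cls S₀)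
    {lam : P → G → ZMod p} {χ₀ : G → ZMod p} {S : Finset P} {χ : G → ZMod p}
    (hs : LState d S₀ lam χ₀ S χ) (hc : p ^ 2 ≤ Nat.card (d.Sel S (lamf S₀ lam χ))) :
    ∃ (S' : Finset P) (χ' : G → ZMod p), LState d S₀ lam χ₀ S' χ' ∧
      Nat.card (d.Sel S' (lamf S₀ lam χ')) < Nat.card (d.Sel S (lamf S₀ lam χ)) := by
  classical
  obtain ⟨v₁, v₂, v₃, κ, a1, a2, a3, a12, a13, a23, hκ, hod, hind, hind2⟩ :=
    h1 p M G P d hp2 hd S (hS0.mono hs.sub) (fun n => by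
      obtain ⟨κ, hκ⟩ := hcl n
      exact ⟨κ, fun v hv => hκ v fun h => hv (hs.sub h)⟩) (lamf S₀ lam χ) hc
  have hS' : ∀ v, v ∈ insert v₁ (insert v₂ (insert v₃ S)) ↔ v ∈ S ∨ v = v₁ ∨ v = v₂ ∨ v = v₃ := by
    intro v
    rw [Finset.mem_insert, Finset.mem_insert, Finset.mem_insert]
    tauto
  have hfin := h4 p M G P d hd S (lamf S₀ lam χ)
  obtain ⟨b1, b2, b3⟩ := h2 p M G P d S (lamf S₀ lam χ) hfin v₁ v₂ v₃ κ
    a1 a2 a3 a12 a13 a23 hκ hod
    hind hind2 χ hs.mem (insert v₁ (insert v₂ (insert v₃ S))) (lamf S₀ lam (χ + d.kp κ)) hS'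
    (fun v hv g hg => by
      by_cases hv0 : v ∈ S₀
      · rw [lamf_mem hv0, lamf_mem hv0]
      · rw [lamf_not hv0, lamf_not hv0, Pi.add_apply, d.mem_H0.1 hκ v hv g hg, add_zero])
    (fun v _ hv g _ => by
      rw [lamf_not (fun h => hv (hs.sub h)), Pi.add_apply])
  refine ⟨insert v₁ (insert v₂ (insert v₃ S)), χ + d.kp κ, ⟨?_, ?_, b2, ?_, ?_⟩, ?_⟩
  · intro v hv
    exact (hS' v).2 (Or.inl (hs.sub hv))
  · intro h
    apply hs.ne
    refine Finset.Subset.antisymm hs.sub fun v hv => ?_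
    rw [h]
    exact (hS' v).2 (Or.inl hv)
  · intro v hv g hg
    rw [Pi.add_apply, d.mem_H0.1 hκ v (hs.sub hv) g hg, add_zero, hs.eq v hv g hg]
  · intro v hv hv0
    by_cases hvS : v ∈ S
    · obtain ⟨g, hg, hne⟩ := hs.ram v hvS hv0
      refine ⟨g, hg, ?_⟩
      rw [Pi.add_apply, d.mem_H0.1 hκ v hvS g (d.I_le v hg), add_zero]
      exact hne
    · obtain ⟨g, hg, hne⟩ := b3 v hv hvS
      exact ⟨g, hg, hne⟩
  · have hfin' := h4 p M G P d hd (insert v₁ (insert v₂ (insert v₃ S)))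
      (lamf S₀ lam (χ + d.kp κ))
    have h5 : 0 < Nat.card (d.Sel (insert v₁ (insert v₂ (insert v₃ S)))
      (lamf S₀ lam (χ + d.kp κ))) := Nat.card_pos
    have h6 := hp.out.two_le
    nlinarith

theorem loop_end (h1 : S_pick) (h2 : S_drop) (h3 : S_aux) (h4 : S_sfin)
    (hd : d.Gl) {S₀ : Finset P} (hp2 : p ≠ 2) (hS0 : S₀.Nonempty) (hcl : d.Cls S₀)
    {lam : P → G → ZMod p} {χ₀ : G → ZMod p} (hχ : χ₀ ∈ d.Sel S₀ lam) :
    ∃ (S : Finset P) (χ : G → ZMod p), LState d S₀ lam χ₀ S χ ∧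
      Nat.card (d.Sel S (lamf S₀ lam χ)) < p ^ 2 := by
  have key : ∀ (N : ℕ) (S : Finset P) (χ : G → ZMod p), LState d S₀ lam χ₀ S χ →
      Nat.card (d.Sel S (lamf S₀ lam χ)) = N →
      ∃ (S : Finset P) (χ : G → ZMod p), LState d S₀ lam χ₀ S χ ∧
        Nat.card (d.Sel S (lamf S₀ lam χ)) < p ^ 2 := by
    intro N
    induction N using Nat.strong_induction_on with
    | _ N ih =>
      intro S χ hs hN
      rcases lt_or_ge (Nat.card (d.Sel S (lamf S₀ lam χ))) (p ^ 2) with h | h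
      · exact ⟨S, χ, hs, h⟩
      · obtain ⟨S', χ', hs', hlt⟩ := loop_step h1 h2 h4 hd hp2 hS0 hcl hs h
        exact ih _ (by rw [← hN]; exact hlt) S' χ' hs' rfl
  obtain ⟨S, χ, hs⟩ := loop_start h3 hd hS0 hχ
  exact key _ S χ hs rfl

end loop

end Loop

open Loop in
theorem s_loop (h1 : S_pick) (h2 : S_drop) (h3 : S_aux) (h4 : S_sfin) : S_loop := by
  intro p hp M _ G _ _ P d hp2 hd S₀ hS0 hcl lam χ₀ hχ
  obtain ⟨S, χ, hs, hc⟩ := loop_end h1 h2 h3 h4 hd hp2 hS0 hcl hχ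
  obtain ⟨κ, hκ, hκod, hχκ⟩ := d.mem_Sel.1 hs.mem
  have hχf : χ = d.kp κ := funext hχκ
  refine ⟨S, χ, hs.sub, hs.ne, ?_, hs.eq, hs.ram, ?_, ?_⟩
  · rw [hχf]
    exact d.kp_hm κ
  · intro v hv g hg
    rw [hχf]
    exact d.inr_zero v κ (hκod v hv) g hg
  intro lam' hl1 hl2 x hx
  have hcong : d.Sel S lam' = d.Sel S (lamf S₀ lam χ) := by
    apply Sel_congr
    intro v hv g hg
    by_cases hv0 : v ∈ S₀
    · rw [lamf_mem hv0, hl1 v hv0 g hg]
    · rw [lamf_not hv0, hl2 v hv hv0 g hg]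
  rw [hcong] at hx
  have hfin := h4 p M G P d hd S (lamf S₀ lam χ)
  -- `χ` is not zero
  have hχ0 : χ ≠ 0 := by
    intro h0
    apply hs.ne
    refine Finset.Subset.antisymm hs.sub fun v hv => ?_
    by_contra hv0
    obtain ⟨g, -, hne⟩ := hs.ram v hv hv0
    exact hne (by rw [h0]; rfl)
  have hmf : Module.Finite (ZMod p) (d.Sel S (lamf S₀ lam χ)) := inferInstance
  have hrank : Module.finrank (ZMod p) (d.Sel S (lamf S₀ lam χ)) ≤ 1 := by
    have h5 := Module.natCard_eq_pow_finrank (K := ZMod p) (V := d.Sel S (lamf S₀ lam χ))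
    rw [Nat.card_zmod] at h5
    rw [h5] at hc
    have := (Nat.pow_lt_pow_iff_right hp.out.one_lt).1 hc
    omega
  obtain ⟨w, hw⟩ := finrank_le_one_iff.1 hrank
  obtain ⟨c, hc'⟩ := hw ⟨χ, hs.mem⟩
  obtain ⟨e, he⟩ := hw ⟨x, hx⟩
  have hc0 : c ≠ 0 := by
    rintro rfl
    apply hχ0
    rw [zero_smul] at hc'
    exact (congrArg Subtype.val hc').symm
  refine ⟨e * c⁻¹, fun g => ?_⟩
  have e1 : c * (w : G → ZMod p) g = χ g := congrFun (congrArg Subtype.val hc') g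
  have e2 : e * (w : G → ZMod p) g = x g := congrFun (congrArg Subtype.val he) g
  rw [← e1, ← e2]
  field_simp

end Pool.Agent.NH7.GF
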