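import Pool.Agent.NH7.GF.An

/-!
# E6: the sums of a nontrivial character of odd prime order are bounded away from zero
-/

set_option autoImplicit false
set_option linter.unusedSectionVars false

namespace Pool.Agent.NH7.GF

open Finset

namespace NvP

/-- the series, in closed form -/
theorem hasSum_L {q δ : ℕ} (hδ : 1 ≤ δ) {s : ℕ → ℂ} {ω c : ℂ} {n₁ : ℕ}
    (hs : ∀ n, n₁ ≤ n → s n = if δ ∣ n then c * ω ^ (n / δ) * (q : ℂ) ^ n else 0)
    (x : ℂ) (hx : ‖ω * ((q : ℂ) * x) ^ δ‖ < 1) :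
    HasSum (fun n => s n * x ^ n)
      (c * ω ^ n₁ * ((q : ℂ) * x) ^ (δ * n₁) * (1 - ω * ((q : ℂ) * x) ^ δ)⁻¹ +
        ∑ i ∈ range (δ * n₁), s i * x ^ i) := by
  rw [← hasSum_nat_add_iff (f := fun n => s n * x ^ n) (δ * n₁)]
  have hinj : Function.Injective fun m : ℕ => δ * m := fun a b h =>
    Nat.eq_of_mul_eq_mul_left (by omega) h
  rw [← hinj.hasSum_iff]
  · have h1 := (hasSum_geometric_of_norm_lt_one hx).mul_left
      (c * ω ^ n₁ * ((q : ℂ) * x) ^ (δ * n₁))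
    have h2 : (fun n => s n * x ^ n) ∘ (fun n => n + δ * n₁) ∘ (fun m : ℕ => δ * m) =
        fun m : ℕ => c * ω ^ n₁ * ((q : ℂ) * x) ^ (δ * n₁) * (ω * ((q : ℂ) * x) ^ δ) ^ m := by
      funext m
      simp only [Function.comp_apply]
      have h3 : n₁ ≤ δ * m + δ * n₁ := by nlinarith
      have h4 : δ ∣ δ * m + δ * n₁ := ⟨m + n₁, by ring⟩
      have h5 : (δ * m + δ * n₁) / δ = m + n₁ := by
        rw [← Nat.mul_add, Nat.mul_div_cancel_left _ (by omega)]
      rw [hs _ h3, if_pos h4, h5]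
      ring
    exact (h2 ▸ h1 : HasSum ((fun n => s n * x ^ n) ∘ (fun n => n + δ * n₁) ∘
      (fun m : ℕ => δ * m)) _)
  · intro l hl
    have h3 : n₁ ≤ l + δ * n₁ := by nlinarith
    have h4 : ¬ δ ∣ l + δ * n₁ := by
      intro h
      have h5 : δ ∣ l := (Nat.dvd_add_left (dvd_mul_right δ n₁)).1 h
      obtain ⟨m, hm⟩ := h5
      exact hl ⟨m, hm.symm⟩
    rw [hs _ h3, if_neg h4, zero_mul]

/-- the function which is the sum of the series for `0 < u < 1 / q` -/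
noncomputable def G (q δ n₁ : ℕ) (s : ℕ → ℂ) (ω c : ℂ) (u : ℝ) : ℂ :=
  c * ω ^ n₁ * ((q : ℂ) * u) ^ (δ * n₁) * (1 - ω * ((q : ℂ) * u) ^ δ)⁻¹ +
    ∑ i ∈ range (δ * n₁), s i * (u : ℂ) ^ i

theorem y_lt {q δ : ℕ} (hq : 2 ≤ q) (hδ : 1 ≤ δ) {ω : ℂ} (hω : ‖ω‖ = 1) {u : ℝ} (hu : 0 ≤ u)
    (hu1 : u < 1 / q) : ‖ω * ((q : ℂ) * (u : ℂ)) ^ δ‖ < 1 := by
  have hq0 : (0 : ℝ) < q := by
    have : (2 : ℝ) ≤ q := by exact_mod_cast hq
    linarith
  have h1 : (q : ℝ) * u < 1 := by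
    rw [lt_div_iff₀ hq0] at hu1
    linarith
  rw [norm_mul, hω, one_mul, norm_pow, norm_mul, Complex.norm_natCast, Complex.norm_real,
    Real.norm_of_nonneg hu]
  exact pow_lt_one₀ (by positivity) h1 (by omega)

theorem den_ne {q δ : ℕ} (hq : 2 ≤ q) (hδ : 1 ≤ δ) {ω : ℂ} (hω : ‖ω‖ = 1) (hω1 : ω ≠ 1) {u : ℝ}
    (hu : 0 ≤ u) (hu1 : u ≤ 1 / q) : 1 - ω * ((q : ℂ) * (u : ℂ)) ^ δ ≠ 0 := by
  rcases hu1.lt_or_eq with h | h
  · have := y_lt hq hδ hω hu h
    intro h0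
    rw [← sub_eq_zero.1 h0, norm_one] at this
    exact lt_irrefl _ this
  · have hq0 : (q : ℂ) ≠ 0 := by
      have : q ≠ 0 := by omega
      exact_mod_cast this
    have h1 : (q : ℂ) * (u : ℂ) = 1 := by
      rw [h]
      push_cast
      field_simp
    rw [h1, one_pow, mul_one]
    exact sub_ne_zero.2 (Ne.symm hω1)

theorem G_contDiff {q δ : ℕ} (hq : 2 ≤ q) (hδ : 1 ≤ δ) {ω c : ℂ} (hω : ‖ω‖ = 1)
    (hc : c = 0 ∨ ω ≠ 1) (n₁ : ℕ) (s : ℕ → ℂ) :
    ContDiffOn ℝ 1 (G q δ n₁ s ω c) (Set.Icc 0 (1 / (q : ℝ))) := by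
  have hof : ContDiff ℝ 1 (fun u : ℝ => (u : ℂ)) := Complex.ofRealCLM.contDiff
  have hqu : ContDiff ℝ 1 (fun u : ℝ => (q : ℂ) * (u : ℂ)) := contDiff_const.mul hof
  have hsum : ContDiff ℝ 1 (fun u : ℝ => ∑ i ∈ range (δ * n₁), s i * (u : ℂ) ^ i) :=
    ContDiff.sum fun i _ => contDiff_const.mul (hof.pow i)
  rcases hc with rfl | hω1
  · have : G q δ n₁ s ω 0 = fun u : ℝ => ∑ i ∈ range (δ * n₁), s i * (u : ℂ) ^ i := by
      funext u
      unfold G
      rw [zero_mul, zero_mul, zero_mul, zero_add]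
    rw [this]
    exact hsum.contDiffOn
  · unfold G
    refine ContDiffOn.add (ContDiffOn.mul ?_ (ContDiffOn.inv ?_ ?_)) hsum.contDiffOn
    · exact (contDiff_const.mul (hqu.pow _)).contDiffOn
    · exact (contDiff_const.sub (contDiff_const.mul (hqu.pow _))).contDiffOn
    · intro u hu
      exact den_ne hq hδ hω hω1 hu.1 hu.2

theorem tsum_eq_G {q δ : ℕ} (hq : 2 ≤ q) (hδ : 1 ≤ δ) {s : ℕ → ℂ} {ω c : ℂ} {n₁ : ℕ}
    (hω : ‖ω‖ = 1)
    (hs : ∀ n, n₁ ≤ n → s n = if δ ∣ n then c * ω ^ (n / δ) * (q : ℂ) ^ n else 0)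
    {u : ℝ} (hu : 0 ≤ u) (hu1 : u < 1 / q) :
    ∑' n : ℕ, s n * (u : ℂ) ^ n = G q δ n₁ s ω c u :=
  (hasSum_L hδ hs (u : ℂ) (y_lt hq hδ hω hu hu1)).tsum_eq

/-- the trivial character -/
theorem S_zero {ι : Type} (D : Dg ι) (a : ι → ℂ) (n : ℕ) :
    D.S (fun v => a v ^ 0) n = (Nat.card (D.Ef n) : ℂ) := by
  unfold Dg.S
  simp only [pow_zero, one_pow, Finsupp.prod, Finset.prod_const_one]
  rw [tsum_const, nsmul_eq_mul, mul_one]

/-- complex conjugation -/
theorem S_conj {ι : Type} (D : Dg ι) {p : ℕ} (hp : 1 ≤ p) (a : ι → ℂ) (ha : ∀ v, a v ^ p = 1)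
    (n : ℕ) : D.S (fun v => a v ^ (p - 1)) n = (starRingEnd ℂ) (D.S a n) := by
  have h1 : ∀ v, a v ^ (p - 1) = (starRingEnd ℂ) (a v) := by
    intro v
    have hn : ‖a v‖ = 1 := by
      have h2 : ‖a v‖ ^ p = 1 := by rw [← norm_pow, ha v, norm_one]
      exact (pow_eq_one_iff_of_nonneg (norm_nonneg _) (by omega)).1 h2
    rw [← Complex.inv_eq_conj hn]
    refine eq_inv_of_mul_eq_one_left ?_
    rw [← pow_succ, Nat.sub_add_cancel hp, ha v]
  unfold Dg.S
  rw [Complex.conj_tsum]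
  refine tsum_congr fun E => ?_
  unfold Finsupp.prod
  rw [map_prod]
  refine Finset.prod_congr rfl fun v _ => ?_
  show (a v ^ (p - 1)) ^ (E.1 v) = (starRingEnd ℂ) (a v ^ (E.1 v))
  rw [h1, map_pow]

theorem card_le {ι : Type} (D : Dg ι) {q : ℕ} {C : ℝ} {δ n₀ : ℕ} (h : D.Cnt q C δ n₀) :
    ∃ K : ℝ, 0 < K ∧ ∀ n, (Nat.card (D.Ef n) : ℝ) ≤ K * (q : ℝ) ^ n := by
  have hq : (1 : ℝ) ≤ q := by
    have : (2 : ℝ) ≤ q := by exact_mod_cast h.hq
    linarith
  have hs : (0 : ℝ) ≤ ∑ i ∈ range n₀, (Nat.card (D.Ef i) : ℝ) :=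
    Finset.sum_nonneg fun i _ => Nat.cast_nonneg _
  refine ⟨C + ∑ i ∈ range n₀, (Nat.card (D.Ef i) : ℝ), add_pos_of_pos_of_nonneg h.hC hs, ?_⟩
  intro n
  have hqn : (1 : ℝ) ≤ (q : ℝ) ^ n := one_le_pow₀ hq
  have hC := h.hC
  by_cases hn : n₀ ≤ n
  · by_cases hd : δ ∣ n
    · rw [h.h1 n hn hd]
      nlinarith
    · rw [h.h0 n hn hd, Nat.cast_zero]
      positivity
  · have h2 : (Nat.card (D.Ef n) : ℝ) ≤ ∑ i ∈ range n₀, (Nat.card (D.Ef i) : ℝ) :=
      Finset.single_le_sum (f := fun i => (Nat.card (D.Ef i) : ℝ))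
        (fun i _ => Nat.cast_nonneg _) (Finset.mem_range.2 (not_le.1 hn))
    nlinarith

end NvP

open NvP in
theorem s_nv (h1 : S_sm) (h5 : S_ge) : S_nv := by
  intro ι D q C δ n₀ hCnt p hp hp2 a ha hN
  have hpp : p.Prime := hp.out
  have hp3 : 3 ≤ p := by
    have := hpp.two_le
    omega
  have hq2 := hCnt.hq
  have hδ := hCnt.hδ
  have hqR : (2 : ℝ) ≤ q := by exact_mod_cast hq2
  have hq0 : (0 : ℝ) < q := by linarith
  have hqi : (0 : ℝ) < 1 / q := by positivity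
  -- the functions `G_j`
  have hG : ∀ j, 1 ≤ j → j < p → ∃ g : ℝ → ℂ,
      ContDiffOn ℝ 1 g (Set.Icc 0 (1 / (q : ℝ))) ∧ ∀ u : ℝ, 0 ≤ u → u < 1 / q →
        ∑' n : ℕ, D.S (fun v => a v ^ j) n * (u : ℂ) ^ n = g u := by
    intro j hj1 hjp
    obtain ⟨ω, c, n₁, hω, hc, hs⟩ := hN j hj1 hjp
    exact ⟨G q δ n₁ (D.S fun v => a v ^ j) ω c, G_contDiff hq2 hδ hω hc n₁ _,
      fun u hu hu1 => tsum_eq_G hq2 hδ hω hs hu hu1⟩
  have hbd : ∀ j, 1 ≤ j → j < p → ∃ M : ℝ, ∀ u : ℝ, 0 ≤ u → u < 1 / q →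
      ‖∑' n : ℕ, D.S (fun v => a v ^ j) n * (u : ℂ) ^ n‖ ≤ M := by
    intro j hj1 hjp
    obtain ⟨g, hg, hgu⟩ := hG j hj1 hjp
    obtain ⟨M, hM⟩ := isCompact_Icc.exists_bound_of_continuousOn hg.continuousOn
    exact ⟨M, fun u hu hu1 => by rw [hgu u hu hu1]; exact hM u ⟨hu, hu1.le⟩⟩
  obtain ⟨g, hg, hgu⟩ := hG 1 le_rfl (by omega)
  obtain ⟨K, hK⟩ := hg.exists_lipschitzOnWith one_ne_zero (convex_Icc _ _) isCompact_Icc
  obtain ⟨K0, hK0, hcard⟩ := card_le D hCnt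
  -- the trivial character
  have hL0 : ∀ u : ℝ, 0 < u → u < 1 / q →
      ‖∑' n : ℕ, D.S (fun v => a v ^ 0) n * (u : ℂ) ^ n‖ ≤ K0 * (1 / q - u)⁻¹ := by
    intro u hu hu1
    have hqu : (q : ℝ) * u < 1 := by
      rw [lt_div_iff₀ hq0] at hu1
      linarith
    have hs := (h1 ι D q C δ n₀ hCnt u hu hu1).2.2.2
    have e1 : ∀ n : ℕ, ‖D.S (fun v => a v ^ 0) n * (u : ℂ) ^ n‖ =
        (Nat.card (D.Ef n) : ℝ) * u ^ n := by
      intro n
      rw [S_zero, norm_mul, Complex.norm_natCast, norm_pow, Complex.norm_real,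
        Real.norm_of_nonneg hu.le]
    have hgeo : Summable fun n : ℕ => K0 * ((q : ℝ) * u) ^ n :=
      (summable_geometric_of_lt_one (by positivity) hqu).mul_left K0
    calc ‖∑' n : ℕ, D.S (fun v => a v ^ 0) n * (u : ℂ) ^ n‖
        ≤ ∑' n : ℕ, ‖D.S (fun v => a v ^ 0) n * (u : ℂ) ^ n‖ :=
          norm_tsum_le_tsum_norm (by simpa only [e1] using hs)
      _ = ∑' n : ℕ, (Nat.card (D.Ef n) : ℝ) * u ^ n := tsum_congr e1
      _ ≤ ∑' n : ℕ, K0 * ((q : ℝ) * u) ^ n := by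
          refine hs.tsum_le_tsum (fun n => ?_) hgeo
          rw [mul_pow, ← mul_assoc]
          exact mul_le_mul_of_nonneg_right (hcard n) (by positivity)
      _ = K0 * (1 - (q : ℝ) * u)⁻¹ := by
          rw [tsum_mul_left, tsum_geometric_of_lt_one (by positivity) hqu]
      _ ≤ K0 * (1 / q - u)⁻¹ := by
          refine mul_le_mul_of_nonneg_left ?_ hK0.le
          refine inv_anti₀ (by linarith) ?_
          have e2 : (1 : ℝ) - q * u = q * (1 / q - u) := by field_simp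
          rw [e2]
          have : 0 ≤ 1 / (q : ℝ) - u := by linarith
          nlinarith
  -- the value at `1 / q`
  have hg1 : g (1 / q) ≠ 0 := by
    intro hz
    have hL1 : ∀ u : ℝ, 0 < u → u < 1 / q →
        ‖∑' n : ℕ, D.S (fun v => a v ^ 1) n * (u : ℂ) ^ n‖ ≤ K * (1 / q - u) := by
      intro u hu hu1
      rw [hgu u hu.le hu1]
      have := hK.norm_sub_le (Set.mem_Icc.2 ⟨hu.le, hu1.le⟩)
        (Set.mem_Icc.2 ⟨hqi.le, le_rfl⟩ : (1 / (q : ℝ)) ∈ Set.Icc (0 : ℝ) (1 / q))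
      rw [hz, sub_zero] at this
      refine this.trans (le_of_eq ?_)
      rw [Real.norm_eq_abs, abs_sub_comm, abs_of_nonneg (by linarith)]
    have hLp : ∀ u : ℝ, 0 < u → u < 1 / q →
        ‖∑' n : ℕ, D.S (fun v => a v ^ (p - 1)) n * (u : ℂ) ^ n‖ ≤ K * (1 / q - u) := by
      intro u hu hu1
      have e1 : ∑' n : ℕ, D.S (fun v => a v ^ (p - 1)) n * (u : ℂ) ^ n =
          (starRingEnd ℂ) (∑' n : ℕ, D.S (fun v => a v ^ 1) n * (u : ℂ) ^ n) := by
        rw [Complex.conj_tsum]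
        refine tsum_congr fun n => ?_
        rw [map_mul, map_pow, Complex.conj_ofReal, S_conj D (by omega) a ha]
        simp only [pow_one]
      rw [e1, RCLike.norm_conj]
      exact hL1 u hu hu1
    choose! M hM using hbd
    set B : ℝ := K0 + K + ∑ j ∈ range p, |M j| + 1 with hB
    have hMs : 0 ≤ ∑ j ∈ range p, |M j| := Finset.sum_nonneg fun j _ => abs_nonneg _
    have hKn : (0 : ℝ) ≤ K := K.2
    have hBpos : 0 < B := by rw [hB]; positivity
    -- the contradiction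
    obtain ⟨t, ht0, ht1, ht2⟩ : ∃ t : ℝ, 0 < t ∧ t < 1 / q ∧ B ^ p * t < 1 := by
      refine ⟨min (1 / (2 * (q : ℝ))) (1 / (2 * B ^ p)), ?_, ?_, ?_⟩
      · exact lt_min (by positivity) (by positivity)
      · refine lt_of_le_of_lt (min_le_left _ _) ?_
        exact one_div_lt_one_div_of_lt hq0 (by linarith)
      · calc B ^ p * min (1 / (2 * (q : ℝ))) (1 / (2 * B ^ p)) ≤ B ^ p * (1 / (2 * B ^ p)) :=
              mul_le_mul_of_nonneg_left (min_le_right _ _) (by positivity)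
          _ = 1 / 2 := by field_simp
          _ < 1 := by norm_num
    set u : ℝ := 1 / q - t with hu
    have hu0 : 0 < u := by rw [hu]; linarith
    have hu1 : u < 1 / q := by rw [hu]; linarith
    have hut : 1 / (q : ℝ) - u = t := by rw [hu]; ring
    have h6 := h5 ι D q C δ n₀ hCnt p a ha u hu0 hu1
    have hfac : ∀ j ∈ range p, ‖∑' n : ℕ, D.S (fun v => a v ^ j) n * (u : ℂ) ^ n‖ ≤
        B * (if j = 0 then t⁻¹ else 1) * (if j = 1 then t else 1) *
          (if j = p - 1 then t else 1) := by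
      intro j hj
      have hjp := Finset.mem_range.1 hj
      by_cases hj0 : j = 0
      · subst hj0
        rw [if_pos rfl, if_neg (by omega), if_neg (by omega), mul_one, mul_one]
        have := hL0 u hu0 hu1
        rw [hut] at this
        refine this.trans (mul_le_mul_of_nonneg_right ?_ (by positivity))
        rw [hB]; linarith
      · by_cases hj1 : j = 1
        · subst hj1
          rw [if_neg (by omega), if_pos rfl, if_neg (by omega), mul_one, mul_one]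
          have := hL1 u hu0 hu1
          rw [hut] at this
          refine this.trans (mul_le_mul_of_nonneg_right ?_ ht0.le)
          rw [hB]; linarith
        · by_cases hj2 : j = p - 1
          · subst hj2
            rw [if_neg hj0, if_neg hj1, if_pos rfl, mul_one, mul_one]
            have := hLp u hu0 hu1
            rw [hut] at this
            refine this.trans (mul_le_mul_of_nonneg_right ?_ ht0.le)
            rw [hB]; linarith
          · rw [if_neg hj0, if_neg hj1, if_neg hj2, mul_one, mul_one, mul_one]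
            refine (hM j (by omega) hjp u hu0.le hu1).trans ?_
            have e1 : |M j| ≤ ∑ j ∈ range p, |M j| :=
              Finset.single_le_sum (f := fun j => |M j|) (fun j _ => abs_nonneg _) hj
            have e2 := le_abs_self (M j)
            rw [hB]; linarith
    have h7 := Finset.prod_le_prod (fun j _ => norm_nonneg _) hfac
    rw [Finset.prod_mul_distrib, Finset.prod_mul_distrib, Finset.prod_mul_distrib,
      Finset.prod_const, Finset.card_range, Finset.prod_ite_eq', Finset.prod_ite_eq',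
      Finset.prod_ite_eq', if_pos (Finset.mem_range.2 (by omega)),
      if_pos (Finset.mem_range.2 (by omega)), if_pos (Finset.mem_range.2 (by omega))] at h7
    have h8 : B ^ p * t⁻¹ * t * t = B ^ p * t := by
      field_simp
    rw [h8] at h7
    linarith
  -- no zeros
  have hgne : ∀ u ∈ Set.Icc (1 / (2 * (q : ℝ))) (1 / q), g u ≠ 0 := by
    intro u hu
    have hu0 : 0 < u := lt_of_lt_of_le (by positivity) hu.1
    rcases hu.2.lt_or_eq with h | h
    · intro hz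
      have h6 := h5 ι D q C δ n₀ hCnt p a ha u hu0 h
      rw [Finset.prod_eq_zero (Finset.mem_range.2 (show 1 < p by omega))] at h6
      · exact absurd h6 (by norm_num)
      · rw [hgu u hu0.le h, hz, norm_zero]
    · rw [h]
      exact hg1
  have hsub : Set.Icc (1 / (2 * (q : ℝ))) (1 / q) ⊆ Set.Icc 0 (1 / (q : ℝ)) :=
    Set.Icc_subset_Icc_left (by positivity)
  have hne : (Set.Icc (1 / (2 * (q : ℝ))) (1 / q)).Nonempty :=
    ⟨1 / q, one_div_le_one_div_of_le hq0 (by linarith), le_rfl⟩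
  obtain ⟨u₀, hu₀, hmin⟩ := isCompact_Icc.exists_isMinOn hne
    ((hg.continuousOn.mono hsub).norm)
  refine ⟨‖g u₀‖, norm_pos_iff.2 (hgne u₀ hu₀), ?_⟩
  intro u hu hu1
  have hu0 : 0 < u := lt_trans (by positivity) hu
  have e1 := hgu u hu0.le hu1
  simp only [pow_one] at e1
  rw [e1]
  exact hmin (Set.mem_Icc.2 ⟨hu.le, hu1.le⟩)

end Pool.Agent.NH7.GF
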