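import Pool.Agent.NH7.GF.Abs

/-!
# The choice of three places
-/

set_option autoImplicit false
set_option linter.unusedSectionVars false

namespace Pool.Agent.NH7.GF

open KD

namespace Pick99

/-- independence in a group of exponent `p` -/
theorem indep {C : Type} [AddCommGroup C] (p : ℕ) [hp : Fact p.Prime]
    (hC : ∀ c : C, (p : ℤ) • c = 0) (u w : C) (hu : u ≠ 0) (hw : ∀ a : ℤ, w ≠ a • u)
    (a b : ℤ) (h : a • u + b • w = 0) : (p : ℤ) ∣ a ∧ (p : ℤ) ∣ b := by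
  have key : ∀ (n : ℤ), ¬ (p : ℤ) ∣ n → ∃ m : ℤ, ∀ c : C, m • (n • c) = c := by
    intro n hn
    have hcop : IsCoprime (p : ℤ) n :=
      (Int.prime_iff_natAbs_prime.2 (by simpa using hp.out)).coprime_iff_not_dvd.2 hn
    obtain ⟨x, y, hxy⟩ := hcop
    refine ⟨y, fun c => ?_⟩
    have h1 : (x * (p : ℤ) + y * n) • c = c := by rw [hxy, one_smul]
    rw [add_smul, mul_smul, hC, smul_zero, zero_add, mul_smul] at h1
    exact h1
  have hb : (p : ℤ) ∣ b := by
    by_contra hb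
    obtain ⟨m, hm⟩ := key b hb
    apply hw (-(m * a))
    have h2 : b • w = -(a • u) := by
      rw [eq_neg_iff_add_eq_zero, add_comm]
      exact h
    rw [← hm w, h2, smul_neg, neg_smul, mul_smul]
  have hbw : b • w = 0 := by
    obtain ⟨k, rfl⟩ := hb
    rw [mul_comm, mul_smul, hC, smul_zero]
  refine ⟨?_, hb⟩
  by_contra ha
  obtain ⟨m, hm⟩ := key a ha
  rw [hbw, add_zero] at h
  apply hu
  rw [← hm u, h, smul_zero]

/-- the number of multiples of an element in a group of exponent `p` -/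
theorem mult_card {C : Type} [AddCommGroup C] (p : ℕ) [hp : Fact p.Prime]
    (hC : ∀ c : C, (p : ℤ) • c = 0) (u : C) : {c : C | ∃ a : ℤ, c = a • u}.ncard ≤ p := by
  have h1 : {c : C | ∃ a : ℤ, c = a • u} ⊆ (fun i : ℕ => (i : ℤ) • u) '' (Finset.range p) := by
    rintro c ⟨a, rfl⟩
    have hp0 : (0 : ℤ) < p := by exact_mod_cast hp.out.pos
    have h2 := Int.emod_nonneg a hp0.ne'
    have h3 := Int.emod_lt_of_pos a hp0
    refine ⟨(a % p).toNat, ?_, ?_⟩
    · simp only [Finset.coe_range, Set.mem_Iio]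
      omega
    · show ((a % p).toNat : ℤ) • u = a • u
      rw [Int.toNat_of_nonneg h2]
      conv_rhs => rw [← Int.emod_add_mul_ediv a p]
      rw [add_smul, mul_comm, mul_smul, hC, smul_zero, add_zero]
  refine (Set.ncard_le_ncard h1 ((Finset.finite_toSet _).image _)).trans ?_
  refine (Set.ncard_image_le (Finset.finite_toSet _)).trans ?_
  rw [Set.ncard_coe_finset, Finset.card_range]


variable {p : ℕ} [hp : Fact p.Prime] {M : Type} [CommGroup M] {G : Type} [Group G]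
  [TopologicalSpace G] {P : Type} (d : KD p M G P)

/-- the class groups have exponent `p` -/
theorem exp_p (T : Finset P) (H : Subgroup M) (c : d.Cq T H) : (p : ℤ) • c = 0 := by
  obtain ⟨n, rfl⟩ := QuotientAddGroup.mk_surjective c
  rw [← QuotientAddGroup.mk_zsmul, QuotientAddGroup.eq_zero_iff]
  refine ⟨1, H.one_mem, fun v _ => ?_⟩
  rw [d.od_one, add_zero, Finsupp.smul_apply, smul_eq_mul]
  exact dvd_mul_right _ _

/-- the value at an element, as a linear form on a space of homomorphisms -/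
def evF (A : Submodule (ZMod p) (G → ZMod p)) (g : G) : Module.Dual (ZMod p) A where
  toFun x := (x : G → ZMod p) g
  map_add' _ _ := rfl
  map_smul' _ _ := rfl

theorem H0_le_HL (T : Finset P) (lam : P → G → ZMod p) : d.H0 T ≤ d.HL T lam := by
  intro κ hκ v hv
  exact ⟨0, fun g hg => by rw [hκ v hv g hg, zero_mul]⟩

end Pick99

open Pick99

theorem s_pick (h1 : S_fin) (h2 : S_sfin) (h3 : S_ct) : S_pick := by
  intro p hp M _ G _ _ P d hp2' hd T hT hcls lam hcard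
  classical
  have f0 : Finite (d.Cq T (d.H0 T)) := h1 p M G P d hd T _ le_rfl
  have fL : Finite (d.Cq T (d.HL T lam)) := h1 p M G P d hd T _ (H0_le_HL d T lam)
  have fA : Finite (d.Sel T lam) := h2 p M G P d hd T lam
  have hac := h3 p M G P d hd T hcls lam
  set a : ℕ := Nat.card (d.Sel T lam) with ha
  set c : ℕ := Nat.card (d.Cq T (d.HL T lam)) with hc
  have hp2 : 2 ≤ p := hp.out.two_le
  have hp3 : 3 ≤ p := by omega
  have hc2 : p ^ 2 ≤ c := hcard.trans hac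
  have hpR : (3 : ℝ) ≤ p := by exact_mod_cast hp3
  have hp0 : (0 : ℝ) < p := by linarith
  have haR : (p : ℝ) ^ 2 ≤ a := by exact_mod_cast hcard
  have hcR : (p : ℝ) ^ 2 ≤ c := by exact_mod_cast hc2
  have ha0 : (0 : ℝ) < a := lt_of_lt_of_le (by positivity) haR
  have hc0 : (0 : ℝ) < c := lt_of_lt_of_le (by positivity) hcR
  have hHm : ∀ x ∈ d.Sel T lam, Hm x := by
    intro x hx
    obtain ⟨κ, -, -, hκ⟩ := d.mem_Sel.1 hx
    have e : x = d.kp κ := funext hκ
    rw [e]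
    exact d.kp_hm κ
  have hUnr : ∀ x ∈ d.Sel T lam, ∀ v ∉ T, ∀ g ∈ d.I v, x g = 0 := by
    intro x hx v hv g hg
    obtain ⟨κ, -, hod, hκ⟩ := d.mem_Sel.1 hx
    rw [hκ g]
    exact d.inr_zero v κ (hod v hv) g hg
  -- the first place
  have hlt1 : (Nat.card (⊥ : Submodule (ZMod p) (Module.Dual (ZMod p) (d.Sel T lam))) : ℝ) /
      (Nat.card (d.Sel T lam) : ℝ) + (({0} : Set (d.Cq T (d.HL T lam))).ncard : ℝ) /
      (Nat.card (d.Cq T (d.HL T lam)) : ℝ) < 1 := by
    rw [← ha, ← hc, Set.ncard_singleton, Nat.card_unique, Nat.cast_one]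
    have e1 : (1 : ℝ) / a ≤ 1 / p ^ 2 := one_div_le_one_div_of_le (by positivity) haR
    have e2 : (1 : ℝ) / c ≤ 1 / p ^ 2 := one_div_le_one_div_of_le (by positivity) hcR
    have e3 : (1 : ℝ) / p ^ 2 ≤ 1 / 3 ^ 2 :=
      one_div_le_one_div_of_le (by positivity) (pow_le_pow_left₀ (by norm_num) hpR 2)
    norm_num at e3
    norm_num at e1 e2 ⊢
    linarith
  obtain ⟨v₁, hv₁S, hv₁P, hv₁T⟩ := (hd.an T hT (d.Sel T lam) fA hHm hUnr ⊥ (d.HL T lam)
    (H0_le_HL d T lam) fL {0} hlt1).nonempty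
  have hcl1 : d.cl T (d.HL T lam) v₁ ≠ 0 := fun h => hv₁T h
  have hF1 : evF (d.Sel T lam) (d.fr v₁) ≠ 0 := by
    intro h
    apply hv₁P
    refine ⟨0, Submodule.zero_mem _, fun x => ?_⟩
    have := congrArg (fun f : Module.Dual (ZMod p) (d.Sel T lam) => f x) h
    exact this
  -- the second place
  set B : Submodule (ZMod p) (Module.Dual (ZMod p) (d.Sel T lam)) :=
    Submodule.span (ZMod p) {evF (d.Sel T lam) (d.fr v₁)} with hB
  have hBmem : ∀ f, f ∈ B ↔ ∃ t : ZMod p, t • evF (d.Sel T lam) (d.fr v₁) = f := fun f => by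
    rw [hB, Submodule.mem_span_singleton]
  have hBcard : Nat.card B ≤ p := by
    have hs : Function.Surjective (fun t : ZMod p => (⟨t • evF (d.Sel T lam) (d.fr v₁),
        (hBmem _).2 ⟨t, rfl⟩⟩ : B)) := by
      rintro ⟨f, hf⟩
      obtain ⟨t, ht⟩ := (hBmem f).1 hf
      exact ⟨t, Subtype.ext ht⟩
    have := Nat.card_le_card_of_surjective _ hs
    rwa [Nat.card_zmod] at this
  have hexp : ∀ c : d.Cq T (d.HL T lam), (p : ℤ) • c = 0 := exp_p d T _
  set V : Set (d.Cq T (d.HL T lam)) :=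
    {x | ∃ n : ℤ, x = n • d.cl T (d.HL T lam) v₁} with hV
  have hVcard : V.ncard ≤ p := mult_card p hexp _
  have hlt2 : (Nat.card B : ℝ) / (Nat.card (d.Sel T lam) : ℝ) + (V.ncard : ℝ) /
      (Nat.card (d.Cq T (d.HL T lam)) : ℝ) < 1 := by
    rw [← ha, ← hc]
    have e1 : (Nat.card B : ℝ) / a ≤ 1 / 3 := by
      rw [div_le_div_iff₀ ha0 (by norm_num)]
      have : (Nat.card B : ℝ) ≤ p := by exact_mod_cast hBcard
      nlinarith
    have e2 : (V.ncard : ℝ) / c ≤ 1 / 3 := by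
      rw [div_le_div_iff₀ hc0 (by norm_num)]
      have h6 : (V.ncard : ℝ) ≤ p := by exact_mod_cast hVcard
      nlinarith
    linarith
  obtain ⟨v₂, hv₂S, hv₂P, hv₂T⟩ := (hd.an T hT (d.Sel T lam) fA hHm hUnr B (d.HL T lam)
    (H0_le_HL d T lam) fL V hlt2).nonempty
  have hcl2 : ∀ n : ℤ, d.cl T (d.HL T lam) v₂ ≠ n • d.cl T (d.HL T lam) v₁ :=
    fun n h => hv₂T ⟨n, h⟩
  have hF2 : ∀ t : ZMod p, ∃ x : d.Sel T lam, (x : G → ZMod p) (d.fr v₂) ≠
      t * (x : G → ZMod p) (d.fr v₁) := by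
    intro t
    by_contra hcon
    push Not at hcon
    apply hv₂P
    exact ⟨t • evF (d.Sel T lam) (d.fr v₁), (hBmem _).2 ⟨t, rfl⟩, fun x => hcon x⟩
  have h12 : v₁ ≠ v₂ := by
    rintro rfl
    exact hcl2 1 (one_smul _ _).symm
  -- the third place
  obtain ⟨v₃, ⟨hv₃S, hcl3⟩, hv₃P⟩ := ((hd.cla T hT (d.H0 T) le_rfl f0
    (-(d.cl T (d.H0 T) v₁ + d.cl T (d.H0 T) v₂))).sdiff
      ((Set.finite_singleton v₁).union (Set.finite_singleton v₂))).nonempty
  have hrel : (Finsupp.single v₁ 1 + Finsupp.single v₂ 1 + Finsupp.single v₃ 1 :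
      P →₀ ℤ) ∈ d.Rel T (d.H0 T) := by
    rw [← QuotientAddGroup.eq_zero_iff]
    show d.cl T (d.H0 T) v₁ + d.cl T (d.H0 T) v₂ + d.cl T (d.H0 T) v₃ = 0
    rw [hcl3, add_neg_cancel]
  obtain ⟨κ, hκ, hκv⟩ := hrel
  refine ⟨v₁, v₂, v₃, κ, hv₁S, hv₂S, hv₃S, h12,
    fun h => hv₃P (Or.inl h.symm), fun h => hv₃P (Or.inr h.symm), hκ, hκv, ?_, ?_⟩
  · intro a b h
    exact indep p hexp _ _ hcl1 hcl2 a b h
  · intro a b h
    have hb : b = 0 := by
      by_contra hb
      obtain ⟨x, hx⟩ := hF2 (-(b⁻¹ * a))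
      apply hx
      have h9 := h x x.2
      have h10 : (x : G → ZMod p) (d.fr v₂) =
          b⁻¹ * (b * (x : G → ZMod p) (d.fr v₂)) := by
        rw [← mul_assoc, inv_mul_cancel₀ hb, one_mul]
      rw [h10, ← neg_eq_of_add_eq_zero_right h9]
      ring
    refine ⟨?_, hb⟩
    by_contra hane
    apply hF1
    ext x
    have h9 := h x x.2
    rw [hb, zero_mul, add_zero] at h9
    exact (mul_eq_zero.1 h9).resolve_left hane

end Pool.Agent.NH7.GF
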