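import Pool.Agent.NH7.GF.Stms

/-!
# GF: all nontrivial valuation rings are those of places (L8)
-/

set_option autoImplicit false
set_option linter.all false
set_option linter.overlappingInstances false

open Module IsDedekindDomain IntermediateField FF
open Pool.Agent.H525R3.FFp

namespace Pool.Agent.NH7.GF.Plc

section

variable {L : Type*} [Field L]

/-- valuation subrings are integrally closed -/
theorem mem_of_isIntegral {A : Type*} [CommRing A] [Algebra A L] (O : ValuationSubring L)
    (h : ∀ a : A, algebraMap A L a ∈ O) {b : L} (hb : IsIntegral A b) : b ∈ O := by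
  let ψ : A →+* O := (algebraMap A L).codRestrict O h
  have hb' : IsIntegral O b := by
    obtain ⟨p, hp, he⟩ := hb
    refine ⟨p.map ψ, hp.map _, ?_⟩
    rw [Polynomial.eval₂_map]
    exact he
  obtain ⟨y, hy⟩ := (IsIntegrallyClosed.isIntegral_iff (R := O) (K := L)).1 hb'
  rw [← hy]
  exact y.2

/-- constants -/
theorem const_mem {k : Type*} [Field k] [Finite k] [Algebra k L] (O : ValuationSubring L) (c : k) :
    algebraMap k L c ∈ O := by
  by_cases hc : c = 0
  · rw [hc, map_zero]
    exact O.zero_mem
  have := Fintype.ofFinite k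
  have h1 : c ^ (Fintype.card k - 1) = 1 := FiniteField.pow_card_sub_one_eq_one c hc
  have h2 : 0 < Fintype.card k - 1 := by
    have := Fintype.one_lt_card (α := k)
    omega
  obtain ⟨n, hn⟩ : ∃ n, Fintype.card k - 1 = n + 1 := ⟨Fintype.card k - 1 - 1, by omega⟩
  rw [hn] at h1
  rcases O.mem_or_inv_mem (algebraMap k L c) with h | h
  · exact h
  · have h3 : algebraMap k L c = ((algebraMap k L c)⁻¹) ^ n := by
      have h4 : (algebraMap k L c) ^ (n + 1) = 1 := by rw [← map_pow, h1, map_one]
      have h5 : algebraMap k L c ≠ 0 := by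
        rw [Ne, map_eq_zero]
        exact hc
      rw [inv_pow]
      apply eq_inv_of_mul_eq_one_left
      rw [← h4]
      ring
    rw [h3]
    exact pow_mem h n

end

/-- from a Dedekind ring inside the valuation ring to a place -/
theorem place_of_ded {k K B : Type*} [Field k] [Field K] [Algebra k K] [CommRing B]
    [IsDedekindDomain B] [Algebra k B] [Algebra B K] [IsFractionRing B K] [IsScalarTower k B K]
    (O : ValuationSubring K) (hO : O ≠ ⊤) (h : ∀ b : B, algebraMap B K b ∈ O) :
    ∃ v : Place k K, v.O = O := by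
  let φ : B →+* O := (algebraMap B K).codRestrict O h
  have hφ : ∀ b, ((φ b : O) : K) = algebraMap B K b := fun _ => rfl
  let I : Ideal B := (IsLocalRing.maximalIdeal O).comap φ
  have hI : I.IsPrime := Ideal.comap_isPrime φ _
  have hIm : ∀ b, b ∈ I ↔ ¬ IsUnit (φ b) := fun b => IsLocalRing.mem_maximalIdeal (φ b)
  have hdiv : ∀ (f : K) (n d : B), d ∉ I → f * algebraMap B K d = algebraMap B K n → f ∈ O := by
    intro f n d hd hf
    rw [hIm, not_not] at hd
    obtain ⟨u, hu⟩ := hd
    have h1 : algebraMap B K d * (((u⁻¹ : Oˣ) : O) : K) = 1 := by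
      have h2 : ((u : O)) * ((u⁻¹ : Oˣ) : O) = 1 := u.mul_inv
      rw [hu] at h2
      exact congrArg Subtype.val h2
    have h3 : f = algebraMap B K n * (((u⁻¹ : Oˣ) : O) : K) := by
      rw [← hf, mul_assoc, h1, mul_one]
    rw [h3]
    exact O.mul_mem _ _ (h n) (((u⁻¹ : Oˣ) : O)).2
  have hI0 : I ≠ ⊥ := by
    intro h0
    apply hO
    rw [eq_top_iff]
    intro y _
    obtain ⟨b1, b2, hb2, rfl⟩ := IsFractionRing.div_surjective (A := B) y
    have hb0 : b2 ≠ 0 := nonZeroDivisors.ne_zero hb2
    have hb0' : algebraMap B K b2 ≠ 0 := by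
      rw [Ne, IsFractionRing.to_map_eq_zero_iff]
      exact hb0
    apply hdiv _ b1 b2
    · intro hb
      rw [h0, Ideal.mem_bot] at hb
      exact hb0 hb
    · exact div_mul_cancel₀ _ hb0'
  let P : HeightOneSpectrum B := ⟨I, hI, hI0⟩
  refine ⟨placeOf (k := k) (L := K) P, ?_⟩
  ext f
  rw [Place.mem_O]
  constructor
  · intro hf
    by_cases hf0 : f = 0
    · rw [hf0]
      exact O.zero_mem
    have h1 := (placeOf_nonneg (k := k) P hf0).1 ((Place.reg_iff _ hf0).1 hf)
    obtain ⟨n, d, hnd⟩ := P.exists_primeCompl_mul_eq_of_integer f h1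
    exact hdiv f n d d.2 hnd
  · intro hf
    by_contra hcon
    have hf0 : f ≠ 0 := by
      rintro rfl
      exact hcon (Place.reg_zero _)
    rw [Place.reg_iff _ hf0, placeOf_nonneg _ hf0, not_le] at hcon
    have hv0 : P.valuation K f ≠ 0 := (Valuation.ne_zero_iff _).2 hf0
    have h1 : P.valuation K f⁻¹ < 1 := by
      rw [map_inv₀]
      exact inv_lt_one_of_one_lt₀ hcon
    obtain ⟨n, d, hnd⟩ := P.exists_primeCompl_mul_eq_of_integer f⁻¹ h1.le
    have hn : n ∈ I := by
      have h2 : P.valuation K (algebraMap B K n) < 1 := by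
        rw [← hnd, map_mul]
        exact mul_lt_one_of_lt_of_le h1 (P.valuation_le_one _)
      exact (P.valuation_lt_one_iff_mem n).1 h2
    have hd : (d : B) ∉ I := d.2
    rw [hIm, not_not] at hd
    rw [hIm] at hn
    apply hn
    obtain ⟨u, hu⟩ := hd
    have h3 : algebraMap B K d = f * algebraMap B K n := by
      rw [← hnd, ← mul_assoc, mul_inv_cancel₀ hf0, one_mul]
    have h4 : φ d = (⟨f, hf⟩ : O) * φ n := Subtype.ext h3
    have h5 : IsUnit ((⟨f, hf⟩ : O) * φ n) := by
      rw [← h4, ← hu]
      exact u.isUnit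
    exact isUnit_of_mul_isUnit_right h5

theorem exists_place {k K : Type*} [Field k] [Finite k] [Field K] [Algebra k K] [h : IsFF k K]
    (O : ValuationSubring K) (hO : O ≠ ⊤) : ∃ v : Place k K, v.O = O := by
  obtain ⟨x, hx⟩ := exists_D_ne (k := k) (K := K)
  obtain ⟨f, hfD, hfO⟩ : ∃ f : K, KaehlerDifferential.D k K f ≠ 0 ∧ f ∈ O := by
    rcases O.mem_or_inv_mem x with h1 | h1
    · exact ⟨x, hx, h1⟩
    · exact ⟨x⁻¹, D_inv_ne hx, h1⟩
  obtain ⟨hf, hsep⟩ := sep_of_D_ne hfD
  open scoped algebraAdjoinAdjoin in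
  let A := Algebra.adjoin k {f}
  let e := Polynomial.algEquivOfTranscendental k f hf
  have hpid : IsPrincipalIdealRing A := IsPrincipalIdealRing.of_surjective e.toRingEquiv e.surjective
  have hded : IsDedekindDomain A := inferInstance
  have hfin := IsFF.finite hf
  let B := integralClosure A K
  have : IsDedekindDomain B := integralClosure.isDedekindDomain A k⟮f⟯ K
  have : IsFractionRing B K := integralClosure.isFractionRing_of_finite_extension k⟮f⟯ K
  have hsc : IsScalarTower k B K := by
    refine IsScalarTower.of_algebraMap_eq fun c => ?_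
    rw [IsScalarTower.algebraMap_apply k A B, ← IsScalarTower.algebraMap_apply A B K,
      ← IsScalarTower.algebraMap_apply k A K]
  have hreg : ∀ a : A, algebraMap A K a ∈ O := by
    rintro ⟨a, ha⟩
    change a ∈ O
    induction ha using Algebra.adjoin_induction with
    | mem x hx =>
      rw [Set.mem_singleton_iff] at hx
      subst hx
      exact hfO
    | algebraMap r => exact const_mem O r
    | add x y _ _ hx hy => exact O.add_mem _ _ hx hy
    | mul x y _ _ hx hy => exact O.mul_mem _ _ hx hy
  exact place_of_ded (B := B) O hO fun b => mem_of_isIntegral O hreg b.2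

end Pool.Agent.NH7.GF.Plc

namespace Pool.Agent.NH7.GF

theorem s_plc : S_plc := by
  intro k K _ _ _ _ _
  refine ⟨fun O hO => Plc.exists_place O hO, ?_⟩
  intro A hA
  rw [eq_top_iff]
  intro x _
  refine Plc.mem_of_isIntegral (A := K) A (fun a => ?_) ?_
  · have : a ∈ A.comap (algebraMap K (SeparableClosure K)) := by
      rw [hA]
      exact ValuationSubring.mem_top a
    exact this
  · exact Algebra.IsIntegral.isIntegral x

end Pool.Agent.NH7.GF
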