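import Pool.Agent.NH7.GF.Stms

/-!
# Selmer groups over global function fields: the sum over all places
-/

set_option autoImplicit false
set_option linter.unusedSectionVars false

namespace Pool.Agent.NH7.GF

open Pool.Agent.H525R3.FFp

theorem s_pol (h1 : S_ray) (h2 : S_sm) (h3 : S_tr) : S_pol := by
  intro k K _ _ _ _ _
  classical
  obtain ⟨v0, -⟩ := exists_place (k := k) (K := K)
  obtain ⟨C, δ, n₀, hC, -⟩ := h1 k K {v0} (Finset.singleton_nonempty v0)
  obtain ⟨B, hB⟩ := h3 _ (DgT k K {v0}) (Nat.card k) C δ n₀ hC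
  refine ⟨B + (v0.deg : ℝ), ?_⟩
  intro u hu0 hu1
  have hs := (h2 _ (DgT k K {v0}) (Nat.card k) C δ n₀ hC u hu0 hu1).1
  have hb := hB u hu0 hu1
  -- the function on all places
  set f : FF.Place k K → ℝ := fun v => (v.deg : ℝ) * u ^ v.deg with hf
  have hset : ({v : FF.Place k K | v ∉ ({v0} : Finset (FF.Place k K))}) =
      ((({v0} : Finset (FF.Place k K)) : Set (FF.Place k K))ᶜ) := by
    ext v
    simp
  have hs' : Summable (fun v : {v : FF.Place k K // v ∉ ({v0} : Finset (FF.Place k K))} => f v.1) :=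
    hs
  have hb' : |∑' v : {v : FF.Place k K // v ∉ ({v0} : Finset (FF.Place k K))}, f v.1 -
      1 / (1 - Nat.card k * u)| ≤ B := hb
  have hsf : Summable f :=
    (Finset.summable_compl_iff ({v0} : Finset (FF.Place k K))).1 hs'
  have hsum : ∑' v, f v = f v0 +
      ∑' v : {v : FF.Place k K // v ∉ ({v0} : Finset (FF.Place k K))}, f v.1 := by
    have := hsf.sum_add_tsum_subtype_compl ({v0} : Finset (FF.Place k K))
    rw [← this, Finset.sum_singleton]
  refine ⟨hsf, ?_⟩
  rw [hsum]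
  have hq : (1 : ℝ) ≤ Nat.card k := by
    exact_mod_cast Nat.one_le_iff_ne_zero.2 (Nat.card_pos (α := k)).ne'
  have hu1' : u ≤ 1 := by
    refine hu1.le.trans ?_
    rw [div_le_one (by linarith)]
    exact hq
  have hf0 : 0 ≤ f v0 := by
    rw [hf]
    positivity
  have hf1 : f v0 ≤ v0.deg := by
    rw [hf]
    exact mul_le_of_le_one_right (Nat.cast_nonneg _) (pow_le_one₀ hu0.le hu1')
  rw [abs_le] at hb' ⊢
  constructor <;> linarith [hb'.1, hb'.2, (Nat.cast_nonneg v0.deg : (0 : ℝ) ≤ v0.deg)]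

end Pool.Agent.NH7.GF
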