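import Pool.Agent.NH7.GF.An
import Pool.Agent.H962R3.Cnt

/-!
# Z1, abstract part: sums over effective divisors and translations
-/

set_option autoImplicit false

namespace Pool.Agent.NH7.GF.RayPA

open Pool.Agent.H962R3.Cnt

variable {ι : Type} (d : ι → ℕ) (hd : ∀ v, d v ≠ 0) (hfin : ∀ k, {v | d v ≤ k}.Finite)

/-- The sum over the effective divisors. -/
noncomputable def SE (a : ι → ℂ) (n : ℕ) : ℂ :=
  ∑ D ∈ (eff_finite d hd hfin n).toFinset, Val a D

theorem SE_eq (a : ι → ℂ) (n : ℕ) [Fintype (Eff d n)] :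
    SE d hd hfin a n = ∑ D : Eff d n, Val a D.1 := by
  classical
  unfold SE
  rw [← Finset.sum_coe_sort]
  refine Fintype.sum_equiv (Equiv.subtypeEquivRight fun D => ?_) _ _ fun D => rfl
  rw [Set.Finite.mem_toFinset]

/-- Translation by a divisor. -/
theorem trans (a : ι → ℂ) (ha : ∀ v, a v ≠ 0)
    {H : Type*} [Group H] (dv : H → ι →₀ ℤ) (hinv : ∀ h, dv h⁻¹ = - dv h)
    (hval : ∀ h, Val a (dv h) = 1) (hdeg : ∀ h, Deg d (dv h) = 0)
    (m n cm cn : ℕ) (hcm : cm ≠ 0) (hcn : cn ≠ 0)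
    (hcardm : ∀ D : ι →₀ ℤ, Deg d D = m → Nat.card {h : H // 0 ≤ D + dv h} = cm)
    (hcardn : ∀ D : ι →₀ ℤ, Deg d D = n → Nat.card {h : H // 0 ≤ D + dv h} = cn)
    (D0 : ι →₀ ℤ) (hD0 : (n : ℤ) + Deg d D0 = m) :
    (cm : ℂ) * Val a D0 * SE d hd hfin a n = cn * SE d hd hfin a m := by
  classical
  have hfinE : Finite (Eff d n) := (eff_finite d hd hfin n)
  have hfinE' : Finite (Eff d m) := (eff_finite d hd hfin m)
  have : Fintype (Eff d n) := Fintype.ofFinite _
  have : Fintype (Eff d m) := Fintype.ofFinite _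
  have hdegD : ∀ D : Eff d n, Deg d (D.1 + D0) = m := by
    intro D
    rw [Deg_add, D.2.2, hD0]
  have hdegD' : ∀ D : Eff d m, Deg d (D.1 - D0) = n := by
    intro D
    rw [sub_eq_add_neg, Deg_add, Deg_neg, D.2.2]
    omega
  have hf1 : ∀ D : Eff d n, Finite {h : H // 0 ≤ (D.1 + D0) + dv h} := by
    intro D
    apply Nat.finite_of_card_ne_zero
    rw [hcardm _ (hdegD D)]
    exact hcm
  have hf2 : ∀ D : Eff d m, Finite {h : H // 0 ≤ (D.1 - D0) + dv h} := by
    intro D
    apply Nat.finite_of_card_ne_zero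
    rw [hcardn _ (hdegD' D)]
    exact hcn
  have : ∀ D : Eff d n, Fintype {h : H // 0 ≤ (D.1 + D0) + dv h} := fun D => Fintype.ofFinite _
  have : ∀ D : Eff d m, Fintype {h : H // 0 ≤ (D.1 - D0) + dv h} := fun D => Fintype.ofFinite _
  let e : (Σ D : Eff d n, {h : H // 0 ≤ (D.1 + D0) + dv h}) ≃
      (Σ D : Eff d m, {h : H // 0 ≤ (D.1 - D0) + dv h}) :=
    { toFun := fun x => ⟨⟨x.1.1 + D0 + dv x.2.1, x.2.2, by
          rw [Deg_add, hdegD, hdeg, add_zero]⟩, ⟨x.2.1⁻¹, by
          rw [hinv]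
          have : x.1.1 + D0 + dv x.2.1 - D0 + -dv x.2.1 = x.1.1 := by abel
          rw [this]
          exact x.1.2.1⟩⟩
      invFun := fun x => ⟨⟨x.1.1 - D0 + dv x.2.1, x.2.2, by
          rw [Deg_add, hdegD', hdeg, add_zero]⟩, ⟨x.2.1⁻¹, by
          rw [hinv]
          have : x.1.1 - D0 + dv x.2.1 + D0 + -dv x.2.1 = x.1.1 := by abel
          rw [this]
          exact x.1.2.1⟩⟩
      left_inv := by
        rintro ⟨⟨D, hD⟩, ⟨h, hh⟩⟩
        have h1 : D + D0 + dv h - D0 + dv h⁻¹ = D := by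
          rw [hinv]; abel
        simp only [inv_inv]
        congr 1
        · exact Subtype.ext h1
        · congr 1
          · funext x
            simp only [h1]
          · exact proof_irrel_heq _ _
      right_inv := by
        rintro ⟨⟨D, hD⟩, ⟨h, hh⟩⟩
        have h1 : D - D0 + dv h + D0 + dv h⁻¹ = D := by
          rw [hinv]; abel
        simp only [inv_inv]
        congr 1
        · exact Subtype.ext h1
        · congr 1
          · funext x
            simp only [h1]
          · exact proof_irrel_heq _ _ }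
  have h1 : ∑ x : (Σ D : Eff d n, {h : H // 0 ≤ (D.1 + D0) + dv h}),
      Val a (x.1.1 + D0 + dv x.2.1) =
      ∑ x : (Σ D : Eff d m, {h : H // 0 ≤ (D.1 - D0) + dv h}), Val a x.1.1 :=
    Fintype.sum_equiv e _ _ fun x => rfl
  rw [Fintype.sum_sigma, Fintype.sum_sigma] at h1
  have h2 : ∀ D : Eff d n, ∑ y : {h : H // 0 ≤ (D.1 + D0) + dv h}, Val a (D.1 + D0 + dv y.1) =
      cm * Val a D0 * Val a D.1 := by
    intro D
    have h3 : ∀ y : {h : H // 0 ≤ (D.1 + D0) + dv h}, Val a (D.1 + D0 + dv y.1) =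
        Val a D0 * Val a D.1 := by
      intro y
      rw [Val_add a ha, Val_add a ha, hval, mul_one, mul_comm]
    rw [Finset.sum_congr rfl fun y _ => h3 y, Finset.sum_const, Finset.card_univ,
      ← Nat.card_eq_fintype_card, hcardm _ (hdegD D), nsmul_eq_mul, mul_assoc]
  have h4 : ∀ D : Eff d m, ∑ y : {h : H // 0 ≤ (D.1 - D0) + dv h}, Val a D.1 =
      cn * Val a D.1 := by
    intro D
    rw [Finset.sum_const, Finset.card_univ, ← Nat.card_eq_fintype_card, hcardn _ (hdegD' D),
      nsmul_eq_mul]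
  rw [SE_eq, SE_eq, Finset.mul_sum, Finset.mul_sum, ← Finset.sum_congr rfl fun D _ => h2 D,
    ← Finset.sum_congr rfl fun D _ => h4 D]
  exact h1

theorem Deg_dvd {δ : ℕ} (hδ : ∀ v, δ ∣ d v) (D : ι →₀ ℤ) : (δ : ℤ) ∣ Deg d D := by
  unfold Deg Finsupp.sum
  exact Finset.dvd_sum fun v _ => (Int.natCast_dvd_natCast.2 (hδ v)).mul_left _

/-- The form of the sums. -/
theorem form (a : ι → ℂ) (ha : ∀ v, a v ≠ 0)
    {H : Type*} [Group H] (dv : H → ι →₀ ℤ) (hinv : ∀ h, dv h⁻¹ = - dv h)
    (hval : ∀ h, Val a (dv h) = 1) (hdeg : ∀ h, Deg d (dv h) = 0)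
    (q k0 : ℕ) (hq : 2 ≤ q) (A : ℤ) (hA : A ≤ k0)
    (hcard : ∀ D : ι →₀ ℤ, (k0 : ℤ) ≤ Deg d D →
      Nat.card {h : H // 0 ≤ D + dv h} = q ^ (Deg d D - A).toNat)
    (δ : ℕ) (hδ0 : 1 ≤ δ) (hδ : ∀ v, δ ∣ d v) (D1 : ι →₀ ℤ) (hD1 : Deg d D1 = δ)
    (hω : Val a D1 ≠ 0) (n : ℕ) (hn : δ * k0 ≤ n) :
    SE d hd hfin a n = if δ ∣ n then
      SE d hd hfin a (δ * k0) / (Val a D1 ^ k0 * (q : ℂ) ^ (δ * k0)) *
        Val a D1 ^ (n / δ) * (q : ℂ) ^ n else 0 := by
  have hq0 : (q : ℂ) ≠ 0 := Nat.cast_ne_zero.2 (by omega)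
  have hk : k0 ≤ δ * k0 := Nat.le_mul_of_pos_left _ hδ0
  split_ifs with hdv
  · obtain ⟨j, rfl⟩ := hdv
    have hj : k0 ≤ j := by
      by_contra hc
      have := Nat.mul_lt_mul_of_pos_left (not_le.1 hc) (show 0 < δ by omega)
      omega
    obtain ⟨i, rfl⟩ := Nat.exists_eq_add_of_le hj
    have key : ∀ i : ℕ, SE d hd hfin a (δ * (k0 + i)) =
        (Val a D1 * (q : ℂ) ^ δ) ^ i * SE d hd hfin a (δ * k0) := by
      intro i
      induction i with
      | zero => rw [add_zero, pow_zero, one_mul]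
      | succ i ih =>
        have hki : k0 ≤ δ * (k0 + i) := by
          rw [mul_add]
          omega
        have h1 := trans d hd hfin a ha dv hinv hval hdeg (δ * (k0 + (i + 1))) (δ * (k0 + i))
          (q ^ δ * q ^ (((δ * (k0 + i) : ℕ) : ℤ) - A).toNat)
          (q ^ (((δ * (k0 + i) : ℕ) : ℤ) - A).toNat)
          (by positivity) (by positivity) (by
            intro D hD
            have h2 : δ * (k0 + (i + 1)) = δ * (k0 + i) + δ := by ring
            have h3 : (k0 : ℤ) ≤ Deg d D := by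
              rw [hD, h2]
              push_cast at hki ⊢
              have : (k0 : ℤ) ≤ δ * (k0 + i) := by exact_mod_cast hki
              omega
            rw [hcard D h3, hD, ← pow_add, h2]
            congr 1
            have h4 : A ≤ ((δ * (k0 + i) : ℕ) : ℤ) := le_trans hA (by exact_mod_cast hki)
            push_cast at h4 ⊢
            omega)
          (by
            intro D hD
            have h3 : (k0 : ℤ) ≤ Deg d D := by
              rw [hD]
              exact_mod_cast hki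
            rw [hcard D h3, hD])
          D1 (by
            rw [hD1]
            push_cast
            ring)
        have hc0 : ((q ^ (((δ * (k0 + i) : ℕ) : ℤ) - A).toNat : ℕ) : ℂ) ≠ 0 := by
          push_cast
          exact pow_ne_zero _ hq0
        have h5 : ((q ^ (((δ * (k0 + i) : ℕ) : ℤ) - A).toNat : ℕ) : ℂ) *
            SE d hd hfin a (δ * (k0 + (i + 1))) =
            ((q ^ (((δ * (k0 + i) : ℕ) : ℤ) - A).toNat : ℕ) : ℂ) *
            ((Val a D1 * (q : ℂ) ^ δ) * SE d hd hfin a (δ * (k0 + i))) := by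
          rw [← h1]
          push_cast
          ring
        rw [mul_left_cancel₀ hc0 h5, ih, pow_succ]
        ring
    rw [key, Nat.mul_div_cancel_left _ (show 0 < δ by omega), mul_pow, ← pow_mul, pow_add,
      mul_add, pow_add (q : ℂ)]
    have h6 : Val a D1 ^ k0 ≠ 0 := pow_ne_zero _ hω
    have h7 : (q : ℂ) ^ (δ * k0) ≠ 0 := pow_ne_zero _ hq0
    field_simp
  · unfold SE
    have hem : (eff_finite d hd hfin n).toFinset = ∅ := by
      rw [Finset.eq_empty_iff_forall_notMem]
      intro D hD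
      rw [Set.Finite.mem_toFinset] at hD
      apply hdv
      have h1 := Deg_dvd d hδ D
      rw [hD.2] at h1
      exact_mod_cast h1
    rw [hem, Finset.sum_empty]

theorem pos0 (D : Dg ι) (v : ι) : D.d v ≠ 0 := Nat.one_le_iff_ne_zero.1 (D.pos v)

/-- From natural to integral exponents. -/
noncomputable def efEquiv (D : Dg ι) (n : ℕ) : D.Ef n ≃ Eff D.d n where
  toFun E := ⟨E.1.mapRange (fun m : ℕ => (m : ℤ)) rfl, fun v => by
      rw [Finsupp.mapRange_apply]
      exact Int.natCast_nonneg _, by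
      have h2 := congrArg (fun m : ℕ => (m : ℤ)) E.2
      refine Eq.trans ?_ h2
      unfold Deg
      rw [Finsupp.sum_mapRange_index (by intro; simp)]
      unfold Finsupp.sum
      push_cast
      rfl⟩
  invFun E := ⟨E.1.mapRange Int.toNat rfl, by
      have h1 : ((((E.1.mapRange Int.toNat rfl).sum fun v m => m * D.d v : ℕ)) : ℤ) = n := by
        rw [← E.2.2]
        unfold Deg
        rw [Finsupp.sum_mapRange_index (by intro; simp)]
        unfold Finsupp.sum
        push_cast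
        refine Finset.sum_congr rfl fun v _ => ?_
        rw [Int.toNat_of_nonneg (E.2.1 v)]
      exact_mod_cast h1⟩
  left_inv E := by
    apply Subtype.ext
    ext v
    simp
  right_inv E := by
    apply Subtype.ext
    ext v
    simp only [Finsupp.mapRange_apply]
    exact Int.toNat_of_nonneg (E.2.1 v)

theorem S_eq (D : Dg ι) (a : ι → ℂ) (n : ℕ) :
    D.S a n = SE D.d (pos0 D) D.fin a n := by
  have hfinE : Finite (Eff D.d n) := (eff_finite D.d (pos0 D) D.fin n)
  have : Fintype (Eff D.d n) := Fintype.ofFinite _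
  rw [SE_eq, Dg.S, ← (efEquiv D n).symm.tsum_eq, tsum_fintype]
  refine Finset.sum_congr rfl fun E _ => ?_
  unfold Val
  have h1 : E.1 = ((efEquiv D n).symm E).1.mapRange (fun m : ℕ => (m : ℤ)) rfl := by
    have := (efEquiv D n).apply_symm_apply E
    exact (congrArg Subtype.val this).symm
  rw [h1, Finsupp.prod_mapRange_index (by intro; simp)]
  simp only [zpow_natCast]

theorem card_eq (D : Dg ι) (n : ℕ) :
    (Nat.card (D.Ef n) : ℂ) = SE D.d (pos0 D) D.fin (fun _ => 1) n := by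
  have hfinE : Finite (Eff D.d n) := (eff_finite D.d (pos0 D) D.fin n)
  have : Fintype (Eff D.d n) := Fintype.ofFinite _
  rw [SE_eq, Nat.card_congr (efEquiv D n), Nat.card_eq_fintype_card]
  have h1 : ∀ E : Eff D.d n, Val (fun _ => (1 : ℂ)) E.1 = 1 := by
    intro E
    unfold Val
    simp
  rw [Finset.sum_congr rfl fun E _ => h1 E, Finset.sum_const, Finset.card_univ, nsmul_eq_mul,
    mul_one]

end Pool.Agent.NH7.GF.RayPA
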