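import Pool.Agent.NH7.GF.Stms
import Pool.Agent.NH7.GF.RayPAbs
import Pool.Agent.H22R3.ZT.Supp

/-!
# Z1: counting effective divisors prime to `T` with a character
-/

set_option autoImplicit false
set_option linter.unusedSectionVars false

open Module

namespace Pool.Agent.NH7.GF.RayPC

open Pool.Agent.H525R3.FFp Pool.Agent.H962R3.Cnt Pool.Agent.NH7.GF.RayPA

variable {k K : Type} [Field k] [Finite k] [Field K] [Algebra k K] [FF.IsFF k K]

/-- The number of the elements of the ray group, with the exact value. -/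
theorem ray_count' (T : Finset (FF.Place k K)) (hT : T.Nonempty) :
    ∃ (N0 A : ℤ), ∀ D : FF.Place k K →₀ ℤ, (∀ x ∈ T, D x = 0) → N0 ≤ ddeg D →
        Nat.card {u : ray T 0 // 0 ≤ D + divisor k ((u : Kˣ) : K)} =
          Nat.card k ^ (ddeg D - A).toNat := by
  obtain ⟨γ, N, hγ, hN⟩ := riemann k K
  refine ⟨N + ddeg (modE T 0), ddeg (modE T 0) + γ, ?_⟩
  intro D hD hdeg
  obtain ⟨f0, hf0, hf1⟩ := exists_near 0 hN hD hdeg
  have hD0 : ∀ x ∈ T, (D ⊔ 0) x = 0 := by
    intro x hx
    rw [Finsupp.sup_apply, hD x hx]; simp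
  have hs0 : ∀ x ∈ T, 1 - f0 = 0 ∨ ((0 : ℕ) : ℤ) < x.ord (1 - f0) :=
    fun x hx => small_of_mem hD0 hf1 hx
  have hne : ∀ g : K, g ∈ LL (D - modE T 0) → f0 + g ≠ 0 := by
    intro g hg h0
    obtain ⟨x, hx⟩ := hT
    have h1 := small_of_mem hD hg hx
    have h2 := hs0 x hx
    have h3 := small_add h2 (small_neg h1)
    have h4 : 1 - f0 + -g = 1 := by
      have : f0 = -g := eq_neg_of_add_eq_zero_left h0
      rw [this]; ring
    rw [h4, x.ord_one] at h3
    rcases h3 with h3 | h3
    · exact one_ne_zero h3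
    · omega
  let e : {u : ray T 0 // 0 ≤ D + divisor k ((u : Kˣ) : K)} ≃ LL (D - modE T 0) :=
    { toFun := fun u => ⟨((u.1 : Kˣ) : K) - f0, by
        have hu1 : ((u.1 : Kˣ) : K) ∈ LL D := by
          rw [mem_LL' (u.1 : Kˣ).ne_zero, add_comm]; exact u.2
        have hu2 := (LL D).sub_mem hu1 hf0
        by_cases h0 : ((u.1 : Kˣ) : K) - f0 = 0
        · exact Or.inl h0
        right
        intro P
        have h1 := (hu2.resolve_left h0) P
        rw [Finsupp.sub_apply]
        by_cases hP : P ∈ T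
        · rw [modE_mem hP, hD P hP]
          have h2 := hs0 P hP
          have h3 : ((u.1 : Kˣ) : K) - 1 = 0 ∨ ((0 : ℕ) : ℤ) < P.ord (((u.1 : Kˣ) : K) - 1) := by
            rcases u.1.2 P hP with h | h
            · left; rw [h, sub_self]
            · exact Or.inr h
          have h4 := small_add h3 h2
          have h5 : ((u.1 : Kˣ) : K) - 1 + (1 - f0) = ((u.1 : Kˣ) : K) - f0 := by ring
          rw [h5] at h4
          have h6 := h4.resolve_left h0
          omega
        · rw [modE_notMem hP]; omega⟩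
      invFun := fun g => ⟨⟨Units.mk0 (f0 + g.1) (hne g.1 g.2), by
        intro x hx
        rw [Units.val_mk0]
        have h1 := small_of_mem hD g.2 hx
        have h2 := small_neg (hs0 x hx)
        have h3 := small_add h1 h2
        have h4 : g.1 + -(1 - f0) = f0 + g.1 - 1 := by ring
        rw [h4] at h3
        rcases h3 with h3 | h3
        · left; exact sub_eq_zero.1 h3
        · exact Or.inr h3⟩, by
        rw [add_comm]
        rw [← mem_LL' (Units.ne_zero _), Units.val_mk0]
        exact (LL D).add_mem hf0 (LL_mono (sub_le_self _ (modE_nonneg T 0)) g.2)⟩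
      left_inv := by
        intro u
        apply Subtype.ext
        apply Subtype.ext
        apply Units.ext
        simp
      right_inv := by
        intro g
        apply Subtype.ext
        simp }
  have h3 := hN (D - modE T 0) (by rw [ddeg_sub]; omega)
  rw [ddeg_sub] at h3
  rw [Nat.card_congr e, Module.natCard_eq_pow_finrank (K := k)]
  congr 1
  unfold ell at h3
  omega

variable (T : Finset (FF.Place k K))

/-- The divisor of an element, restricted to the places outside `T`. -/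
noncomputable def dv (u : ray T 0) : {v : FF.Place k K // v ∉ T} →₀ ℤ :=
  (divisor k ((u : Kˣ) : K)).subtypeDomain (fun v => v ∉ T)

/-- Extension by zero. -/
noncomputable def em (D : {v : FF.Place k K // v ∉ T} →₀ ℤ) : FF.Place k K →₀ ℤ :=
  D.embDomain ⟨Subtype.val, Subtype.val_injective⟩

theorem em_out (D : {v : FF.Place k K // v ∉ T} →₀ ℤ) (v : {v : FF.Place k K // v ∉ T}) :
    em T D v.1 = D v :=
  Finsupp.embDomain_apply_self ⟨Subtype.val, Subtype.val_injective⟩ D v

theorem em_in (D : {v : FF.Place k K // v ∉ T} →₀ ℤ) {v : FF.Place k K} (hv : v ∈ T) :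
    em T D v = 0 := by
  refine Finsupp.embDomain_of_notMem_range _ _ _ ?_
  rintro ⟨w, rfl⟩
  exact w.2 hv

theorem em_dv (u : ray T 0) : em T (dv T u) = divisor k ((u : Kˣ) : K) := by
  ext v
  by_cases hv : v ∈ T
  · rw [em_in T _ hv, divisor_apply]
    exact (ord_ray u.2 hv).symm
  · exact em_out T _ ⟨v, hv⟩

theorem ddeg_em (D : {v : FF.Place k K // v ∉ T} →₀ ℤ) :
    ddeg (em T D) = Deg (DgT k K T).d D := by
  unfold ddeg em Deg
  rw [Finsupp.sum_embDomain]
  rfl

theorem dv_inv (u : ray T 0) : dv T u⁻¹ = - dv T u := by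
  ext v
  have h : ((((u⁻¹ : ray T 0) : Kˣ)) : K) = ((u : Kˣ) : K)⁻¹ := by
    simp
  unfold dv
  rw [Finsupp.neg_apply, Finsupp.subtypeDomain_apply, Finsupp.subtypeDomain_apply, h,
    divisor_inv, Finsupp.neg_apply]

theorem dv_deg (u : ray T 0) : Deg (DgT k K T).d (dv T u) = 0 := by
  rw [← ddeg_em, em_dv, ddeg_divisor]

theorem dv_val (ψ : FF.Place k K → ℂ) (u : ray T 0)
    (h : ∏ᶠ v : FF.Place k K, ψ v ^ v.ord ((u : Kˣ) : K) = 1) :
    Val (fun v : {v : FF.Place k K // v ∉ T} => ψ v.1) (dv T u) = 1 := by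
  have h1 : Val (fun v : {v : FF.Place k K // v ∉ T} => ψ v.1) (dv T u) =
      (em T (dv T u)).prod fun v n => ψ v ^ n := by
    unfold em Val
    rw [Finsupp.prod_embDomain]
    rfl
  rw [h1, em_dv, ← h, finprod_eq_prod_of_mulSupport_subset
    (s := (divisor k ((u : Kˣ) : K)).support)]
  · rfl
  · intro v hv
    rw [Function.mem_mulSupport] at hv
    rw [Finset.mem_coe, Finsupp.mem_support_iff, divisor_apply]
    intro h0
    exact hv (by rw [h0, zpow_zero])

theorem le_iff (D : {v : FF.Place k K // v ∉ T} →₀ ℤ) (u : ray T 0) :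
    0 ≤ D + dv T u ↔ 0 ≤ em T D + divisor k ((u : Kˣ) : K) := by
  rw [← em_dv]
  constructor
  · intro h v
    by_cases hv : v ∈ T
    · rw [Finsupp.add_apply, em_in T _ hv, em_in T _ hv]
      exact le_rfl
    · have h1 := h ⟨v, hv⟩
      rw [Finsupp.add_apply] at h1 ⊢
      rw [em_out T _ ⟨v, hv⟩, em_out T _ ⟨v, hv⟩]
      exact h1
  · intro h v
    have h1 := h v.1
    rw [Finsupp.add_apply] at h1 ⊢
    rw [em_out, em_out] at h1
    exact h1

theorem exCount (hT : T.Nonempty) : ∃ (k0 : ℕ) (A : ℤ), A ≤ k0 ∧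
    ∀ D : {v : FF.Place k K // v ∉ T} →₀ ℤ, (k0 : ℤ) ≤ Deg (DgT k K T).d D →
      Nat.card {h : ray T 0 // 0 ≤ D + dv T h} =
        Nat.card k ^ (Deg (DgT k K T).d D - A).toNat := by
  obtain ⟨N0, A, h⟩ := ray_count' T hT
  refine ⟨(max N0 A).toNat, A, (le_max_right _ _).trans (Int.self_le_toNat _), fun D hD => ?_⟩
  have h1 := h (em T D) (fun x hx => em_in T D hx) (by
    rw [ddeg_em]
    exact ((le_max_left _ _).trans (Int.self_le_toNat _)).trans hD)
  rw [ddeg_em] at h1
  rw [← h1]
  exact Nat.card_congr (Equiv.subtypeEquivRight fun u => le_iff T D u)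

/-- The degree as a homomorphism. -/
noncomputable def dh : ({v : FF.Place k K // v ∉ T} →₀ ℤ) →+ ℤ where
  toFun := Deg (DgT k K T).d
  map_zero' := Deg_zero _
  map_add' := Deg_add _

theorem exGen : ∃ (δ : ℕ) (D1 : {v : FF.Place k K // v ∉ T} →₀ ℤ), 1 ≤ δ ∧
    (∀ v, δ ∣ (DgT k K T).d v) ∧ Deg (DgT k K T).d D1 = δ := by
  obtain ⟨g, hg⟩ := Int.subgroup_cyclic (dh T).range
  have hg1 : g ∈ (dh T).range := by
    rw [hg]
    exact AddSubgroup.subset_closure (Set.mem_singleton g)
  obtain ⟨D1, hD1⟩ := hg1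
  have hdv : ∀ v, (g.natAbs) ∣ (DgT k K T).d v := by
    intro v
    have h1 : ((DgT k K T).d v : ℤ) ∈ (dh T).range := by
      refine ⟨Finsupp.single v 1, ?_⟩
      change Deg (DgT k K T).d (Finsupp.single v 1) = _
      unfold Deg
      rw [Finsupp.sum_single_index (by simp), one_mul]
    rw [hg, AddSubgroup.mem_closure_singleton] at h1
    obtain ⟨m, hm⟩ := h1
    rw [← Int.natCast_dvd_natCast, Int.natAbs_dvd]
    exact ⟨m, by rw [← hm, smul_eq_mul, mul_comm]⟩
  have hinf : Infinite (FF.Place k K) := Pool.Agent.H22R3.ZT.infinite_places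
  obtain ⟨v0, hv0⟩ := Infinite.exists_notMem_finset T
  have hpos : 1 ≤ g.natAbs := by
    by_contra hc
    have h0 : g.natAbs = 0 := by omega
    have h1 := hdv ⟨v0, hv0⟩
    rw [h0, zero_dvd_iff] at h1
    exact pos0 (DgT k K T) _ h1
  rcases Int.natAbs_eq g with h | h
  · exact ⟨g.natAbs, D1, hpos, hdv, by rw [← h]; exact hD1⟩
  · refine ⟨g.natAbs, -D1, hpos, hdv, ?_⟩
    rw [Deg_neg]
    have : Deg (DgT k K T).d D1 = g := hD1
    rw [this]
    omega

end Pool.Agent.NH7.GF.RayPC

namespace Pool.Agent.NH7.GF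

open Pool.Agent.H525R3.FFp Pool.Agent.H962R3.Cnt RayPA RayPC

theorem s_ray : S_ray := by
  intro k K _ _ _ _ _ T hT
  obtain ⟨k0, A, hA, hcard⟩ := exCount T hT
  obtain ⟨δ, D1, hδ0, hδ, hD1⟩ := exGen T
  have hq : 2 ≤ Nat.card k := Finite.one_lt_card
  have hq0 : (Nat.card k : ℂ) ≠ 0 := Nat.cast_ne_zero.2 (by omega)
  have hqr : (0 : ℝ) < (Nat.card k : ℝ) := Nat.cast_pos.2 (by omega)
  set q := Nat.card k with hqdef
  set G := DgT k K T with hG
  -- the divisor of degree `δ k0`
  have hne : 0 < Nat.card (G.Ef (δ * k0)) := by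
    have h1 : Deg G.d (k0 • D1) = ((δ * k0 : ℕ) : ℤ) := by
      have h2 : dh T (k0 • D1) = k0 • dh T D1 := map_nsmul _ _ _
      have h3 : dh T D1 = (δ : ℤ) := hD1
      rw [h3] at h2
      refine Eq.trans h2 ?_
      rw [nsmul_eq_mul]
      push_cast
      ring
    have h2 := hcard (k0 • D1) (by
      rw [h1]
      exact_mod_cast Nat.le_mul_of_pos_left k0 hδ0)
    have h3 : 0 < Nat.card {h : ray T 0 // 0 ≤ (k0 • D1) + dv T h} := by
      rw [h2]
      positivity
    obtain ⟨⟨u, hu⟩⟩ := (Nat.card_pos_iff.1 h3).1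
    have hfinE : Finite (Eff G.d (δ * k0)) := (eff_finite G.d (pos0 G) G.fin _)
    rw [Nat.card_congr (efEquiv G (δ * k0)), Nat.card_pos_iff]
    exact ⟨⟨⟨k0 • D1 + dv T u, hu, by rw [Deg_add, h1, dv_deg, add_zero]⟩⟩, hfinE⟩
  refine ⟨(Nat.card (G.Ef (δ * k0)) : ℝ) / (q : ℝ) ^ (δ * k0), δ, δ * k0, ?_, ?_⟩
  · -- the number
    have hone : ∀ n, δ * k0 ≤ n → (Nat.card (G.Ef n) : ℂ) = if δ ∣ n then
        ((((Nat.card (G.Ef (δ * k0)) : ℝ) / (q : ℝ) ^ (δ * k0) * (q : ℝ) ^ n : ℝ)) : ℂ)
        else 0 := by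
      intro n hn
      have hV : ∀ D : {v : FF.Place k K // v ∉ T} →₀ ℤ, Val (fun _ => (1 : ℂ)) D = 1 := by
        intro D
        unfold Val
        simp
      have h1 := form G.d (pos0 G) G.fin (fun _ => 1) (fun _ => one_ne_zero) (dv T) (dv_inv T)
        (fun u => hV _) (dv_deg T) q k0 hq A hA hcard δ hδ0 hδ D1 hD1
        (by rw [hV]; exact one_ne_zero) n hn
      rw [card_eq, h1, hV, ← card_eq]
      split_ifs with h2
      · push_cast
        ring
      · rfl
    refine ⟨hq, ?_, hδ0, ?_, ?_⟩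
    · have : (0 : ℝ) < (Nat.card (G.Ef (δ * k0)) : ℝ) := Nat.cast_pos.2 hne
      positivity
    · intro n hn hdv
      have h1 := hone n hn
      rw [if_pos hdv] at h1
      exact_mod_cast h1
    · intro n hn hdv
      have h1 := hone n hn
      rw [if_neg hdv] at h1
      exact_mod_cast h1
  · intro ψ hψ hψ1 ⟨v0, hv0, hv1⟩
    have ha : ∀ v : {v : FF.Place k K // v ∉ T}, ψ v.1 ≠ 0 := fun v h0 => by
      have := hψ v.1
      rw [h0, norm_zero] at this
      exact zero_ne_one this
    have hval : ∀ u : ray T 0, Val (fun v : {v : FF.Place k K // v ∉ T} => ψ v.1) (dv T u) = 1 :=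
      fun u => dv_val T ψ u (hψ1 u.1 u.2)
    have hnorm : ∀ D : {v : FF.Place k K // v ∉ T} →₀ ℤ,
        ‖Val (fun v : {v : FF.Place k K // v ∉ T} => ψ v.1) D‖ = 1 := by
      intro D
      unfold Val Finsupp.prod
      rw [norm_prod]
      refine Finset.prod_eq_one fun v _ => ?_
      rw [norm_zpow, hψ, one_zpow]
    have hω : Val (fun v : {v : FF.Place k K // v ∉ T} => ψ v.1) D1 ≠ 0 := by
      intro h0
      have := hnorm D1
      rw [h0, norm_zero] at this
      exact zero_ne_one this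
    by_cases h1 : Val (fun v : {v : FF.Place k K // v ∉ T} => ψ v.1) D1 = 1
    · -- the sums vanish
      refine ⟨1, 0, δ * k0, norm_one, Or.inl rfl, fun n hn => ?_⟩
      have hn' : k0 ≤ n := le_trans (Nat.le_mul_of_pos_left k0 hδ0) hn
      have h2 : G.S (fun v => ψ v.1) n = 0 := by
        rw [S_eq]
        obtain ⟨j, hj⟩ := hδ ⟨v0, hv0⟩
        refine vanish G.d (pos0 G) G.fin (fun v => ψ v.1) ha (dv T) (dv_inv T) hval (dv_deg T) n
          (q ^ ((n : ℤ) - A).toNat) (by positivity) (fun D hD => ?_)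
          (Finsupp.single ⟨v0, hv0⟩ 1 + -(j • D1)) ?_ ?_
        · rw [hcard D (by rw [hD]; exact_mod_cast hn'), hD]
        · rw [Deg_add, Deg_neg]
          have e1 : Deg G.d (Finsupp.single (⟨v0, hv0⟩ : {v : FF.Place k K // v ∉ T}) 1) =
              G.d ⟨v0, hv0⟩ := by
            unfold Deg
            rw [Finsupp.sum_single_index (by simp), one_mul]
          have e2 : Deg G.d (j • D1) = j • (δ : ℤ) := by
            have h2 : dh T (j • D1) = j • dh T D1 := map_nsmul _ _ _
            have h3 : dh T D1 = (δ : ℤ) := hD1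
            rw [h3] at h2
            exact h2
          rw [e1, e2, hj, nsmul_eq_mul]
          push_cast
          ring
        · rw [Val_add _ ha]
          have e1 : Val (fun v : {v : FF.Place k K // v ∉ T} => ψ v.1)
              (Finsupp.single (⟨v0, hv0⟩ : {v : FF.Place k K // v ∉ T}) 1) = ψ v0 := by
            unfold Val
            rw [Finsupp.prod_single_index (by simp), zpow_one]
          have e2 : ∀ i : ℕ, Val (fun v : {v : FF.Place k K // v ∉ T} => ψ v.1) (i • D1) = 1 := by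
            intro i
            induction i with
            | zero => rw [zero_smul]; simp [Val]
            | succ i ih => rw [succ_nsmul, Val_add _ ha, ih, h1, one_mul]
          have e3 : Val (fun v : {v : FF.Place k K // v ∉ T} => ψ v.1) (-(j • D1)) = 1 := by
            have h4 := Val_add _ ha (j • D1) (-(j • D1))
            rw [add_neg_cancel, e2, one_mul] at h4
            rw [← h4]
            simp [Val]
          rw [e1, e3, mul_one]
          exact hv1
      rw [h2]
      simp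
    · refine ⟨Val (fun v : {v : FF.Place k K // v ∉ T} => ψ v.1) D1,
        SE G.d (pos0 G) G.fin (fun v => ψ v.1) (δ * k0) /
          (Val (fun v : {v : FF.Place k K // v ∉ T} => ψ v.1) D1 ^ k0 * (q : ℂ) ^ (δ * k0)),
        δ * k0, hnorm D1, Or.inr h1, fun n hn => ?_⟩
      rw [S_eq]
      exact form G.d (pos0 G) G.fin (fun v => ψ v.1) ha (dv T) (dv_inv T) hval (dv_deg T) q k0 hq
        A hA hcard δ hδ0 hδ D1 hD1 hω n hn

end Pool.Agent.NH7.GF
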