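import Pool.Agent.NH7.GF.An

/-!
# Sums over sets with a degree function, E1: summability
-/

set_option autoImplicit false
set_option linter.unusedSectionVars false

namespace Pool.Agent.NH7.GF

namespace SmP

variable {ι : Type} (D : Dg ι)

theorem card_le {q : ℕ} {C : ℝ} {δ n₀ : ℕ} (h : D.Cnt q C δ n₀) :
    ∃ C' : ℝ, 0 ≤ C' ∧ ∀ n, (Nat.card (D.Ef n) : ℝ) ≤ C' * (q : ℝ) ^ n := by
  classical
  have hq1 : (1 : ℝ) ≤ q := by exact_mod_cast (le_trans (by norm_num) h.hq)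
  have hs : 0 ≤ ∑ i ∈ Finset.range n₀, (Nat.card (D.Ef i) : ℝ) :=
    Finset.sum_nonneg fun _ _ => Nat.cast_nonneg _
  refine ⟨C + ∑ i ∈ Finset.range n₀, (Nat.card (D.Ef i) : ℝ), add_nonneg h.hC.le hs, fun n => ?_⟩
  have hpn : (1 : ℝ) ≤ (q : ℝ) ^ n := one_le_pow₀ hq1
  have hp0 : (0 : ℝ) ≤ (q : ℝ) ^ n := by linarith
  rw [add_mul]
  rcases le_or_gt n₀ n with hn | hn
  · by_cases hd : δ ∣ n
    · rw [h.h1 n hn hd]
      have := mul_nonneg hs hp0
      linarith
    · rw [h.h0 n hn hd]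
      push_cast
      have := mul_nonneg hs hp0
      have := mul_nonneg h.hC.le hp0
      linarith
  · have h1 : (Nat.card (D.Ef n) : ℝ) ≤ ∑ i ∈ Finset.range n₀, (Nat.card (D.Ef i) : ℝ) :=
      Finset.single_le_sum (f := fun i => (Nat.card (D.Ef i) : ℝ))
        (fun _ _ => Nat.cast_nonneg _) (Finset.mem_range.2 hn)
    have h2 : (∑ i ∈ Finset.range n₀, (Nat.card (D.Ef i) : ℝ)) * 1 ≤
        (∑ i ∈ Finset.range n₀, (Nat.card (D.Ef i) : ℝ)) * (q : ℝ) ^ n :=
      mul_le_mul_of_nonneg_left hpn hs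
    have := mul_nonneg h.hC.le hp0
    linarith

theorem fib_le (hf : ∀ n, Finite (D.Ef n)) (s : Finset ι) (n : ℕ) :
    (s.filter fun v => D.d v = n).card ≤ Nat.card (D.Ef n) := by
  classical
  have := hf n
  have h1 : Nat.card {v // v ∈ s.filter fun v => D.d v = n} =
      (s.filter fun v => D.d v = n).card := by
    rw [Nat.card_eq_fintype_card, Fintype.card_coe]
  rw [← h1]
  refine Nat.card_le_card_of_injective
    (fun v => (⟨Finsupp.single v.1 1, by
      rw [Finsupp.sum_single_index (by simp)]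
      rw [one_mul]
      exact (Finset.mem_filter.1 v.2).2⟩ : D.Ef n)) ?_
  intro v w hvw
  have h2 : (Finsupp.single v.1 1 : ι →₀ ℕ) = Finsupp.single w.1 1 := congrArg Subtype.val hvw
  exact Subtype.ext ((Finsupp.single_left_inj one_ne_zero).1 h2)

end SmP

open SmP in
theorem s_sm (h0 : S_ef) : S_sm := by
  classical
  intro ι D q C δ n₀ h u hu hu1
  have hfin : ∀ n, Finite (D.Ef n) := h0 ι D
  obtain ⟨C', hC', hle⟩ := card_le D h
  have hq2 : (2 : ℝ) ≤ q := by exact_mod_cast h.hq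
  have hq0 : (0 : ℝ) < q := by linarith
  have hr1 : (q : ℝ) * u < 1 := by
    rw [lt_div_iff₀ hq0] at hu1
    linarith
  have hr0 : 0 < (q : ℝ) * u := mul_pos hq0 hu
  have hu2 : u < 1 := by nlinarith
  have hg : Summable fun n : ℕ => (n : ℝ) * ((q : ℝ) * u) ^ n := by
    have := summable_pow_mul_geometric_of_norm_lt_one 1
      (show ‖(q : ℝ) * u‖ < 1 by rw [Real.norm_of_nonneg hr0.le]; exact hr1)
    simpa using this
  have hg0 : Summable fun n : ℕ => ((q : ℝ) * u) ^ n := summable_geometric_of_lt_one hr0.le hr1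
  have hun : ∀ n : ℕ, 0 ≤ u ^ n := fun n => pow_nonneg hu.le n
  have h3 : Summable (fun n : ℕ => (n : ℝ) * (Nat.card (D.Ef n) : ℝ) * u ^ n) := by
    refine Summable.of_nonneg_of_le (fun n => ?_) (fun n => ?_) (hg.mul_left C')
    · exact mul_nonneg (mul_nonneg (Nat.cast_nonneg _) (Nat.cast_nonneg _)) (hun n)
    · have h1 := mul_le_mul_of_nonneg_right (mul_le_mul_of_nonneg_left (hle n)
        (Nat.cast_nonneg n : (0 : ℝ) ≤ n)) (hun n)
      refine h1.trans (le_of_eq ?_)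
      rw [mul_pow]
      ring
  have h4 : Summable (fun n : ℕ => (Nat.card (D.Ef n) : ℝ) * u ^ n) := by
    refine Summable.of_nonneg_of_le (fun n => ?_) (fun n => ?_) (hg0.mul_left C')
    · exact mul_nonneg (Nat.cast_nonneg _) (hun n)
    · have h1 := mul_le_mul_of_nonneg_right (hle n) (hun n)
      refine h1.trans (le_of_eq ?_)
      rw [mul_pow]
      ring
  have h1 : Summable (fun v => (D.d v : ℝ) * u ^ D.d v) := by
    refine summable_of_sum_le (c := ∑' n : ℕ, (n : ℝ) * (Nat.card (D.Ef n) : ℝ) * u ^ n)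
      (fun v => mul_nonneg (Nat.cast_nonneg _) (hun _)) fun s => ?_
    have e1 := Finset.sum_comp (s := s) (fun n : ℕ => (n : ℝ) * u ^ n) (fun v => D.d v)
    have e1' : ∑ v ∈ s, (D.d v : ℝ) * u ^ D.d v = ∑ n ∈ s.image fun v => D.d v,
        ((s.filter fun v => D.d v = n).card : ℝ) * ((n : ℝ) * u ^ n) := by
      rw [e1]
      refine Finset.sum_congr rfl fun n _ => ?_
      rw [nsmul_eq_mul]
    rw [e1']
    refine le_trans (Finset.sum_le_sum fun n _ => ?_) (h3.sum_le_tsum _ fun n _ => ?_)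
    · have hc : ((s.filter fun v => D.d v = n).card : ℝ) ≤ Nat.card (D.Ef n) := by
        exact_mod_cast fib_le D hfin s n
      have h5 := mul_le_mul_of_nonneg_right hc
        (mul_nonneg (Nat.cast_nonneg n : (0 : ℝ) ≤ n) (hun n))
      refine h5.trans (le_of_eq ?_)
      ring
    · exact mul_nonneg (mul_nonneg (Nat.cast_nonneg _) (Nat.cast_nonneg _)) (hun n)
  refine ⟨h1, ?_, h3, h4⟩
  have hw : ∀ v, 0 ≤ u ^ D.d v ∧ u ^ D.d v ≤ u := fun v =>
    ⟨hun _, by
      calc u ^ D.d v ≤ u ^ 1 := pow_le_pow_of_le_one hu.le hu2.le (D.pos v)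
        _ = u := pow_one u⟩
  have hk : ∀ (v : ι) (k : ℕ), u ^ ((k + 1) * D.d v) = u ^ D.d v * (u ^ D.d v) ^ k := by
    intro v k
    rw [← pow_mul, ← pow_add]
    congr 1
    ring
  have hsv : ∀ v : ι, HasSum (fun k : ℕ => (D.d v : ℝ) * u ^ ((k + 1) * D.d v))
      ((D.d v : ℝ) * (u ^ D.d v * (1 - u ^ D.d v)⁻¹)) := by
    intro v
    have h5 := (hasSum_geometric_of_lt_one (hw v).1 (lt_of_le_of_lt (hw v).2 hu2)).mul_left
      (u ^ D.d v)
    have h6 := h5.mul_left (D.d v : ℝ)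
    have e : (fun k : ℕ => (D.d v : ℝ) * u ^ ((k + 1) * D.d v)) =
        fun k : ℕ => (D.d v : ℝ) * (u ^ D.d v * (u ^ D.d v) ^ k) := funext fun k => by rw [hk]
    rw [e]
    exact h6
  refine (summable_prod_of_nonneg fun x => mul_nonneg (Nat.cast_nonneg _) (hun _)).2
    ⟨fun v => (hsv v).summable, ?_⟩
  have e : (fun v => ∑' k : ℕ, (D.d v : ℝ) * u ^ ((k + 1) * D.d v)) =
      fun v => (D.d v : ℝ) * (u ^ D.d v * (1 - u ^ D.d v)⁻¹) := funext fun v => (hsv v).tsum_eq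
  have hgoal : Summable (fun v => ∑' k : ℕ, (D.d v : ℝ) * u ^ ((k + 1) * D.d v)) := by
    rw [e]
    refine Summable.of_nonneg_of_le (fun v => ?_) (fun v => ?_) (h1.mul_right (1 - u)⁻¹)
    · exact mul_nonneg (Nat.cast_nonneg _) (mul_nonneg (hun _)
        (inv_nonneg.2 (by linarith [(hw v).2])))
    · rw [← mul_assoc]
      refine mul_le_mul_of_nonneg_left ?_ (mul_nonneg (Nat.cast_nonneg _) (hun _))
      exact inv_anti₀ (by linarith) (by linarith [(hw v).2])
  exact hgoal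

end Pool.Agent.NH7.GF
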