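import Pool.Agent.NH7.GF.Stms
import Pool.Agent.H455R3.ZT.Exact
import Pool.Agent.W343.BSD.Rel

/-! GF7-G2: units outside `T` modulo `p`-th powers. -/

set_option autoImplicit false
set_option linter.unusedSectionVars false

open Module FF

namespace Pool.Agent.NH7.GF

open Pool.Agent.H525R3.FFp

namespace SunP

variable {k K : Type} [Field k] [Finite k] [Field K] [Algebra k K] [FF.IsFF k K]

/-- the constants are powers of one element -/
lemma const_gen (k K : Type) [Field k] [Finite k] [Field K] [Algebra k K] [FF.IsFF k K] :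
    ∃ g : Kˣ, ∀ u : Kˣ, IsAlgebraic k (u : K) → ∃ i : ℤ, u = g ^ i := by
  have hfd : FiniteDimensional k (algebraicClosure k K) :=
    Pool.Agent.W343.BSD.finite_const k K
  have hfin : Finite (algebraicClosure k K) := Module.finite_of_finite k
  obtain ⟨g, hg⟩ := IsCyclic.exists_generator (α := (algebraicClosure k K)ˣ)
  refine ⟨Units.map (algebraMap (algebraicClosure k K) K).toMonoidHom g, fun u hu => ?_⟩
  have hu0 : (⟨(u : K), mem_algebraicClosure_iff.2 hu⟩ : algebraicClosure k K) ≠ 0 := by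
    intro h
    exact u.ne_zero (congrArg Subtype.val h)
  obtain ⟨i, hi⟩ := Subgroup.mem_zpowers_iff.1 (hg (Units.mk0 _ hu0))
  refine ⟨i, ?_⟩
  rw [← map_zpow, hi]
  ext
  rfl

/-- the values of the units outside `T` at the places of `T` other than `v0` -/
def vals (T : Finset (Place k K)) (ι : Type) (e : ι → Place k K) : AddSubgroup (ι → ℤ) where
  carrier := {f | ∃ κ : Kˣ, (∀ v ∉ T, v.ord (κ : K) = 0) ∧ ∀ i, f i = (e i).ord (κ : K)}
  zero_mem' := ⟨1, fun v _ => by rw [Units.val_one, v.ord_one], fun i => by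
    rw [Units.val_one, (e i).ord_one]; rfl⟩
  add_mem' := by
    rintro f g ⟨κ, h1, h2⟩ ⟨κ', h1', h2'⟩
    refine ⟨κ * κ', fun v hv => ?_, fun i => ?_⟩
    · rw [Units.val_mul, v.ord_mul κ.ne_zero κ'.ne_zero, h1 v hv, h1' v hv, add_zero]
    · rw [Units.val_mul, (e i).ord_mul κ.ne_zero κ'.ne_zero, Pi.add_apply, h2 i, h2' i]
  neg_mem' := by
    rintro f ⟨κ, h1, h2⟩
    refine ⟨κ⁻¹, fun v hv => ?_, fun i => ?_⟩
    · rw [Units.val_inv_eq_inv_val, v.ord_inv, h1 v hv, neg_zero]
    · rw [Units.val_inv_eq_inv_val, (e i).ord_inv, Pi.neg_apply, h2 i]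

lemma ord_prod_zpow {n : ℕ} (v : Place k K) (w : Fin n → Kˣ) (a : Fin n → ℤ) :
    v.ord ((∏ j, w j ^ a j : Kˣ) : K) = ∑ j, a j * v.ord (w j : K) := by
  induction n with
  | zero => simp [v.ord_one]
  | succ n ih =>
    rw [Fin.prod_univ_succ, Fin.sum_univ_succ, Units.val_mul, v.ord_mul (Units.ne_zero _)
      (Units.ne_zero _), Units.val_zpow_eq_zpow_val, v.ord_zpow, ih]

end SunP

open SunP in
theorem s_sun : S_sun := by
  classical
  intro k K _ _ _ _ _ p hp T hT
  -- `T` is not empty
  have hTne : T.Nonempty := by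
    by_contra hne
    rw [Finset.not_nonempty_iff_eq_empty] at hne
    obtain ⟨v, -⟩ := exists_place (k := k) (K := K)
    obtain ⟨κ, hκ⟩ := hT (Finsupp.single v 1)
    have h1 : divisor k (κ : K) = Finsupp.single v 1 := by
      ext w
      rw [divisor_apply, hκ w (by rw [hne]; exact Finset.notMem_empty w)]
    have h2 := ddeg_divisor (k := k) (κ : K)
    rw [h1, ddeg_single] at h2
    have := deg_pos v
    omega
  obtain ⟨v0, hv0⟩ := hTne
  obtain ⟨g, hg⟩ := const_gen k K
  let ι := {v // v ∈ T.erase v0}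
  let e : ι → Place k K := fun i => i.1
  let N : Submodule ℤ (ι → ℤ) := AddSubgroup.toIntSubmodule (vals T ι e)
  obtain ⟨r, ⟨b⟩⟩ := Submodule.nonempty_basis_of_pid (Pi.basisFun ℤ ι) N
  have hr : r + 1 ≤ T.card := by
    have h1 := Submodule.finrank_le N
    rw [Module.finrank_eq_card_basis b, Module.finrank_pi, Fintype.card_fin,
      Fintype.card_coe, Finset.card_erase_of_mem hv0] at h1
    have := Finset.card_pos.2 ⟨v0, hv0⟩
    omega
  have hbm : ∀ j : Fin r, ∃ κ : Kˣ, (∀ v ∉ T, v.ord (κ : K) = 0) ∧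
      ∀ i, (b j : ι → ℤ) i = (e i).ord (κ : K) := fun j => (b j).2
  choose u hu1 hu2 using hbm
  -- the generators
  let w : Fin (r + 1) → Kˣ := Fin.cons g u
  let Bf : (Fin (r + 1) → Fin p) → Kˣ := fun f => ∏ j, w j ^ (f j : ℕ)
  refine ⟨Finset.univ.image Bf, ?_, ?_⟩
  · refine Finset.card_image_le.trans ?_
    rw [Finset.card_univ, Fintype.card_fun, Fintype.card_fin, Fintype.card_fin]
    exact Nat.pow_le_pow_right hp.out.pos hr
  · intro κ hκ
    -- divide by a `p`-th power
    obtain ⟨s, hs⟩ := hT ((divisor k (κ : K)).mapRange (fun n => n / p) (by simp))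
    have hs' : ∀ v ∉ T, v.ord (κ : K) = p * v.ord (s : K) := by
      intro v hv
      have h1 := hs v hv
      rw [Finsupp.mapRange_apply, divisor_apply] at h1
      rw [← h1, Int.mul_ediv_cancel' (hκ v hv)]
    set κ1 : Kˣ := κ * (s ^ p)⁻¹ with hκ1
    have hord : ∀ v : Place k K, v.ord (κ1 : K) = v.ord (κ : K) - p * v.ord (s : K) := by
      intro v
      rw [hκ1, Units.val_mul, Units.val_inv_eq_inv_val, v.ord_mul κ.ne_zero
        (inv_ne_zero (Units.ne_zero _)), v.ord_inv, Units.val_pow_eq_pow_val, v.ord_pow]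
      ring
    have hκ1T : ∀ v ∉ T, v.ord (κ1 : K) = 0 := by
      intro v hv
      rw [hord, hs' v hv, sub_self]
    have hmem : (fun i : ι => (e i).ord (κ1 : K)) ∈ N := ⟨κ1, hκ1T, fun i => rfl⟩
    set x : N := ⟨_, hmem⟩ with hx
    let a : Fin r → ℤ := fun j => b.repr x j
    have hxa : ∀ i : ι, (e i).ord (κ1 : K) = ∑ j, a j * (e i).ord (u j : K) := by
      intro i
      have h1 := b.sum_repr x
      have h2 := congrArg (fun y : N => (y : ι → ℤ) i) h1
      simp only [Submodule.coe_sum, Submodule.coe_smul, Finset.sum_apply, Pi.smul_apply,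
        smul_eq_mul] at h2
      have h3 : (x : ι → ℤ) i = (e i).ord (κ1 : K) := rfl
      rw [h3] at h2
      refine (h2.symm.trans ?_)
      exact Finset.sum_congr rfl fun j _ => by rw [hu2 j i]
    -- the remaining factor is constant
    set c : Kˣ := κ1 * (∏ j, u j ^ a j)⁻¹ with hc
    have hco : ∀ v : Place k K, v.ord (c : K) = v.ord (κ1 : K) - ∑ j, a j * v.ord (u j : K) := by
      intro v
      rw [hc, Units.val_mul, Units.val_inv_eq_inv_val, v.ord_mul κ1.ne_zero
        (inv_ne_zero (Units.ne_zero _)), v.ord_inv, ord_prod_zpow]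
      ring
    have hc0 : ∀ v : Place k K, v ≠ v0 → v.ord (c : K) = 0 := by
      intro v hv
      rw [hco]
      by_cases hvT : v ∈ T
      · have h1 := hxa ⟨v, Finset.mem_erase.2 ⟨hv, hvT⟩⟩
        exact sub_eq_zero.2 h1
      · rw [hκ1T v hvT, Finset.sum_eq_zero fun j _ => by rw [hu1 j v hvT, mul_zero], sub_zero]
    have hcv0 : v0.ord (c : K) = 0 := by
      have h1 : divisor k (c : K) = Finsupp.single v0 (v0.ord (c : K)) := by
        ext v
        rw [divisor_apply, Finsupp.single_apply]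
        split_ifs with h
        · rw [h]
        · exact hc0 v (Ne.symm h)
      have h2 := ddeg_divisor (k := k) (c : K)
      rw [h1, ddeg_single] at h2
      rcases mul_eq_zero.1 h2 with h3 | h3
      · exact h3
      · have := deg_pos v0
        omega
    have hcdiv : divisor k (c : K) = 0 := by
      ext v
      rw [divisor_apply, Finsupp.zero_apply]
      by_cases h : v = v0
      · rw [h, hcv0]
      · exact hc0 v h
    obtain ⟨i, hi⟩ := hg c (Pool.Agent.H455R3.ZT.isAlgebraic_of_divisor c.ne_zero hcdiv)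
    -- all exponents
    let A : Fin (r + 1) → ℤ := Fin.cons i a
    have hA : κ = (∏ j, w j ^ A j) * s ^ p := by
      rw [Fin.prod_univ_succ]
      have e1 : w 0 ^ A 0 = g ^ i := rfl
      have e2 : ∀ j : Fin r, w j.succ ^ A j.succ = u j ^ a j := fun j => rfl
      rw [e1, Finset.prod_congr rfl fun j _ => e2 j, ← hi, hc, hκ1]
      group
    have hp0 : (p : ℤ) ≠ 0 := by exact_mod_cast hp.out.ne_zero
    have hlt : ∀ j, (A j % p).toNat < p := by
      intro j
      have h1 := Int.emod_lt_of_pos (A j) (show (0 : ℤ) < p by exact_mod_cast hp.out.pos)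
      have h2 := Int.emod_nonneg (A j) hp0
      omega
    refine ⟨Bf fun j => ⟨(A j % p).toNat, hlt j⟩, Finset.mem_image_of_mem _ (Finset.mem_univ _),
      (∏ j, w j ^ (A j / p)) * s, ?_⟩
    rw [mul_pow, ← mul_assoc, ← Finset.prod_pow, ← Finset.prod_mul_distrib, hA]
    congr 1
    refine Finset.prod_congr rfl fun j _ => ?_
    rw [← zpow_natCast, ← zpow_natCast, ← zpow_mul, ← zpow_add]
    congr 1
    have h2 := Int.emod_nonneg (A j) hp0
    have h3 := Int.emod_add_mul_ediv (A j) p
    simp only [Int.toNat_of_nonneg h2]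
    linarith [mul_comm (p : ℤ) (A j / p)]

end Pool.Agent.NH7.GF
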