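import Pool.Agent.NH7.GF.An
set_option autoImplicit false
namespace Pool.Agent.NH7.GF

theorem s_tl (h1 : S_sm) : S_tl := by
  intro ι D q C δ n₀ hc
  have hq : (2 : ℝ) ≤ q := by exact_mod_cast hc.hq
  have hq0 : (0 : ℝ) < q := by linarith
  have hu0 : (0 : ℝ) < 1 / (q : ℝ) ^ 2 := by positivity
  have hu1 : 1 / (q : ℝ) ^ 2 < 1 / q := by
    rw [div_lt_div_iff₀ (by positivity) hq0]
    nlinarith
  obtain ⟨hs, -, -, -⟩ := h1 ι D q C δ n₀ hc _ hu0 hu1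
  have hg : Summable fun m : ℕ => ((1 : ℝ) / 2) ^ m := summable_geometric_two
  have hfg : Summable fun x : ι × ℕ => ((D.d x.1 : ℝ) * (1 / (q : ℝ) ^ 2) ^ D.d x.1) *
      ((1 : ℝ) / 2) ^ x.2 :=
    hs.mul_of_nonneg hg (fun v => by positivity) (fun m => by positivity)
  refine ⟨∑' x : ι × ℕ, ((D.d x.1 : ℝ) * (1 / (q : ℝ) ^ 2) ^ D.d x.1) * ((1 : ℝ) / 2) ^ x.2,
    fun u hu hu' => ?_⟩
  have hle : ∀ x : ι × ℕ, (D.d x.1 : ℝ) * u ^ ((x.2 + 2) * D.d x.1) ≤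
      ((D.d x.1 : ℝ) * (1 / (q : ℝ) ^ 2) ^ D.d x.1) * ((1 : ℝ) / 2) ^ x.2 := by
    rintro ⟨v, m⟩
    have hd := D.pos v
    have hq2 : 1 / (q : ℝ) ≤ 1 / 2 := by
      rw [div_le_div_iff₀ hq0 (by norm_num)]
      linarith
    have hu2 : u ≤ 1 / 2 := by linarith
    have e1 : u ^ (2 * D.d v) ≤ (1 / (q : ℝ) ^ 2) ^ D.d v := by
      rw [pow_mul]
      refine pow_le_pow_left₀ (by positivity) ?_ _
      have : u ^ 2 ≤ (1 / (q : ℝ)) ^ 2 := pow_le_pow_left₀ hu.le hu'.le 2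
      rwa [div_pow, one_pow] at this
    have e2 : u ^ (m * D.d v) ≤ ((1 : ℝ) / 2) ^ m := by
      calc u ^ (m * D.d v) ≤ u ^ m :=
            pow_le_pow_of_le_one hu.le (by linarith) (Nat.le_mul_of_pos_right m hd)
        _ ≤ (1 / 2) ^ m := pow_le_pow_left₀ hu.le hu2 m
    have e3 : u ^ ((m + 2) * D.d v) = u ^ (2 * D.d v) * u ^ (m * D.d v) := by
      rw [← pow_add]
      congr 1
      ring
    simp only
    rw [e3, mul_assoc]
    have e4 : u ^ (2 * D.d v) * u ^ (m * D.d v) ≤ (1 / (q : ℝ) ^ 2) ^ D.d v * (1 / 2) ^ m :=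
      mul_le_mul e1 e2 (by positivity) (by positivity)
    have e5 : (0 : ℝ) ≤ (D.d v : ℝ) := by positivity
    exact mul_le_mul_of_nonneg_left e4 e5
  have hsum : Summable fun x : ι × ℕ => (D.d x.1 : ℝ) * u ^ ((x.2 + 2) * D.d x.1) :=
    Summable.of_nonneg_of_le (fun x => by positivity) hle hfg
  exact ⟨hsum, hsum.tsum_le_tsum hle hfg⟩

end Pool.Agent.NH7.GF
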