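import Pool.Agent.NH7.GF.An

/-!
# E4. The sum over the elements, without a character
-/

set_option autoImplicit false

namespace Pool.Agent.NH7.GF

namespace tr18

open Finset

lemma S_one {ι : Type} (D : Dg ι) (n : ℕ) : D.S (fun _ => 1) n = (Nat.card (D.Ef n) : ℂ) := by
  unfold Dg.S
  simp [Finsupp.prod, tsum_const]

lemma hasSum_congr' {f g : ℕ → ℝ} {a : ℝ} (h : ∀ n, f n = g n) : HasSum f a ↔ HasSum g a := by
  rw [show f = g from funext h]

lemma one_sub_pow_le {x : ℝ} (h0 : 0 ≤ x) (δ : ℕ) : 1 - x ^ δ ≤ δ * (1 - x) := by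
  have := one_add_mul_le_pow (a := x - 1) (by linarith) δ
  have e : 1 + (x - 1) = x := by ring
  rw [e] at this
  nlinarith

lemma hs1 {x : ℝ} (h0 : 0 < x) (h1 : x < 1) {δ : ℕ} (hδ : 1 ≤ δ) :
    HasSum (fun n : ℕ => if δ ∣ n then x ^ n else 0) (1 - x ^ δ)⁻¹ := by
  have hy : x ^ δ < 1 := pow_lt_one₀ h0.le h1 (by omega)
  have hinj : Function.Injective (fun m : ℕ => δ * m) := fun a b h =>
    Nat.eq_of_mul_eq_mul_left (by omega) h
  rw [← hinj.hasSum_iff]
  · have := hasSum_geometric_of_lt_one (pow_nonneg h0.le δ) hy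
    convert this using 2 with m
    simp [pow_mul]
  · intro n hn
    rw [if_neg]
    rintro ⟨m, rfl⟩
    exact hn ⟨m, rfl⟩

lemma hs2 {x : ℝ} (h0 : 0 < x) (h1 : x < 1) {δ : ℕ} (hδ : 1 ≤ δ) :
    HasSum (fun n : ℕ => if δ ∣ n then (n : ℝ) * x ^ n else 0)
      (δ * (x ^ δ / (1 - x ^ δ) ^ 2)) := by
  have hy : x ^ δ < 1 := pow_lt_one₀ h0.le h1 (by omega)
  have hinj : Function.Injective (fun m : ℕ => δ * m) := fun a b h =>
    Nat.eq_of_mul_eq_mul_left (by omega) h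
  rw [← hinj.hasSum_iff]
  · have := (hasSum_coe_mul_geometric_of_norm_lt_one (r := x ^ δ)
      (by rwa [Real.norm_of_nonneg (pow_nonneg h0.le δ)])).mul_left (δ : ℝ)
    refine (hasSum_congr' ?_).mp this
    intro m
    simp only [Function.comp_apply, dvd_mul_right, if_true, Nat.cast_mul, pow_mul]
    ring
  · intro n hn
    rw [if_neg]
    rintro ⟨m, rfl⟩
    exact hn ⟨m, rfl⟩

/-- the bracket -/
lemma br {x : ℝ} (h0 : 0 < x) (h1 : x < 1) {δ : ℕ} (hδ : 1 ≤ δ) :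
    |(1 - x) * (δ * (x ^ δ / (1 - x ^ δ) ^ 2)) - (1 - x ^ δ)⁻¹| ≤ (δ : ℝ) ^ 2 := by
  set y := x ^ δ with hy0
  have hyx : y ≤ x := by
    calc y = x ^ δ := rfl
      _ ≤ x ^ 1 := pow_le_pow_of_le_one h0.le h1.le hδ
      _ = x := pow_one x
  have hy : 0 < 1 - y := by linarith
  have hge : 1 - y = (1 - x) * ∑ i ∈ range δ, x ^ i := by
    have := geom_sum_mul x δ
    rw [hy0]; linarith
  have hnum : (1 - x) * δ * y - (1 - y) = - ((1 - x) * ∑ i ∈ range δ, (x ^ i - y)) := by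
    rw [hge, sum_sub_distrib, sum_const, card_range, nsmul_eq_mul]
    ring
  have hterm : ∀ i ∈ range δ, 0 ≤ x ^ i - y ∧ x ^ i - y ≤ δ * (1 - x) := by
    intro i hi
    rw [mem_range] at hi
    constructor
    · have := pow_le_pow_of_le_one h0.le h1.le hi.le
      linarith
    · have h2 := one_sub_pow_le h0.le δ
      have h3 : x ^ i ≤ 1 := pow_le_one₀ h0.le h1.le
      linarith
  have hs0 : 0 ≤ ∑ i ∈ range δ, (x ^ i - y) := sum_nonneg fun i hi => (hterm i hi).1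
  have hs1' : ∑ i ∈ range δ, (x ^ i - y) ≤ δ * (δ * (1 - x)) := by
    calc _ ≤ ∑ i ∈ range δ, (δ * (1 - x)) := sum_le_sum fun i hi => (hterm i hi).2
      _ = _ := by rw [sum_const, card_range, nsmul_eq_mul]
  have e : (1 - x) * (δ * (y / (1 - y) ^ 2)) - (1 - y)⁻¹
      = ((1 - x) * δ * y - (1 - y)) / (1 - y) ^ 2 := by
    field_simp
  rw [e, hnum, abs_div, abs_neg, abs_of_nonneg (mul_nonneg (by linarith) hs0),
    abs_of_nonneg (by positivity), div_le_iff₀ (by positivity)]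
  calc (1 - x) * ∑ i ∈ range δ, (x ^ i - y) ≤ (1 - x) * (δ * (δ * (1 - x))) :=
        mul_le_mul_of_nonneg_left hs1' (by linarith)
    _ = (δ : ℝ) ^ 2 * (1 - x) ^ 2 := by ring
    _ ≤ (δ : ℝ) ^ 2 * (1 - y) ^ 2 := by
        apply mul_le_mul_of_nonneg_left _ (by positivity)
        apply pow_le_pow_left₀ (by linarith)
        linarith

section

variable {ι : Type} {D : Dg ι} {q : ℕ} {C : ℝ} {δ n₀ : ℕ}

/-- the exceptional part -/
noncomputable def er (D : Dg ι) (q : ℕ) (C : ℝ) (δ : ℕ) (n : ℕ) : ℝ :=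
  (Nat.card (D.Ef n) : ℝ) - if δ ∣ n then C * (q : ℝ) ^ n else 0

lemma er_zero (hc : D.Cnt q C δ n₀) {n : ℕ} (hn : n₀ ≤ n) : er D q C δ n = 0 := by
  unfold er
  split_ifs with h
  · rw [hc.h1 n hn h]; ring
  · rw [hc.h0 n hn h]; simp

lemma hsL (hc : D.Cnt q C δ n₀) {u : ℝ} (hu : 0 < u) (hu1 : u < 1 / q) :
    HasSum (fun n : ℕ => (Nat.card (D.Ef n) : ℝ) * u ^ n)
      (C * (1 - (q * u) ^ δ)⁻¹ + ∑ n ∈ range n₀, er D q C δ n * u ^ n) := by
  have hq : (0 : ℝ) < q := by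
    have := hc.hq
    exact_mod_cast (by omega : 0 < q)
  have hx0 : 0 < q * u := by positivity
  have hx1 : q * u < 1 := by
    rw [lt_div_iff₀ hq] at hu1; linarith
  have h1 := (hs1 hx0 hx1 hc.hδ).mul_left C
  have h2 : HasSum (fun n => er D q C δ n * u ^ n) (∑ n ∈ range n₀, er D q C δ n * u ^ n) := by
    apply hasSum_sum_of_ne_finset_zero
    intro n hn
    rw [er_zero hc (by simpa using hn), zero_mul]
  refine (hasSum_congr' fun n => ?_).mp (h1.add h2)
  unfold er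
  split_ifs
  · rw [mul_pow]; ring
  · ring

lemma hsF (hc : D.Cnt q C δ n₀) {u : ℝ} (hu : 0 < u) (hu1 : u < 1 / q) :
    HasSum (fun n : ℕ => (n : ℝ) * (Nat.card (D.Ef n) : ℝ) * u ^ n)
      (C * (δ * ((q * u) ^ δ / (1 - (q * u) ^ δ) ^ 2)) +
        ∑ n ∈ range n₀, (n : ℝ) * er D q C δ n * u ^ n) := by
  have hq : (0 : ℝ) < q := by
    have := hc.hq
    exact_mod_cast (by omega : 0 < q)
  have hx0 : 0 < q * u := by positivity
  have hx1 : q * u < 1 := by
    rw [lt_div_iff₀ hq] at hu1; linarith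
  have h1 := (hs2 hx0 hx1 hc.hδ).mul_left C
  have h2 : HasSum (fun n : ℕ => (n : ℝ) * er D q C δ n * u ^ n)
      (∑ n ∈ range n₀, (n : ℝ) * er D q C δ n * u ^ n) := by
    apply hasSum_sum_of_ne_finset_zero
    intro n hn
    rw [er_zero hc (by simpa using hn), mul_zero, zero_mul]
  refine (hasSum_congr' fun n => ?_).mp (h1.add h2)
  unfold er
  split_ifs
  · rw [mul_pow]; ring
  · ring

/-- the numerator is bounded -/
lemma num_le (hc : D.Cnt q C δ n₀) : ∃ K : ℝ, 0 ≤ K ∧ ∀ u : ℝ, 0 < u → u < 1 / q →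
    |(1 - q * u) * (∑' n : ℕ, (n : ℝ) * (Nat.card (D.Ef n) : ℝ) * u ^ n) -
      ∑' n : ℕ, (Nat.card (D.Ef n) : ℝ) * u ^ n| ≤ K := by
  have hq2 := hc.hq
  have hq : (1 : ℝ) ≤ q := by exact_mod_cast (by omega : 1 ≤ q)
  have hC := hc.hC
  refine ⟨C * δ ^ 2 + (∑ n ∈ range n₀, (n : ℝ) * |er D q C δ n| + ∑ n ∈ range n₀, |er D q C δ n|),
    by positivity, fun u hu hu1 => ?_⟩
  have hx0 : 0 < q * u := by positivity
  have hx1 : q * u < 1 := by
    rw [lt_div_iff₀ (by linarith)] at hu1; linarith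
  have hu1' : u ≤ 1 := by nlinarith
  rw [(hsL hc hu hu1).tsum_eq, (hsF hc hu hu1).tsum_eq]
  have hb := br hx0 hx1 hc.hδ
  set y := (q * u) ^ δ
  have e1 : |∑ n ∈ range n₀, (n : ℝ) * er D q C δ n * u ^ n| ≤
      ∑ n ∈ range n₀, (n : ℝ) * |er D q C δ n| := by
    refine (abs_sum_le_sum_abs _ _).trans (sum_le_sum fun n _ => ?_)
    rw [abs_mul, abs_mul, abs_of_nonneg (Nat.cast_nonneg n), abs_of_nonneg (pow_nonneg hu.le n)]
    exact mul_le_of_le_one_right (by positivity) (pow_le_one₀ hu.le hu1')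
  have e2 : |∑ n ∈ range n₀, er D q C δ n * u ^ n| ≤ ∑ n ∈ range n₀, |er D q C δ n| := by
    refine (abs_sum_le_sum_abs _ _).trans (sum_le_sum fun n _ => ?_)
    rw [abs_mul, abs_of_nonneg (pow_nonneg hu.le n)]
    exact mul_le_of_le_one_right (by positivity) (pow_le_one₀ hu.le hu1')
  set E1 := ∑ n ∈ range n₀, (n : ℝ) * er D q C δ n * u ^ n
  set E2 := ∑ n ∈ range n₀, er D q C δ n * u ^ n
  have e : (1 - q * u) * (C * (δ * (y / (1 - y) ^ 2)) + E1) - (C * (1 - y)⁻¹ + E2)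
      = C * ((1 - q * u) * (δ * (y / (1 - y) ^ 2)) - (1 - y)⁻¹) + ((1 - q * u) * E1 - E2) := by ring
  rw [e]
  refine (abs_add_le _ _).trans (add_le_add ?_ ((abs_sub _ _).trans (add_le_add ?_ e2)))
  · rw [abs_mul, abs_of_pos hC]
    exact mul_le_mul_of_nonneg_left hb hC.le
  · rw [abs_mul, abs_of_nonneg (by linarith : (0:ℝ) ≤ 1 - q * u)]
    calc (1 - q * u) * |E1| ≤ 1 * |E1| :=
          mul_le_mul_of_nonneg_right (by linarith) (abs_nonneg _)
      _ ≤ _ := by rw [one_mul]; exact e1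

lemma card_zero : Nat.card (D.Ef 0) = 1 := by
  rw [Nat.card_eq_one_iff_unique]
  constructor
  · constructor
    rintro ⟨E, hE⟩ ⟨E', hE'⟩
    have key : ∀ E : ι →₀ ℕ, (E.sum fun v m => m * D.d v) = 0 → E = 0 := by
      intro E hE
      ext v
      by_contra hne
      have hv : v ∈ E.support := by simpa using hne
      rw [Finsupp.sum, sum_eq_zero_iff] at hE
      have h1 := hE v hv
      have h2 := D.pos v
      rcases Nat.mul_eq_zero.mp h1 with h | h
      · exact hne h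
      · omega
    rw [Subtype.mk.injEq, key E hE, key E' hE']
  · exact ⟨⟨0, by simp⟩⟩

/-- the denominator is bounded below -/
lemma den_ge (hc : D.Cnt q C δ n₀) : ∃ ε : ℝ, 0 < ε ∧ ∀ u : ℝ, 0 < u → u < 1 / q →
    ε ≤ (1 - q * u) * ∑' n : ℕ, (Nat.card (D.Ef n) : ℝ) * u ^ n := by
  have hq2 := hc.hq
  have hq : (1 : ℝ) ≤ q := by exact_mod_cast (by omega : 1 ≤ q)
  have hC := hc.hC
  have hδ := hc.hδ
  have hδ' : (0 : ℝ) < δ := by exact_mod_cast hδ
  refine ⟨min (1 / 2) (C / δ * (1 / 2) ^ (n₀ * δ)), by positivity, fun u hu hu1 => ?_⟩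
  have hx0 : 0 < q * u := by positivity
  have hx1 : q * u < 1 := by
    rw [lt_div_iff₀ (by linarith)] at hu1; linarith
  have hs := (hsL hc hu hu1).summable
  have hnn : ∀ n : ℕ, 0 ≤ (Nat.card (D.Ef n) : ℝ) * u ^ n := fun n => by positivity
  rcases le_total (q * u) (1 / 2) with h | h
  · refine (min_le_left _ _).trans ?_
    have h1 : (1 : ℝ) ≤ ∑' n : ℕ, (Nat.card (D.Ef n) : ℝ) * u ^ n := by
      have := hs.le_tsum 0 (fun n _ => hnn n)
      rwa [card_zero, pow_zero, Nat.cast_one, one_mul] at this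
    nlinarith
  · refine (min_le_right _ _).trans ?_
    -- L ≥ C x^(n₀ δ) / (1 - x^δ)
    have h2 : C * (q * u) ^ (n₀ * δ) * (1 - (q * u) ^ δ)⁻¹ ≤
        ∑' n : ℕ, (Nat.card (D.Ef n) : ℝ) * u ^ n := by
      have hy : (q * u) ^ δ < 1 := pow_lt_one₀ hx0.le hx1 (by omega)
      have hg := (hasSum_geometric_of_lt_one (pow_nonneg hx0.le δ) hy).mul_left
        (C * (q * u) ^ (n₀ * δ))
      rw [← hg.tsum_eq]
      have hinj : Function.Injective (fun m : ℕ => (n₀ + m) * δ) := fun a b h => by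
        have := Nat.eq_of_mul_eq_mul_right (by omega : 0 < δ) h
        omega
      refine hg.summable.tsum_le_tsum_of_inj _ hinj (fun n _ => hnn n) (fun m => ?_) hs
      rw [hc.h1 _ (by nlinarith) (dvd_mul_left _ _)]
      apply le_of_eq
      rw [mul_assoc C, ← pow_mul, ← pow_add, mul_assoc C, ← mul_pow]
      congr 2
      ring
    have h3 := one_sub_pow_le hx0.le δ
    have hy : 0 < 1 - (q * u) ^ δ := by
      have : (q * u) ^ δ < 1 := pow_lt_one₀ hx0.le hx1 (by omega)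
      linarith
    calc C / δ * (1 / 2) ^ (n₀ * δ) ≤ C / δ * (q * u) ^ (n₀ * δ) := by gcongr
      _ = C * (q * u) ^ (n₀ * δ) * (1 / δ) := by ring
      _ ≤ C * (q * u) ^ (n₀ * δ) * ((1 - q * u) * (1 - (q * u) ^ δ)⁻¹) := by
          apply mul_le_mul_of_nonneg_left _ (by positivity)
          rw [← div_eq_mul_inv, div_le_div_iff₀ hδ' hy]
          linarith
      _ = (1 - q * u) * (C * (q * u) ^ (n₀ * δ) * (1 - (q * u) ^ δ)⁻¹) := by ring
      _ ≤ _ := mul_le_mul_of_nonneg_left h2 (by linarith)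

end

end tr18

open tr18 in
theorem s_tr (h1 : S_sm) (h2 : S_eul) (h3 : S_tl) : S_tr := by
  intro ι D q C δ n₀ hc
  obtain ⟨B, hB⟩ := h3 ι D q C δ n₀ hc
  obtain ⟨K, hK0, hK⟩ := num_le hc
  obtain ⟨ε, hε, hden⟩ := den_ge hc
  refine ⟨K / ε + B, fun u hu hu1 => ?_⟩
  have hq2 := hc.hq
  have hq : (1 : ℝ) ≤ q := by exact_mod_cast (by omega : 1 ≤ q)
  have hx0 : 0 < q * u := by positivity
  have hx1 : q * u < 1 := by
    rw [lt_div_iff₀ (by linarith)] at hu1; linarith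
  obtain ⟨hs1', hs2', -, -⟩ := h1 ι D q C δ n₀ hc u hu hu1
  obtain ⟨hs3, hB'⟩ := hB u hu hu1
  set T := ∑' v, (D.d v : ℝ) * u ^ D.d v with hT
  set H := ∑' x : ι × ℕ, (D.d x.1 : ℝ) * u ^ ((x.2 + 2) * D.d x.1) with hH
  set W := ∑' x : ι × ℕ, (D.d x.1 : ℝ) * u ^ ((x.2 + 1) * D.d x.1) with hW
  set L := ∑' n : ℕ, (Nat.card (D.Ef n) : ℝ) * u ^ n with hL
  set F := ∑' n : ℕ, (n : ℝ) * (Nat.card (D.Ef n) : ℝ) * u ^ n with hF
  have hH0 : 0 ≤ H := tsum_nonneg fun x => by positivity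
  -- W = T + H
  have hWT : W = T + H := by
    rw [hW, hs2'.tsum_prod, hH, hs3.tsum_prod, hT, ← hs1'.tsum_add]
    · congr 1
      ext v
      have := (hs2'.prod_factor v)
      rw [this.tsum_eq_zero_add]
      simp
    · exact hs3.prod
  -- F = W L
  have hFW : F = W * L := by
    have := h2 ι D q C δ n₀ hc (fun _ => 1) (fun _ => by simp) u hu hu1
    simp only [S_one] at this
    have e1 : ((F : ℝ) : ℂ) = ((W * L : ℝ) : ℂ) := by
      rw [hF, hW, hL, Complex.ofReal_mul, Complex.ofReal_tsum, Complex.ofReal_tsum,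
        Complex.ofReal_tsum]
      push_cast
      rw [this]
      simp
    exact_mod_cast e1
  have hnum := hK u hu hu1
  have hde := hden u hu hu1
  have hL0 : 0 < (1 - q * u) * L := lt_of_lt_of_le hε hde
  have hx : 0 < 1 - q * u := by linarith
  have hLp : 0 < L := by
    by_contra hcon
    have := mul_nonpos_of_nonneg_of_nonpos hx.le (not_lt.mp hcon)
    linarith
  have key : W - 1 / (1 - q * u) = ((1 - q * u) * F - L) / ((1 - q * u) * L) := by
    rw [hFW]; field_simp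
  have hk : |W - 1 / (1 - q * u)| ≤ K / ε := by
    rw [key, abs_div, abs_of_pos hL0]
    exact div_le_div₀ hK0 hnum hε hde
  have e : T - 1 / (1 - q * u) = (W - 1 / (1 - q * u)) - H := by rw [hWT]; ring
  rw [e]
  refine (abs_sub _ _).trans (add_le_add hk ?_)
  rw [abs_of_nonneg hH0]
  exact hB'

end Pool.Agent.NH7.GF
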