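import Pool.Agent.NH7.GF.Lt
import Pool.Agent.NH7.GF.AnP
import Pool.Agent.NH7.GF.AuxP
import Pool.Agent.NH7.GF.BdP
import Pool.Agent.NH7.GF.CharP
import Pool.Agent.NH7.GF.ClaP
import Pool.Agent.NH7.GF.CldP
import Pool.Agent.NH7.GF.ClsP
import Pool.Agent.NH7.GF.CnjP
import Pool.Agent.NH7.GF.CtP
import Pool.Agent.NH7.GF.DnsP
import Pool.Agent.NH7.GF.DropP
import Pool.Agent.NH7.GF.DvdP
import Pool.Agent.NH7.GF.EfP
import Pool.Agent.NH7.GF.EulP
import Pool.Agent.NH7.GF.ExtP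
import Pool.Agent.NH7.GF.FinP
import Pool.Agent.NH7.GF.FrbP
import Pool.Agent.NH7.GF.FrpP
import Pool.Agent.NH7.GF.GeP
import Pool.Agent.NH7.GF.HzP
import Pool.Agent.NH7.GF.InzP
import Pool.Agent.NH7.GF.KsP
import Pool.Agent.NH7.GF.KtP
import Pool.Agent.NH7.GF.LocP
import Pool.Agent.NH7.GF.LoopP
import Pool.Agent.NH7.GF.NvP
import Pool.Agent.NH7.GF.PickP
import Pool.Agent.NH7.GF.PlcP
import Pool.Agent.NH7.GF.PolP
import Pool.Agent.NH7.GF.RayP
import Pool.Agent.NH7.GF.SfinP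
import Pool.Agent.NH7.GF.SmP
import Pool.Agent.NH7.GF.SunP
import Pool.Agent.NH7.GF.TlQ
import Pool.Agent.NH7.GF.TrP
import Pool.Agent.NH7.GU.CycP
import Pool.Agent.NH7.BK.BtP
import Pool.Agent.NH7.BK.CmpP
import Pool.Agent.NH7.BK.CorOP
import Pool.Agent.NH7.BK.CorP
import Pool.Agent.NH7.BK.CorZP
import Pool.Agent.NH7.BK.CritP
import Pool.Agent.NH7.BK.IntP
import Pool.Agent.NH7.BK.LiftP
import Pool.Agent.NH7.BK.StrP
import Pool.Agent.NH7.BK.TameP

/-!
# Selmer groups over global function fields: all parts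
-/

set_option autoImplicit false
set_option linter.unusedSectionVars false

namespace Pool.Agent.NH7.GF

open Pool.Agent.H525R3.FFp

theorem t_sm : S_sm := s_sm s_ef

theorem t_eul : S_eul := s_eul s_ef t_sm

theorem t_tl : S_tl := s_tl t_sm

theorem t_tr : S_tr := s_tr t_sm t_eul t_tl

theorem t_bd : S_bd := s_bd t_sm t_eul t_tl (s_nv t_sm (s_ge s_ef t_sm))

theorem t_cld : S_cld := s_cld s_ray t_sm t_tr t_bd s_hz

theorem t_pol : S_pol := s_pol s_ray t_sm t_tr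

theorem t_an : S_an := s_an t_pol t_cld (s_dns (s_kt s_ks) t_pol s_frp)

theorem t_loop : S_loop :=
  s_loop (s_pick s_fin s_sfin (s_ct s_fin s_sfin)) s_drop (s_aux s_fin) s_sfin

theorem t_char : S_char := s_char t_loop

theorem t_crit : Pool.Agent.NH7.BK.S_crit :=
  Pool.Agent.NH7.BK.s_crit Pool.Agent.NH7.BK.s_bt
    (Pool.Agent.NH7.BK.s_tame Pool.Agent.NH7.BK.s_bt)
    (Pool.Agent.NH7.BK.s_str Pool.Agent.NH7.BK.s_bt) Pool.Agent.NH7.BK.s_lift

theorem t_cmp : Pool.Agent.NH7.BK.S_cmp :=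
  Pool.Agent.NH7.BK.s_cmp Pool.Agent.NH7.GU.s_cyc t_crit
    (Pool.Agent.NH7.BK.s_corO Pool.Agent.NH7.BK.s_cor)
    (Pool.Agent.NH7.BK.s_corZ Pool.Agent.NH7.BK.s_cor)

variable {k K : Type} [Field k] [Finite k] [Field K] [Algebra k K] [FF.IsFF k K] {p : ℕ}
  [hp : Fact p.Prime] {ζ : K} (hζ : IsPrimitiveRoot ζ p)

theorem t_lf : Lf k hζ := lf hζ s_ext s_frb s_inz s_dvd

theorem t_gl (hp2 : p ≠ 2) : (kdF hζ (t_lf (k := k) hζ)).Gl :=
  gl hζ (t_lf hζ) hp2 s_cls s_sun (s_loc s_hz s_frp) t_an (s_cla t_cld)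

section ram

variable (k)

include k hζ

/-- a homomorphism to `ℤ/p` which is not trivial on the inertia groups above a given finite set -/
theorem exists_ram {S : Set (ValuationSubring K)} (hS : S.Finite) :
    ∃ χ : GK K → ZMod p, Hm χ ∧ (∃ σ, χ σ ≠ 0) ∧
      ∀ A : ValuationSubring (SeparableClosure K), A ≠ ⊤ →
        A.comap (algebraMap K (SeparableClosure K)) ∈ S → ∃ g ∈ Inr A, χ g ≠ 0 := by
  classical
  have hinj : Function.Injective (fun v : FF.Place k K => v.O) := fun v w hvw => O_inj hvw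
  have hfS : {v : FF.Place k K | v.O ∈ S}.Finite := hS.preimage hinj.injOn
  obtain ⟨v0, -⟩ := exists_place (k := k) (K := K)
  obtain ⟨κ, hκ⟩ := LocP.exists_global (insert v0 hfS.toFinset) (fun _ => 1) (fun _ => 1)
  have h := t_lf (k := k) hζ
  have hram : ∀ v ∈ insert v0 hfS.toFinset, ∃ g ∈ Inr (Av v), kp hζ κ g ≠ 0 := by
    intro v hv
    by_contra hne
    push Not at hne
    have h1 := h.dvd_of_inr v κ hne
    rw [(hκ v hv).1] at h1
    have h2 : (p : ℤ) ≤ 1 := Int.le_of_dvd one_pos h1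
    have h3 := hp.out.two_le
    omega
  refine ⟨kp hζ κ, ⟨kp_cont hζ κ, kp_mul_right hζ κ⟩, ?_, fun A hA hAS => ?_⟩
  · obtain ⟨g, -, hg⟩ := hram v0 (Finset.mem_insert_self _ _)
    exact ⟨g, hg⟩
  · obtain ⟨v, hv⟩ := comap_ne (k := k) s_plc hA
    have hv' : A.comap (algebraMap K (SeparableClosure K)) = v.O := hv
    rw [hv'] at hAS
    obtain ⟨g, hg, hg0⟩ := hram v (Finset.mem_insert_of_mem (hfS.mem_toFinset.2 hAS))
    obtain ⟨a, ha⟩ := Av_mv hζ h s_cnj hv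
    refine ⟨a⁻¹ * g * a, ?_, ?_⟩
    · rw [Inr_mv a, ha]
      have e2 : a * (a⁻¹ * g * a) * a⁻¹ = g := by group
      rw [e2]
      exact hg
    · have e3 := hm_conj (X := kp hζ κ) ⟨kp_cont hζ κ, kp_mul_right hζ κ⟩ a⁻¹ g
      rw [inv_inv] at e3
      rw [e3]
      exact hg0

/-- homomorphisms to `ℤ/p` are ramified at finitely many places only -/
theorem fin_ram {χ : GK K → ZMod p} (hχ : Hm χ) : ∃ T : Set (ValuationSubring K), T.Finite ∧
    ∀ A : ValuationSubring (SeparableClosure K), A ≠ ⊤ →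
      A.comap (algebraMap K (SeparableClosure K)) ∉ T → ∀ g ∈ Inr A, χ g = 0 := by
  obtain ⟨κ, hκ⟩ := kp_surj hζ hχ.c hχ.m
  have hf : {v : FF.Place k K | v.ord (κ : K) ≠ 0}.Finite := finite_support (κ : K)
  refine ⟨(fun v : FF.Place k K => v.O) '' {v : FF.Place k K | v.ord (κ : K) ≠ 0}, hf.image _,
    fun A hA hAT g hg => ?_⟩
  obtain ⟨v, hv⟩ := comap_ne (k := k) s_plc hA
  have hv' : A.comap (algebraMap K (SeparableClosure K)) = v.O := hv
  have h0 : v.ord (κ : K) = 0 := by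
    by_contra h0
    exact hAT ⟨v, h0, hv'.symm⟩
  rw [← hκ]
  exact s_inz k K p ζ hζ v A hv κ (by rw [h0]; exact dvd_zero _) g hg

end ram

end Pool.Agent.NH7.GF
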