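import Pool.Agent.NH7.GF.Kum

/-!
# The fields cut out by homomorphisms to `ℤ/p`
-/

set_option autoImplicit false
set_option linter.unusedSectionVars false

namespace Pool.Agent.NH7.GF

variable {K : Type} [Field K] {p : ℕ} [hp : Fact p.Prime]

theorem hm_one {X : GK K → ZMod p} (hx : Hm X) : X 1 = 0 := by
  have h := hx.m 1 1
  rw [mul_one] at h
  exact left_eq_add.1 h

theorem hm_inv {X : GK K → ZMod p} (hx : Hm X) (g : GK K) : X g⁻¹ = - X g := by
  have h := hx.m g⁻¹ g
  rw [inv_mul_cancel, hm_one hx] at h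
  exact eq_neg_of_add_eq_zero_left h.symm

theorem hm_conj {X : GK K → ZMod p} (hx : Hm X) (g y : GK K) : X (g * y * g⁻¹) = X y := by
  rw [hx.m, hx.m, hm_inv hx]
  ring

theorem hm_pow {X : GK K → ZMod p} (hx : Hm X) (g : GK K) (n : ℕ) : X (g ^ n) = n * X g := by
  induction n with
  | zero => rw [pow_zero, hm_one hx, Nat.cast_zero, zero_mul]
  | succ n ih => rw [pow_succ, hx.m, ih]; push_cast; ring

theorem hm_ex {X : GK K → ZMod p} (hx : Hm X) {g : GK K} (hg : X g ≠ 0) : ∃ σ, X σ = 1 := by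
  refine ⟨g ^ ((X g)⁻¹).val, ?_⟩
  rw [hm_pow hx]
  simp only [ZMod.natCast_val, ZMod.cast_id', id_eq]
  exact inv_mul_cancel₀ hg

/-- the kernel -/
def kerX {X : GK K → ZMod p} (hx : Hm X) : Subgroup (GK K) where
  carrier := {g | X g = 0}
  mul_mem' := fun {a b} ha hb => by
    rw [Set.mem_ofPred_eq] at ha hb ⊢
    rw [hx.m, ha, hb, add_zero]
  one_mem' := hm_one hx
  inv_mem' := fun {a} ha => by
    rw [Set.mem_ofPred_eq] at ha ⊢
    rw [hm_inv hx, ha, neg_zero]

theorem mem_kerX {X : GK K → ZMod p} (hx : Hm X) {g : GK K} : g ∈ kerX hx ↔ X g = 0 := Iff.rfl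

theorem kerX_normal {X : GK K → ZMod p} (hx : Hm X) : (kerX hx).Normal := ⟨fun n hn g => by
  rw [mem_kerX] at hn ⊢
  rw [hm_conj hx, hn]⟩

theorem kerX_open {X : GK K → ZMod p} (hx : Hm X) : IsOpen (kerX hx : Set (GK K)) :=
  (isOpen_discrete {0}).preimage hx.c

theorem kerX_closed {X : GK K → ZMod p} (hx : Hm X) : IsClosed (kerX hx : Set (GK K)) :=
  isClosed_singleton.preimage hx.c

/-- the field cut out by `X` -/
noncomputable def fld {X : GK K → ZMod p} (hx : Hm X) :
    IntermediateField K (SeparableClosure K) := IntermediateField.fixedField (kerX hx)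

theorem fld_fix {X : GK K → ZMod p} (hx : Hm X) : (fld hx).fixingSubgroup = kerX hx :=
  InfiniteGalois.fixingSubgroup_fixedField ⟨kerX hx, kerX_closed hx⟩

theorem fld_gal {X : GK K → ZMod p} (hx : Hm X) : IsGalois K (fld hx) := by
  have h : (fld hx).fixingSubgroup.Normal := by
    rw [fld_fix hx]
    exact kerX_normal hx
  exact (InfiniteGalois.normal_iff_isGalois _).1 h

theorem fld_fin {X : GK K → ZMod p} (hx : Hm X) : FiniteDimensional K (fld hx) := by
  rw [← InfiniteGalois.isOpen_iff_finite, fld_fix hx]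
  exact kerX_open hx

theorem fld_iff {X : GK K → ZMod p} (hx : Hm X) (g : GK K) : X g = 0 ↔ ∀ x ∈ fld hx, g x = x := by
  rw [← IntermediateField.mem_fixingSubgroup_iff, fld_fix hx, mem_kerX]

theorem fld_cyc {X : GK K → ZMod p} (hx : Hm X) {g : GK K} (hg : X g = 1) :
    IsCyclic (fld hx ≃ₐ[K] fld hx) ∧ Module.finrank K (fld hx) = p := by
  have := fld_gal hx
  have := fld_fin hx
  set r := AlgEquiv.restrictNormalHom (F := K) (K₁ := SeparableClosure K) (fld hx) with hr
  have hker : ∀ h : GK K, r h = 1 ↔ X h = 0 := by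
    intro h
    rw [fld_iff hx]
    constructor
    · intro h1 x hx'
      have h2 := AlgEquiv.restrictNormal_commutes h (fld hx) ⟨x, hx'⟩
      have h3 : h.restrictNormal (fld hx) = 1 := h1
      rw [h3] at h2
      exact h2.symm
    · intro h1
      refine AlgEquiv.ext fun x => Subtype.ext ?_
      have h2 := AlgEquiv.restrictNormal_commutes h (fld hx) x
      exact h2.trans (h1 x x.2)
  have hXp : ∀ k : ZMod p, X (g ^ k.val) = k := by
    intro k
    rw [hm_pow hx, hg, mul_one]
    simp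
  have hsurj : Function.Surjective (fun k : ZMod p => r g ^ k.val) := by
    intro τ
    obtain ⟨h, rfl⟩ := AlgEquiv.restrictNormalHom_surjective (F := K) (K₁ := fld hx)
      (SeparableClosure K) τ
    refine ⟨X h, ?_⟩
    have h1 : r ((g ^ (X h).val)⁻¹ * h) = 1 := by
      rw [hker, hx.m, hm_inv hx, hXp, neg_add_cancel]
    rw [map_mul, map_inv, inv_mul_eq_one, map_pow] at h1
    exact h1
  have hinj : Function.Injective (fun k : ZMod p => r g ^ k.val) := by
    intro k l hkl
    have h1 : r ((g ^ k.val)⁻¹ * g ^ l.val) = 1 := by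
      rw [map_mul, map_inv, inv_mul_eq_one, map_pow, map_pow]
      exact hkl
    rw [hker, hx.m, hm_inv hx, hXp, hXp, neg_add_eq_zero] at h1
    exact h1
  have hcard : Nat.card (fld hx ≃ₐ[K] fld hx) = p := by
    rw [← Nat.card_eq_of_bijective _ ⟨hinj, hsurj⟩, Nat.card_zmod]
  exact ⟨isCyclic_of_prime_card hcard, by rw [← IsGalois.card_aut_eq_finrank, hcard]⟩

/-- the homomorphism which cuts out `L` -/
theorem exists_hm (L : IntermediateField K (SeparableClosure K))
    (h₀ : IsGalois K L ∧ Module.finrank K L = p) :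
    ∃ X : GK K → ZMod p, Hm X ∧ ∀ σ : GK K, X σ = 0 ↔ ∀ x ∈ L, σ x = x := by
  rcases h₀ with ⟨hgal, hdeg⟩
  have : NeZero p := ⟨hp.out.ne_zero⟩
  have hfd : FiniteDimensional K L := FiniteDimensional.of_finrank_pos (by
    rw [hdeg]
    exact hp.out.pos)
  have hcard : Nat.card (L ≃ₐ[K] L) = p := by
    rw [IsGalois.card_aut_eq_finrank, hdeg]
  have hcard' : Nat.card (Multiplicative (ZMod p)) = p := by
    rw [Nat.card_congr Multiplicative.toAdd, Nat.card_zmod]
  let e : (L ≃ₐ[K] L) ≃* Multiplicative (ZMod p) :=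
    mulEquivOfPrimeCardEq (p := p) hcard hcard'
  let r := AlgEquiv.restrictNormalHom (F := K) (K₁ := SeparableClosure K) L
  have hr : ∀ σ : GK K, r σ = 1 ↔ ∀ x ∈ L, σ x = x := by
    intro h
    constructor
    · intro h1 x hx
      have h2 := AlgEquiv.restrictNormal_commutes h L ⟨x, hx⟩
      have h3 : h.restrictNormal L = 1 := h1
      rw [h3] at h2
      exact h2.symm
    · intro h1
      refine AlgEquiv.ext fun x => Subtype.ext ?_
      have h2 := AlgEquiv.restrictNormal_commutes h L x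
      exact h2.trans (h1 x x.2)
  have hker : ∀ σ : GK K, (e (r σ)).toAdd = 0 ↔ ∀ x ∈ L, σ x = x := by
    intro σ
    rw [← hr σ, toAdd_eq_zero, map_eq_one_iff e e.injective]
  have hmul : ∀ g h : GK K, (e (r (g * h))).toAdd = (e (r g)).toAdd + (e (r h)).toAdd := by
    intro g h
    rw [map_mul, map_mul, toAdd_mul]
  refine ⟨fun σ => (e (r σ)).toAdd, ⟨?_, hmul⟩, hker⟩
  have hopen : IsOpen (L.fixingSubgroup : Set (GK K)) := L.fixingSubgroup_isOpen
  refine cont_of_open hmul hopen (one_mem _) fun g hg => ?_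
  rw [hker]
  exact (IntermediateField.mem_fixingSubgroup_iff _ _).1 hg

end Pool.Agent.NH7.GF
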