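import Pool.Agent.NH7.GF.Stms
import Pool.Agent.NH7.GF.Fld
import Pool.Agent.NH7.BK.Stms

/-!
# Selmer groups over global function fields: the characters with trivial residual Selmer group
-/

set_option autoImplicit false
set_option linter.unusedSectionVars false

namespace Pool.Agent.NH7.GF

open Pool.Agent.H525R3.FFp
open Pool.Agent.NH7.GU (Chr)
open Pool.Agent.NH7.BK (Pl Rp SelV Min)

section conj

variable {K : Type} [Field K]

theorem val_lt_one_iff {F : Type} [Field F] (A : ValuationSubring F) (y : F) :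
    A.valuation y < 1 ↔ y = 0 ∨ y⁻¹ ∉ A := by
  by_cases h0 : y = 0
  · simp [h0]
  have h3 : A.valuation y ≠ 0 := (A.valuation.ne_zero_iff).2 h0
  rw [← A.valuation_le_one_iff, map_inv₀, not_le, one_lt_inv₀ (zero_lt_iff.2 h3)]
  simp [h0]

/-- the image of `A` under `g` -/
noncomputable def mv (g : GK K) (A : ValuationSubring (SeparableClosure K)) :
    ValuationSubring (SeparableClosure K) :=
  A.comap ((g⁻¹ : GK K) : SeparableClosure K →+* SeparableClosure K)

theorem mem_mv {g : GK K} {A : ValuationSubring (SeparableClosure K)} {x : SeparableClosure K} :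
    x ∈ mv g A ↔ g⁻¹ x ∈ A := Iff.rfl

theorem mv_lt {g : GK K} {A : ValuationSubring (SeparableClosure K)} {x : SeparableClosure K} :
    (mv g A).valuation x < 1 ↔ A.valuation (g⁻¹ x) < 1 := by
  rw [val_lt_one_iff, val_lt_one_iff, mem_mv, map_inv₀, map_eq_zero_iff _ (g⁻¹ : GK K).injective]

theorem inv_app (g : GK K) (x : SeparableClosure K) : g⁻¹ (g x) = x := by
  rw [← AlgEquiv.mul_apply, inv_mul_cancel, AlgEquiv.one_apply]

theorem app_inv (g : GK K) (x : SeparableClosure K) : g (g⁻¹ x) = x := by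
  rw [← AlgEquiv.mul_apply, mul_inv_cancel, AlgEquiv.one_apply]

theorem Dec_mv {A : ValuationSubring (SeparableClosure K)} (g x : GK K) :
    x ∈ Dec A ↔ g * x * g⁻¹ ∈ Dec (mv g A) := by
  constructor
  · intro h y
    rw [mem_mv, mem_mv, AlgEquiv.mul_apply, AlgEquiv.mul_apply, inv_app]
    exact h _
  · intro h y
    have := h (g y)
    rw [mem_mv, mem_mv, AlgEquiv.mul_apply, AlgEquiv.mul_apply, inv_app, inv_app] at this
    exact this

theorem Inr_mv {A : ValuationSubring (SeparableClosure K)} (g x : GK K) :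
    x ∈ Inr A ↔ g * x * g⁻¹ ∈ Inr (mv g A) := by
  rw [mem_Inr, mem_Inr]
  refine and_congr (Dec_mv g x) ⟨fun h y hy => ?_, fun h y hy => ?_⟩
  · rw [mv_lt, map_sub, AlgEquiv.mul_apply, AlgEquiv.mul_apply, inv_app]
    exact h _ hy
  · have := h (g y) (by rw [mem_mv, inv_app]; exact hy)
    rw [mv_lt, map_sub, AlgEquiv.mul_apply, AlgEquiv.mul_apply, inv_app, inv_app] at this
    exact this

theorem mv_eq {A : ValuationSubring (SeparableClosure K)} {g : GK K} (hg : g ∈ Dec A) :
    mv g A = A := by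
  ext x
  rw [mem_mv]
  exact (Dec A).inv_mem hg x

theorem Inr_norm {A : ValuationSubring (SeparableClosure K)} {g x : GK K} (hg : g ∈ Dec A)
    (hx : x ∈ Inr A) : g * x * g⁻¹ ∈ Inr A := by
  have := (Inr_mv g x).1 hx
  rwa [mv_eq hg] at this

theorem mv_comap (g : GK K) (A : ValuationSubring (SeparableClosure K)) :
    (mv g A).comap (algebraMap K (SeparableClosure K)) =
      A.comap (algebraMap K (SeparableClosure K)) := by
  ext x
  rw [ValuationSubring.mem_comap, ValuationSubring.mem_comap, mem_mv, AlgEquiv.commutes]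

theorem mv_top {g : GK K} {A : ValuationSubring (SeparableClosure K)} (h : A ≠ ⊤) :
    mv g A ≠ ⊤ := by
  intro h1
  apply h
  ext x
  refine ⟨fun _ => trivial, fun _ => ?_⟩
  have h2 : g x ∈ mv g A := by
    rw [h1]
    trivial
  rwa [mem_mv, inv_app] at h2

/-- the valuation rings `A` of the separable closure with `A ∩ K` not in `S` -/
abbrev Out (S : Set (ValuationSubring K)) : Type :=
  {A : ValuationSubring (SeparableClosure K) // A ≠ ⊤ ∧
    A.comap (algebraMap K (SeparableClosure K)) ∉ S}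

/-- the valuation rings `A` of the separable closure with `A ∩ K` in `S` -/
abbrev Str (S : Set (ValuationSubring K)) : Type :=
  {A : ValuationSubring (SeparableClosure K) // A ≠ ⊤ ∧
    A.comap (algebraMap K (SeparableClosure K)) ∈ S}

/-- the inertia and decomposition groups -/
noncomputable def plF (S : Set (ValuationSubring K)) : Pl (GK K) where
  ι := Out S
  I := fun A => Inr A.1
  DI := fun A => Dec A.1
  I_le := fun A => Inr_le A.1
  I_nor := fun A g hg x hx => Inr_norm hg hx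
  I_conj := fun A g => ⟨⟨mv g A.1, mv_top A.2.1, by
    rw [mv_comap]
    exact A.2.2⟩, fun x => Inr_mv g x⟩
  κ := Str S
  D := fun A => Dec A.1
  D_conj := fun A g => ⟨⟨mv g A.1, mv_top A.2.1, by
    rw [mv_comap]
    exact A.2.2⟩, fun x => Dec_mv g x⟩

end conj

section glob

variable {k K : Type} [Field k] [Finite k] [Field K] [Algebra k K] [FF.IsFF k K] {p : ℕ}
  [hp : Fact p.Prime] {ζ : K} (hζ : IsPrimitiveRoot ζ p)

theorem O_ne_top (v : FF.Place k K) : v.O ≠ ⊤ := by
  intro h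
  obtain ⟨t, ht, hv⟩ := v.surj
  have h1 : t⁻¹ ∈ v.O := by
    rw [h]
    trivial
  have h2 : v.Reg t⁻¹ := h1
  rw [v.reg_iff (inv_ne_zero ht), v.ord_inv, hv] at h2
  omega

theorem O_inj {v w : FF.Place k K} (h : v.O = w.O) : v = w := by
  refine FF.Place.eq_of_le v w fun f hf h1 => ?_
  have h2 : f ∈ v.O := (v.reg_iff hf).2 h1
  rw [h] at h2
  exact (w.reg_iff hf).1 h2

theorem Av_ab (hext : S_ext) (v : FF.Place k K) : Ab v (Av v) := by
  have h : ∃ A : ValuationSubring (SeparableClosure K), Ab v A := hext k K v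
  rw [Av, dif_pos h]
  exact Classical.choose_spec h

theorem lf (hext : S_ext) (hfrb : S_frb) (hinz : S_inz) (hdvd : S_dvd) : Lf k hζ where
  ab := Av_ab hext
  fb v := by
    have h : ∃ φ : GK K, IsFb v (Av v) φ := (hfrb k K v (Av v) (Av_ab hext v)).1
    rw [frv, dif_pos h]
    exact Classical.choose_spec h
  od_fin κ := finite_support (κ : K)
  inr_zero v κ := hinz k K p ζ hζ v (Av v) (Av_ab hext v) κ
  dvd_of_inr v κ := hdvd k K p ζ hζ v (Av v) (Av_ab hext v) κ
  fr_zero v x hx := by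
    have h : ∃ φ : GK K, IsFb v (Av v) φ := (hfrb k K v (Av v) (Av_ab hext v)).1
    have h1 : IsFb v (Av v) (frv v) := by
      rw [frv, dif_pos h]
      exact Classical.choose_spec h
    exact (hfrb k K v (Av v) (Av_ab hext v)).2 _ h1 p x hx

theorem gl (h : Lf k hζ) (hp2 : p ≠ 2) (hcls : S_cls) (hsun : S_sun) (hloc : S_loc) (han : S_an)
    (hcla : S_cla) : (kdF hζ h).Gl where
  ne := by
    obtain ⟨v, -⟩ := exists_place (k := k) (K := K)
    exact ⟨v⟩
  cls T := hcls k K T
  sun T := hsun k K p T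
  loc T := hloc k K p ζ hζ h T
  an T hT A hA := han k K p ζ hζ h hp2 T hT A hA
  cla T hT H hH hf := hcla k K p ζ hζ h hp2 T hT H hH hf

theorem comap_ne (hplc : S_plc) {A : ValuationSubring (SeparableClosure K)} (hA : A ≠ ⊤) :
    ∃ v : FF.Place k K, Ab v A := by
  have h1 : A.comap (algebraMap K (SeparableClosure K)) ≠ ⊤ := fun h => hA ((hplc k K).2 A h)
  obtain ⟨v, hv⟩ := (hplc k K).1 _ h1
  exact ⟨v, hv.symm⟩

theorem Av_ne (h : Lf k hζ) (v : FF.Place k K) : Av v ≠ ⊤ := by
  intro h1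
  have h2 := h.ab v
  rw [h1] at h2
  refine O_ne_top v ?_
  rw [← h2]
  ext x
  exact ⟨fun _ => trivial, fun _ => trivial⟩

theorem Av_mv (h : Lf k hζ) (hcnj : S_cnj) {v : FF.Place k K}
    {A : ValuationSubring (SeparableClosure K)} (hA : Ab v A) : ∃ g : GK K, mv g A = Av v := by
  obtain ⟨g, hg⟩ := hcnj k K v A (Av v) hA (h.ab v)
  refine ⟨g⁻¹, ?_⟩
  ext x
  rw [mem_mv, inv_inv]
  exact (hg x).symm

/-- **The characters with trivial residual Selmer group** -/
theorem main_char (h : Lf k hζ) (hgl : (kdF hζ h).Gl) (hchar : S_char) (hp2 : p ≠ 2)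
    (hcnj : S_cnj) (hplc : S_plc) {S B : Set (ValuationSubring K)} (hS : S.Finite) (hB : B.Finite)
    {χ₀ : GK K → ZMod p} (h0 : Hm χ₀)
    (hs : ∀ O ∈ S, O ≠ ⊤ → ∃ A : ValuationSubring (SeparableClosure K),
      A.comap (algebraMap K (SeparableClosure K)) = O ∧ ∃ g ∈ Dec A, χ₀ g ≠ 0) :
    ∃ χ : GK K → ZMod p, Hm χ ∧
      (∀ A : ValuationSubring (SeparableClosure K), A ≠ ⊤ →
        (A.comap (algebraMap K (SeparableClosure K)) ∈ B ∨
          A.comap (algebraMap K (SeparableClosure K)) ∈ S) → ∀ g ∈ Dec A, χ g = χ₀ g) ∧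
      (∀ A : ValuationSubring (SeparableClosure K), A ≠ ⊤ →
        A.comap (algebraMap K (SeparableClosure K)) ∈ S → ∃ g ∈ Dec A, χ g ≠ 0) ∧
      (∃ A : ValuationSubring (SeparableClosure K), A ≠ ⊤ ∧
        A.comap (algebraMap K (SeparableClosure K)) ∉ B ∧
        A.comap (algebraMap K (SeparableClosure K)) ∉ S ∧ ∃ g ∈ Inr A, χ g ≠ 0) ∧
      ∀ c : Chr p (GK K), c.χ = χ → Min (plF S) c := by
  classical
  have hinj : Function.Injective (fun v : FF.Place k K => v.O) := fun v w hvw => O_inj hvw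
  have hfS : {v : FF.Place k K | v.O ∈ S}.Finite := hS.preimage hinj.injOn
  have hfB : {v : FF.Place k K | v.O ∈ B}.Finite := hB.preimage hinj.injOn
  have hs' : ∀ A : ValuationSubring (SeparableClosure K), A ≠ ⊤ →
        A.comap (algebraMap K (SeparableClosure K)) ∈ S → ∃ g ∈ Dec A, χ₀ g ≠ 0 := by
    intro A hA hAS
    obtain ⟨v, hv⟩ := comap_ne (k := k) hplc hA
    have hv' : A.comap (algebraMap K (SeparableClosure K)) = v.O := hv
    obtain ⟨A', hA', g, hg, hg0⟩ := hs v.O (by rwa [← hv']) (O_ne_top v)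
    obtain ⟨a, ha⟩ := hcnj k K v A' A hA' hv
    have e : mv a A = A' := by
      ext x
      rw [mem_mv, ha, app_inv]
    refine ⟨a⁻¹ * g * a, ?_, ?_⟩
    · rw [Dec_mv a, e]
      have e2 : a * (a⁻¹ * g * a) * a⁻¹ = g := by group
      rw [e2]
      exact hg
    · have e3 := hm_conj h0 a⁻¹ g
      rw [inv_inv] at e3
      rw [e3]
      exact hg0
  obtain ⟨χ, hχ, h1, ⟨v, hvB, hvS, g, hg, hg0⟩, h2⟩ := hchar p Kˣ (GK K) (FF.Place k K) (kdF hζ h)
    hp2 hgl hfS.toFinset hfB.toFinset χ₀ h0 (fun v hv => by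
      rw [Set.Finite.mem_toFinset] at hv
      refine hs' (Av v) (Av_ne hζ h v) ?_
      have := h.ab v
      rw [Ab] at this
      rw [this]
      exact hv)
  have hab : ∀ v : FF.Place k K, (Av v).comap (algebraMap K (SeparableClosure K)) = v.O := h.ab
  have hloc : ∀ A : ValuationSubring (SeparableClosure K), A ≠ ⊤ →
        (A.comap (algebraMap K (SeparableClosure K)) ∈ B ∨
          A.comap (algebraMap K (SeparableClosure K)) ∈ S) → ∀ g ∈ Dec A, χ g = χ₀ g := by
    intro A hA hAS g hg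
    obtain ⟨v, hv⟩ := comap_ne (k := k) hplc hA
    obtain ⟨a, ha⟩ := Av_mv hζ h hcnj hv
    have hv' : A.comap (algebraMap K (SeparableClosure K)) = v.O := hv
    rw [hv'] at hAS
    have h3 : a * g * a⁻¹ ∈ Dec (Av v) := by
      rw [← ha]
      exact (Dec_mv a g).1 hg
    have h4 := h1 v (by
      rw [Set.Finite.mem_toFinset, Set.Finite.mem_toFinset]
      exact hAS) _ h3
    rwa [hm_conj hχ, hm_conj h0] at h4
  refine ⟨χ, hχ, hloc, fun A hA hAS => ?_, ⟨Av v, Av_ne hζ h v, ?_, ?_, g, hg, hg0⟩, ?_⟩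
  · obtain ⟨g, hg, hg0⟩ := hs' A hA hAS
    exact ⟨g, hg, by rwa [hloc A hA (Or.inr hAS) g hg]⟩
  · rw [hab]
    rw [Set.Finite.mem_toFinset] at hvB
    exact hvB
  · rw [hab]
    rw [Set.Finite.mem_toFinset] at hvS
    exact hvS
  · rintro c rfl x hx1 hx2 ha hb hc -
    refine h2 x ⟨hx1, hx2⟩ (fun v hv hI => ?_) (fun v hv hI => ?_) fun v hv => ?_
    · rw [Set.Finite.mem_toFinset] at hv
      exact ha ⟨Av v, Av_ne hζ h v, by rw [hab]; exact hv⟩ hI
    · rw [Set.Finite.mem_toFinset] at hv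
      exact hb ⟨Av v, Av_ne hζ h v, by rw [hab]; exact hv⟩ hI
    · rw [Set.Finite.mem_toFinset] at hv
      exact hc ⟨Av v, Av_ne hζ h v, by rw [hab]; exact hv⟩

end glob

end Pool.Agent.NH7.GF
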