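import Pool.Agent.NH7.GF.Sha

/-!
# Project GF: averaging (S_avg)
-/

set_option autoImplicit false

namespace Pool.Agent.NH7.GF

/-- M5. Averaging. -/
theorem s_avg : S_avg := by
  intro p _ G _ χ hχ D M _ a f hf h0
  have h1 : χ 1 = 0 := by
    have h := hχ 1 1
    rw [mul_one] at h
    exact left_eq_add.1 h
  have hinv : ∀ g, χ g⁻¹ = -χ g := by
    intro g
    have h := hχ g⁻¹ g
    rw [inv_mul_cancel, h1] at h
    exact eq_neg_of_add_eq_zero_left h.symm
  have hpow : ∀ (g : G) (n : ℕ), χ (g ^ n) = n * χ g := by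
    intro g n
    induction n with
    | zero => rw [pow_zero, h1, Nat.cast_zero, zero_mul]
    | succ n ih =>
      rw [pow_succ, hχ, ih]
      push_cast
      ring
  have heq : ∀ x ∈ D, ∀ y ∈ D, χ x = χ y → f x = f y := by
    intro x hx y hy hxy
    have hm : y⁻¹ * x ∈ D := D.mul_mem (D.inv_mem hy) hx
    have hz : χ (y⁻¹ * x) = 0 := by rw [hχ, hinv, hxy, neg_add_cancel]
    have h := hf y hy _ hm
    rw [mul_inv_cancel_left, h0 _ hm hz, map_zero, add_zero] at h
    exact h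
  by_cases hD : ∀ g ∈ D, χ g = 0
  · refine ⟨0, fun g hg => ?_⟩
    rw [h0 g hg (hD g hg), smul_zero, map_zero, sub_zero]
  · push Not at hD
    obtain ⟨g0, hg0, hg1⟩ := hD
    obtain ⟨s, hs, hs1⟩ : ∃ s ∈ D, χ s = 1 := by
      refine ⟨g0 ^ ((χ g0)⁻¹).val, D.pow_mem hg0 _, ?_⟩
      rw [hpow, ZMod.natCast_zmod_val, inv_mul_cancel₀ hg1]
    have hsp : ∀ i : ZMod p, χ (s ^ i.val) = i := by
      intro i
      rw [hpow, hs1, mul_one, ZMod.natCast_zmod_val]
    refine ⟨-∑ i : ZMod p, f (s ^ i.val), fun g hg => ?_⟩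
    have e1 : ∑ i : ZMod p, f (g * s ^ i.val) = p • f g + a g (∑ i : ZMod p, f (s ^ i.val)) := by
      rw [map_sum, Finset.sum_congr rfl fun i _ => hf g hg (s ^ i.val) (D.pow_mem hs _),
        Finset.sum_add_distrib, Finset.sum_const, Finset.card_univ, ZMod.card]
    have e2 : ∑ i : ZMod p, f (g * s ^ i.val) = ∑ i : ZMod p, f (s ^ i.val) := by
      rw [← Equiv.sum_comp (Equiv.addRight (χ g)) fun i : ZMod p => f (s ^ i.val)]
      refine Finset.sum_congr rfl fun i _ => ?_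
      refine heq _ (D.mul_mem hg (D.pow_mem hs _)) _ (D.pow_mem hs _) ?_
      rw [hχ, hsp, hsp, Equiv.coe_addRight, add_comm]
    rw [e1] at e2
    rw [map_neg, eq_sub_of_add_eq e2]
    abel

end Pool.Agent.NH7.GF
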