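import Pool.Agent.NH7.GF.Sha

/-!
# M3: approximate solutions of linear equations (helper48)
-/

set_option autoImplicit false

namespace Pool.Agent.NH7.GF

open Matrix Filter Topology


theorem s_cpt : S_cpt := by
  intro p _ N D A f h
  choose u hu using h
  let Φ : (Fin N → ℚ_[p]) →ₗ[ℚ_[p]] (D → Fin N → ℚ_[p]) :=
    LinearMap.pi fun g => Matrix.mulVecLin ((A g).map (algebraMap ℤ_[p] ℚ_[p]))
  have hΦ : ∀ x g, Φ x g = mQ (A g) x := fun x g => rfl
  have hcl : IsClosed ((LinearMap.range Φ : Submodule ℚ_[p] (D → Fin N → ℚ_[p])) :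
      Set (D → Fin N → ℚ_[p])) := Submodule.closed_of_finiteDimensional _
  have hlim : Tendsto (fun n => Φ (u n)) atTop (𝓝 fun g => cQ (f g)) := by
    rw [tendsto_pi_nhds]
    intro g
    rw [tendsto_pi_nhds]
    intro j
    rw [tendsto_iff_norm_sub_tendsto_zero]
    have h1 : Tendsto (fun n : ℕ => ((p : ℝ)⁻¹) ^ n) atTop (𝓝 0) := by
      apply tendsto_pow_atTop_nhds_zero_of_lt_one
      · positivity
      · have : (1 : ℝ) < p := by exact_mod_cast (Fact.out : p.Prime).one_lt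
        exact inv_lt_one_of_one_lt₀ this
    refine squeeze_zero (fun n => norm_nonneg _) (fun n => ?_) h1
    obtain ⟨z, hz⟩ := hu n g
    have h2 := congrFun hz j
    rw [hΦ]
    have h3 : mQ (A g) (u n) j - cQ (f g) j = - ((p : ℚ_[p]) ^ n * cQ z j) := by
      rw [h2]
      simp
    rw [h3, norm_neg, norm_mul, norm_pow, Padic.norm_p]
    have h4 : ‖cQ z j‖ ≤ 1 := (z j).2
    calc ((p : ℝ)⁻¹) ^ n * ‖cQ z j‖ ≤ ((p : ℝ)⁻¹) ^ n * 1 :=
          mul_le_mul_of_nonneg_left h4 (by positivity)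
      _ = _ := mul_one _
  have hmem := hcl.mem_of_tendsto hlim (Eventually.of_forall fun n => ⟨u n, rfl⟩)
  obtain ⟨v, hv⟩ := hmem
  exact ⟨v, fun g => by rw [← hΦ, hv]⟩

end Pool.Agent.NH7.GF
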