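import Pool.Agent.NH7.GF.Kum
import Pool.Agent.NH7.GF.An
import Pool.Agent.H525R3.FFp.Count
import Pool.Agent.H107R3.ZT.Up
import Pool.Agent.W343.BSD.Fiber

/-!
# Selmer groups over global function fields: definitions

`K` is a global function field with field of constants containing `k`, `p` an odd prime, `ζ` in `K` a
primitive `p`-th root of unity (so `p` is not the characteristic). The places of `K` are `FF.Place k K`.
-/

set_option autoImplicit false
set_option linter.unusedSectionVars false

namespace Pool.Agent.NH7.GF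

open Pool.Agent.H525R3.FFp

section groups

variable {K : Type} [Field K]

/-- the decomposition group of a valuation ring of the separable closure -/
def Dec (A : ValuationSubring (SeparableClosure K)) : Subgroup (GK K) where
  carrier := {g | ∀ x, g x ∈ A ↔ x ∈ A}
  mul_mem' := fun {g h} hg hh x => (hg (h x)).trans (hh x)
  one_mem' := fun _ => Iff.rfl
  inv_mem' := fun {g} hg x => by
    have h := hg (g⁻¹ x)
    rw [← AlgEquiv.mul_apply, mul_inv_cancel, AlgEquiv.one_apply] at h
    exact h.symm

theorem mem_Dec {A : ValuationSubring (SeparableClosure K)} {g : GK K} :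
    g ∈ Dec A ↔ ∀ x, g x ∈ A ↔ x ∈ A := Iff.rfl

theorem val_of_Dec {A : ValuationSubring (SeparableClosure K)} {g : GK K} (hg : g ∈ Dec A)
    {x : SeparableClosure K} (hx : A.valuation x < 1) : A.valuation (g x) < 1 := by
  by_cases h0 : x = 0
  · rw [h0, map_zero, map_zero]
    exact zero_lt_one
  have h1 : x⁻¹ ∉ A := by
    intro h
    have h2 : A.valuation x⁻¹ ≤ 1 := (A.valuation_le_one_iff _).2 h
    rw [map_inv₀] at h2
    have h3 : A.valuation x ≠ 0 := (A.valuation.ne_zero_iff).2 h0
    exact absurd hx (not_lt.2 ((inv_le_one₀ (zero_lt_iff.2 h3)).1 h2))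
  have h4 : (g x)⁻¹ ∉ A := by
    rw [← map_inv₀]
    exact fun h => h1 ((hg _).1 h)
  by_contra hcon
  push Not at hcon
  apply h4
  rw [← A.valuation_le_one_iff, map_inv₀]
  exact inv_le_one_of_one_le₀ hcon

/-- the inertia group of a valuation ring of the separable closure -/
def Inr (A : ValuationSubring (SeparableClosure K)) : Subgroup (GK K) where
  carrier := {g | (∀ x, g x ∈ A ↔ x ∈ A) ∧ ∀ x ∈ A, A.valuation (g x - x) < 1}
  mul_mem' := by
    rintro g h ⟨hg1, hg2⟩ ⟨hh1, hh2⟩
    refine ⟨(Dec A).mul_mem hg1 hh1, fun x hx => ?_⟩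
    have e : (g * h) x - x = (g (h x) - h x) + (h x - x) := by
      rw [AlgEquiv.mul_apply]
      ring
    rw [e]
    exact A.valuation.map_add_lt (hg2 _ ((hh1 x).2 hx)) (hh2 x hx)
  one_mem' := ⟨fun _ => Iff.rfl, fun x _ => by
    rw [AlgEquiv.one_apply, sub_self, map_zero]
    exact zero_lt_one⟩
  inv_mem' := by
    rintro g ⟨hg1, hg2⟩
    refine ⟨(Dec A).inv_mem hg1, fun x hx => ?_⟩
    have h1 : g⁻¹ x ∈ A := ((Dec A).inv_mem (x := g) hg1 x).2 hx
    have h2 := hg2 _ h1
    have e : g (g⁻¹ x) = x := by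
      rw [← AlgEquiv.mul_apply, mul_inv_cancel, AlgEquiv.one_apply]
    rw [e] at h2
    rwa [Valuation.map_sub_swap]

theorem mem_Inr {A : ValuationSubring (SeparableClosure K)} {g : GK K} :
    g ∈ Inr A ↔ (∀ x, g x ∈ A ↔ x ∈ A) ∧ ∀ x ∈ A, A.valuation (g x - x) < 1 := Iff.rfl

theorem Inr_le (A : ValuationSubring (SeparableClosure K)) : Inr A ≤ Dec A := fun _ hg => hg.1

/-- `A` is above `v` -/
def Ab {k : Type} [Field k] [Algebra k K] (v : FF.Place k K)
    (A : ValuationSubring (SeparableClosure K)) : Prop :=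
  A.comap (algebraMap K (SeparableClosure K)) = v.O

/-- `φ` is a Frobenius element of `A` above `v` -/
def IsFb {k : Type} [Field k] [Algebra k K] (v : FF.Place k K)
    (A : ValuationSubring (SeparableClosure K)) (φ : GK K) : Prop :=
  φ ∈ Dec A ∧ ∀ x ∈ A, A.valuation (φ x - x ^ Nat.card v.RF) < 1

open Classical in
/-- a valuation ring of the separable closure above `v` -/
noncomputable def Av {k : Type} [Field k] [Algebra k K] (v : FF.Place k K) :
    ValuationSubring (SeparableClosure K) :=
  if h : ∃ A : ValuationSubring (SeparableClosure K), Ab v A then Classical.choose h else ⊤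

open Classical in
/-- a Frobenius element at `v` -/
noncomputable def frv {k : Type} [Field k] [Algebra k K] (v : FF.Place k K) : GK K :=
  if h : ∃ φ : GK K, IsFb v (Av v) φ then Classical.choose h else 1

end groups

section local_facts

variable (k : Type) [Field k] {K : Type} [Field K] [Algebra k K] {p : ℕ} [Fact p.Prime] {ζ : K}
  (hζ : IsPrimitiveRoot ζ p)

/-- the local facts about Kummer characters that are used -/
structure Lf : Prop where
  ab : ∀ v : FF.Place k K, Ab v (Av v)
  fb : ∀ v : FF.Place k K, IsFb v (Av v) (frv v)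
  od_fin : ∀ κ : Kˣ, {v : FF.Place k K | v.ord (κ : K) ≠ 0}.Finite
  inr_zero : ∀ (v : FF.Place k K) (κ : Kˣ), (p : ℤ) ∣ v.ord (κ : K) → ∀ g ∈ Inr (Av v),
    kp hζ κ g = 0
  dvd_of_inr : ∀ (v : FF.Place k K) (κ : Kˣ), (∀ g ∈ Inr (Av v), kp hζ κ g = 0) →
    (p : ℤ) ∣ v.ord (κ : K)
  fr_zero : ∀ (v : FF.Place k K) (x : GK K → ZMod p), Hm x → (∀ g ∈ Inr (Av v), x g = 0) →
    x (frv v) = 0 → ∀ g ∈ Dec (Av v), x g = 0

variable {k}

/-- Kummer theory of a global function field -/
noncomputable def kdF (h : Lf k hζ) : KD p Kˣ (GK K) (FF.Place k K) where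
  od v κ := v.ord (κ : K)
  kp := kp hζ
  D v := Dec (Av v)
  I v := Inr (Av v)
  fr := frv
  od_mul v a b := by
    rw [Units.val_mul]
    exact v.ord_mul a.ne_zero b.ne_zero
  od_fin := h.od_fin
  kp_mul := kp_mul_left hζ
  kp_hm κ := ⟨kp_cont hζ κ, kp_mul_right hζ κ⟩
  kp_surj x hx := kp_surj hζ hx.c hx.m
  I_le v := Inr_le _
  fr_mem v := (h.fb v).1
  inr_zero := h.inr_zero
  dvd_of_inr := h.dvd_of_inr
  fr_zero := h.fr_zero

end local_facts

section dg

variable (k K : Type) [Field k] [Finite k] [Field K] [Algebra k K] [FF.IsFF k K]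

/-- the places outside `T` with their degrees -/
noncomputable def DgT (T : Finset (FF.Place k K)) : Dg {v : FF.Place k K // v ∉ T} where
  d v := v.1.deg
  pos v := deg_pos v.1
  fin n := ((Pool.Agent.H107R3.ZT.places_finite (k := k) (F := K) n).preimage
    (Subtype.val_injective.injOn)).subset fun _ hv => hv

end dg

end Pool.Agent.NH7.GF
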