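import Pool.Agent.NH7.GF.Sha

/-!
# Going down: the Tate module of the locally trivial classes
-/

set_option autoImplicit false
set_option linter.unusedSectionVars false

namespace Pool.Agent.NH7.GF

theorem s_dn (h5 : S_avg) : S_dn := by
  intro p _ G _ _ _ χ hχ hχm H hH M _ _ Ds hT f hf h0 hs
  -- the restrictions to `H` are coboundaries
  have h1 : ∀ n, ∃ m : M, ∀ σ : H, f n ⟨σ, Subgroup.mem_top _⟩ = (σ : G) • m - m := by
    refine hT (fun n σ => f n ⟨σ, Subgroup.mem_top _⟩) (fun n => ?_) ?_ (fun n => ?_)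
    · refine ⟨⟨?_, fun σ τ => (hf n).coc.mul ⟨σ, Subgroup.mem_top _⟩ ⟨τ, Subgroup.mem_top _⟩⟩,
        fun D hD => ?_⟩
      · exact (hf n).coc.loc.comp_continuous
          (f := fun σ : H => (⟨σ, Subgroup.mem_top _⟩ : (⊤ : Subgroup G)))
          (continuous_subtype_val.subtype_mk _)
      · obtain ⟨m, hm⟩ := (hf n).tri D hD
        exact ⟨m, fun σ hσ => hm ⟨σ, Subgroup.mem_top _⟩ hσ⟩
    · obtain ⟨m, hm⟩ := h0
      exact ⟨m, fun σ => hm ⟨σ, Subgroup.mem_top _⟩⟩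
    · obtain ⟨m, hm⟩ := hs n
      exact ⟨m, fun σ => hm ⟨σ, Subgroup.mem_top _⟩⟩
  -- the multiples by `p` are coboundaries
  have h2 : ∀ n, ∃ m : M, ∀ σ : (⊤ : Subgroup G), p • f n σ = (σ : G) • m - m := by
    intro n
    obtain ⟨m, hm⟩ := h1 n
    obtain ⟨w, hw⟩ := h5 p G χ hχm ⊤ M (fun g => DistribSMul.toAddMonoidHom M g)
      (fun g => f n ⟨g, Subgroup.mem_top _⟩ - (g • m - m)) (fun g _ h _ => by
        have e1 := (hf n).coc.mul ⟨g, Subgroup.mem_top _⟩ ⟨h, Subgroup.mem_top _⟩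
        have e2 : f n ⟨g * h, Subgroup.mem_top _⟩ = f n ⟨g, Subgroup.mem_top _⟩ +
            g • f n ⟨h, Subgroup.mem_top _⟩ := e1
        show f n ⟨g * h, Subgroup.mem_top _⟩ - ((g * h) • m - m) =
          (f n ⟨g, Subgroup.mem_top _⟩ - (g • m - m)) +
            g • (f n ⟨h, Subgroup.mem_top _⟩ - (h • m - m))
        rw [e2, mul_smul, smul_sub, smul_sub]
        abel) (fun h _ hh => by
        have e1 := hm ⟨h, (hH h).2 hh⟩
        show f n ⟨h, Subgroup.mem_top _⟩ - (h • m - m) = 0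
        rw [sub_eq_zero]
        exact e1)
    refine ⟨w + p • m, fun σ => ?_⟩
    have e := hw σ (Subgroup.mem_top _)
    have e' : p • (f n σ - ((σ : G) • m - m)) = (σ : G) • w - w := e
    have e3 : (σ : G) • (p • m) = p • ((σ : G) • m) := smul_comm _ _ _
    rw [smul_add, e3]
    rw [smul_sub, smul_sub, sub_eq_iff_eq_add] at e'
    rw [e']
    abel
  intro n
  obtain ⟨m, hm⟩ := hs n
  obtain ⟨m', hm'⟩ := h2 (n + 1)
  refine ⟨m' - m, fun σ => ?_⟩
  have e := hm σ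
  rw [hm' σ] at e
  rw [smul_sub]
  rw [← sub_eq_iff_eq_add] at e
  rw [← e]
  abel

end Pool.Agent.NH7.GF
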