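import Pool.Agent.NH7.GF.Stms

/-!
# GF7-L1: valuation rings of the separable closure above a place (helper72)
-/

set_option autoImplicit false

namespace Pool.Agent.NH7.GF

open Pool.Agent.H525R3.FFp

namespace ext72

/-- a valuation ring of an extension field above a given valuation ring -/
theorem exists_comap {K L : Type} [Field K] [Field L] (f : K →+* L) (R : ValuationSubring K) :
    ∃ A : ValuationSubring L, A.comap f = R := by
  obtain ⟨A, hA, hloc⟩ := IsLocalRing.exists_factor_valuationRing (f.comp R.subtype)
  refine ⟨A, ?_⟩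
  have hmem : ∀ x : R, f x ∈ A := fun x => hA x
  ext x
  rw [ValuationSubring.mem_comap]
  constructor
  · intro hx
    by_contra hxR
    have hx0 : x ≠ 0 := by
      rintro rfl
      exact hxR R.zero_mem
    have hinv : x⁻¹ ∈ R := (R.mem_or_inv_mem x).resolve_left hxR
    have hunit : IsUnit (((f.comp R.subtype).codRestrict A.toSubring hA) ⟨x⁻¹, hinv⟩) := by
      refine IsUnit.of_mul_eq_one ⟨f x, hx⟩ (Subtype.ext ?_)
      change f x⁻¹ * f x = 1
      rw [← map_mul, inv_mul_cancel₀ hx0, map_one]
    have h1 : IsUnit (⟨x⁻¹, hinv⟩ : R) := isUnit_of_map_unit _ _ hunit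
    obtain ⟨u, hu⟩ := h1.exists_right_inv
    apply hxR
    have h2 : x⁻¹ * (u : K) = 1 := congrArg Subtype.val hu
    have h3 : (u : K) = x := by
      have := congrArg (fun y => x * y) h2
      simp only [mul_one] at this
      rw [← mul_assoc, mul_inv_cancel₀ hx0, one_mul] at this
      exact this
    rw [← h3]
    exact u.2
  · intro hx
    exact hmem ⟨x, hx⟩

end ext72

theorem s_ext : S_ext := fun _ _ _ _ _ v => ext72.exists_comap _ v.O

end Pool.Agent.NH7.GF
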