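import Pool.Agent.NH7.GF.Stms
import Mathlib.RingTheory.Invariant.Profinite

/-!
# Frobenius elements: the ring of the elements all conjugates of which lie in a valuation ring
-/

set_option autoImplicit false
set_option linter.unusedSectionVars false

namespace Pool.Agent.NH7.GF.Frb

open scoped Pointwise

variable {K : Type} [Field K] (A : ValuationSubring (SeparableClosure K))

/-- the elements all conjugates of which lie in `A` -/
def BB : Subring (SeparableClosure K) where
  carrier := {x | ∀ g : GK K, g x ∈ A}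
  mul_mem' := fun {x y} hx hy g => by
    rw [map_mul]
    exact A.mul_mem _ _ (hx g) (hy g)
  one_mem' := fun g => by
    rw [map_one]
    exact A.one_mem
  add_mem' := fun {x y} hx hy g => by
    rw [map_add]
    exact A.add_mem _ _ (hx g) (hy g)
  zero_mem' := fun g => by
    rw [map_zero]
    exact A.zero_mem
  neg_mem' := fun {x} hx g => by
    rw [map_neg]
    exact A.neg_mem _ (hx g)

theorem BB_mem (b : BB A) : (b : SeparableClosure K) ∈ A := b.2 1

theorem BB_val (b : BB A) : A.valuation (b : SeparableClosure K) ≤ 1 :=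
  (A.valuation_le_one_iff _).2 (BB_mem A b)

noncomputable instance actBB : MulSemiringAction (GK K) (BB A) where
  smul g b := ⟨g b.1, fun h => b.2 (h * g)⟩
  one_smul _ := Subtype.ext rfl
  mul_smul _ _ _ := Subtype.ext rfl
  smul_zero g := Subtype.ext (map_zero g)
  smul_add g _ _ := Subtype.ext (map_add g _ _)
  smul_one g := Subtype.ext (map_one g)
  smul_mul g _ _ := Subtype.ext (map_mul g _ _)

theorem coe_smul (g : GK K) (b : BB A) :
    ((g • b : BB A) : SeparableClosure K) = g (b : SeparableClosure K) := rfl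

/-- the prime ideal of `BB A` given by `A` -/
def QQ : Ideal (BB A) where
  carrier := {b | A.valuation (b : SeparableClosure K) < 1}
  add_mem' := fun {a b} ha hb => by
    show A.valuation ((a : SeparableClosure K) + b) < 1
    exact A.valuation.map_add_lt ha hb
  zero_mem' := by
    show A.valuation (0 : SeparableClosure K) < 1
    rw [map_zero]
    exact zero_lt_one
  smul_mem' := fun c b hb => by
    show A.valuation ((c : SeparableClosure K) * b) < 1
    rw [map_mul]
    exact lt_of_le_of_lt (mul_le_of_le_one_left' (BB_val A c)) hb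

theorem mem_QQ {b : BB A} : b ∈ QQ A ↔ A.valuation (b : SeparableClosure K) < 1 := Iff.rfl

theorem val_one {b : BB A} (h : b ∉ QQ A) : A.valuation (b : SeparableClosure K) = 1 :=
  le_antisymm (BB_val A b) (not_lt.1 h)

instance primeQQ : (QQ A).IsPrime where
  ne_top' := by
    rw [Ne, Ideal.eq_top_iff_one, mem_QQ]
    show ¬ A.valuation (1 : SeparableClosure K) < 1
    rw [map_one]
    exact lt_irrefl _
  mem_or_mem' := fun {x y} h => by
    by_contra hcon
    push Not at hcon
    have h1 := val_one A hcon.1
    have h2 := val_one A hcon.2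
    rw [mem_QQ] at h
    have h3 : A.valuation ((x : SeparableClosure K) * y) < 1 := h
    rw [map_mul, h1, h2, mul_one] at h3
    exact lt_irrefl _ h3

/-- `A` is the localization of `BB A` at `QQ A` -/
theorem exists_den {x : SeparableClosure K} (hx : x ∈ A) : ∃ y z : BB A,
    A.valuation (y : SeparableClosure K) = 1 ∧ x * (y : SeparableClosure K) = z := by
  classical
  by_cases h0 : x = 0
  · refine ⟨1, 0, ?_, ?_⟩
    · show A.valuation (1 : SeparableClosure K) = 1
      exact map_one _
    · rw [h0, zero_mul]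
      rfl
  obtain ⟨p, hp0, hp⟩ : IsAlgebraic K x := Algebra.IsAlgebraic.isAlgebraic x
  obtain ⟨w, hw⟩ : ∃ w : ℕ → A.ValueGroup,
      w = fun i => A.valuation (algebraMap K (SeparableClosure K) (p.coeff i)) := ⟨_, rfl⟩
  obtain ⟨s, hs, hmax⟩ := Finset.exists_max_image p.support (fun i => toLex (w i, i))
    (Polynomial.support_nonempty.2 hp0)
  have hcs : p.coeff s ≠ 0 := Polynomial.mem_support_iff.1 hs
  have hcs' : algebraMap K (SeparableClosure K) (p.coeff s) ≠ 0 := by
    rw [Ne, FaithfulSMul.algebraMap_eq_zero_iff]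
    exact hcs
  have hws : 0 < w s := by
    rw [hw]
    exact zero_lt_iff.2 ((A.valuation.ne_zero_iff).2 hcs')
  obtain ⟨d, hd⟩ : ∃ d : ℕ → K, d = fun i => p.coeff i / p.coeff s := ⟨_, rfl⟩
  have hvd : ∀ i, A.valuation (algebraMap K (SeparableClosure K) (d i)) = w i / w s := by
    intro i
    rw [hd, hw]
    simp only [map_div₀]
  have hd1 : ∀ i ∈ p.support, algebraMap K (SeparableClosure K) (d i) ∈ A := by
    intro i hi
    rw [← A.valuation_le_one_iff, hvd, div_le_one₀ hws]
    have h := hmax i hi
    rw [Prod.Lex.toLex_le_toLex] at h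
    rcases h with h | h
    · exact h.le
    · exact h.1.le
  have hd2 : ∀ i ∈ p.support, s < i →
      A.valuation (algebraMap K (SeparableClosure K) (d i)) < 1 := by
    intro i hi hsi
    rw [hvd, div_lt_one₀ hws]
    have h := hmax i hi
    rw [Prod.Lex.toLex_le_toLex] at h
    rcases h with h | h
    · exact h
    · exact absurd h.2 (not_le.2 hsi)
  obtain ⟨Y, hY⟩ : ∃ Y : SeparableClosure K → SeparableClosure K, Y = fun t =>
      ∑ i ∈ p.support.filter (fun i => s < i),
        algebraMap K (SeparableClosure K) (d i) * t ^ (i - s) := ⟨_, rfl⟩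
  obtain ⟨Z, hZ⟩ : ∃ Z : SeparableClosure K → SeparableClosure K, Z = fun t =>
      - ∑ i ∈ p.support.filter (fun i => i < s),
        algebraMap K (SeparableClosure K) (d i) * (t⁻¹) ^ (s - 1 - i) := ⟨_, rfl⟩
  have hYg : ∀ (g : GK K) (t : SeparableClosure K), g (Y t) = Y (g t) := by
    intro g t
    simp only [hY, map_sum, map_mul, map_pow, AlgEquiv.commutes]
  have hZg : ∀ (g : GK K) (t : SeparableClosure K), g (Z t) = Z (g t) := by
    intro g t
    simp only [hZ, map_neg, map_sum, map_mul, map_pow, map_inv₀, AlgEquiv.commutes]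
  have hYA : ∀ t ∈ A, Y t ∈ A := by
    intro t ht
    rw [hY]
    refine sum_mem fun i hi => ?_
    exact A.mul_mem _ _ (hd1 i (Finset.mem_filter.1 hi).1) (pow_mem ht _)
  have hZA : ∀ t : SeparableClosure K, t⁻¹ ∈ A → Z t ∈ A := by
    intro t ht
    rw [hZ]
    refine A.neg_mem _ (sum_mem fun i hi => ?_)
    exact A.mul_mem _ _ (hd1 i (Finset.mem_filter.1 hi).1) (pow_mem ht _)
  have hYv : A.valuation (Y x) < 1 := by
    rw [hY]
    refine Valuation.map_sum_lt _ one_ne_zero fun i hi => ?_
    obtain ⟨h1, h2⟩ := Finset.mem_filter.1 hi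
    rw [map_mul, map_pow]
    refine lt_of_le_of_lt (mul_le_of_le_one_right' ?_) (hd2 i h1 h2)
    exact pow_le_one' ((A.valuation_le_one_iff _).2 hx) _
  have hrel : x * (1 + Y x) = Z x := by
    have e1 : ∑ i ∈ p.support, algebraMap K (SeparableClosure K) (d i) * x ^ i = 0 := by
      have h1 : ∑ i ∈ p.support, algebraMap K (SeparableClosure K) (p.coeff i) * x ^ i = 0 := by
        rw [Polynomial.aeval_def, Polynomial.eval₂_eq_sum, Polynomial.sum_def] at hp
        exact hp
      have h2 : ∑ i ∈ p.support, algebraMap K (SeparableClosure K) (d i) * x ^ i =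
          (∑ i ∈ p.support, algebraMap K (SeparableClosure K) (p.coeff i) * x ^ i) /
            algebraMap K (SeparableClosure K) (p.coeff s) := by
        rw [Finset.sum_div]
        refine Finset.sum_congr rfl fun i _ => ?_
        rw [hd]
        simp only [map_div₀]
        ring
      rw [h2, h1, zero_div]
    have e2 : p.support = insert s (p.support.filter (fun i => s < i) ∪
        p.support.filter (fun i => i < s)) := by
      ext i
      simp only [Finset.mem_insert, Finset.mem_union, Finset.mem_filter]
      constructor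
      · intro hi
        rcases lt_trichotomy s i with h | h | h
        · exact Or.inr (Or.inl ⟨hi, h⟩)
        · exact Or.inl h.symm
        · exact Or.inr (Or.inr ⟨hi, h⟩)
      · rintro (rfl | h | h)
        · exact hs
        · exact h.1
        · exact h.1
    have e3 : algebraMap K (SeparableClosure K) (d s) = 1 := by
      rw [hd]
      simp only [div_self hcs, map_one]
    rw [e2, Finset.sum_insert (by simp), Finset.sum_union (by
      rw [Finset.disjoint_left]
      intro i h1 h2
      have := (Finset.mem_filter.1 h1).2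
      have := (Finset.mem_filter.1 h2).2
      omega), e3, one_mul] at e1
    have e4 : ∑ i ∈ p.support.filter (fun i => s < i),
        algebraMap K (SeparableClosure K) (d i) * x ^ i = x ^ s * Y x := by
      rw [hY, Finset.mul_sum]
      refine Finset.sum_congr rfl fun i hi => ?_
      have h2 := (Finset.mem_filter.1 hi).2
      have h3 : x ^ i = x ^ s * x ^ (i - s) := by
        rw [← pow_add]
        congr 1
        omega
      rw [h3]
      ring
    have e5 : ∑ i ∈ p.support.filter (fun i => i < s),
        algebraMap K (SeparableClosure K) (d i) * x ^ (i + 1) = - (x ^ s * Z x) := by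
      rw [hZ]
      simp only
      rw [mul_neg, neg_neg, Finset.mul_sum]
      refine Finset.sum_congr rfl fun i hi => ?_
      have h2 := (Finset.mem_filter.1 hi).2
      have h3 : x ^ s = x ^ (i + 1) * x ^ (s - 1 - i) := by
        rw [← pow_add]
        congr 1
        omega
      have h4 : x ^ s * (x⁻¹) ^ (s - 1 - i) = x ^ (i + 1) := by
        rw [h3, mul_assoc, ← mul_pow, mul_inv_cancel₀ h0, one_pow, mul_one]
      rw [mul_left_comm, h4]
    have e6 : x * ∑ i ∈ p.support.filter (fun i => i < s),
        algebraMap K (SeparableClosure K) (d i) * x ^ i = - (x ^ s * Z x) := by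
      rw [← e5, Finset.mul_sum]
      refine Finset.sum_congr rfl fun i _ => ?_
      ring
    rw [e4] at e1
    have h5 : x ^ s ≠ 0 := pow_ne_zero _ h0
    apply mul_left_cancel₀ h5
    have e7 := congrArg (fun t => x * t) e1
    simp only [mul_add, mul_zero] at e7
    rw [e6] at e7
    linear_combination e7
  have hinv : ∀ g : GK K, g (1 + Y x) ∈ A ∧ g (Z x) ∈ A := by
    intro g
    have hg0 : g x ≠ 0 := by
      rw [Ne, map_eq_zero]
      exact h0
    rcases A.mem_or_inv_mem (g x) with h | h
    · have h1 : g (1 + Y x) ∈ A := by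
        rw [map_add, map_one, hYg]
        exact A.add_mem _ _ A.one_mem (hYA _ h)
      refine ⟨h1, ?_⟩
      rw [← hrel, map_mul]
      exact A.mul_mem _ _ h h1
    · have h1 : g (Z x) ∈ A := by
        rw [hZg]
        exact hZA _ h
      refine ⟨?_, h1⟩
      have h2 : g (1 + Y x) = (g x)⁻¹ * g (Z x) := by
        rw [← hrel, map_mul, inv_mul_cancel_left₀ hg0]
      rw [h2]
      exact A.mul_mem _ _ h h1
  refine ⟨⟨1 + Y x, fun g => (hinv g).1⟩, ⟨Z x, fun g => (hinv g).2⟩, ?_, hrel⟩
  exact Valuation.map_one_add_of_lt _ hYv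

theorem smul_mem_QQ {g : GK K} (hg : g ∈ Dec A) (b : BB A) : b ∈ QQ A ↔ g • b ∈ QQ A := by
  have key : ∀ g : GK K, g ∈ Dec A → ∀ b : BB A, b ∈ QQ A → g • b ∈ QQ A :=
    fun g hg b hb => val_of_Dec hg hb
  refine ⟨key g hg b, fun h => ?_⟩
  have h1 := key g⁻¹ ((Dec A).inv_mem hg) _ h
  rwa [inv_smul_smul] at h1

theorem mem_Dec_of {g : GK K} (h : ∀ b : BB A, b ∈ QQ A ↔ g • b ∈ QQ A) : g ∈ Dec A := by
  have key : ∀ g : GK K, (∀ b : BB A, b ∈ QQ A ↔ g • b ∈ QQ A) → ∀ x ∈ A, g x ∈ A := by
    intro g h x hx
    obtain ⟨y, z, hy, hyz⟩ := exists_den A hx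
    have h1 : y ∉ QQ A := by
      rw [mem_QQ, hy]
      exact lt_irrefl _
    have h2 : A.valuation (g (y : SeparableClosure K)) = 1 :=
      val_one A (b := g • y) (fun h3 => h1 ((h y).2 h3))
    have h3 : g x * g y = g z := by rw [← map_mul, hyz]
    have h4 := congrArg A.valuation h3
    rw [map_mul, h2, mul_one] at h4
    rw [← A.valuation_le_one_iff, h4]
    exact BB_val A (g • z)
  intro x
  refine ⟨fun hx => ?_, key g h x⟩
  have h1 := key g⁻¹ (fun b => by
    have h2 := h (g⁻¹ • b)
    rw [smul_inv_smul] at h2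
    exact h2.symm) (g x) hx
  have h2 : g⁻¹ (g x) = x := by
    rw [← AlgEquiv.mul_apply, inv_mul_cancel, AlgEquiv.one_apply]
  rwa [h2] at h1

theorem val_of_BB {g : GK K} (hg : g ∈ Dec A) (n : ℕ)
    (h : ∀ b : BB A, A.valuation (g (b : SeparableClosure K) - (b : SeparableClosure K) ^ n) < 1) :
    ∀ x ∈ A, A.valuation (g x - x ^ n) < 1 := by
  intro x hx
  obtain ⟨y, z, hy, hyz⟩ := exists_den A hx
  have h1 : y ∉ QQ A := by
    rw [mem_QQ, hy]
    exact lt_irrefl _
  have h2 : A.valuation (g (y : SeparableClosure K)) = 1 :=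
    val_one A (b := g • y) (fun h3 => h1 ((smul_mem_QQ A hg y).2 h3))
  have h3 : g x * g y = g z := by rw [← map_mul, hyz]
  have e1 : (y : SeparableClosure K) ^ n * g y * (g x - x ^ n) =
      (y : SeparableClosure K) ^ n * (g z - (z : SeparableClosure K) ^ n) -
        (z : SeparableClosure K) ^ n * (g y - (y : SeparableClosure K) ^ n) := by
    rw [← h3, ← hyz]
    ring
  have h4 : A.valuation (g x - x ^ n) =
      A.valuation ((y : SeparableClosure K) ^ n * g y * (g x - x ^ n)) := by
    rw [map_mul, map_mul, map_pow, hy, h2, one_pow, one_mul, one_mul]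
  rw [h4, e1]
  refine Valuation.map_sub_lt _ ?_ ?_
  · rw [map_mul, map_pow, hy, one_pow, one_mul]
    exact h z
  · rw [map_mul, map_pow]
    exact lt_of_le_of_lt (mul_le_of_le_one_left' (pow_le_one' (BB_val A z) _)) (h y)

/-- the action is continuous for the discrete topology -/
theorem cont_BB : @ContinuousSMul (GK K) (BB A) _ _ ⊥ := by
  let _ : TopologicalSpace (BB A) := ⊥
  have : DiscreteTopology (BB A) := ⟨rfl⟩
  rw [continuousSMul_iff_stabilizer_isOpen]
  intro x
  have h1 := stabilizer_isOpen_of_isIntegral (K := K) (x : SeparableClosure K)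
  convert h1 using 2
  ext g
  rw [MulAction.mem_stabilizer_iff, MulAction.mem_stabilizer_iff]
  constructor
  · intro h
    exact congrArg (fun z : BB A => (z : SeparableClosure K)) h
  · intro h
    exact Subtype.ext h

end Pool.Agent.NH7.GF.Frb
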