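import Pool.Agent.NH7.GF.Stms

/-!
# The kernel of the Kummer pairing
-/

set_option autoImplicit false
set_option linter.unusedSectionVars false

namespace Pool.Agent.NH7.GF

theorem s_ker : S_ker := by
  intro K _ p _ ζ hζ κ h
  have hfix : ∀ τ : GK K, τ (rt p κ) = rt p κ := fun τ =>
    (kp_zero_iff hζ (rt_pow hζ κ)).1 (h τ)
  obtain ⟨k, hk⟩ := (InfiniteGalois.mem_range_algebraMap_iff_fixed (rt p κ)).2 hfix
  have hk0 : k ≠ 0 := by
    rintro rfl
    rw [map_zero] at hk
    exact rt_ne hζ κ hk.symm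
  refine ⟨Units.mk0 k hk0, ?_⟩
  apply Units.ext
  rw [Units.val_pow_eq_pow_val, Units.val_mk0]
  apply (algebraMap K (SeparableClosure K)).injective
  rw [map_pow, hk, rt_pow hζ κ]

end Pool.Agent.NH7.GF
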