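import Pool.Agent.NH7.GF.Sha

/-!
# Local triviality
-/

set_option autoImplicit false

namespace Pool.Agent.NH7.GF

open Matrix

theorem lclP_mQ_sub {p : ℕ} [hp : Fact p.Prime] {N : ℕ} (A B : Matrix (Fin N) (Fin N) ℤ_[p])
    (x : Fin N → ℚ_[p]) : mQ (A - B) x = mQ A x - mQ B x := by
  unfold mQ
  rw [Matrix.map_sub _ (fun a b => map_sub _ a b), Matrix.sub_mulVec]

theorem s_lcl (hcpt : S_cpt) : S_lcl := by
  intro p _ G _ _ N ρ M _ _ φ hM D hLd f hf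
  have key : ∀ n : ℕ, ∃ u : Fin N → ℚ_[p], ∀ g : D, ∃ z : Fin N → ℤ_[p],
      cQ (f g) = mQ (ρ g - 1) u + (p : ℚ_[p]) ^ n • cQ z := by
    intro n
    have hp0 : (p : ℚ_[p]) ^ n ≠ 0 := by
      have := (Fact.out : p.Prime).ne_zero
      positivity
    obtain ⟨P, hP⟩ := hf n
    have hfix : p ^ n • P ∈ fx M D := by
      intro g hg
      have h1 : p ^ n • φ (((p : ℚ_[p]) ^ n)⁻¹ • cQ (f g)) = 0 := by
        rw [← map_nsmul]
        have h2 : p ^ n • (((p : ℚ_[p]) ^ n)⁻¹ • cQ (f g)) = cQ (f g) := by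
          rw [← Nat.cast_smul_eq_nsmul ℚ_[p], Nat.cast_pow, smul_smul, mul_inv_cancel₀ hp0, one_smul]
        rw [h2]
        exact (hM.ker _).2 ⟨f g, rfl⟩
      rw [hP g hg, smul_sub, smul_comm, sub_eq_zero] at h1
      exact h1
    obtain ⟨Q, hQ, m, hm⟩ := hLd _ hfix n
    have hPQ : p ^ (m + n) • (P - Q) = 0 := by
      rw [pow_add, mul_smul, smul_sub]
      exact hm
    obtain ⟨x, hx⟩ := hM.tor _ _ hPQ
    refine ⟨(p : ℚ_[p]) ^ n • x, fun g => ?_⟩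
    have h3 : φ (((p : ℚ_[p]) ^ n)⁻¹ • cQ (f g) - (mQ (ρ g) x - x)) = 0 := by
      rw [map_sub, hP g g.2, map_sub, hM.eqv, hx, smul_sub, hQ g g.2]
      abel
    obtain ⟨z, hz⟩ := (hM.ker _).1 h3
    refine ⟨z, ?_⟩
    rw [lclP_mQ_sub, mQ_one, mQ_smul, ← hz, smul_sub, smul_smul, mul_inv_cancel₀ hp0, one_smul, smul_sub]
    abel
  obtain ⟨u, hu⟩ := hcpt p N D (fun g => ρ g - 1) (fun g => f g) key
  refine ⟨u, fun g hg => ?_⟩
  rw [hu ⟨g, hg⟩, lclP_mQ_sub, mQ_one]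

end Pool.Agent.NH7.GF
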