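import Pool.Agent.NH7.GF.Sha

/-!
# M2: compatible cocycles come from a cocycle with values in `T` (helper72)
-/

set_option autoImplicit false

namespace Pool.Agent.NH7.GF

namespace LftP

variable {p : ℕ} [hp : Fact p.Prime]

theorem norm_le {x : ℤ_[p]} {n : ℕ} (h : (p : ℤ_[p]) ^ n ∣ x) : ‖x‖ ≤ ((p : ℝ)⁻¹) ^ n := by
  obtain ⟨y, rfl⟩ := h
  rw [norm_mul, norm_pow, PadicInt.norm_p]
  have h1 : ‖y‖ ≤ 1 := PadicInt.norm_le_one y
  have h2 : (0 : ℝ) ≤ ((p : ℝ)⁻¹) ^ n := by positivity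
  calc ((p : ℝ)⁻¹) ^ n * ‖y‖ ≤ ((p : ℝ)⁻¹) ^ n * 1 := mul_le_mul_of_nonneg_left h1 h2
    _ = _ := mul_one _

theorem tend : Filter.Tendsto (fun n : ℕ => ((p : ℝ)⁻¹) ^ n) Filter.atTop (nhds 0) := by
  apply tendsto_pow_atTop_nhds_zero_of_lt_one
  · positivity
  · exact inv_lt_one_of_one_lt₀ (by exact_mod_cast hp.out.one_lt)

theorem eq_zero {x : ℤ_[p]} (h : ∀ n : ℕ, (p : ℤ_[p]) ^ n ∣ x) : x = 0 := by
  have h1 : ‖x‖ ≤ 0 := ge_of_tendsto' (tend (p := p)) fun n => norm_le (h n)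
  exact norm_le_zero_iff.1 h1

end LftP

open LftP in
theorem s_lft (h : S_ulim) : S_lft := by
  intro p _ G _ _ N ρ M _ _ φ hM H f hf h0 hp
  obtain ⟨h1, h2⟩ := h p G N ρ M φ hM
  have hex : ∀ σ : H, ∃ z : Fin N → ℤ_[p], ∀ n, φ (((p : ℚ_[p]) ^ n)⁻¹ • cQ z) = f n σ :=
    fun σ => h1 (fun n => f n σ) (h0 σ) fun n => hp n σ
  choose c hc using hex
  refine ⟨c, ?_, ?_, fun n σ => hc σ n⟩
  · refine continuous_pi fun j => ?_
    rw [continuous_iff_continuousAt]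
    intro σ
    rw [ContinuousAt, Metric.tendsto_nhds]
    intro ε hε
    obtain ⟨n, hn⟩ := ((tend (p := p)).eventually (gt_mem_nhds hε)).exists
    filter_upwards [(hf n).loc.eventually_eq σ] with τ hτ
    have h3 := h2 n (c τ) (c σ) (by rw [hc, hc, hτ]) j
    rw [dist_eq_norm]
    exact lt_of_le_of_lt (norm_le h3) hn
  · intro σ τ
    funext j
    rw [← sub_eq_zero]
    apply eq_zero
    intro n
    apply h2 n
    rw [hc, (hf n).mul, cQ_add, smul_add, map_add, hc, cQ_mul, ← mQ_smul, hM.eqv, hc]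

end Pool.Agent.NH7.GF
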