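import Pool.Agent.NH7.GF.Sha

/-!
# From the theorem in terms of characters to locally trivial classes
-/

set_option autoImplicit false
set_option linter.unusedSectionVars false

namespace Pool.Agent.NH7.GF

open Matrix

variable {K : Type} [Field K] {p : ℕ} [hp : Fact p.Prime] {N : ℕ}

/-- the decomposition groups -/
def DsF (K : Type) [Field K] : Set (Subgroup (GK K)) :=
  {D | ∃ A : ValuationSubring (SeparableClosure K), A ≠ ⊤ ∧ D = Dec A}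

/-- the action on `V` -/
noncomputable def actQ (ρ : GK K →* Matrix (Fin N) (Fin N) ℤ_[p]) (g : GK K) :
    (Fin N → ℚ_[p]) →+ (Fin N → ℚ_[p]) where
  toFun := mQ (ρ g)
  map_zero' := mQ_zero _
  map_add' x y := by
    unfold mQ
    rw [Matrix.mulVec_add]

theorem actQ_apply (ρ : GK K →* Matrix (Fin N) (Fin N) ℤ_[p]) (g : GK K) (x : Fin N → ℚ_[p]) :
    actQ ρ g x = mQ (ρ g) x := rfl

theorem mQ_add (M : Matrix (Fin N) (Fin N) ℤ_[p]) (x y : Fin N → ℚ_[p]) :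
    mQ M (x + y) = mQ M x + mQ M y := by
  unfold mQ
  rw [Matrix.mulVec_add]

theorem mQ_sub (M : Matrix (Fin N) (Fin N) ℤ_[p]) (x y : Fin N → ℚ_[p]) :
    mQ M (x - y) = mQ M x - mQ M y := by
  unfold mQ
  rw [Matrix.mulVec_sub]

theorem mQ_mul (A B : Matrix (Fin N) (Fin N) ℤ_[p]) (x : Fin N → ℚ_[p]) :
    mQ (A * B) x = mQ A (mQ B x) := by
  unfold mQ
  rw [Matrix.map_mul, Matrix.mulVec_mulVec]

/-- the main theorem for locally trivial classes -/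
theorem dsc_of_sel (h5 : S_avg) {S : Set (ValuationSubring K)} {χ : GK K → ZMod p} (hχ : Hm χ)
    {ρ : GK K →* Matrix (Fin N) (Fin N) ℤ_[p]}
    (hmain : ∀ c : kerX hχ → Fin N → ℚ_[p], SelQ S ρ (kerX hχ) c →
          ∃ c' : (⊤ : Subgroup (GK K)) → Fin N → ℚ_[p], SelQ S ρ ⊤ c' ∧ ∃ x : Fin N → ℚ_[p],
            ∀ (σ : kerX hχ) (τ : (⊤ : Subgroup (GK K))), (τ : GK K) = σ →
              c σ = c' τ + (mQ (ρ σ) x - x)) :
    Dsc (DsF K) ρ (kerX hχ) := by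
  intro c hc
  have h1 : SelQ S ρ (kerX hχ) c := by
    refine ⟨hc.cont, hc.mul, fun A hA _ => ?_, fun A hA _ => ?_⟩
    · obtain ⟨x, hx⟩ := hc.tri (Dec A) ⟨A, hA, rfl⟩
      exact ⟨x, fun σ hσ => hx σ (Inr_le A hσ)⟩
    · exact hc.tri (Dec A) ⟨A, hA, rfl⟩
  obtain ⟨c', hc', x, hx⟩ := hmain c h1
  refine ⟨c', ⟨hc'.cont, hc'.mul, ?_⟩, x, hx⟩
  rintro D ⟨A, hA, rfl⟩
  obtain ⟨y, hy⟩ := hc.tri (Dec A) ⟨A, hA, rfl⟩
  have hmul : ∀ g h : GK K, c' ⟨g * h, Subgroup.mem_top _⟩ =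
      c' ⟨g, Subgroup.mem_top _⟩ + mQ (ρ g) (c' ⟨h, Subgroup.mem_top _⟩) := fun g h =>
    hc'.mul ⟨g, Subgroup.mem_top _⟩ ⟨h, Subgroup.mem_top _⟩
  obtain ⟨w, hw⟩ := h5 p (GK K) χ hχ.m (Dec A) (Fin N → ℚ_[p]) (actQ ρ)
    (fun g => c' ⟨g, Subgroup.mem_top _⟩ - (mQ (ρ g) (y - x) - (y - x))) (fun g _ h _ => by
      simp only [hmul, actQ_apply, map_mul, mQ_mul, mQ_sub]
      abel) (fun h hh h0 => by
      have e1 := hx ⟨h, h0⟩ ⟨h, Subgroup.mem_top _⟩ rfl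
      have e2 := hy ⟨h, h0⟩ hh
      rw [e2] at e1
      beta_reduce at e1 ⊢
      rw [mQ_sub]
      rw [sub_eq_iff_eq_add] at e1
      rw [sub_eq_zero]
      have e3 : c' ⟨h, Subgroup.mem_top _⟩ = mQ (ρ h) y - (mQ (ρ h) x - x) - y := by
        rw [e1]
        abel
      rw [e3]
      abel)
  refine ⟨y - x + (p : ℚ_[p])⁻¹ • w, fun σ hσ => ?_⟩
  have e := hw σ hσ
  rw [actQ_apply] at e
  have e2 : (p : ℚ_[p]) • (c' σ - (mQ (ρ σ) (y - x) - (y - x))) = mQ (ρ σ) w - w := by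
    rw [← e]
    funext j
    simp
  have e3 : c' σ - (mQ (ρ σ) (y - x) - (y - x)) = (p : ℚ_[p])⁻¹ • (mQ (ρ σ) w - w) := by
    rw [← e2, smul_smul, inv_mul_cancel₀ pQ_ne, one_smul]
  rw [sub_eq_iff_eq_add] at e3
  rw [e3, mQ_add, mQ_smul, smul_sub]
  abel

end Pool.Agent.NH7.GF
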