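import Pool.Agent.NH7.GF.Abs

/-!
# Residual Selmer groups over global function fields: N2, Selmer groups are finite (helper51)
-/

set_option autoImplicit false
set_option linter.unusedSectionVars false

namespace Pool.Agent.NH7.GF

theorem s_sfin : S_sfin := by
  intro p _ M _ G _ _ P d hd T lam
  classical
  obtain ⟨T', hTT, hcl⟩ := hd.cls T
  obtain ⟨B, -, hB⟩ := hd.sun T' hcl
  have hsub : ((d.Sel T lam : Submodule (ZMod p) (G → ZMod p)) : Set (G → ZMod p)) ⊆
      (fun b : M => (d.kp b : G → ZMod p)) '' (B : Set M) := by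
    intro x hx
    obtain ⟨κ, -, hx2, hx3⟩ := d.mem_Sel.1 hx
    obtain ⟨b, hb, s, hs⟩ := hB κ fun v hv => hx2 v fun h => hv (hTT h)
    refine ⟨b, hb, ?_⟩
    funext g
    rw [hx3 g, hs, d.kp_mul, d.kp_ppow, add_zero]
  exact ((B.finite_toSet.image _).subset hsub).to_subtype

end Pool.Agent.NH7.GF
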