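import Pool.Agent.NH7.GF.Fin

/-!
# From representations to Galois modules: definitions and statements

`M` is a module with an action of `G`, divisible by `p`, whose `p`-power torsion is `V / T` for
`V = ℚ_p ^ N` and `T = ℤ_p ^ N` with the action given by `ρ`; for example the points of an abelian
variety over the separable closure of a field of characteristic different from `p`.
Every `def S_... : Prop` is proved in a file of its own, as a theorem `s_... : S_...`.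
-/

set_option autoImplicit false
set_option linter.unusedSectionVars false

namespace Pool.Agent.NH7.GF

open Matrix

section defs

variable {p : ℕ} [hp : Fact p.Prime] {G : Type} [Group G] [TopologicalSpace G] {N : ℕ}

/-- the module `M` is divisible by `p`, and `φ` identifies `V / T` with its `p`-power torsion -/
structure Mo (ρ : G →* Matrix (Fin N) (Fin N) ℤ_[p]) (M : Type) [AddCommGroup M]
    [DistribMulAction G M] (φ : (Fin N → ℚ_[p]) →+ M) : Prop where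
  stab : ∀ m : M, IsOpen {g : G | g • m = m}
  div : ∀ m : M, ∃ m' : M, p • m' = m
  ker : ∀ x, φ x = 0 ↔ ∃ z : Fin N → ℤ_[p], x = cQ z
  tor : ∀ (m : M) (n : ℕ), p ^ n • m = 0 → ∃ x, φ x = m
  eqv : ∀ (g : G) x, φ (mQ (ρ g) x) = g • φ x

variable (M : Type) [AddCommGroup M] [DistribMulAction G M]

/-- the elements fixed by `D` -/
def fx (D : Subgroup G) : AddSubgroup M where
  carrier := {m | ∀ g ∈ D, g • m = m}
  add_mem' := fun {a b} ha hb g hg => by rw [smul_add, ha g hg, hb g hg]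
  zero_mem' := fun g _ => smul_zero g
  neg_mem' := fun {a} ha g hg => by rw [smul_neg, ha g hg]

theorem mem_fx {D : Subgroup G} {m : M} : m ∈ fx M D ↔ ∀ g ∈ D, g • m = m := Iff.rfl

/-- the tensor product of `M ^ D` with `ℚ_p / ℤ_p` is zero -/
def Ld (p : ℕ) (D : Subgroup G) : Prop :=
  ∀ P ∈ fx M D, ∀ n : ℕ, ∃ Q ∈ fx M D, ∃ m : ℕ, p ^ m • (P - p ^ n • Q) = 0

variable {M}

/-- locally constant cocycles on `H` with values in `M` -/
structure CoM (H : Subgroup G) (f : H → M) : Prop where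
  loc : IsLocallyConstant f
  mul : ∀ σ τ : H, f (σ * τ) = f σ + (σ : G) • f τ

/-- the cocycles whose restrictions to the groups in `Ds` are coboundaries -/
structure ShM (Ds : Set (Subgroup G)) (H : Subgroup G) (f : H → M) : Prop where
  coc : CoM H f
  tri : ∀ D ∈ Ds, ∃ m : M, ∀ σ : H, (σ : G) ∈ D → f σ = (σ : G) • m - m

variable (M)

/-- the Tate module of the group of classes whose restrictions to the groups in `Ds` are zero is
zero -/
def TSh (p : ℕ) (Ds : Set (Subgroup G)) (H : Subgroup G) : Prop :=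
  ∀ f : ℕ → H → M, (∀ n, ShM Ds H (f n)) →
    (∃ m : M, ∀ σ : H, f 0 σ = (σ : G) • m - m) →
    (∀ n, ∃ m : M, ∀ σ : H, p • f (n + 1) σ = f n σ + ((σ : G) • m - m)) →
    ∀ n, ∃ m : M, ∀ σ : H, f n σ = (σ : G) • m - m

/-- the continuous cocycles on `H` with values in `V` whose restrictions to the groups in `Ds` are
coboundaries -/
structure LTV (Ds : Set (Subgroup G)) (ρ : G →* Matrix (Fin N) (Fin N) ℤ_[p]) (H : Subgroup G)
    (c : H → Fin N → ℚ_[p]) : Prop where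
  cont : Continuous c
  mul : ∀ σ τ : H, c (σ * τ) = c σ + mQ (ρ σ) (c τ)
  tri : ∀ D ∈ Ds, ∃ x : Fin N → ℚ_[p], ∀ σ : H, (σ : G) ∈ D → c σ = mQ (ρ σ) x - x

/-- the classes on `H` are restrictions of classes on the whole group -/
def Dsc (Ds : Set (Subgroup G)) (ρ : G →* Matrix (Fin N) (Fin N) ℤ_[p]) (H : Subgroup G) : Prop :=
  ∀ c : H → Fin N → ℚ_[p], LTV Ds ρ H c →
    ∃ c' : (⊤ : Subgroup G) → Fin N → ℚ_[p], LTV Ds ρ ⊤ c' ∧ ∃ x : Fin N → ℚ_[p],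
      ∀ (σ : H) (τ : (⊤ : Subgroup G)), (τ : G) = σ → c σ = c' τ + (mQ (ρ σ) x - x)

end defs

/-! ### The statements -/

/-- M1. The Tate module of `M` is `T`. -/
def S_ulim : Prop := ∀ (p : ℕ) [Fact p.Prime] (G : Type) [Group G] [TopologicalSpace G] (N : ℕ)
  (ρ : G →* Matrix (Fin N) (Fin N) ℤ_[p]) (M : Type) [AddCommGroup M] [DistribMulAction G M]
  (φ : (Fin N → ℚ_[p]) →+ M), Mo ρ M φ →
  (∀ m : ℕ → M, m 0 = 0 → (∀ n, p • m (n + 1) = m n) →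
    ∃ z : Fin N → ℤ_[p], ∀ n, φ (((p : ℚ_[p]) ^ n)⁻¹ • cQ z) = m n) ∧
  ∀ (n : ℕ) (z z' : Fin N → ℤ_[p]),
    φ (((p : ℚ_[p]) ^ n)⁻¹ • cQ z) = φ (((p : ℚ_[p]) ^ n)⁻¹ • cQ z') →
      ∀ j, (p : ℤ_[p]) ^ n ∣ z j - z' j

/-- M2. Compatible cocycles with values in `M` come from a cocycle with values in `T`. -/
def S_lft : Prop := ∀ (p : ℕ) [Fact p.Prime] (G : Type) [Group G] [TopologicalSpace G] (N : ℕ)
  (ρ : G →* Matrix (Fin N) (Fin N) ℤ_[p]) (M : Type) [AddCommGroup M] [DistribMulAction G M]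
  (φ : (Fin N → ℚ_[p]) →+ M), Mo ρ M φ → ∀ (H : Subgroup G) (f : ℕ → H → M),
  (∀ n, CoM H (f n)) → (∀ σ, f 0 σ = 0) → (∀ n σ, p • f (n + 1) σ = f n σ) →
    ∃ c : H → Fin N → ℤ_[p], Continuous c ∧
      (∀ σ τ : H, c (σ * τ) = c σ + (ρ σ).mulVec (c τ)) ∧
      ∀ n σ, φ (((p : ℚ_[p]) ^ n)⁻¹ • cQ (c σ)) = f n σ

/-- M3. Approximate solutions of linear equations. -/
def S_cpt : Prop := ∀ (p : ℕ) [Fact p.Prime] (N : ℕ) (D : Type)
  (A : D → Matrix (Fin N) (Fin N) ℤ_[p]) (f : D → Fin N → ℤ_[p]),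
  (∀ n : ℕ, ∃ u : Fin N → ℚ_[p], ∀ g : D, ∃ z : Fin N → ℤ_[p],
    cQ (f g) = mQ (A g) u + (p : ℚ_[p]) ^ n • cQ z) →
  ∃ u : Fin N → ℚ_[p], ∀ g : D, cQ (f g) = mQ (A g) u

/-- M4. Local triviality. -/
def S_lcl : Prop := ∀ (p : ℕ) [Fact p.Prime] (G : Type) [Group G] [TopologicalSpace G] (N : ℕ)
  (ρ : G →* Matrix (Fin N) (Fin N) ℤ_[p]) (M : Type) [AddCommGroup M] [DistribMulAction G M]
  (φ : (Fin N → ℚ_[p]) →+ M), Mo ρ M φ → ∀ D : Subgroup G, Ld M p D →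
  ∀ f : G → Fin N → ℤ_[p], (∀ n : ℕ, ∃ P : M, ∀ g ∈ D,
    φ (((p : ℚ_[p]) ^ n)⁻¹ • cQ (f g)) = g • P - P) →
  ∃ u : Fin N → ℚ_[p], ∀ g ∈ D, cQ (f g) = mQ (ρ g) u - u

/-- M5. Averaging. -/
def S_avg : Prop := ∀ (p : ℕ) [Fact p.Prime] (G : Type) [Group G] (χ : G → ZMod p),
  (∀ g h, χ (g * h) = χ g + χ h) → ∀ (D : Subgroup G) (M : Type) [AddCommGroup M]
  (a : G → M →+ M) (f : G → M), (∀ g ∈ D, ∀ h ∈ D, f (g * h) = f g + a g (f h)) →
  (∀ h ∈ D, χ h = 0 → f h = 0) → ∃ w : M, ∀ g ∈ D, p • f g = a g w - w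

/-- M6. Going up. -/
def S_up : Prop := ∀ (p : ℕ) [Fact p.Prime] (G : Type) [Group G] [TopologicalSpace G]
  [IsTopologicalGroup G] [CompactSpace G] (N : ℕ)
  (ρ : G →* Matrix (Fin N) (Fin N) ℤ_[p]) (M : Type) [AddCommGroup M] [DistribMulAction G M]
  (φ : (Fin N → ℚ_[p]) →+ M), Mo ρ M φ → ∀ (Ds : Set (Subgroup G)) (H : Subgroup G),
  (∀ D ∈ Ds, Ld M p (D ⊓ H)) → Dsc Ds ρ H → TSh M p Ds ⊤ → TSh M p Ds H

/-- M7. Going down. -/
def S_dn : Prop := ∀ (p : ℕ) [Fact p.Prime] (G : Type) [Group G] [TopologicalSpace G]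
  [IsTopologicalGroup G] (χ : G → ZMod p), Continuous χ → (∀ g h, χ (g * h) = χ g + χ h) →
  ∀ (H : Subgroup G), (∀ g, g ∈ H ↔ χ g = 0) → ∀ (M : Type) [AddCommGroup M]
  [DistribMulAction G M] (Ds : Set (Subgroup G)), TSh M p Ds H → TSh M p Ds ⊤

/-- M8. The fixed elements. -/
def S_rk : Prop := ∀ (p : ℕ) [Fact p.Prime] (G : Type) [Group G] [TopologicalSpace G]
  [IsTopologicalGroup G] (N : ℕ)
  (ρ : G →* Matrix (Fin N) (Fin N) ℤ_[p]) (M : Type) [AddCommGroup M] [DistribMulAction G M]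
  (φ : (Fin N → ℚ_[p]) →+ M), Mo ρ M φ → ∀ (Ds : Set (Subgroup G)) (H : Subgroup G) [H.Normal]
  [H.FiniteIndex], (∀ D ∈ Ds, Ld M p (D ⊓ H)) → Dsc Ds ρ H → (fx M H).FG →
  ∀ P ∈ fx M H, ∃ k : ℕ, k ≠ 0 ∧ k • P ∈ fx M (⊤ : Subgroup G)

end Pool.Agent.NH7.GF
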