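import Pool.Agent.NH7.GF.Defs

/-!
# Selmer groups over global function fields: the statements

Every `def S_... : Prop` is proved in a file of its own, as a theorem `s_... : S_...`.
-/

set_option autoImplicit false
set_option linter.unusedSectionVars false

namespace Pool.Agent.NH7.GF

open Pool.Agent.H525R3.FFp

/-! ### L. Local facts -/

/-- L1. Valuation rings of the separable closure above a place. -/
def S_ext : Prop := ∀ (k K : Type) [Field k] [Field K] [Algebra k K] (v : FF.Place k K),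
  ∃ A : ValuationSubring (SeparableClosure K), Ab v A

/-- L2. They are conjugate. -/
def S_cnj : Prop := ∀ (k K : Type) [Field k] [Field K] [Algebra k K] (v : FF.Place k K)
  (A A' : ValuationSubring (SeparableClosure K)), Ab v A → Ab v A' →
    ∃ g : GK K, ∀ x, x ∈ A' ↔ g x ∈ A

/-- L3. Frobenius elements. -/
def S_frb : Prop := ∀ (k K : Type) [Field k] [Finite k] [Field K] [Algebra k K] [FF.IsFF k K]
  (v : FF.Place k K) (A : ValuationSubring (SeparableClosure K)), Ab v A →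
    (∃ φ : GK K, IsFb v A φ) ∧ ∀ φ : GK K, IsFb v A φ → ∀ (p : ℕ) [Fact p.Prime]
      (x : GK K → ZMod p), Hm x → (∀ g ∈ Inr A, x g = 0) → x φ = 0 → ∀ g ∈ Dec A, x g = 0

/-- L4. Kummer characters of elements of order divisible by `p` are unramified. -/
def S_inz : Prop := ∀ (k K : Type) [Field k] [Field K] [Algebra k K] (p : ℕ) [Fact p.Prime] (ζ : K)
  (hζ : IsPrimitiveRoot ζ p) (v : FF.Place k K) (A : ValuationSubring (SeparableClosure K)),
  Ab v A → ∀ κ : Kˣ, (p : ℤ) ∣ v.ord (κ : K) → ∀ g ∈ Inr A, kp hζ κ g = 0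

/-- L5. Unramified Kummer characters. -/
def S_dvd : Prop := ∀ (k K : Type) [Field k] [Finite k] [Field K] [Algebra k K] [FF.IsFF k K]
  (p : ℕ) [Fact p.Prime] (ζ : K)
  (hζ : IsPrimitiveRoot ζ p) (v : FF.Place k K) (A : ValuationSubring (SeparableClosure K)),
  Ab v A → ∀ κ : Kˣ, (∀ g ∈ Inr A, kp hζ κ g = 0) → (p : ℤ) ∣ v.ord (κ : K)

/-- L6. Units whose residue is a `p`-th power. -/
def S_hz : Prop := ∀ (k K : Type) [Field k] [Field K] [Algebra k K] (p : ℕ) [Fact p.Prime] (ζ : K)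
  (hζ : IsPrimitiveRoot ζ p) (v : FF.Place k K) (A : ValuationSubring (SeparableClosure K)),
  Ab v A → ∀ κ : Kˣ, v.ord (κ : K) = 0 → (∃ y : K, v.Reg y ∧ v.red (κ : K) = v.red y ^ p) →
    ∀ g ∈ Dec A, kp hζ κ g = 0

/-- L7. Units whose Kummer character vanishes at a Frobenius element. -/
def S_frp : Prop := ∀ (k K : Type) [Field k] [Finite k] [Field K] [Algebra k K] [FF.IsFF k K]
  (p : ℕ) [Fact p.Prime] (ζ : K)
  (hζ : IsPrimitiveRoot ζ p) (v : FF.Place k K) (A : ValuationSubring (SeparableClosure K)),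
  Ab v A → ∀ φ : GK K, IsFb v A φ → ∀ κ : Kˣ, v.ord (κ : K) = 0 → kp hζ κ φ = 0 →
    ∃ y : K, v.Reg y ∧ v.red (κ : K) = v.red y ^ p

/-- L8. All nontrivial valuation rings are those of places. -/
def S_plc : Prop := ∀ (k K : Type) [Field k] [Finite k] [Field K] [Algebra k K] [FF.IsFF k K],
  (∀ O : ValuationSubring K, O ≠ ⊤ → ∃ v : FF.Place k K, v.O = O) ∧
  ∀ A : ValuationSubring (SeparableClosure K),
    A.comap (algebraMap K (SeparableClosure K)) = ⊤ → A = ⊤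

/-- L9. The kernel of the Kummer pairing. -/
def S_ker : Prop := ∀ (K : Type) [Field K] (p : ℕ) [Fact p.Prime] (ζ : K)
  (hζ : IsPrimitiveRoot ζ p) (κ : Kˣ), (∀ g : GK K, kp hζ κ g = 0) → ∃ s : Kˣ, κ = s ^ p

/-! ### G. Divisor classes and units -/

/-- G1. Finite sets of places generating the class group. -/
def S_cls : Prop := ∀ (k K : Type) [Field k] [Finite k] [Field K] [Algebra k K] [FF.IsFF k K]
  (T : Finset (FF.Place k K)), ∃ T' : Finset (FF.Place k K), T ⊆ T' ∧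
    ∀ n : FF.Place k K →₀ ℤ, ∃ κ : Kˣ, ∀ v ∉ T', n v = v.ord (κ : K)

/-- G2. Units outside `T` modulo `p`-th powers. -/
def S_sun : Prop := ∀ (k K : Type) [Field k] [Finite k] [Field K] [Algebra k K] [FF.IsFF k K]
  (p : ℕ) [Fact p.Prime] (T : Finset (FF.Place k K)),
  (∀ n : FF.Place k K →₀ ℤ, ∃ κ : Kˣ, ∀ v ∉ T, n v = v.ord (κ : K)) →
    ∃ B : Finset Kˣ, B.card ≤ p ^ T.card ∧
      ∀ κ : Kˣ, (∀ v ∉ T, (p : ℤ) ∣ v.ord (κ : K)) → ∃ b ∈ B, ∃ s : Kˣ, κ = b * s ^ p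

/-- G3. The group of local classes. -/
def S_loc : Prop := ∀ (k K : Type) [Field k] [Finite k] [Field K] [Algebra k K] [FF.IsFF k K]
  (p : ℕ) [Fact p.Prime] (ζ : K) (hζ : IsPrimitiveRoot ζ p) (h : Lf k hζ)
  (T : Finset (FF.Place k K)), Finite (Kˣ ⧸ (kdF hζ h).H0 T) ∧
    p ^ (2 * T.card) ≤ Nat.card (Kˣ ⧸ (kdF hζ h).H0 T)

/-! ### Z. Places in classes -/

/-- Z1. Counting effective divisors prime to `T` with a character. -/
def S_ray : Prop := ∀ (k K : Type) [Field k] [Finite k] [Field K] [Algebra k K] [FF.IsFF k K]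
  (T : Finset (FF.Place k K)), T.Nonempty → ∃ (C : ℝ) (δ n₀ : ℕ),
    (DgT k K T).Cnt (Nat.card k) C δ n₀ ∧
    ∀ ψ : FF.Place k K → ℂ, (∀ v, ‖ψ v‖ = 1) →
      (∀ κ ∈ ray T 0, ∏ᶠ v : FF.Place k K, ψ v ^ v.ord ((κ : Kˣ) : K) = 1) →
      (∃ v ∉ T, ψ v ≠ 1) → (DgT k K T).Ntr (Nat.card k) δ fun v => ψ v.1

/-- Z2. The sum over all places. -/
def S_pol : Prop := ∀ (k K : Type) [Field k] [Finite k] [Field K] [Algebra k K] [FF.IsFF k K],
  ∃ B : ℝ, ∀ u : ℝ, 0 < u → u < 1 / Nat.card k →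
    Summable (fun v : FF.Place k K => (v.deg : ℝ) * u ^ v.deg) ∧
    |∑' v : FF.Place k K, (v.deg : ℝ) * u ^ v.deg - 1 / (1 - Nat.card k * u)| ≤ B

/-- Z3. The sum over the places in given classes. -/
def S_cld : Prop := ∀ (k K : Type) [Field k] [Finite k] [Field K] [Algebra k K] [FF.IsFF k K]
  (p : ℕ) [Fact p.Prime] (ζ : K) (hζ : IsPrimitiveRoot ζ p) (h : Lf k hζ), p ≠ 2 →
  ∀ T : Finset (FF.Place k K), T.Nonempty → ∀ H : Subgroup Kˣ, (kdF hζ h).H0 T ≤ H →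
  Finite ((kdF hζ h).Cq T H) → ∀ V : Set ((kdF hζ h).Cq T H),
    ∃ B : ℝ, ∀ u : ℝ, 0 < u → u < 1 / Nat.card k →
      |∑' v : {v : FF.Place k K // v ∉ T ∧ (kdF hζ h).cl T H v ∈ V}, (v.1.deg : ℝ) * u ^ v.1.deg -
        (V.ncard : ℝ) / (Nat.card ((kdF hζ h).Cq T H) : ℝ) * (1 / (1 - Nat.card k * u))| ≤ B

/-- Z4. Adjoining a `p`-th root. -/
def S_ks : Prop := ∀ (k K : Type) [Field k] [Finite k] [Field K] [Algebra k K] [FF.IsFF k K]
  (p : ℕ) [Fact p.Prime] (ζ : K) (_ : IsPrimitiveRoot ζ p) (κ : Kˣ), (¬ ∃ s : Kˣ, κ = s ^ p) →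
  ∃ (K' : Type) (_ : Field K') (_ : Algebra k K') (_ : Algebra K K') (_ : IsScalarTower k K K'),
    FF.IsFF k K' ∧ Module.finrank K K' = p ∧ (∃ b : K', b ^ p = algebraMap K K' κ) ∧
    ∀ v : FF.Place k K, v.ord (κ : K) = 0 → (∃ y : K, v.Reg y ∧ v.red (κ : K) = v.red y ^ p) →
      ∃ w : Fin p → FF.Place k K', Function.Injective w ∧
        ∀ i, FF.Over (w i) v 1 ∧ (w i).deg = v.deg

/-- Z5. Adjoining several `p`-th roots. -/
def S_kt : Prop := ∀ (m : ℕ) (k K : Type) [Field k] [Finite k] [Field K] [Algebra k K]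
  [FF.IsFF k K] (p : ℕ) [Fact p.Prime] (ζ : K) (_ : IsPrimitiveRoot ζ p) (κ : Fin m → Kˣ),
  (∀ e : Fin m → ℤ, (∃ s : Kˣ, ∏ i, κ i ^ e i = s ^ p) → ∀ i, (p : ℤ) ∣ e i) →
  ∃ (K' : Type) (_ : Field K') (_ : Algebra k K') (_ : Algebra K K') (_ : IsScalarTower k K K'),
    FF.IsFF k K' ∧
    ∀ v : FF.Place k K, (∀ i, v.ord (κ i : K) = 0 ∧
      ∃ y : K, v.Reg y ∧ v.red (κ i : K) = v.red y ^ p) →
      ∃ w : Fin (p ^ m) → FF.Place k K', Function.Injective w ∧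
        ∀ i, FF.Over (w i) v 1 ∧ (w i).deg = v.deg

/-- Z6. The density of the places at which a space of Kummer characters vanishes. -/
def S_dns : Prop := ∀ (k K : Type) [Field k] [Finite k] [Field K] [Algebra k K] [FF.IsFF k K]
  (p : ℕ) [Fact p.Prime] (ζ : K) (hζ : IsPrimitiveRoot ζ p) (h : Lf k hζ)
  (T : Finset (FF.Place k K)) (N : Submodule (ZMod p) (GK K → ZMod p)), Finite N →
  (∀ x ∈ N, Hm x) → (∀ x ∈ N, ∀ v ∉ T, ∀ g ∈ (kdF hζ h).I v, x g = 0) →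
    ∃ B : ℝ, ∀ u : ℝ, 0 < u → u < 1 / Nat.card k →
      (Nat.card N : ℝ) * ∑' v : {v : FF.Place k K // v ∉ T ∧ ∀ x ∈ N, x ((kdF hζ h).fr v) = 0},
        (v.1.deg : ℝ) * u ^ v.1.deg ≤ 1 / (1 - Nat.card k * u) + B

/-- Z7. Places with conditions on the Frobenius elements and on the classes. -/
def S_an : Prop := ∀ (k K : Type) [Field k] [Finite k] [Field K] [Algebra k K] [FF.IsFF k K]
  (p : ℕ) [Fact p.Prime] (ζ : K) (hζ : IsPrimitiveRoot ζ p) (h : Lf k hζ), p ≠ 2 →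
  ∀ T : Finset (FF.Place k K), T.Nonempty → ∀ A : Submodule (ZMod p) (GK K → ZMod p), Finite A →
    (∀ x ∈ A, Hm x) → (∀ x ∈ A, ∀ v ∉ T, ∀ g ∈ (kdF hζ h).I v, x g = 0) →
    ∀ B : Submodule (ZMod p) (Module.Dual (ZMod p) A), ∀ H : Subgroup Kˣ,
    (kdF hζ h).H0 T ≤ H → Finite ((kdF hζ h).Cq T H) → ∀ V : Set ((kdF hζ h).Cq T H),
    (Nat.card B : ℝ) / (Nat.card A : ℝ) +
      (V.ncard : ℝ) / (Nat.card ((kdF hζ h).Cq T H) : ℝ) < 1 →
      {v : FF.Place k K | v ∉ T ∧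
        (¬ ∃ f ∈ B, ∀ x : A, (x : GK K → ZMod p) ((kdF hζ h).fr v) = f x) ∧
        (kdF hζ h).cl T H v ∉ V}.Infinite

/-- Z8. Places in a given class. -/
def S_cla : Prop := ∀ (k K : Type) [Field k] [Finite k] [Field K] [Algebra k K] [FF.IsFF k K]
  (p : ℕ) [Fact p.Prime] (ζ : K) (hζ : IsPrimitiveRoot ζ p) (h : Lf k hζ), p ≠ 2 →
  ∀ T : Finset (FF.Place k K), T.Nonempty → ∀ H : Subgroup Kˣ, (kdF hζ h).H0 T ≤ H →
  Finite ((kdF hζ h).Cq T H) → ∀ c : (kdF hζ h).Cq T H,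
    {v : FF.Place k K | v ∉ T ∧ (kdF hζ h).cl T H v = c}.Infinite

end Pool.Agent.NH7.GF
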