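import Pool.Agent.NH7.GF.An

/-!
# GF7-E3: the terms of higher order
-/

set_option autoImplicit false

namespace Pool.Agent.NH7.GF

theorem s_tl (h0 : S_ef) (h1 : S_sm) : S_tl := by
  intro ι D q C δ n₀ hCnt
  have hq : (2 : ℝ) ≤ q := by exact_mod_cast hCnt.hq
  have hq0 : (0 : ℝ) < q := by linarith
  have hq1 : 1 / (q : ℝ) ≤ 1 / 2 := one_div_le_one_div_of_le (by norm_num) hq
  have hqp : 0 < 1 / (q : ℝ) := by positivity
  have hu2 : 1 / (q : ℝ) ^ 2 < 1 / q := by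
    refine one_div_lt_one_div_of_lt hq0 ?_
    nlinarith
  have hs1 : Summable (fun v => (D.d v : ℝ) * (1 / (q : ℝ) ^ 2) ^ D.d v) :=
    (h1 ι D q C δ n₀ hCnt (1 / (q : ℝ) ^ 2) (by positivity) hu2).1
  have hs2 : Summable (fun k : ℕ => (1 / 2 : ℝ) ^ k) :=
    summable_geometric_of_lt_one (by norm_num) (by norm_num)
  have hs3 : Summable (fun x : ι × ℕ => ((D.d x.1 : ℝ) * (1 / (q : ℝ) ^ 2) ^ D.d x.1) * (1 / 2 : ℝ) ^ x.2) :=
    Summable.mul_of_nonneg hs1 hs2 (fun v => by positivity) (fun k => by positivity)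
  refine ⟨∑' x : ι × ℕ, ((D.d x.1 : ℝ) * (1 / (q : ℝ) ^ 2) ^ D.d x.1) * (1 / 2 : ℝ) ^ x.2, ?_⟩
  intro u hu huq
  have hle : ∀ x : ι × ℕ, (D.d x.1 : ℝ) * u ^ ((x.2 + 2) * D.d x.1) ≤
      ((D.d x.1 : ℝ) * (1 / (q : ℝ) ^ 2) ^ D.d x.1) * (1 / 2 : ℝ) ^ x.2 := by
    intro x
    rw [mul_assoc]
    refine mul_le_mul_of_nonneg_left ?_ (Nat.cast_nonneg _)
    have e1 : u ^ ((x.2 + 2) * D.d x.1) ≤ (1 / (q : ℝ)) ^ ((x.2 + 2) * D.d x.1) :=
      pow_le_pow_left₀ hu.le huq.le _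
    have e2 : (1 / (q : ℝ)) ^ ((x.2 + 2) * D.d x.1) =
        (1 / (q : ℝ) ^ 2) ^ D.d x.1 * ((1 / (q : ℝ)) ^ D.d x.1) ^ x.2 := by
      rw [← one_div_pow, ← pow_mul, ← pow_mul, ← pow_add]
      congr 1
      ring
    have e3 : (1 / (q : ℝ)) ^ D.d x.1 ≤ 1 / 2 := by
      have h5 : (1 / (q : ℝ)) ^ D.d x.1 ≤ (1 / (q : ℝ)) ^ 1 :=
        pow_le_pow_of_le_one hqp.le (by linarith) (D.pos x.1)
      rw [pow_one] at h5
      linarith
    refine e1.trans (e2.le.trans ?_)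
    exact mul_le_mul_of_nonneg_left (pow_le_pow_left₀ (by positivity) e3 _) (by positivity)
  have hsum : Summable (fun x : ι × ℕ => (D.d x.1 : ℝ) * u ^ ((x.2 + 2) * D.d x.1)) :=
    Summable.of_nonneg_of_le (fun x => by positivity) hle hs3
  exact ⟨hsum, hsum.tsum_le_tsum hle hs3⟩

end Pool.Agent.NH7.GF
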