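import Pool.Agent.NH7.GF.Sha

/-!
# M1 (helper75): the Tate module of `M` is `T`
-/

set_option autoImplicit false

namespace Pool.Agent.NH7.GF.Ul

open Pool.Agent.NH7.GF

variable {p : ℕ} [hp : Fact p.Prime]

/-- limits of sequences in `ℤ_p` -/
theorem lim1 (a b : ℕ → ℤ_[p]) (h : ∀ n, a (n + 1) - a n = (p : ℤ_[p]) ^ n * b n) :
    ∃ A : ℤ_[p], ∀ n, (p : ℤ_[p]) ^ n ∣ A - a n := by
  have hI : ∀ (n : ℕ) (x : ℤ_[p]), x ∈ (IsLocalRing.maximalIdeal ℤ_[p] ^ n •
      (⊤ : Submodule ℤ_[p] ℤ_[p])) ↔ (p : ℤ_[p]) ^ n ∣ x := by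
    intro n x
    rw [smul_eq_mul, Ideal.mul_top, PadicInt.maximalIdeal_eq_span_p, Ideal.span_singleton_pow,
      Ideal.mem_span_singleton]
  have h2 : ∀ m n : ℕ, m ≤ n → (p : ℤ_[p]) ^ m ∣ a n - a m := by
    intro m n hmn
    obtain ⟨i, rfl⟩ := Nat.exists_eq_add_of_le hmn
    induction i with
    | zero => simp
    | succ i ih =>
      have h3 : a (m + (i + 1)) - a m = (a (m + i + 1) - a (m + i)) + (a (m + i) - a m) := by
        rw [← add_assoc]
        ring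
      rw [h3, h]
      exact dvd_add (Dvd.dvd.mul_right (pow_dvd_pow _ (Nat.le_add_right m i)) _) (ih (by omega))
  obtain ⟨A, hA⟩ := IsPrecomplete.prec' (I := IsLocalRing.maximalIdeal ℤ_[p]) (M := ℤ_[p]) a (by
    intro m n hmn
    rw [SModEq.sub_mem, hI]
    rw [← dvd_neg, neg_sub]
    exact h2 m n hmn)
  refine ⟨A, fun n => ?_⟩
  have h4 := hA n
  rw [SModEq.sub_mem, hI] at h4
  rw [← dvd_neg, neg_sub]
  exact h4

/-- limits of sequences of vectors -/
theorem limN {N : ℕ} (a b : ℕ → Fin N → ℤ_[p]) (h : ∀ n, a (n + 1) - a n = (p : ℤ_[p]) ^ n • b n) :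
    ∃ A : Fin N → ℤ_[p], ∀ n, ∃ v : Fin N → ℤ_[p], A = a n + (p : ℤ_[p]) ^ n • v := by
  choose A hA using fun j => lim1 (fun n => a n j) (fun n => b n j) (fun n => by
    have := congrFun (h n) j
    simpa using this)
  refine ⟨A, fun n => ?_⟩
  choose v hv using fun j => hA j n
  refine ⟨v, ?_⟩
  funext j
  rw [Pi.add_apply, Pi.smul_apply, smul_eq_mul, ← hv j]
  ring

end Pool.Agent.NH7.GF.Ul

namespace Pool.Agent.NH7.GF

open Ul

theorem s_ulim : S_ulim := by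
  intro p _ G _ _ N ρ M _ _ φ hM
  have hp0 : (p : ℚ_[p]) ≠ 0 := Nat.cast_ne_zero.2 (Fact.out : p.Prime).ne_zero
  have hpn : ∀ n : ℕ, (p : ℚ_[p]) ^ n ≠ 0 := fun n => pow_ne_zero n hp0
  refine ⟨fun m h0 hm => ?_, fun n z z' h j => ?_⟩
  · have hz : ∀ n, p ^ n • m n = 0 := by
      intro n
      induction n with
      | zero => rw [h0, smul_zero]
      | succ n ih => rw [pow_succ, mul_smul, hm, ih]
    choose x hx using fun n => hM.tor (m n) n (hz n)
    have hw' : ∀ n, ∃ w : Fin N → ℤ_[p], p • x (n + 1) - x n = cQ w := by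
      intro n
      refine (hM.ker _).1 ?_
      rw [map_sub, map_nsmul, hx, hx, hm, sub_self]
    have hz' : ∀ n, ∃ z : Fin N → ℤ_[p], p ^ n • x n = cQ z := by
      intro n
      refine (hM.ker _).1 ?_
      rw [map_nsmul, hx, hz]
    choose w hw using hw'
    choose z hzz using hz'
    have hs : ∀ (n : ℕ) (v : Fin N → ℚ_[p]), p ^ n • v = (p : ℚ_[p]) ^ n • v := by
      intro n v
      rw [← Nat.cast_smul_eq_nsmul ℚ_[p], Nat.cast_pow]
    have hstep : ∀ n, z (n + 1) - z n = (p : ℤ_[p]) ^ n • w n := by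
      intro n
      apply cQ_inj
      rw [cQ_sub, cQ_smul, ← hzz, ← hzz, ← hw, ← hs, smul_sub, pow_succ, mul_smul]
    obtain ⟨Z, hZ⟩ := limN z w hstep
    refine ⟨Z, fun n => ?_⟩
    obtain ⟨v, hv⟩ := hZ n
    rw [hv, cQ_add, cQ_smul, ← hzz, hs, smul_add, smul_smul, smul_smul, inv_mul_cancel₀ (hpn n),
      one_smul, one_smul, map_add, hx, (hM.ker (cQ v)).2 ⟨v, rfl⟩, add_zero]
  · have h1 : φ (((p : ℚ_[p]) ^ n)⁻¹ • cQ (z - z')) = 0 := by
      rw [cQ_sub, smul_sub, map_sub, h, sub_self]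
    obtain ⟨w, hw⟩ := (hM.ker _).1 h1
    have h2 : z - z' = (p : ℤ_[p]) ^ n • w := by
      apply cQ_inj
      rw [cQ_smul, ← hw, smul_smul, mul_inv_cancel₀ (hpn n), one_smul]
    exact ⟨w j, by
      have := congrFun h2 j
      simpa using this⟩

end Pool.Agent.NH7.GF
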