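import Pool.Agent.NH7.GF.Sha

/-!
# Going up (M6)
-/

set_option autoImplicit false

namespace Pool.Agent.NH7.GF

open Matrix

namespace Up

section basic

variable {p : ℕ} [hp : Fact p.Prime] {N : ℕ}

theorem nsmul_pow (k : ℕ) (v : Fin N → ℚ_[p]) : (p ^ k : ℕ) • v = (p : ℚ_[p]) ^ k • v := by
  rw [← Nat.cast_smul_eq_nsmul ℚ_[p], Nat.cast_pow]

theorem pinv (n k : ℕ) (v : Fin N → ℚ_[p]) :
    (p : ℚ_[p]) ^ k • (((p : ℚ_[p]) ^ (n + k))⁻¹ • v) = ((p : ℚ_[p]) ^ n)⁻¹ • v := by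
  have h : (p : ℚ_[p]) ≠ 0 := pQ_ne
  rw [smul_smul]
  congr 1
  field_simp
  ring

theorem mQ_sub' (A : Matrix (Fin N) (Fin N) ℤ_[p]) (x y : Fin N → ℚ_[p]) :
    mQ A (x - y) = mQ A x - mQ A y := by
  unfold mQ
  rw [Matrix.mulVec_sub]

end basic

section mod

variable {p : ℕ} [hp : Fact p.Prime] {G : Type} [Group G] [TopologicalSpace G] {N : ℕ}
  {ρ : G →* Matrix (Fin N) (Fin N) ℤ_[p]} {M : Type} [AddCommGroup M] [DistribMulAction G M]
  {φ : (Fin N → ℚ_[p]) →+ M}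

theorem pow_phi (k : ℕ) (v : Fin N → ℚ_[p]) : (p ^ k : ℕ) • φ v = φ ((p : ℚ_[p]) ^ k • v) := by
  rw [← map_nsmul, nsmul_pow]

/-- `φ (p^-n z)` depends on `z` modulo `p^n` only -/
theorem phi_loc (h : Mo ρ M φ) (n : ℕ) :
    IsLocallyConstant fun z : Fin N → ℤ_[p] => φ (((p : ℚ_[p]) ^ n)⁻¹ • cQ z) := by
  rw [IsLocallyConstant.iff_eventually_eq]
  intro x
  have hpos : (0 : ℝ) < (p : ℝ) ^ (-(n : ℤ)) := by
    have : (0 : ℝ) < p := by exact_mod_cast hp.out.pos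
    positivity
  filter_upwards [Metric.ball_mem_nhds x hpos] with y hy
  have h1 : ∀ j, ∃ w : ℤ_[p], y j - x j = (p : ℤ_[p]) ^ n * w := by
    intro j
    have h2 : ‖y j - x j‖ ≤ (p : ℝ) ^ (-(n : ℤ)) := by
      rw [← dist_eq_norm]
      exact ((dist_le_pi_dist y x j).trans_lt hy).le
    rw [PadicInt.norm_le_pow_iff_mem_span_pow, Ideal.mem_span_singleton] at h2
    exact h2
  choose w hw using h1
  have h3 : cQ y = cQ x + (p : ℚ_[p]) ^ n • cQ w := by
    rw [← cQ_smul, ← cQ_add]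
    congr 1
    funext j
    have := hw j
    simp only [Pi.add_apply, Pi.smul_apply, smul_eq_mul]
    linear_combination this
  have h4 : φ (cQ w) = 0 := (h.ker _).2 ⟨w, rfl⟩
  have h5 : ((p : ℚ_[p]) ^ n)⁻¹ • ((p : ℚ_[p]) ^ n • cQ w) = cQ w :=
    inv_smul_smul₀ (pow_ne_zero _ pQ_ne) _
  rw [h3, smul_add, map_add, h5, h4, add_zero]

variable [IsTopologicalGroup G]

/-- orbit maps are locally constant -/
theorem orb_loc (h : Mo ρ M φ) (H : Subgroup G) (m : M) :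
    IsLocallyConstant fun σ : H => (σ : G) • m := by
  rw [IsLocallyConstant.iff_eventually_eq]
  intro σ
  have h1 : IsOpen {g : G | g • m = m} := h.stab m
  have h2 : Continuous fun τ : H => (σ : G)⁻¹ * (τ : G) :=
    continuous_const.mul continuous_subtype_val
  have h3 := (h1.preimage h2).mem_nhds (x := σ) (by
    show ((σ : G)⁻¹ * (σ : G)) • m = m
    rw [inv_mul_cancel, one_smul])
  filter_upwards [h3] with τ hτ
  have h4 : ((σ : G)⁻¹ * (τ : G)) • m = m := hτ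
  rw [mul_smul] at h4
  calc (τ : G) • m = (σ : G) • ((σ : G)⁻¹ • ((τ : G) • m)) := by rw [smul_inv_smul]
    _ = (σ : G) • m := by rw [h4]

theorem cob_com (h : Mo ρ M φ) (H : Subgroup G) {f : H → M} (hf : CoM H f) (a : M) :
    CoM H fun σ => f σ - ((σ : G) • a - a) := by
  refine ⟨?_, fun σ τ => ?_⟩
  · have h1 := orb_loc h H a
    have h2 : IsLocallyConstant fun σ : H => (f σ, (σ : G) • a) := hf.loc.prodMk h1
    exact h2.comp fun q : M × M => q.1 - (q.2 - a)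
  · rw [hf.mul, Subgroup.coe_mul, mul_smul, smul_sub, smul_sub]
    abel

end mod

end Up

open Up in
theorem s_up (h2 : S_lft) (h4 : S_lcl) (hint : Pool.Agent.NH7.BK.S_int) : S_up := by
  intro p _ G _ _ _ _ N ρ M _ _ φ hM Ds H hLd hD hT f hf h0 hs
  -- step 1
  obtain ⟨m0, hm0⟩ := h0
  choose mm hmm using hs
  choose dv hdv using hM.div
  let a : ℕ → M := fun n => Nat.rec m0 (fun n b => dv (mm n + b)) n
  have ha0 : a 0 = m0 := rfl
  have has : ∀ n, p • a (n + 1) = mm n + a n := fun n => hdv _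
  let g : ℕ → H → M := fun n σ => f n σ - ((σ : G) • a n - a n)
  have hgC : ∀ n, CoM H (g n) := fun n => cob_com hM H (hf n).coc (a n)
  have hg0 : ∀ σ, g 0 σ = 0 := fun σ => by
    show f 0 σ - ((σ : G) • a 0 - a 0) = 0
    rw [ha0, hm0, sub_self]
  have hgs : ∀ n σ, p • g (n + 1) σ = g n σ := fun n σ => by
    show p • (f (n + 1) σ - ((σ : G) • a (n + 1) - a (n + 1))) = f n σ - ((σ : G) • a n - a n)
    have e : p • ((σ : G) • a (n + 1)) = (σ : G) • (mm n + a n) := by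
      rw [← has]
      exact (map_nsmul (DistribSMul.toAddMonoidHom M (σ : G)) p (a (n + 1))).symm
    rw [nsmul_sub, nsmul_sub, e, has, hmm, smul_add]
    abel
  -- step 2
  obtain ⟨c, hcc, hcm, hcg⟩ := h2 p G N ρ M φ hM H g hgC hg0 hgs
  -- step 3
  have hL : LTV Ds ρ H fun σ => cQ (c σ) := by
    refine ⟨cQ_cont.comp hcc, fun σ τ => ?_, fun D hDD => ?_⟩
    · beta_reduce
      rw [hcm, cQ_add, cQ_mul]
    · classical
      have h5 := h4 p G N ρ M φ hM (D ⊓ H) (hLd D hDD)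
        (fun x => if h : x ∈ H then c ⟨x, h⟩ else 0) (fun n => by
          obtain ⟨m, hm⟩ := (hf n).tri D hDD
          refine ⟨m - a n, fun x hx => ?_⟩
          have hxH : x ∈ H := hx.2
          rw [dif_pos hxH, hcg]
          show f n ⟨x, hxH⟩ - (x • a n - a n) = x • (m - a n) - (m - a n)
          rw [hm ⟨x, hxH⟩ hx.1, smul_sub]
          abel)
      obtain ⟨u, hu⟩ := h5
      refine ⟨u, fun σ hσ => ?_⟩
      have h6 := hu σ ⟨hσ, σ.2⟩
      rw [dif_pos σ.2] at h6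
      exact h6
  -- step 4
  obtain ⟨c', hc', x, hx⟩ := hD _ hL
  -- step 5
  have : CompactSpace (⊤ : Subgroup G) := by
    have : IsCompact ((⊤ : Subgroup G) : Set G) := by
      rw [Subgroup.coe_top]
      exact isCompact_univ
    exact isCompact_iff_compactSpace.1 this
  obtain ⟨k, F, hF, hFc⟩ := hint p N (⊤ : Subgroup G) c' hc'.cont
  have hFc' : ∀ τ, cQ (F τ) = (p : ℚ_[p]) ^ k • c' τ := fun τ => by
    funext j
    exact hFc τ j
  have hR := hT (fun n τ => φ (((p : ℚ_[p]) ^ n)⁻¹ • cQ (F τ))) (fun n => by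
    refine ⟨⟨(phi_loc hM n).comp_continuous hF, fun σ τ => ?_⟩, fun D hDD => ?_⟩
    · beta_reduce
      rw [hFc', hFc', hFc', hc'.mul, smul_add, smul_add, map_add, ← hM.eqv, mQ_smul, mQ_smul]
    · obtain ⟨y, hy⟩ := hc'.tri D hDD
      refine ⟨φ (((p : ℚ_[p]) ^ n)⁻¹ • ((p : ℚ_[p]) ^ k • y)), fun σ hσ => ?_⟩
      beta_reduce
      rw [hFc', hy σ hσ, smul_sub, smul_sub, map_sub, ← hM.eqv, mQ_smul, mQ_smul])
    ⟨0, fun τ => by
      rw [smul_zero, sub_zero, pow_zero, inv_one, one_smul]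
      exact (hM.ker _).2 ⟨F τ, rfl⟩⟩
    (fun n => ⟨0, fun τ => by
      rw [smul_zero, sub_zero, add_zero]
      have := pow_phi (φ := φ) 1 (((p : ℚ_[p]) ^ (n + 1))⁻¹ • cQ (F τ))
      rw [pow_one, pinv] at this
      exact this⟩)
  -- step 6
  have hk : ∀ n, ∃ m : M, ∀ σ : H, p ^ k • g n σ = (σ : G) • m - m := fun n => by
    obtain ⟨R, hR⟩ := hR n
    refine ⟨R + φ (((p : ℚ_[p]) ^ n)⁻¹ • ((p : ℚ_[p]) ^ k • x)), fun σ => ?_⟩
    have e1 := hR ⟨(σ : G), Subgroup.mem_top _⟩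
    have e2 := hx σ ⟨(σ : G), Subgroup.mem_top _⟩ rfl
    rw [← hcg, pow_phi, smul_comm, e2, smul_add, smul_add, ← hFc', map_add]
    have e3 : φ (((p : ℚ_[p]) ^ n)⁻¹ • cQ (F ⟨(σ : G), Subgroup.mem_top _⟩)) = (σ : G) • R - R := e1
    rw [e3, smul_sub, smul_sub, map_sub, ← mQ_smul, ← mQ_smul, hM.eqv, smul_add]
    abel
  have hit : ∀ j n σ, p ^ j • g (n + j) σ = g n σ := by
    intro j
    induction j with
    | zero => intro n σ; rw [pow_zero, one_smul, add_zero]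
    | succ j ih =>
      intro n σ
      rw [pow_succ, mul_smul, ← add_assoc, hgs, ih]
  intro n
  obtain ⟨m, hm⟩ := hk (n + k)
  refine ⟨m + a n, fun σ => ?_⟩
  have e1 : g n σ = (σ : G) • m - m := by rw [← hit k n σ, hm]
  have e2 : f n σ = g n σ + ((σ : G) • a n - a n) := by
    show f n σ = f n σ - ((σ : G) • a n - a n) + ((σ : G) • a n - a n)
    abel
  rw [e2, e1, smul_add]
  abel

end Pool.Agent.NH7.GF
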